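import Pool.Agent.HGP.TargetsF
import Pool.Agent.HGP.P_ADD
import Pool.Agent.HGP.P_ASM
import Pool.Agent.HGP.P_AW
import Pool.Agent.HGP.P_C0T
import Pool.Agent.HGP.P_CAT
import Pool.Agent.HGP.P_CF
import Pool.Agent.HGP.P_DECL
import Pool.Agent.HGP.P_DECR
import Pool.Agent.HGP.P_DEN
import Pool.Agent.HGP.P_EV
import Pool.Agent.HGP.P_EXP
import Pool.Agent.HGP.P_GNSX
import Pool.Agent.HGP.P_HAA
import Pool.Agent.HGP.P_KGA
import Pool.Agent.HGP.P_KGB
import Pool.Agent.HGP.P_LC
import Pool.Agent.HGP.P_LEN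
import Pool.Agent.HGP.P_LNX
import Pool.Agent.HGP.P_MOV
import Pool.Agent.HGP.P_POS
import Pool.Agent.HGP.P_PQ
import Pool.Agent.HGP.P_RTP
import Pool.Agent.HGP.P_SP
import Pool.Agent.HGP.P_SYS
import Pool.Agent.HGP.P_TREE
import Pool.Agent.HGP.P_UNV
import Pool.Agent.HGP.P_WI
import Pool.Agent.HGP.P_WP

/-!
# HGP2: facts of the project HGP, all proved, and elementary facts on square summable families
-/

open scoped InnerProductSpace ENNReal
open HGP HNNExtension HNNExtension.NormalWord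

namespace HGQ

noncomputable section

/-! ## Facts proved in HGP -/

theorem kLEN : T_LEN := p_LEN
theorem kLN : T_LN := LNX kLEN
theorem kCAT : T_CAT := p_CAT kLEN kLN
theorem kTREE : T_TREE := p_TREE kCAT kLN
theorem kDECL : T_DECL := p_DECL kLEN
theorem kDECR : T_DECR := p_DECR kDECL kLN
theorem kEV : T_EV := p_EV
theorem kWP : T_WP := p_WP kLEN kLN
theorem kWI : T_WI := p_WI
theorem kSYS : T_SYS := p_SYS kEV
theorem kSP : T_SP := p_SP kWP kWI kLN kDECL
theorem kPOS : T_POS := p_POS kSP kTREE kDECL kLN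
theorem kLC : T_LC := p_LC kSP kDECR kLN
theorem kGNS : T_GNS := GNSX
theorem kDEN : T_DEN := p_DEN
theorem kPQ : T_PQ := p_PQ
theorem kC0T : T_C0T := p_C0T kDEN
theorem kCF : T_CF := p_CF
theorem kAW : T_AW := p_AW
theorem kKGA : T_KGA := p_KGA kSP
theorem kKGB : T_KGB := p_KGB kDEN kPQ
theorem kHAA : T_HAA := p_HAA
theorem kADD : T_ADD := p_ADD
theorem kSVT : T_SVT := p_SVT
theorem kCNT : T_CNT := p_CNT
theorem kMOV : T_MOV := p_MOV
theorem kRTP : T_RTP := p_RTP
theorem kEXP : T_EXP := p_EXP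

/-! ## Square summable families -/

open Classical in
/-- the square summable family with the given values (zero if they are not square summable) -/
def toL {J : Type} (f : J → ℝ) : L2 J ℝ :=
  if h : Memℓp (E := fun _ : J => ℝ) f 2 then ⟨f, h⟩ else 0

lemma toL_apply {J : Type} {f : J → ℝ} (h : Summable fun j => f j ^ 2) (j : J) :
    toL f j = f j := by
  have h' : Memℓp (E := fun _ : J => ℝ) f 2 := by
    rw [mem2]
    simpa using h
  unfold toL
  rw [dif_pos h']

lemma toL_coe {J : Type} (x : L2 J ℝ) : toL (fun j => x j) = x := by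
  ext j
  refine toL_apply ?_ j
  simpa using summable_sq_lp x

lemma norm_sq_L {J : Type} (x : L2 J ℝ) : ‖x‖ ^ 2 = ∑' j, x j ^ 2 := by
  rw [norm_sq_lp]
  simp

lemma summable_L {J : Type} (x : L2 J ℝ) : Summable fun j => x j ^ 2 := by
  simpa using summable_sq_lp x

end

end HGQ
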