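import Pool.Agent.HGP2.Base

/-!
# HGP2: models, operators, the property (M), the classes of groups and relators
-/

open scoped InnerProductSpace ENNReal
open HGP HNNExtension HNNExtension.NormalWord

namespace HGQ

noncomputable section

/-! ## Models: square summable families on `ℤ × I` with the shift `S1 I` of the first coordinate -/

/-- contraction commuting with the shifts -/
structure Cm {I I' : Type} (U : L2 (ℤ × I) ℝ →L[ℝ] L2 (ℤ × I') ℝ) : Prop where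
  norm : ‖U‖ ≤ 1
  comm : ∀ x, U (S1 I x) = S1 I' (U x)

/-- `M` can be moved to a vector near `M'` by a contraction commuting with the shifts -/
def Rd {I I' : Type} (M : L2 (ℤ × I) ℝ) (M' : L2 (ℤ × I') ℝ) (ε : ℝ) : Prop :=
  ∃ U : L2 (ℤ × I) ℝ →L[ℝ] L2 (ℤ × I') ℝ, Cm U ∧ ‖U M - M'‖ ≤ ε

/-- orthogonal direct sum of the families `√(v k) • M k` -/
def bs {K : Type} {I : K → Type} (v : K → ℝ) (M : ∀ k, L2 (ℤ × I k) ℝ) :
    L2 (ℤ × (Σ k, I k)) ℝ :=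
  toL (fun q => Real.sqrt (v q.2.1) * M q.2.1 (q.1, q.2.2))

/-- one geometric mode of weight `w` and ratio `ρ` -/
def gm (w ρ : ℝ) (m : ℤ) : ℝ :=
  if 1 ≤ m then Real.sqrt w * Real.sqrt (1 - ρ ^ 2) * ρ ^ (m - 1).toNat else 0

/-- mixtures of geometric modes: weights `w`, ratios `ρ` -/
structure Mx where
  I : Type
  w : I → ℝ
  ρ : I → ℝ

/-- weights form a probability vector, ratios between `lo` and `hi < 1` -/
structure Mx.Ok (Q : Mx) (lo hi : ℝ) : Prop where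
  nn : ∀ i, 0 ≤ Q.w i
  sum : HasSum Q.w 1
  pos : ∀ i, 0 < Q.ρ i
  lb : ∀ i, lo < Q.ρ i
  ub : ∀ i, Q.ρ i ≤ hi
  one : hi < 1

/-- the vector of a mixture -/
def Mx.md (Q : Mx) : L2 (ℤ × Q.I) ℝ := toL (fun q => gm (Q.w q.2) (Q.ρ q.2) q.1)

/-- the mixture with the ratios replaced by their `ℓ`-th powers -/
def Mx.pw (Q : Mx) (ℓ : ℕ) : Mx := ⟨Q.I, Q.w, fun i => Q.ρ i ^ ℓ⟩

/-- mixture of mixtures -/
def Mx.sm {K : Type} (v : K → ℝ) (Q : K → Mx) : Mx :=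
  ⟨Σ k, (Q k).I, fun q => v q.1 * (Q q.1).w q.2, fun q => (Q q.1).ρ q.2⟩

/-- the mixture with one mode -/
def Mx.one1 (ρ : ℝ) : Mx := ⟨Unit, fun _ => 1, fun _ => ρ⟩

/-- one mode -/
def f1 (ρ : ℝ) : L2 (ℤ × Unit) ℝ := (Mx.one1 ρ).md

/-- slowly varying mixtures: `ρ ^ ℓ` is as good as `ρ` for `ℓ ≤ L` -/
def Slow (Q : Mx) (L : ℕ) (ε : ℝ) : Prop :=
  ∀ ℓ : ℕ, 1 ≤ ℓ → ℓ ≤ L → Rd (Q.pw ℓ).md Q.md ε

/-! ## Operators localising along an infinite cyclic subgroup -/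

section op

variable {G : Type} [Group G] {E : Type} [NormedAddCommGroup E] [InnerProductSpace ℝ E]

/-- contraction from a representation to `L2 (ℤ × I) ℝ`, moving `c` to the shift, with decay along
the cosets of `⟨c⟩` -/
structure Op {I : Type} (π : G →* (E ≃ₗᵢ[ℝ] E)) (c : G) (C : E →L[ℝ] L2 (ℤ × I) ℝ) : Prop where
  norm : ‖C‖ ≤ 1
  comm : ∀ u, C (π c u) = S1 I (C u)
  dec : ∀ (u : E) (δ : ℝ), 0 < δ → ∃ T : Finset G, ∀ g : G, δ ≤ ‖C (π g u)‖ →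
    ∃ m : ℤ, ∃ x ∈ T, g = c ^ m * x

/-- the vector `ξ` looks like `M` along `⟨c⟩` -/
def Lc {I : Type} (π : G →* (E ≃ₗᵢ[ℝ] E)) (c : G) (ξ : E) (M : L2 (ℤ × I) ℝ) (ε : ℝ) : Prop :=
  ∃ C : E →L[ℝ] L2 (ℤ × I) ℝ, Op π c C ∧ ‖C ξ - M‖ ≤ ε

end op

/-! ## The property (M) -/

/-- an almost invariant unit vector in a `C_0` representation which looks like `M` along `⟨c⟩` for all
`c` in `l` -/
def Data (G : Type) [Group G] (l : List G) (S : Finset G) (ε : ℝ) {I : Type}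
    (M : L2 (ℤ × I) ℝ) : Prop :=
  ∃ (E : Type) (_ : NormedAddCommGroup E) (_ : InnerProductSpace ℝ E) (_ : CompleteSpace E)
    (π : G →* (E ≃ₗᵢ[ℝ] E)) (ξ : E), C0 π ∧ ‖ξ‖ = 1 ∧ (∀ s ∈ S, ‖π s ξ - ξ‖ ≤ ε) ∧
      ∀ c ∈ l, Lc π c ξ M ε

/-- the property (M) for a list of elements: one slow mixture for all elements of the list -/
def MF (G : Type) [Group G] (l : List G) : Prop :=
  ∀ (S : Finset G) (L : ℕ) (ε : ℝ), 0 < ε →
    ∃ (Q : Mx) (hi : ℝ), Q.Ok (1 - ε) hi ∧ Slow Q L ε ∧ Data G l S ε Q.md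

/-- the property (M) of a group -/
def Good (G : Type) [Group G] : Prop :=
  ∀ l : List G, (∀ c ∈ l, ¬ IsOfFinOrder c) → MF G l

/-- two kinds of elements: along those of `le` the vector looks like a slow mixture independent
of `r`, along those of `lh` it looks like one mode of ratio `r ^ ℓ g` -/
def TL (G : Type) [Group G] (le lh : List G) (ℓ : G → ℕ) : Prop :=
  ∀ (S : Finset G) (ε : ℝ), 0 < ε → ∃ δ : ℝ, 0 < δ ∧ δ ≤ 1 ∧ ∀ ρ1 : ℝ, ρ1 < 1 →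
    ∀ (L : ℕ) (η : ℝ), 0 < η → ∃ (Q : Mx) (hi : ℝ), Q.Ok (1 - η) hi ∧ Slow Q L η ∧
      ∀ r : ℝ, 1 - δ < r → r ≤ ρ1 →
        ∃ (E : Type) (_ : NormedAddCommGroup E) (_ : InnerProductSpace ℝ E)
          (_ : CompleteSpace E) (π : G →* (E ≃ₗᵢ[ℝ] E)) (ξ : E), C0 π ∧ ‖ξ‖ = 1 ∧
          (∀ s ∈ S, ‖π s ξ - ξ‖ ≤ ε) ∧ (∀ c ∈ le, Lc π c ξ Q.md ε) ∧
          ∀ g ∈ lh, Lc π g ξ (f1 (r ^ ℓ g)) ε

/-- link between two mixtures: `Q` along `lh`, `Q'` along `le` -/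
def LK (G : Type) [Group G] (le lh : List G) (S : Finset G) (ε : ℝ) (Q Q' : Mx) : Prop :=
  ∃ (E : Type) (_ : NormedAddCommGroup E) (_ : InnerProductSpace ℝ E) (_ : CompleteSpace E)
    (π : G →* (E ≃ₗᵢ[ℝ] E)) (ξ : E), C0 π ∧ ‖ξ‖ = 1 ∧ (∀ s ∈ S, ‖π s ξ - ξ‖ ≤ ε) ∧
      (∀ c ∈ le, Lc π c ξ Q'.md ε) ∧ ∀ g ∈ lh, Lc π g ξ Q.md ε

/-! ## HNN extensions -/

section hnn

variable {H : Type} [Group H] {A B : Subgroup H} (φ : A ≃* B)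

/-- hyperbolic and cyclically reduced -/
def CR (g : HNNExtension H A B φ) : Prop :=
  1 ≤ len φ g ∧ ∀ m : ℤ, len φ (g ^ m) = m.natAbs * len φ g

/-- operators for the edge groups -/
structure EV {E : Type} [NormedAddCommGroup E] [InnerProductSpace ℝ E] [CompleteSpace E]
    (π : H →* (E ≃ₗᵢ[ℝ] E)) (V : E →L[ℝ] E) (ξ : E) (ε : ℝ) : Prop where
  norm : ‖V‖ ≤ 1
  tw : ∀ (a : A) (u : E), V (π (a : H) u) = π (φ a : H) (V u)
  dec : ∀ (u : E) (δ : ℝ), 0 < δ → ∃ T : Finset H, ∀ h : H, δ ≤ ‖V (π h u)‖ →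
    ∃ a ∈ A, ∃ x ∈ T, h = a * x
  decS : ∀ (u : E) (δ : ℝ), 0 < δ → ∃ T : Finset H, ∀ h : H,
    δ ≤ ‖ContinuousLinearMap.adjoint V (π h u)‖ → ∃ b ∈ B, ∃ x ∈ T, h = b * x
  inv : ‖V ξ - ξ‖ ≤ ε
  invS : ‖ContinuousLinearMap.adjoint V ξ - ξ‖ ≤ ε

end hnn

/-! ## Semidirect products with the integers -/

section zed

variable {N : Type} [Group N] (φ : Multiplicative ℤ →* MulAut N)
  {E : Type} [NormedAddCommGroup E] [InnerProductSpace ℝ E]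

/-- the induced representation `(n, t^k) f (j) = π (t^{-j} n t^j) (f (j - k))` -/
def ZR (π : N →* (E ≃ₗᵢ[ℝ] E)) (R : (N ⋊[φ] Multiplicative ℤ) →* (L2 ℤ E ≃ₗᵢ[ℝ] L2 ℤ E)) :
    Prop :=
  ∀ (n : N) (k : ℤ) (f : L2 ℤ E) (j : ℤ), R ⟨n, Multiplicative.ofAdd k⟩ f j =
    π (φ (Multiplicative.ofAdd (-j)) n) (f (j - k))

/-- the geometric family on the nonnegative integers -/
def zv (r : ℝ) : L2 ℤ ℝ :=
  toL (fun j => if 0 ≤ j then Real.sqrt (1 - r ^ 2) * r ^ j.toNat else 0)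

end zed

/-! ## Groups with axial actions -/

/-- `G` acts on a set with a conditionally negative definite kernel with values in the natural
numbers, properly, and every element of infinite order has an axis -/
def Ax (G : Type) [Group G] : Prop :=
  ∃ (X : Type) (_ : MulAction G X) (x₀ : X) (d : X → X → ℕ), (∀ x, d x x = 0) ∧
    (∀ x y, d x y = d y x) ∧ (∀ (g : G) (x y : X), d (g • x) (g • y) = d x y) ∧
    (∀ (n : ℕ) (x : Fin n → X) (c : Fin n → ℝ), ∑ i, c i = 0 →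
      ∑ i, ∑ j, c i * c j * (d (x i) (x j) : ℝ) ≤ 0) ∧
    (∀ R : ℕ, {g : G | d (g • x₀) x₀ ≤ R}.Finite) ∧
    ∀ c : G, ¬ IsOfFinOrder c → ∃ (x : X) (ℓ : ℕ), 1 ≤ ℓ ∧
      ∀ n : ℤ, d (c ^ n • x) x = ℓ * n.natAbs

/-! ## Classes of groups and relators -/

/-- the class of groups -/
inductive Cyc : (G : Type) → [Group G] → Prop
  /-- groups with an axial proper action; in particular all finite groups -/
  | axial (G : Type) [Group G] : Ax G → Cyc G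
  /-- homomorphisms with finite kernel, in particular subgroups -/
  | pull (G G' : Type) [Group G] [Group G'] (f : G →* G') : Finite f.ker → Cyc G' → Cyc G
  /-- directed unions -/
  | union (G : Type) [Group G] (H : Finset G → Type) [∀ S, Group (H S)]
      (f : ∀ S, H S →* G) : (∀ S, Function.Injective (f S)) → (∀ S, ∀ s ∈ S, s ∈ (f S).range) →
      (∀ S, Cyc (H S)) → Cyc G
  /-- extensions by the integers -/
  | ext (N : Type) [Group N] (φ : Multiplicative ℤ →* MulAut N) : Cyc N →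
      Cyc (N ⋊[φ] Multiplicative ℤ)
  /-- HNN extensions with finite or cyclic edge groups -/
  | hnn (H : Type) [Group H] (A B : Subgroup H) (φ : A ≃* B) : (Finite A ∨ IsCyclic A) →
      Cyc H → Cyc (HNNExtension H A B φ)

/-- the words in the letters of `J` -/
def Ls {n : ℕ} (J : Set (Fin n)) : Subgroup (FreeGroup (Fin n)) :=
  Subgroup.closure (FreeGroup.of '' J)

/-- the class of relators -/
inductive Rel : (n : ℕ) → FreeGroup (Fin n) → Prop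
  | cyc (n : ℕ) (r : FreeGroup (Fin n)) : Cyc (OR r) → Rel n r
  /-- one letter occurs once -/
  | once (n : ℕ) (j : Fin n) (u v : FreeGroup (Fin n)) : u ∈ Ls {j}ᶜ → v ∈ Ls {j}ᶜ →
      Rel n (u * FreeGroup.of j * v)
  /-- one letter occurs twice, with opposite exponents -/
  | opp (n : ℕ) (j : Fin n) (u v : FreeGroup (Fin n)) : u ∈ Ls {j}ᶜ → v ∈ Ls {j}ᶜ → u ≠ 1 →
      v ≠ 1 → Rel n (FreeGroup.of j * u * (FreeGroup.of j)⁻¹ * v)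
  /-- one letter occurs twice, with equal exponents -/
  | same (n : ℕ) (j : Fin n) (u v : FreeGroup (Fin n)) : u ∈ Ls {j}ᶜ → v ∈ Ls {j}ᶜ → u ≠ v →
      Rel n (FreeGroup.of j * u * FreeGroup.of j * v)
  | conj (n : ℕ) (r g : FreeGroup (Fin n)) : Rel n r → Rel n (g * r * g⁻¹)
  | inv (n : ℕ) (r : FreeGroup (Fin n)) : Rel n r → Rel n r⁻¹
  | add (n : ℕ) (r : FreeGroup (Fin n)) : Rel n r → Rel (n + 1) (FreeGroup.map Fin.castSucc r)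
  | aut (n : ℕ) (r : FreeGroup (Fin n)) (f : FreeGroup (Fin n) ≃* FreeGroup (Fin n)) :
      Rel n r → Rel n (f r)
  /-- `x_j ↦ x_j u x_j⁻¹`, an HNN extension along an infinite cyclic subgroup -/
  | hnn (n : ℕ) (r : FreeGroup (Fin n)) (j : Fin n) (u : FreeGroup (Fin n)) : u ∈ Ls {j}ᶜ →
      ¬ IsOfFinOrder (PresentedGroup.mk {r} u) → ¬ IsOfFinOrder (gl r j) → Rel n r →
      Rel n (sb j (FreeGroup.of j * u * (FreeGroup.of j)⁻¹) r)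
  /-- `x_j ↦ w`, where `w` is a word in letters of which at most `x_j` occurs in `r`: an
  amalgamated product with a free group along an infinite cyclic subgroup -/
  | pinch (n : ℕ) (r : FreeGroup (Fin n)) (j : Fin n) (J : Set (Fin n))
      (w : FreeGroup (Fin n)) : j ∈ J → w ∈ Ls J → w ≠ 1 → r ∈ Ls (Jᶜ ∪ {j}) →
      ¬ IsOfFinOrder (gl r j) → Rel n r → Rel n (sb j w r)

/-! ## Elementary facts -/

section elem

variable {I I' I'' : Type}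

lemma Cm.id : Cm (ContinuousLinearMap.id ℝ (L2 (ℤ × I) ℝ)) :=
  ⟨ContinuousLinearMap.norm_id_le, fun _ => rfl⟩

lemma Cm.comp {U' : L2 (ℤ × I') ℝ →L[ℝ] L2 (ℤ × I'') ℝ} {U : L2 (ℤ × I) ℝ →L[ℝ] L2 (ℤ × I') ℝ}
    (h' : Cm U') (h : Cm U) : Cm (U'.comp U) := by
  refine ⟨?_, fun x => ?_⟩
  · calc ‖U'.comp U‖ ≤ ‖U'‖ * ‖U‖ := ContinuousLinearMap.opNorm_comp_le _ _
      _ ≤ 1 * 1 := mul_le_mul h'.norm h.norm (norm_nonneg _) zero_le_one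
      _ = 1 := one_mul 1
  · rw [ContinuousLinearMap.comp_apply, h.comm, h'.comm]
    rfl

lemma Cm.le {U : L2 (ℤ × I) ℝ →L[ℝ] L2 (ℤ × I') ℝ} (h : Cm U) (x : L2 (ℤ × I) ℝ) :
    ‖U x‖ ≤ ‖x‖ := by
  calc ‖U x‖ ≤ ‖U‖ * ‖x‖ := U.le_opNorm x
    _ ≤ 1 * ‖x‖ := mul_le_mul_of_nonneg_right h.norm (norm_nonneg _)
    _ = ‖x‖ := one_mul _

lemma Rd.refl (M : L2 (ℤ × I) ℝ) : Rd M M 0 :=
  ⟨_, Cm.id, by simp⟩

lemma Rd.near (M M' : L2 (ℤ × I) ℝ) : Rd M M' ‖M - M'‖ :=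
  ⟨_, Cm.id, le_rfl⟩

lemma Rd.mono {M : L2 (ℤ × I) ℝ} {M' : L2 (ℤ × I') ℝ} {ε ε' : ℝ} (h : Rd M M' ε)
    (hε : ε ≤ ε') : Rd M M' ε' := by
  obtain ⟨U, h1, h2⟩ := h
  exact ⟨U, h1, h2.trans hε⟩

lemma Rd.trans {M : L2 (ℤ × I) ℝ} {M' : L2 (ℤ × I') ℝ} {M'' : L2 (ℤ × I'') ℝ} {ε ε' : ℝ}
    (h : Rd M M' ε) (h' : Rd M' M'' ε') : Rd M M'' (ε + ε') := by
  obtain ⟨U, h1, h2⟩ := h
  obtain ⟨U', h1', h2'⟩ := h'
  refine ⟨U'.comp U, h1'.comp h1, ?_⟩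
  have : (U'.comp U) M - M'' = U' (U M - M') + (U' M' - M'') := by
    rw [map_sub, ContinuousLinearMap.comp_apply]
    abel
  rw [this]
  exact (norm_add_le _ _).trans (add_le_add ((h1'.le _).trans h2) h2')

lemma Slow.mono {Q : Mx} {L L' : ℕ} {ε ε' : ℝ} (h : Slow Q L ε) (hL : L' ≤ L) (hε : ε ≤ ε') :
    Slow Q L' ε' :=
  fun ℓ h1 h2 => (h ℓ h1 (h2.trans hL)).mono hε

lemma Mx.Ok.mono {Q : Mx} {lo hi lo' hi' : ℝ} (h : Q.Ok lo hi) (hlo : lo' ≤ lo) (hhi : hi ≤ hi')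
    (h1 : hi' < 1) : Q.Ok lo' hi' :=
  ⟨h.nn, h.sum, h.pos, fun i => hlo.trans_lt (h.lb i), fun i => (h.ub i).trans hhi, h1⟩

lemma Mx.Ok.pw {Q : Mx} {lo hi : ℝ} (h : Q.Ok lo hi) {ℓ : ℕ} (hℓ : 1 ≤ ℓ) : (Q.pw ℓ).Ok 0 hi where
  nn := h.nn
  sum := h.sum
  pos i := pow_pos (h.pos i) ℓ
  lb i := pow_pos (h.pos i) ℓ
  ub i := by
    have h0 := h.pos i
    have h1 : Q.ρ i ≤ 1 := (h.ub i).trans h.one.le
    calc Q.ρ i ^ ℓ ≤ Q.ρ i ^ 1 := pow_le_pow_of_le_one h0.le h1 hℓ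
      _ = Q.ρ i := pow_one _
      _ ≤ hi := h.ub i
  one := h.one

variable {G : Type} [Group G] {E : Type} [NormedAddCommGroup E] [InnerProductSpace ℝ E]

lemma Op.rd {π : G →* (E ≃ₗᵢ[ℝ] E)} {c : G} {C : E →L[ℝ] L2 (ℤ × I) ℝ} (h : Op π c C)
    {U : L2 (ℤ × I) ℝ →L[ℝ] L2 (ℤ × I') ℝ} (hU : Cm U) : Op π c (U.comp C) := by
  refine ⟨?_, fun u => ?_, fun u δ hδ => ?_⟩
  · calc ‖U.comp C‖ ≤ ‖U‖ * ‖C‖ := ContinuousLinearMap.opNorm_comp_le _ _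
      _ ≤ 1 * 1 := mul_le_mul hU.norm h.norm (norm_nonneg _) zero_le_one
      _ = 1 := one_mul 1
  · rw [ContinuousLinearMap.comp_apply, h.comm, hU.comm]
    rfl
  · obtain ⟨T, hT⟩ := h.dec u δ hδ
    exact ⟨T, fun g hg => hT g (hg.trans (hU.le _))⟩

lemma Op.le {π : G →* (E ≃ₗᵢ[ℝ] E)} {c : G} {C : E →L[ℝ] L2 (ℤ × I) ℝ} (h : Op π c C) (u : E) :
    ‖C u‖ ≤ ‖u‖ := by
  calc ‖C u‖ ≤ ‖C‖ * ‖u‖ := C.le_opNorm u
    _ ≤ 1 * ‖u‖ := mul_le_mul_of_nonneg_right h.norm (norm_nonneg _)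
    _ = ‖u‖ := one_mul _

lemma Lc.rd {π : G →* (E ≃ₗᵢ[ℝ] E)} {c : G} {ξ : E} {M : L2 (ℤ × I) ℝ} {M' : L2 (ℤ × I') ℝ}
    {ε ε' : ℝ} (h : Lc π c ξ M ε) (h' : Rd M M' ε') : Lc π c ξ M' (ε + ε') := by
  obtain ⟨C, h1, h2⟩ := h
  obtain ⟨U, h1', h2'⟩ := h'
  refine ⟨U.comp C, h1.rd h1', ?_⟩
  have : (U.comp C) ξ - M' = U (C ξ - M) + (U M - M') := by
    rw [map_sub, ContinuousLinearMap.comp_apply]
    abel
  rw [this]
  exact (norm_add_le _ _).trans (add_le_add ((h1'.le _).trans h2) h2')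

lemma Lc.mono {π : G →* (E ≃ₗᵢ[ℝ] E)} {c : G} {ξ : E} {M : L2 (ℤ × I) ℝ}
    {ε ε' : ℝ} (h : Lc π c ξ M ε) (hε : ε ≤ ε') : Lc π c ξ M ε' := by
  obtain ⟨C, h1, h2⟩ := h
  exact ⟨C, h1, h2.trans hε⟩

lemma Lc.near {π : G →* (E ≃ₗᵢ[ℝ] E)} {c : G} {ξ ξ' : E} {M : L2 (ℤ × I) ℝ}
    {ε : ℝ} (h : Lc π c ξ M ε) : Lc π c ξ' M (ε + ‖ξ' - ξ‖) := by
  obtain ⟨C, h1, h2⟩ := h
  refine ⟨C, h1, ?_⟩
  have : C ξ' - M = (C ξ - M) + C (ξ' - ξ) := by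
    rw [map_sub]
    abel
  rw [this]
  exact (norm_add_le _ _).trans (add_le_add h2 (h1.le _))

end elem

end

end HGQ
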