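import Pool.Agent.HGP2.Targets

/-!
# HGP2: block diagonal operators
-/

open scoped InnerProductSpace ENNReal
open HGP

namespace HGQ

noncomputable section

section blk

variable {K : Type} {I : K → Type}

/-- reindexing -/
def BLK_e (I : K → Type) : (Σ k, ℤ × I k) ≃ ℤ × (Σ k, I k) where
  toFun q := (q.2.1, ⟨q.1, q.2.2⟩)
  invFun q := ⟨q.2.1, (q.1, q.2.2)⟩
  left_inv _ := rfl
  right_inv _ := rfl

/-- the blocks of a vector -/
def BLK_sl (x : L2 (ℤ × (Σ k, I k)) ℝ) (k : K) : L2 (ℤ × I k) ℝ :=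
  toL (fun q => x (q.1, ⟨k, q.2⟩))

lemma BLK_sl_apply (x : L2 (ℤ × (Σ k, I k)) ℝ) (k : K) (m : ℤ) (i : I k) :
    BLK_sl x k (m, i) = x (m, ⟨k, i⟩) := by
  unfold BLK_sl
  refine toL_apply (f := fun q : ℤ × I k => x (q.1, ⟨k, q.2⟩)) ?_ (m, i)
  have h := summable_L x
  have hinj : Function.Injective (fun q : ℤ × I k => ((q.1, ⟨k, q.2⟩) : ℤ × (Σ k, I k))) := by
    rintro ⟨a, b⟩ ⟨a', b'⟩ h
    simpa using h
  exact h.comp_injective hinj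

/-- squares of a vector, summed over the blocks -/
lemma BLK_hasSum (x : L2 (ℤ × (Σ k, I k)) ℝ) :
    HasSum (fun k => ‖BLK_sl x k‖ ^ 2) (‖x‖ ^ 2) := by
  have h := summable_L x
  have h1 : Summable (fun q : (Σ k, ℤ × I k) => x (BLK_e I q) ^ 2) :=
    (BLK_e I).summable_iff.2 h
  have h2 : ∑' q : (Σ k, ℤ × I k), x (BLK_e I q) ^ 2 = ‖x‖ ^ 2 := by
    rw [norm_sq_L]
    exact (BLK_e I).tsum_eq (fun q => x q ^ 2)
  have h3 : HasSum (fun q : (Σ k, ℤ × I k) => x (BLK_e I q) ^ 2) (‖x‖ ^ 2) := by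
    rw [← h2]
    exact h1.hasSum
  refine h3.sigma fun k => ?_
  have h4 : Summable (fun q : ℤ × I k => x (BLK_e I ⟨k, q⟩) ^ 2) := h1.sigma_factor k
  have h5 : ‖BLK_sl x k‖ ^ 2 = ∑' q : ℤ × I k, x (BLK_e I ⟨k, q⟩) ^ 2 := by
    rw [norm_sq_L]
    refine tsum_congr fun q => ?_
    obtain ⟨m, i⟩ := q
    rw [BLK_sl_apply]
    rfl
  rw [h5]
  exact h4.hasSum

/-- gluing blocks -/
def BLK_gl (y : ∀ k, L2 (ℤ × I k) ℝ) : L2 (ℤ × (Σ k, I k)) ℝ :=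
  toL (fun q => y q.2.1 (q.1, q.2.2))

lemma BLK_summable (y : ∀ k, L2 (ℤ × I k) ℝ) (h : Summable fun k => ‖y k‖ ^ 2) :
    Summable (fun q : ℤ × (Σ k, I k) => y q.2.1 (q.1, q.2.2) ^ 2) := by
  rw [← (BLK_e I).summable_iff]
  have h0 : ∀ q : (Σ k, ℤ × I k),
      0 ≤ ((fun q : ℤ × (Σ k, I k) => y q.2.1 (q.1, q.2.2) ^ 2) ∘ (BLK_e I)) q :=
    fun q => sq_nonneg _
  rw [summable_sigma_of_nonneg h0]
  refine ⟨fun k => ?_, ?_⟩
  · exact summable_L (y k)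
  · refine h.congr fun k => ?_
    rw [norm_sq_L]
    rfl

lemma BLK_gl_apply (y : ∀ k, L2 (ℤ × I k) ℝ) (h : Summable fun k => ‖y k‖ ^ 2) (m : ℤ) (k : K)
    (i : I k) : BLK_gl y (m, ⟨k, i⟩) = y k (m, i) := by
  unfold BLK_gl
  exact toL_apply (BLK_summable y h) (m, ⟨k, i⟩)

lemma BLK_sl_gl (y : ∀ k, L2 (ℤ × I k) ℝ) (h : Summable fun k => ‖y k‖ ^ 2) (k : K) :
    BLK_sl (BLK_gl y) k = y k := by
  ext q
  obtain ⟨m, i⟩ := q
  rw [BLK_sl_apply, BLK_gl_apply y h]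

variable {I' : K → Type}

lemma BLK_sum_le (U : ∀ k, L2 (ℤ × I k) ℝ →L[ℝ] L2 (ℤ × I' k) ℝ) (hU : ∀ k, Cm (U k))
    (x : L2 (ℤ × (Σ k, I k)) ℝ) : Summable fun k => ‖U k (BLK_sl x k)‖ ^ 2 :=
  Summable.of_nonneg_of_le (fun _ => sq_nonneg _)
    (fun k => pow_le_pow_left₀ (norm_nonneg _) ((hU k).le _) 2) (BLK_hasSum x).summable

lemma BLK_sl_add (x y : L2 (ℤ × (Σ k, I k)) ℝ) (k : K) :
    BLK_sl (x + y) k = BLK_sl x k + BLK_sl y k := by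
  ext q
  obtain ⟨m, i⟩ := q
  rw [BLK_sl_apply]
  simp only [lp.coeFn_add, Pi.add_apply, BLK_sl_apply]

lemma BLK_sl_smul (c : ℝ) (x : L2 (ℤ × (Σ k, I k)) ℝ) (k : K) :
    BLK_sl (c • x) k = c • BLK_sl x k := by
  ext q
  obtain ⟨m, i⟩ := q
  rw [BLK_sl_apply]
  simp only [lp.coeFn_smul, Pi.smul_apply, BLK_sl_apply]

lemma BLK_sl_shift (x : L2 (ℤ × (Σ k, I k)) ℝ) (k : K) :
    BLK_sl (S1 _ x) k = S1 _ (BLK_sl x k) := by
  ext q
  obtain ⟨m, i⟩ := q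
  rw [BLK_sl_apply, S1_apply, S1_apply, BLK_sl_apply]

/-- block diagonal operator -/
def BLK_op (U : ∀ k, L2 (ℤ × I k) ℝ →L[ℝ] L2 (ℤ × I' k) ℝ) (hU : ∀ k, Cm (U k)) :
    L2 (ℤ × (Σ k, I k)) ℝ →L[ℝ] L2 (ℤ × (Σ k, I' k)) ℝ :=
  LinearMap.mkContinuous
    { toFun := fun x => BLK_gl (fun k => U k (BLK_sl x k))
      map_add' := fun x y => by
        ext q
        obtain ⟨m, k, i⟩ := q
        rw [BLK_gl_apply _ (BLK_sum_le U hU _)]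
        simp only [lp.coeFn_add, Pi.add_apply]
        rw [BLK_gl_apply _ (BLK_sum_le U hU _), BLK_gl_apply _ (BLK_sum_le U hU _), BLK_sl_add,
          map_add]
        rfl
      map_smul' := fun c x => by
        ext q
        obtain ⟨m, k, i⟩ := q
        rw [BLK_gl_apply _ (BLK_sum_le U hU _)]
        simp only [lp.coeFn_smul, Pi.smul_apply, RingHom.id_apply]
        rw [BLK_gl_apply _ (BLK_sum_le U hU _), BLK_sl_smul, map_smul]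
        rfl } 1
    (fun x => by
      rw [one_mul]
      refine (pow_le_pow_iff_left₀ (norm_nonneg _) (norm_nonneg _) two_ne_zero).1 ?_
      have h1 := BLK_hasSum (BLK_gl (fun k => U k (BLK_sl x k)))
      have h2 := BLK_hasSum x
      refine hasSum_le (fun k => ?_) h1 h2
      rw [BLK_sl_gl _ (BLK_sum_le U hU _)]
      exact pow_le_pow_left₀ (norm_nonneg _) ((hU k).le _) 2)

lemma BLK_op_apply (U : ∀ k, L2 (ℤ × I k) ℝ →L[ℝ] L2 (ℤ × I' k) ℝ) (hU : ∀ k, Cm (U k))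
    (x : L2 (ℤ × (Σ k, I k)) ℝ) (m : ℤ) (k : K) (i : I' k) :
    BLK_op U hU x (m, ⟨k, i⟩) = U k (BLK_sl x k) (m, i) := by
  show BLK_gl (fun k => U k (BLK_sl x k)) (m, ⟨k, i⟩) = _
  rw [BLK_gl_apply _ (BLK_sum_le U hU _)]

lemma BLK_op_cm (U : ∀ k, L2 (ℤ × I k) ℝ →L[ℝ] L2 (ℤ × I' k) ℝ) (hU : ∀ k, Cm (U k)) :
    Cm (BLK_op U hU) := by
  refine ⟨LinearMap.mkContinuous_norm_le _ zero_le_one _, fun x => ?_⟩
  ext q
  obtain ⟨m, k, i⟩ := q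
  rw [BLK_op_apply, S1_apply, BLK_op_apply, BLK_sl_shift, (hU k).comm, S1_apply]

end blk

theorem p_BLK (hBSM : T_BSM) : T_BLK := by
  intro K v hv hv1 I I' M M' ε hε hM hM' hR
  choose U hU hUM using hR
  have hn : ∀ k, ‖U k (M k)‖ ≤ 1 := fun k => ((hU k).le _).trans (hM k)
  obtain ⟨h1, -, -⟩ := hBSM K v hv hv1 I M hM
  obtain ⟨h2, -, h3⟩ := hBSM K v hv hv1 I' (fun k => U k (M k)) hn
  refine ⟨BLK_op U hU, BLK_op_cm U hU, ?_⟩
  have h4 : BLK_op U hU (bs v M) = bs v (fun k => U k (M k)) := by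
    ext q
    obtain ⟨m, k, i⟩ := q
    rw [BLK_op_apply, h2 m k i]
    have h5 : BLK_sl (bs v M) k = Real.sqrt (v k) • M k := by
      ext q
      obtain ⟨m, i⟩ := q
      rw [BLK_sl_apply, h1 m k i]
      rfl
    rw [h5, map_smul]
    rfl
  rw [h4]
  exact h3 M' ε hε hM' hUM

end

end HGQ
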