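import Pool.Agent.HGP2.Targets

/-!
# HGP2, target BSM: orthogonal direct sums of models
-/

open scoped InnerProductSpace ENNReal
open HGP

namespace HGQ

noncomputable section

/-- reordering the index set -/
def BSM_e {K : Type} (I : K → Type) : (Σ k, ℤ × I k) ≃ ℤ × (Σ k, I k) where
  toFun q := (q.2.1, ⟨q.1, q.2.2⟩)
  invFun q := ⟨q.2.1, (q.1, q.2.2)⟩
  left_inv _ := rfl
  right_inv _ := rfl

/-- the square sum of a direct sum of square summable families with bounded norms -/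
theorem BSM_sum {K : Type} {v : K → ℝ} (hv : ∀ k, 0 ≤ v k) (hs : HasSum v 1) {I : K → Type}
    (x : ∀ k, L2 (ℤ × I k) ℝ) {c : ℝ} (hx : ∀ k, ‖x k‖ ≤ c) :
    Summable (fun q : ℤ × (Σ k, I k) => (Real.sqrt (v q.2.1) * x q.2.1 (q.1, q.2.2)) ^ 2) ∧
    ∑' q : ℤ × (Σ k, I k), (Real.sqrt (v q.2.1) * x q.2.1 (q.1, q.2.2)) ^ 2 ≤ c ^ 2 := by
  let F : ℤ × (Σ k, I k) → ℝ := fun q => (Real.sqrt (v q.2.1) * x q.2.1 (q.1, q.2.2)) ^ 2
  let G : (Σ k, ℤ × I k) → ℝ := fun q => F (BSM_e I q)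
  have hG : ∀ k (y : ℤ × I k), G ⟨k, y⟩ = v k * x k y ^ 2 := by
    intro k y
    change (Real.sqrt (v k) * x k (y.1, y.2)) ^ 2 = _
    rw [mul_pow, Real.sq_sqrt (hv k)]
  have hsum : ∀ k, HasSum (fun y : ℤ × I k => G ⟨k, y⟩) (v k * ‖x k‖ ^ 2) := by
    intro k
    simp only [hG]
    rw [norm_sq_L]
    exact (summable_L (x k)).hasSum.mul_left (v k)
  have hb : ∀ k, v k * ‖x k‖ ^ 2 ≤ v k * c ^ 2 := fun k =>
    mul_le_mul_of_nonneg_left (pow_le_pow_left₀ (norm_nonneg _) (hx k) 2) (hv k)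
  have hvs : HasSum (fun k => v k * c ^ 2) (c ^ 2) := by
    have := hs.mul_right (c ^ 2)
    rwa [one_mul] at this
  have hsv : Summable (fun k => v k * ‖x k‖ ^ 2) :=
    Summable.of_nonneg_of_le (fun k => mul_nonneg (hv k) (sq_nonneg _)) hb hvs.summable
  have hGs : Summable G := by
    rw [summable_sigma_of_nonneg (fun q => sq_nonneg _)]
    exact ⟨fun k => (hsum k).summable, hsv.congr fun k => (hsum k).tsum_eq.symm⟩
  have hFs : Summable F := (BSM_e I).summable_iff.1 hGs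
  refine ⟨hFs, ?_⟩
  calc ∑' q, F q = ∑' q, G q := ((BSM_e I).tsum_eq F).symm
    _ = ∑' k, ∑' y, G ⟨k, y⟩ := hGs.tsum_sigma
    _ = ∑' k, v k * ‖x k‖ ^ 2 := by simp only [fun k => (hsum k).tsum_eq]
    _ ≤ ∑' k, v k * c ^ 2 := hsv.tsum_le_tsum hb hvs.summable
    _ = c ^ 2 := hvs.tsum_eq

theorem BSM_apply {K : Type} {v : K → ℝ} (hv : ∀ k, 0 ≤ v k) (hs : HasSum v 1) {I : K → Type}
    (x : ∀ k, L2 (ℤ × I k) ℝ) {c : ℝ} (hx : ∀ k, ‖x k‖ ≤ c) (q : ℤ × (Σ k, I k)) :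
    bs v x q = Real.sqrt (v q.2.1) * x q.2.1 (q.1, q.2.2) := by
  unfold bs
  exact toL_apply (BSM_sum hv hs x hx).1 q

theorem BSM_norm {K : Type} {v : K → ℝ} (hv : ∀ k, 0 ≤ v k) (hs : HasSum v 1) {I : K → Type}
    (x : ∀ k, L2 (ℤ × I k) ℝ) {c : ℝ} (hc : 0 ≤ c) (hx : ∀ k, ‖x k‖ ≤ c) : ‖bs v x‖ ≤ c := by
  rw [← pow_le_pow_iff_left₀ (norm_nonneg _) hc two_ne_zero, norm_sq_L,
    tsum_congr fun q => congrArg (fun t : ℝ => t ^ 2) (BSM_apply hv hs x hx q)]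
  exact (BSM_sum hv hs x hx).2

theorem p_BSM : T_BSM := by
  intro K v hv hs I M hM
  refine ⟨fun m k i => BSM_apply hv hs M hM (m, ⟨k, i⟩), BSM_norm hv hs M zero_le_one hM, ?_⟩
  intro M' ε hε hM' hd
  have h : bs v M - bs v M' = bs v (fun k => M k - M' k) := by
    ext q
    rw [BSM_apply hv hs (fun k => M k - M' k) hd q]
    change bs v M q - bs v M' q = _
    rw [BSM_apply hv hs M hM q, BSM_apply hv hs M' hM' q]
    change _ = Real.sqrt (v q.2.1) * (M q.2.1 (q.1, q.2.2) - M' q.2.1 (q.1, q.2.2))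
    ring
  rw [h]
  exact BSM_norm hv hs _ hε hd

end

end HGQ
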