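import Pool.Agent.HGP2.Targets

/-!
# HGP2: target T_CHN, the chain of stages (helper17)
-/

open scoped InnerProductSpace ENNReal
open HGP HNNExtension HNNExtension.NormalWord

namespace HGQ

theorem p_CHN (hSTG : T_STG) (hSLX : T_SLX) : T_CHN := by
  intro G _ le lh ℓ h1 hTL S L ε hε
  obtain ⟨δ, ε', L', hδ, hε', H⟩ := hSTG G le lh ℓ h1 hTL S ε hε
  obtain ⟨η, hη, hηδ, hηε, hηε'⟩ : ∃ η : ℝ, 0 < η ∧ η ≤ δ ∧ η ≤ ε ∧ η ≤ ε' :=
    ⟨min (min δ ε) ε', lt_min (lt_min hδ hε) hε',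
      (min_le_left _ _).trans (min_le_left _ _), (min_le_left _ _).trans (min_le_right _ _),
      min_le_right _ _⟩
  have hstep : ∀ p : {p : Mx × ℝ // p.1.Ok (1 - η) p.2 ∧ Slow p.1 (max L L') η},
      ∃ p' : {p : Mx × ℝ // p.1.Ok (1 - η) p.2 ∧ Slow p.1 (max L L') η},
        LK G le lh S ε p.1.1 p'.1.1 := by
    rintro ⟨⟨Q, hi⟩, hQ, hS⟩
    obtain ⟨Q', hi', hQ', hS', hL⟩ := H Q hi (hQ.mono (by linarith) le_rfl hQ.one)
      (hS.mono (le_max_right _ _) hηε') (max L L') η hη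
    exact ⟨⟨⟨Q', hi'⟩, hQ', hS'⟩, hL⟩
  choose f hf using hstep
  obtain ⟨Q0, hi0, hQ0, hS0⟩ := hSLX (1 - η) η (max L L') (by linarith) hη
  let p0 : {p : Mx × ℝ // p.1.Ok (1 - η) p.2 ∧ Slow p.1 (max L L') η} := ⟨⟨Q0, hi0⟩, hQ0, hS0⟩
  refine ⟨fun j => (Nat.iterate f j p0).1.1, fun j => (Nat.iterate f j p0).1.2, fun j => ?_⟩
  obtain ⟨hQ, hS⟩ := (Nat.iterate f j p0).2
  refine ⟨hQ.mono (by linarith) le_rfl hQ.one, hS.mono (le_max_left _ _) hηε, ?_⟩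
  have h := hf (Nat.iterate f j p0)
  rw [← Function.iterate_succ_apply' f j p0] at h
  exact h

end HGQ
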