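import Pool.Agent.HGP2.Targets

/-!
# HGP2: inverses, conjugates, closure of (M)
-/

open scoped InnerProductSpace ENNReal
open HGP HNNExtension HNNExtension.NormalWord

namespace HGQ

theorem p_LIN (hREV : T_REV) : T_LIN := by
  intro G _ E _ _ π c ξ Q lo hi ε hQ hLc
  obtain ⟨C, hC, hCe⟩ := hLc
  obtain ⟨U, hU1, hU2, hU3⟩ := hREV Q lo hi hQ
  have hUle : ∀ x, ‖U x‖ ≤ ‖x‖ := by
    intro x
    calc ‖U x‖ ≤ ‖U‖ * ‖x‖ := U.le_opNorm x
      _ ≤ 1 * ‖x‖ := mul_le_mul_of_nonneg_right hU1 (norm_nonneg _)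
      _ = ‖x‖ := one_mul _
  refine ⟨U.comp C, ⟨?_, ?_, ?_⟩, ?_⟩
  · calc ‖U.comp C‖ ≤ ‖U‖ * ‖C‖ := ContinuousLinearMap.opNorm_comp_le _ _
      _ ≤ 1 * 1 := mul_le_mul hU1 hC.norm (norm_nonneg _) zero_le_one
      _ = 1 := one_mul 1
  · intro u
    have h1 : C (π c (π c⁻¹ u)) = S1 Q.I (C (π c⁻¹ u)) := hC.comm _
    have h2 : π c (π c⁻¹ u) = u := by
      have : (π c * π c⁻¹) u = u := by rw [← map_mul, mul_inv_cancel, map_one]; rfl
      exact this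
    rw [h2] at h1
    have h3 : U (C u) = (S1 Q.I).symm (U (C (π c⁻¹ u))) := by rw [h1, hU2]
    show U (C (π c⁻¹ u)) = S1 Q.I (U (C u))
    rw [h3]
    simp
  · intro u δ hδ
    obtain ⟨T, hT⟩ := hC.dec u δ hδ
    refine ⟨T, fun g hg => ?_⟩
    obtain ⟨m, x, hx, hgx⟩ := hT g (hg.trans (hUle _))
    exact ⟨-m, x, hx, by rw [hgx, inv_zpow, zpow_neg, inv_inv]⟩
  · show ‖U (C ξ) - Q.md‖ ≤ ε
    rw [← hU3, ← map_sub]
    exact (hUle _).trans hCe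

theorem p_LCJ : T_LCJ := by
  intro G _ E _ _ π c u ξ I M ε hLc
  obtain ⟨C, hC, hCe⟩ := hLc
  have hmul : ∀ (g h : G) (x : E), π (g * h) x = π g (π h x) := by
    intro g h x
    rw [map_mul]
    rfl
  refine ⟨C.comp ((π u⁻¹).toContinuousLinearEquiv : E →L[ℝ] E), ⟨?_, ?_, ?_⟩, ?_⟩
  · refine ContinuousLinearMap.opNorm_le_bound _ zero_le_one fun x => ?_
    show ‖C (π u⁻¹ x)‖ ≤ 1 * ‖x‖
    rw [one_mul]
    exact (hC.le _).trans (le_of_eq ((π u⁻¹).norm_map x))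
  · intro x
    show C (π u⁻¹ (π (u * c * u⁻¹) x)) = S1 I (C (π u⁻¹ x))
    rw [← hC.comm, ← hmul, ← hmul]
    congr 2
    group
  · intro x δ hδ
    classical
    obtain ⟨T, hT⟩ := hC.dec x δ hδ
    refine ⟨T.image (fun y => u * y), fun g hg => ?_⟩
    have hg' : δ ≤ ‖C (π (u⁻¹ * g) x)‖ := by
      rw [hmul]
      exact hg
    obtain ⟨m, y, hy, hgy⟩ := hT _ hg'
    refine ⟨m, u * y, Finset.mem_image_of_mem _ hy, ?_⟩
    have : g = u * (c ^ m * y) := by rw [← hgy]; group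
    rw [this, conj_zpow]
    group
  · have h : (C.comp ((π u⁻¹).toContinuousLinearEquiv : E →L[ℝ] E)) ξ - M =
        (C ξ - M) + C (π u⁻¹ ξ - ξ) := by
      show C (π u⁻¹ ξ) - M = _
      rw [map_sub]
      abel
    rw [h]
    exact (norm_add_le _ _).trans (add_le_add hCe (hC.le _))

theorem p_CJL (hLIN : T_LIN) (hLCJ : T_LCJ) : T_CJL := by
  intro G _ l l' hl hl' S L ε hε
  classical
  have hch : ∀ c : G, c ∈ l' → ∃ c₀ ∈ l, ∃ u : G, c = u * c₀ * u⁻¹ ∨ c = u * c₀⁻¹ * u⁻¹ := hl'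
  choose! b hb u hu using hch
  obtain ⟨Q, hi, hQ, hsl, E, i1, i2, i3, π, ξ, h0, h1, h2, h3⟩ :=
    hl (S ∪ (l'.map fun c => (u c)⁻¹).toFinset) L (ε / 2) (by linarith)
  refine ⟨Q, hi, hQ.mono (by linarith) le_rfl hQ.one, hsl.mono le_rfl (by linarith), E, i1, i2,
    i3, π, ξ, h0, h1, ?_, ?_⟩
  · intro s hs
    exact (h2 s (Finset.mem_union_left _ hs)).trans (by linarith)
  · intro c hc
    have hu1 : ‖π (u c)⁻¹ ξ - ξ‖ ≤ ε / 2 := by
      apply h2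
      apply Finset.mem_union_right
      rw [List.mem_toFinset]
      exact List.mem_map_of_mem (f := fun c => (u c)⁻¹) hc
    have hL := h3 (b c) (hb c hc)
    rcases hu c hc with h | h
    · have h4 := hLCJ G E π (b c) (u c) ξ Q.I Q.md (ε / 2) hL
      rw [← h] at h4
      exact h4.mono (by linarith)
    · have h4 := hLCJ G E π (b c)⁻¹ (u c) ξ Q.I Q.md (ε / 2)
        (hLIN G E π (b c) ξ Q _ _ (ε / 2) hQ hL)
      rw [← h] at h4
      exact h4.mono (by linarith)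

end HGQ
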