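import Pool.Agent.HGP2.Targets

/-!
# HGP2: the square root of a conditionally negative definite kernel is a metric (T_CNM)
-/

namespace HGQ

theorem CNM_key (X : Type) (d : X → X → ℕ) (h0 : ∀ x, d x x = 0)
    (hs : ∀ x y, d x y = d y x) (hn : ∀ (n : ℕ) (x : Fin n → X) (c : Fin n → ℝ), ∑ i, c i = 0 →
    ∑ i, ∑ j, c i * c j * (d (x i) (x j) : ℝ) ≤ 0) (x y z : X) (s t : ℝ) :
    s * t * (d x z : ℝ) ≤ (s + t) * (s * d x y + t * d y z) := by
  have h := hn 3 ![x, y, z] ![s, -(s + t), t] (by simp [Fin.sum_univ_three])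
  simp only [Fin.sum_univ_three, Matrix.cons_val_zero, Matrix.cons_val_one, Matrix.cons_val_two,
    Matrix.head_cons, Matrix.tail_cons] at h
  rw [hs y x, hs z x, hs z y, h0, h0, h0] at h
  push_cast at h
  nlinarith [h]

theorem CNM_main (X : Type) (d : X → X → ℕ) (h0 : ∀ x, d x x = 0)
    (hs : ∀ x y, d x y = d y x) (hn : ∀ (n : ℕ) (x : Fin n → X) (c : Fin n → ℝ), ∑ i, c i = 0 →
    ∑ i, ∑ j, c i * c j * (d (x i) (x j) : ℝ) ≤ 0) (x y z : X) :
    Real.sqrt (d x z) ≤ Real.sqrt (d x y) + Real.sqrt (d y z) := by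
  have key := CNM_key X d h0 hs hn x y z
  have ha : (0 : ℝ) ≤ d x y := Nat.cast_nonneg _
  have hb : (0 : ℝ) ≤ d y z := Nat.cast_nonneg _
  have hc : (0 : ℝ) ≤ d x z := Nat.cast_nonneg _
  generalize (d x y : ℝ) = a at *
  generalize (d y z : ℝ) = b at *
  generalize (d x z : ℝ) = c at *
  rw [Real.sqrt_le_left (by positivity)]
  rcases ha.eq_or_lt with ha0 | ha0
  · subst ha0
    have : ∀ s : ℝ, 0 < s → c ≤ b + b / s := by
      intro s hs'
      have h := key s 1
      have h1 : s * c ≤ s * (b + b / s) := by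
        have : s * (b + b / s) = s * b + b := by field_simp
        rw [this]
        nlinarith [h]
      exact le_of_mul_le_mul_left h1 hs'
    have hcb : c ≤ b := by
      refine le_of_forall_pos_le_add fun ε hε => ?_
      have h := this ((b + 1) / ε) (by positivity)
      refine h.trans ?_
      have : b / ((b + 1) / ε) ≤ ε := by
        rw [div_div_eq_mul_div, div_le_iff₀ (by positivity)]
        nlinarith
      linarith
    simpa [Real.sq_sqrt hb] using hcb
  rcases hb.eq_or_lt with hb0 | hb0
  · subst hb0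
    have : ∀ t : ℝ, 0 < t → c ≤ a + a / t := by
      intro t ht
      have h := key 1 t
      have h1 : t * c ≤ t * (a + a / t) := by
        have : t * (a + a / t) = t * a + a := by field_simp
        rw [this]
        nlinarith [h]
      exact le_of_mul_le_mul_left h1 ht
    have hcb : c ≤ a := by
      refine le_of_forall_pos_le_add fun ε hε => ?_
      have h := this ((a + 1) / ε) (by positivity)
      refine h.trans ?_
      have : a / ((a + 1) / ε) ≤ ε := by
        rw [div_div_eq_mul_div, div_le_iff₀ (by positivity)]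
        nlinarith
      linarith
    simpa [Real.sq_sqrt ha] using hcb
  · have hsa : 0 < Real.sqrt a := Real.sqrt_pos.2 ha0
    have hsb : 0 < Real.sqrt b := Real.sqrt_pos.2 hb0
    have h := key (Real.sqrt b) (Real.sqrt a)
    have e1 : Real.sqrt a ^ 2 = a := Real.sq_sqrt ha
    have e2 : Real.sqrt b ^ 2 = b := Real.sq_sqrt hb
    generalize Real.sqrt a = p at *
    generalize Real.sqrt b = q at *
    subst e1 e2
    have h1 : (q * p) * c ≤ (q * p) * (p + q) ^ 2 := by nlinarith [h]
    exact le_of_mul_le_mul_left h1 (mul_pos hsb hsa)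

theorem p_CNM : T_CNM := fun X d h0 hs hn x y z => CNM_main X d h0 hs hn x y z

end HGQ
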