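import Pool.Agent.HGP2.Targets

/-!
# HGQ-CRD: elements of HNN extensions are elliptic or hyperbolic
-/

open scoped InnerProductSpace ENNReal
open HGP HNNExtension HNNExtension.NormalWord

namespace HGQ

noncomputable section

/-- the powers of the stable letter for units -/
lemma CRD_inv {H : Type} [Group H] {A B : Subgroup H} {φ : A ≃* B} (u : ℤˣ) :
    (t ^ (u : ℤ) : HNNExtension H A B φ)⁻¹ = t ^ ((-u : ℤˣ) : ℤ) := by
  rw [Units.val_neg, zpow_neg]

/-- the right step -/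
lemma CRD_rstep {H : Type} [Group H] {A B : Subgroup H} {φ : A ≃* B} (u : ℤˣ)
    (z : HNNExtension H A B φ) : len φ (z * t ^ (u : ℤ)) = len φ z + 1 ∨
      len φ z = len φ (z * t ^ (u : ℤ)) + 1 := by
  obtain ⟨lofL, lofR, linv, lzero, lof, lstep⟩ := kLN H A B φ
  have h1 := lstep (-u) z⁻¹
  rw [← CRD_inv, ← mul_inv_rev, linv, linv] at h1
  exact h1

/-- the exponent sum of the stable letter -/
lemma CRD_exp {H : Type} [Group H] {A B : Subgroup H} {φ : A ≃* B} (v : ℤˣ) (h h' : H)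
    (e : (t ^ (v : ℤ) * (of h * t ^ (v : ℤ)) : HNNExtension H A B φ) = of h') : False := by
  have hx : ∀ a : A, (Multiplicative.ofAdd (1 : ℤ)) * (1 : H →* Multiplicative ℤ) (a : H) =
      (1 : H →* Multiplicative ℤ) (φ a : H) * (Multiplicative.ofAdd (1 : ℤ)) := by
    intro a
    simp
  have h1 := congrArg (HNNExtension.lift (1 : H →* Multiplicative ℤ)
    (Multiplicative.ofAdd (1 : ℤ)) hx) e
  simp only [map_mul, map_zpow, HNNExtension.lift_t, HNNExtension.lift_of,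
    MonoidHom.one_apply, one_mul] at h1
  have h2 : (v : ℤ) + (v : ℤ) = 0 := by
    have h3 := congrArg Multiplicative.toAdd h1
    simpa using h3
  rcases Int.units_eq_one_or v with rfl | rfl
  · simp at h2
  · simp at h2

/-- the length of the stable letter -/
lemma CRD_t {H : Type} [Group H] {A B : Subgroup H} {φ : A ≃* B} (h : H) (v : ℤˣ) :
    len φ (of h * t ^ (v : ℤ)) = 1 := by
  obtain ⟨lofL, lofR, linv, lzero, lof, lstep⟩ := kLN H A B φ
  rw [lofL]
  have h1 := lstep v (of 1)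
  rw [lofR, lof] at h1
  omega

/-- the middle step -/
lemma CRD_mid {H : Type} [Group H] {A B : Subgroup H} {φ : A ≃* B} (v : ℤˣ)
    (z : HNNExtension H A B φ) (h1 : len φ (t ^ (v : ℤ) * z) = len φ z + 1)
    (h2 : len φ (z * t ^ (v : ℤ)) = len φ z + 1) :
    len φ (t ^ (v : ℤ) * (z * t ^ (v : ℤ))) = len φ z + 2 := by
  obtain ⟨lofL, lofR, linv, lzero, lof, lstep⟩ := kLN H A B φ
  have h3 := lstep v (z * t ^ (v : ℤ))
  by_cases hz : len φ z = 0
  · obtain ⟨h, rfl⟩ := lzero z hz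
    rcases h3 with h3 | h3
    · omega
    · exfalso
      have h4 : len φ (t ^ (v : ℤ) * (of h * t ^ (v : ℤ))) = 0 := by omega
      obtain ⟨h', e⟩ := lzero _ h4
      exact CRD_exp v h h' e
  · obtain ⟨z1, w, k, e, e1, e2⟩ := kDECR H A B φ z hz
    have a1 : len φ (t ^ (v : ℤ) * z1 * t ^ (w : ℤ)) = len φ (t ^ (v : ℤ) * z) := by
      rw [e, ← lofR k (t ^ (v : ℤ) * z1 * t ^ (w : ℤ))]
      simp only [mul_assoc]
    have a2 := CRD_rstep w (t ^ (v : ℤ) * z1)
    have a3 := lstep v z1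
    have a4 : len φ (t ^ (v : ℤ) * z1 * t ^ (w : ℤ)) = len φ (t ^ (v : ℤ) * z1) + 1 := by omega
    have a5 : len φ (t ^ (v : ℤ) * z1) = len φ z1 + 1 := by omega
    have b1 : len φ (of k * t ^ (v : ℤ) : HNNExtension H A B φ) = 1 := CRD_t k v
    have b2 := lstep w (of k * t ^ (v : ℤ))
    have b3 : len φ (t ^ (w : ℤ) * (of k * t ^ (v : ℤ)) : HNNExtension H A B φ) =
        len φ (of k * t ^ (v : ℤ) : HNNExtension H A B φ) + 1 := by
      rcases b2 with b2 | b2
      · exact b2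
      · exfalso
        have b4 : len φ (t ^ (w : ℤ) * (of k * t ^ (v : ℤ)) : HNNExtension H A B φ) = 0 := by
          omega
        obtain ⟨k', e'⟩ := lzero _ b4
        have b5 : len φ (z * t ^ (v : ℤ)) = len φ z1 := by
          rw [e, ← lofR k' z1, ← e']
          simp only [mul_assoc]
        omega
    have c1 := kCAT H A B φ w (t ^ (v : ℤ) * z1) (of k * t ^ (v : ℤ)) a4 b3
    have c2 : t ^ (v : ℤ) * (z * t ^ (v : ℤ)) =
        t ^ (v : ℤ) * z1 * t ^ (w : ℤ) * (of k * t ^ (v : ℤ)) := by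
      rw [e]
      simp only [mul_assoc]
    rw [c2, c1]
    omega

/-- powers of cyclically reduced elements -/
lemma CRD_pow {H : Type} [Group H] {A B : Subgroup H} {φ : A ≃* B} (v : ℤˣ)
    (z : HNNExtension H A B φ) (h1 : len φ (t ^ (v : ℤ) * z) = len φ z + 1)
    (h2 : len φ (z * t ^ (v : ℤ)) = len φ z + 1) (m : ℕ) :
    len φ ((t ^ (v : ℤ) * z) ^ m) = m * (len φ z + 1) ∧
      len φ ((t ^ (v : ℤ) * z) ^ m * t ^ (v : ℤ)) = m * (len φ z + 1) + 1 := by
  obtain ⟨lofL, lofR, linv, lzero, lof, lstep⟩ := kLN H A B φ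
  have h3 := CRD_mid v z h1 h2
  induction m with
  | zero =>
    have e0 : len φ (1 : HNNExtension H A B φ) = 0 := by
      have := lof 1
      rwa [map_one] at this
    have e1 : len φ (t ^ (v : ℤ) : HNNExtension H A B φ) = 1 := by
      have := CRD_t (φ := φ) 1 v
      rwa [map_one, one_mul] at this
    constructor
    · rw [pow_zero, e0, zero_mul]
    · rw [pow_zero, one_mul, e1, zero_mul]
  | succ m ih =>
    obtain ⟨i1, i2⟩ := ih
    have c0 : len φ ((t ^ (v : ℤ) * z) ^ m * t ^ (v : ℤ)) =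
        len φ ((t ^ (v : ℤ) * z) ^ m) + 1 := by omega
    have c1 := kCAT H A B φ v ((t ^ (v : ℤ) * z) ^ m) z c0 h1
    have c2 := kCAT H A B φ v ((t ^ (v : ℤ) * z) ^ m) (z * t ^ (v : ℤ)) c0 (by omega)
    constructor
    · rw [pow_succ, ← mul_assoc, c1, i1]
      ring
    · have e : (t ^ (v : ℤ) * z) ^ (m + 1) * t ^ (v : ℤ) =
          (t ^ (v : ℤ) * z) ^ m * t ^ (v : ℤ) * (z * t ^ (v : ℤ)) := by
        rw [pow_succ]
        simp only [mul_assoc]
      rw [e, c2, i1, h2]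
      ring

/-- elements of minimal length in their conjugacy class are cyclically reduced -/
lemma CRD_core {H : Type} [Group H] {A B : Subgroup H} {φ : A ≃* B} (v : ℤˣ)
    (z : HNNExtension H A B φ) (h1 : len φ (t ^ (v : ℤ) * z) = len φ z + 1)
    (hmin : ∀ x : HNNExtension H A B φ,
      len φ z + 1 ≤ len φ (x * (t ^ (v : ℤ) * z) * x⁻¹)) :
    CR φ (t ^ (v : ℤ) * z) := by
  obtain ⟨lofL, lofR, linv, lzero, lof, lstep⟩ := kLN H A B φ
  have h2 : len φ (z * t ^ (v : ℤ)) = len φ z + 1 := by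
    rcases CRD_rstep v z with h | h
    · exact h
    · exfalso
      have h3 := hmin (t ^ (v : ℤ))⁻¹
      rw [inv_inv, inv_mul_cancel_left] at h3
      omega
  refine ⟨by omega, ?_⟩
  intro m
  obtain ⟨k, rfl | rfl⟩ := Int.eq_nat_or_neg m
  · rw [zpow_natCast, Int.natAbs_natCast, h1]
    exact (CRD_pow v z h1 h2 k).1
  · rw [zpow_neg, zpow_natCast, Int.natAbs_neg, Int.natAbs_natCast, linv, h1]
    exact (CRD_pow v z h1 h2 k).1

theorem p_CRD : T_CRD := by
  intro H _ A B φ g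
  classical
  obtain ⟨lofL, lofR, linv, lzero, lof, lstep⟩ := kLN H A B φ
  obtain ⟨hd, tu, tr, hdec⟩ := kDECL H A B φ
  have hex : ∃ n : ℕ, ∃ u : HNNExtension H A B φ, len φ (u * g * u⁻¹) = n :=
    ⟨_, 1, rfl⟩
  obtain ⟨u, hu⟩ := Nat.find_spec hex
  have hmin : ∀ x : HNNExtension H A B φ, len φ (u * g * u⁻¹) ≤ len φ (x * g * x⁻¹) := by
    intro x
    rw [hu]
    exact Nat.find_min' hex ⟨x, rfl⟩
  by_cases h0 : len φ (u * g * u⁻¹) = 0
  · obtain ⟨h, e⟩ := lzero _ h0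
    refine ⟨u⁻¹, Or.inl ⟨h, ?_⟩⟩
    rw [← e]
    group
  · obtain ⟨hg, hl, -⟩ := hdec _ h0
    obtain ⟨h, v, z, e, hz⟩ : ∃ (h : H) (v : ℤˣ) (z : HNNExtension H A B φ),
        u * g * u⁻¹ = of h * (t ^ (v : ℤ) * z) ∧ len φ (u * g * u⁻¹) = len φ z + 1 :=
      ⟨_, _, _, hg, hl⟩
    have e3 : t ^ (v : ℤ) * (z * of h) = (of h)⁻¹ * (u * g * u⁻¹) * of h := by
      rw [e, inv_mul_cancel_left, mul_assoc]
    refine ⟨u⁻¹ * of h, Or.inr ⟨t ^ (v : ℤ) * (z * of h), CRD_core v (z * of h) ?_ ?_, ?_⟩⟩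
    · have h5 := lofL h (t ^ (v : ℤ) * z)
      rw [← mul_assoc, lofR, lofR, ← h5, ← e, hz]
    · intro x
      have e2 : x * (t ^ (v : ℤ) * (z * of h)) * x⁻¹ =
          (x * (of h)⁻¹ * u) * g * (x * (of h)⁻¹ * u)⁻¹ := by
        rw [e3]
        simp only [mul_assoc, mul_inv_rev, inv_inv]
      rw [lofR, ← hz, e2]
      exact hmin _
    · rw [e3]
      simp only [mul_assoc, mul_inv_rev, inv_inv, inv_mul_cancel_left, mul_inv_cancel_left,
        inv_mul_cancel, mul_one]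

end

end HGQ
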