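import Pool.Agent.HGP2.Targets

/-!
# HGP2: decay along the cosets of an infinite cyclic subgroup
-/

open scoped InnerProductSpace ENNReal
open HGP

namespace HGQ

noncomputable section

lemma DHY_len {G : Type} [Group G] (len : G → ℝ) (h1 : ∀ x y, len (x * y) ≤ len x + len y)
    (h2 : ∀ x, len x⁻¹ = len x) (x : G) : 0 ≤ len x := by
  have a := h1 1 1
  have b := h1 x x⁻¹
  rw [h2, mul_inv_cancel] at b
  rw [mul_one] at a
  linarith

lemma DHY_min {G : Type} [Group G] (len : G → ℝ) (h0 : ∀ x, 0 ≤ len x) (g x : G) :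
    ∃ k : ℤ, ∀ m : ℤ, len (g ^ k * x) ≤ len (g ^ m * x) + 1 := by
  have hb : BddBelow (Set.range fun m : ℤ => len (g ^ m * x)) :=
    ⟨0, by rintro _ ⟨m, rfl⟩; exact h0 _⟩
  obtain ⟨k, hk⟩ := exists_lt_of_ciInf_lt
    (show (⨅ m : ℤ, len (g ^ m * x)) < (⨅ m : ℤ, len (g ^ m * x)) + 1 by linarith)
  refine ⟨k, fun m => ?_⟩
  have h := ciInf_le hb m
  linarith

/-- the seminorm `u ↦ ‖C (P h u)‖` -/
def DHY_sn {G : Type} [Group G] {K : Type} [NormedAddCommGroup K] [InnerProductSpace ℝ K]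
    (P : G →* (K ≃ₗᵢ[ℝ] K)) (C : K →L[ℝ] L2 (ℤ × Unit) ℝ) (h : G) : Seminorm ℝ K :=
  (normSeminorm ℝ (L2 (ℤ × Unit) ℝ)).comp
    ((C.comp (P h).toContinuousLinearEquiv.toContinuousLinearMap :
      K →L[ℝ] L2 (ℤ × Unit) ℝ) : K →ₗ[ℝ] L2 (ℤ × Unit) ℝ)

lemma DHY_sn_apply {G : Type} [Group G] {K : Type} [NormedAddCommGroup K]
    [InnerProductSpace ℝ K] (P : G →* (K ≃ₗᵢ[ℝ] K)) (C : K →L[ℝ] L2 (ℤ × Unit) ℝ) (h : G)
    (u : K) : DHY_sn P C h u = ‖C (P h u)‖ := rfl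

lemma DHY_normsq {G : Type} [Group G] {K : Type} [NormedAddCommGroup K]
    [InnerProductSpace ℝ K] (P : G →* (K ≃ₗᵢ[ℝ] K)) (g : G) (lam : K)
    (C : K →L[ℝ] L2 (ℤ × Unit) ℝ)
    (hC : ∀ (y : K) (m : ℤ), C y (m, ()) = ⟪P (g ^ (-m)) y, lam⟫_ℝ) (x : G) (u : K) (k : ℤ) :
    Summable (fun m : ℤ => ⟪P (g ^ m * (g ^ k * x)) u, lam⟫_ℝ ^ 2) ∧
    ‖C (P x u)‖ ^ 2 = ∑' m : ℤ, ⟪P (g ^ m * (g ^ k * x)) u, lam⟫_ℝ ^ 2 := by
  let e : ℤ ≃ ℤ × Unit := ((Equiv.neg ℤ).trans (Equiv.addRight (-k))).trans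
    (Equiv.prodPUnit ℤ).symm
  have he : ∀ m : ℤ, ‖C (P x u) (e m)‖ ^ 2 = ⟪P (g ^ m * (g ^ k * x)) u, lam⟫_ℝ ^ 2 := by
    intro m
    have h1 : e m = (-m + -k, ()) := rfl
    rw [h1, hC, Real.norm_eq_abs, sq_abs]
    have h2 : P (g ^ (-(-m + -k))) (P x u) = P (g ^ m * (g ^ k * x)) u := by
      have h3 : g ^ (-(-m + -k)) * x = g ^ m * (g ^ k * x) := by
        rw [← mul_assoc, ← zpow_add]
        congr 2
        ring
      rw [← h3, map_mul]
      rfl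
    rw [h2]
  have hs : Summable (fun i : ℤ × Unit => ‖C (P x u) i‖ ^ 2) := summable_sq_lp _
  constructor
  · have h3 := e.summable_iff.mpr hs
    refine h3.congr ?_
    intro m
    exact he m
  · rw [norm_sq_lp, ← e.tsum_eq]
    exact tsum_congr he

theorem p_DHY : T_DHY := by
  intro G _ K _ _ _ P g lam len D hC0 hsub hinv hD hu C hCn hC
  have h0 := DHY_len len hsub hinv
  have key := kDEN G K D hD (DHY_sn P C) 1 (by
    intro h u
    rw [DHY_sn_apply, one_mul]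
    calc ‖C (P h u)‖ ≤ ‖C‖ * ‖P h u‖ := C.le_opNorm _
      _ ≤ 1 * ‖P h u‖ := mul_le_mul_of_nonneg_right hCn (norm_nonneg _)
      _ = ‖u‖ := by rw [one_mul, LinearIsometryEquiv.norm_map])
    (fun s => ∃ T : Finset G, ∀ x ∈ s, ∃ m : ℤ, ∃ y ∈ T, x = g ^ m * y)
    ⟨∅, fun x hx => absurd hx (Set.notMem_empty x)⟩
    (fun s t hst ⟨T, hT⟩ => ⟨T, fun x hx => hT x (hst hx)⟩)
    (by
      classical
      rintro s t ⟨T, hT⟩ ⟨T', hT'⟩
      refine ⟨T ∪ T', ?_⟩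
      rintro x (hx | hx)
      · obtain ⟨m, y, hy, h⟩ := hT x hx
        exact ⟨m, y, Finset.mem_union_left _ hy, h⟩
      · obtain ⟨m, y, hy, h⟩ := hT' x hx
        exact ⟨m, y, Finset.mem_union_right _ hy, h⟩)
    (by
      intro u huD δ hδ
      obtain ⟨F, hF, hFu, hFs⟩ := hu u huD
      have hFnn : ∀ m : ℤ, 0 ≤ F ((len (g ^ m) - 1) / 2) := by
        intro m
        have h1 := hFu (g ^ m)
        have h2 : F (len (g ^ m)) ≤ F ((len (g ^ m) - 1) / 2) := by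
          apply hF
          have := h0 (g ^ m)
          linarith
        exact (sq_nonneg _).trans (h1.trans h2)
      obtain ⟨M, hM⟩ : ∃ M : Finset ℤ,
          ∑' m : {m : ℤ // m ∉ M}, F ((len (g ^ (m : ℤ)) - 1) / 2) < δ ^ 2 / 2 := by
        have ht := tendsto_tsum_compl_atTop_zero (fun m : ℤ => F ((len (g ^ m) - 1) / 2))
        have h3 := (ht.eventually_lt_const (show (0 : ℝ) < δ ^ 2 / 2 by positivity)).exists
        exact h3
      have hpos : (0 : ℝ) < δ ^ 2 / (2 * M.card + 2) := by positivity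
      have hfin := hC0 u lam (Real.sqrt (δ ^ 2 / (2 * M.card + 2))) (Real.sqrt_pos.mpr hpos)
      refine ⟨hfin.toFinset, ?_⟩
      intro x hx
      have hx' : δ ≤ ‖C (P x u)‖ := hx
      obtain ⟨k, hk⟩ := DHY_min len h0 g x
      obtain ⟨hsum, hns⟩ := DHY_normsq P g lam C hC x u k
      have hle : ∀ m : ℤ, ⟪P (g ^ m * (g ^ k * x)) u, lam⟫_ℝ ^ 2 ≤
          F ((len (g ^ m) - 1) / 2) := by
        intro m
        refine (hFu _).trans (hF ?_)
        have h4 : len (g ^ m) ≤ len (g ^ m * (g ^ k * x)) + len (g ^ k * x) := by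
          have h5 := hsub (g ^ m * (g ^ k * x)) (g ^ k * x)⁻¹
          rw [mul_inv_cancel_right, hinv] at h5
          exact h5
        have h6 := hk (m + k)
        rw [zpow_add, mul_assoc] at h6
        linarith
      have hδ2 : δ ^ 2 ≤ ∑' m : ℤ, ⟪P (g ^ m * (g ^ k * x)) u, lam⟫_ℝ ^ 2 := by
        rw [← hns]
        exact pow_le_pow_left₀ hδ.le hx' 2
      have hsplit := hsum.sum_add_tsum_subtype_compl M
      have htail : ∑' m : {m : ℤ // m ∉ M}, ⟪P (g ^ (m : ℤ) * (g ^ k * x)) u, lam⟫_ℝ ^ 2 ≤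
          ∑' m : {m : ℤ // m ∉ M}, F ((len (g ^ (m : ℤ)) - 1) / 2) :=
        (hsum.subtype _).tsum_le_tsum (fun m => hle m) (hFs.subtype _)
      have hMsum : δ ^ 2 / 2 < ∑ m ∈ M, ⟪P (g ^ m * (g ^ k * x)) u, lam⟫_ℝ ^ 2 := by
        linarith
      obtain ⟨m, hmM, hm⟩ : ∃ m ∈ M, δ ^ 2 / (2 * M.card + 2) ≤
          ⟪P (g ^ m * (g ^ k * x)) u, lam⟫_ℝ ^ 2 := by
        by_contra hcon
        push Not at hcon
        have h7 : ∑ m ∈ M, ⟪P (g ^ m * (g ^ k * x)) u, lam⟫_ℝ ^ 2 ≤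
            ∑ _m ∈ M, δ ^ 2 / (2 * M.card + 2) :=
          Finset.sum_le_sum fun m hm => (hcon m hm).le
        rw [Finset.sum_const, nsmul_eq_mul] at h7
        have h8 : (M.card : ℝ) * (δ ^ 2 / (2 * M.card + 2)) ≤ δ ^ 2 / 2 := by
          rw [mul_div_assoc', div_le_div_iff₀ (by positivity) (by norm_num)]
          nlinarith [sq_nonneg δ]
        linarith
      refine ⟨-k - m, g ^ m * (g ^ k * x), ?_, ?_⟩
      · rw [Set.Finite.mem_toFinset]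
        show Real.sqrt (δ ^ 2 / (2 * M.card + 2)) ≤ |⟪P (g ^ m * (g ^ k * x)) u, lam⟫_ℝ|
        rw [← Real.sqrt_sq_eq_abs]
        exact Real.sqrt_le_sqrt hm
      · rw [← mul_assoc, ← mul_assoc, ← zpow_add, ← zpow_add]
        have : -k - m + m + k = 0 := by ring
        rw [this, zpow_zero, one_mul])
  intro u δ hδ
  obtain ⟨T, hT⟩ := key u δ hδ
  exact ⟨T, fun x hx => hT x hx⟩

end

end HGQ
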