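import Pool.Agent.HGP2.Targets

/-!
# HGP2: new free letters
-/

open scoped InnerProductSpace ENNReal
open HGP HNNExtension HNNExtension.NormalWord

namespace HGQ

lemma GAD_succ (n m : ℕ) (r : FreeGroup (Fin n)) :
    (FreeGroup.map (Fin.castAdd (m + 1)) r : FreeGroup (Fin (n + m + 1))) =
      FreeGroup.map Fin.castSucc (FreeGroup.map (Fin.castAdd m) r) := by
  have h : (FreeGroup.map (Fin.castSucc : Fin (n + m) → Fin (n + m + 1))).comp
      (FreeGroup.map (Fin.castAdd m : Fin n → Fin (n + m))) =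
      (FreeGroup.map (Fin.castAdd (m + 1)) : FreeGroup (Fin n) →* FreeGroup (Fin (n + m + 1))) := by
    refine FreeGroup.ext_hom _ _ fun k => ?_
    rw [MonoidHom.comp_apply, FreeGroup.map.of, FreeGroup.map.of, FreeGroup.map.of]
    rfl
  exact (DFunLike.congr_fun h r).symm

theorem p_GAD (hGHN : T_GHN) (hGKE : T_GKE) : T_GAD := by
  intro n m r h
  induction m with
  | zero =>
    have h1 : (FreeGroup.map (Fin.castAdd 0) : FreeGroup (Fin n) →* FreeGroup (Fin n)) =
        MonoidHom.id _ := by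
      refine FreeGroup.ext_hom _ _ fun k => ?_
      rw [FreeGroup.map.of]
      rfl
    have h2 : (FreeGroup.map (Fin.castAdd 0) r : FreeGroup (Fin n)) = r := DFunLike.congr_fun h1 r
    show Good (OR (n := n) (FreeGroup.map (Fin.castAdd 0) r))
    rw [h2]
    exact h
  | succ m ih =>
    show Good (OR (n := n + m + 1) (FreeGroup.map (Fin.castAdd (m + 1)) r))
    rw [GAD_succ]
    obtain ⟨φ, e, -, -⟩ := kADD (n + m) (FreeGroup.map (Fin.castAdd m) r)
    refine hGKE _ _ e.toMonoidHom ?_
      (hGHN (OR (FreeGroup.map (Fin.castAdd m) r)) ⊥ ⊥ φ (Or.inl inferInstance) ih)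
    have h0 : e.toMonoidHom.ker = ⊥ := (MonoidHom.ker_eq_bot_iff _).2 e.injective
    rw [h0]
    infer_instance

end HGQ
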