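import Pool.Agent.HGP2.Targets

/-!
# HGP2: groups with axial proper actions have the property (M)
-/

open scoped InnerProductSpace ENNReal
open HGP HNNExtension HNNExtension.NormalWord

namespace HGQ

noncomputable section

lemma GAX_fin {G X : Type} [Group G] [MulAction G X] (d : X → X → ℕ) (x₀ : X)
    (hinv : ∀ (g : G) (x y : X), d (g • x) (g • y) = d x y)
    (htri : ∀ x y z, Real.sqrt (d x z) ≤ Real.sqrt (d x y) + Real.sqrt (d y z))
    (hprop : ∀ R : ℕ, {g : G | d (g • x₀) x₀ ≤ R}.Finite) (x y : X) (R : ℕ) :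
    {g : G | d (g • x) y ≤ R}.Finite := by
  obtain ⟨N, hN⟩ := exists_nat_ge
    ((Real.sqrt (d x₀ x) + Real.sqrt R + Real.sqrt (d y x₀)) ^ 2)
  refine (hprop N).subset fun g hg => ?_
  have hg' : d (g • x) y ≤ R := hg
  change d (g • x₀) x₀ ≤ N
  have h1 := htri (g • x₀) (g • x) x₀
  have h2 := htri (g • x) y x₀
  have h3 : Real.sqrt (d (g • x) y) ≤ Real.sqrt R :=
    Real.sqrt_le_sqrt (by exact_mod_cast hg')
  rw [hinv] at h1
  have h4 : Real.sqrt (d (g • x₀) x₀) ≤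
      Real.sqrt (d x₀ x) + Real.sqrt R + Real.sqrt (d y x₀) := by linarith
  have h5 : (d (g • x₀) x₀ : ℝ) ≤
      (Real.sqrt (d x₀ x) + Real.sqrt R + Real.sqrt (d y x₀)) ^ 2 := by
    have h6 : (Real.sqrt (d (g • x₀) x₀)) ^ 2 = (d (g • x₀) x₀ : ℝ) :=
      Real.sq_sqrt (Nat.cast_nonneg _)
    rw [← h6]
    exact pow_le_pow_left₀ (Real.sqrt_nonneg _) h4 2
  exact_mod_cast h5.trans hN

lemma GAX_one_sub (r δ : ℝ) (N k : ℕ) (hr0 : 0 < r) (hr1 : r < 1) (hδ : 1 - δ < r) (hk : k ≤ N) :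
    1 - r ^ k ≤ N * δ := by
  have h1 : 1 + (k : ℝ) * (r - 1) ≤ r ^ k := by
    have h := one_add_mul_le_pow (a := r - 1) (by linarith) k
    have h' : (1 + (r - 1)) = r := by ring
    rw [h'] at h
    exact h
  have h2 : (k : ℝ) ≤ N := by exact_mod_cast hk
  have h3 : (k : ℝ) * (1 - r) ≤ N * δ :=
    mul_le_mul h2 (by linarith) (by linarith) (Nat.cast_nonneg _)
  nlinarith

lemma GAX_dist {K : Type} [NormedAddCommGroup K] [InnerProductSpace ℝ K] (u w : K) (t ε : ℝ)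
    (hu : ⟪u, u⟫_ℝ = 1) (hw : ⟪w, w⟫_ℝ = 1) (huw : ⟪u, w⟫_ℝ = t) (hε : 0 ≤ ε)
    (ht : 2 * (1 - t) ≤ ε ^ 2) : ‖u - w‖ ≤ ε := by
  have h1 : ‖u - w‖ ^ 2 = 2 * (1 - t) := by
    rw [@norm_sub_sq_real, huw, ← real_inner_self_eq_norm_sq, ← real_inner_self_eq_norm_sq, hu, hw]
    ring
  exact abs_le_of_sq_le_sq' (by rw [h1]; exact ht) hε |>.2

theorem p_GAX (hKRN : T_KRN) (hCNM : T_CNM) (hAXO : T_AXO) (hSLX : T_SLX) (hMAT : T_MAT) :
    T_GAX := by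
  intro G _ hG l hl
  classical
  obtain ⟨X, _, x₀, d, h0, hsym, hinv, hcnd, hprop, hax⟩ := hG
  have htri := hCNM X d h0 hsym hcnd
  have hfin := GAX_fin (G := G) d x₀ hinv htri hprop
  have : Nonempty X := ⟨x₀⟩
  choose! xc ℓ hℓ1 hℓ using hax
  have hMF : MF G ([] ++ l) := by
    refine hMAT G [] l ℓ (fun g hg => hℓ1 g (hl g hg)) ?_
    intro S ε hε
    -- a bound for all distances
    obtain ⟨N, hN⟩ : ∃ N : ℕ, (∀ s ∈ S, d (s • x₀) x₀ ≤ N) ∧ ∀ g ∈ l, d x₀ (xc g) ≤ N := by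
      refine ⟨S.sup (fun s => d (s • x₀) x₀) + l.toFinset.sup (fun g => d x₀ (xc g)),
        fun s hs => ?_, fun g hg => ?_⟩
      · exact (Finset.le_sup (f := fun s => d (s • x₀) x₀) hs).trans (Nat.le_add_right _ _)
      · exact (Finset.le_sup (f := fun g => d x₀ (xc g)) (List.mem_toFinset.2 hg)).trans
          (Nat.le_add_left _ _)
    have hN0 : (0 : ℝ) < 2 * N + 1 := by positivity
    refine ⟨min 1 (ε ^ 2 / (2 * N + 1)), lt_min one_pos (by positivity), min_le_left _ _, ?_⟩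
    intro ρ1 hρ1 L η hη
    obtain ⟨Q, hi, hQ, hS⟩ := hSLX (1 - η) η L (by linarith) hη
    refine ⟨Q, hi, hQ, hS, ?_⟩
    intro r hr1 hr2
    have hδ1 : min 1 (ε ^ 2 / (2 * (N : ℝ) + 1)) ≤ 1 := min_le_left _ _
    have hδ2 : min 1 (ε ^ 2 / (2 * (N : ℝ) + 1)) ≤ ε ^ 2 / (2 * N + 1) := min_le_right _ _
    have hδ0 : 0 ≤ min 1 (ε ^ 2 / (2 * (N : ℝ) + 1)) := le_min zero_le_one (by positivity)
    have hr0 : 0 < r := by linarith
    have hr1' : r < 1 := by linarith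
    have hkey : ∀ k : ℕ, k ≤ N → 2 * (1 - r ^ k) ≤ ε ^ 2 := by
      intro k hk
      have h1 := GAX_one_sub r _ N k hr0 hr1' hr1 hk
      have h2 : (2 * (N : ℝ) + 1) * min 1 (ε ^ 2 / (2 * (N : ℝ) + 1)) ≤ ε ^ 2 := by
        calc (2 * (N : ℝ) + 1) * min 1 (ε ^ 2 / (2 * (N : ℝ) + 1))
            ≤ (2 * (N : ℝ) + 1) * (ε ^ 2 / (2 * N + 1)) :=
              mul_le_mul_of_nonneg_left hδ2 hN0.le
          _ = ε ^ 2 := by field_simp
      nlinarith
    obtain ⟨K, _, _, _, P, v, hv, hPv, hdense⟩ := hKRN G X d h0 hsym hinv hcnd r hr0 hr1'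
    obtain ⟨hC0, hL⟩ := hAXO G X d h0 hsym hinv htri hfin r hr0 hr1' K P v hv hPv hdense
    have hvv : ∀ x, ⟪v x, v x⟫_ℝ = 1 := fun x => by rw [hv, h0, pow_zero]
    refine ⟨K, inferInstance, inferInstance, inferInstance, P, v x₀, hC0, ?_, ?_, ?_, ?_⟩
    · have h1 : ‖v x₀‖ ^ 2 = 1 := by rw [← real_inner_self_eq_norm_sq, hvv]
      have h2 := norm_nonneg (v x₀)
      nlinarith
    · intro s hs
      rw [hPv]
      exact GAX_dist _ _ _ ε (hvv _) (hvv _) (hv _ _) hε.le (hkey _ (hN.1 s hs))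
    · intro c hc
      exact absurd hc List.not_mem_nil
    · intro g hg
      have h1 := (hL g (xc g) (ℓ g) (hℓ1 g (hl g hg)) (hℓ g (hl g hg))).near (ξ' := v x₀)
      refine h1.mono ?_
      rw [zero_add]
      exact GAX_dist _ _ _ ε (hvv _) (hvv _) (hv _ _) hε.le (hkey _ (hN.2 g hg))
  simpa using hMF

end

end HGQ
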