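import Pool.Agent.HGP2.Targets

/-!
# HGP2: the class of groups, the class of relators, the Haagerup property
-/

open scoped InnerProductSpace ENNReal
open HGP HNNExtension HNNExtension.NormalWord

namespace HGQ

theorem p_GCY (hGAX : T_GAX) (hGKE : T_GKE) (hGLO : T_GLO) (hGZE : T_GZE) (hGHN : T_GHN) :
    T_GCY := by
  intro G _ h
  induction h with
  | axial G h => exact hGAX G h
  | pull G G' f hf _ ih => exact hGKE G G' f hf ih
  | union G H f h1 h2 _ ih =>
    exact hGLO G fun S => ⟨H S, inferInstance, f S, h1 S, h2 S, ih S⟩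
  | ext N φ _ ih => exact hGZE N φ ih
  | hnn H A B φ h1 _ ih => exact hGHN H A B φ h1 ih

/-- transport along an injective homomorphism -/
lemma Good.inj (hGKE : T_GKE) {G G' : Type} [Group G] [Group G'] (f : G →* G')
    (hf : Function.Injective f) (h : Good G') : Good G := by
  refine hGKE G G' f ?_ h
  rw [(MonoidHom.ker_eq_bot_iff f).2 hf]
  infer_instance

theorem p_GHA : T_GHA := by
  intro G _ _ h
  refine kHAA G ?_
  intro S ε hε
  obtain ⟨Q, hi, hQ, hsl, E, i1, i2, i3, π, ξ, h0, h1, h2, h3⟩ :=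
    h [] (by simp) S 0 ε hε
  refine ⟨E, i1, i2, i3, π, fun _ => PEmpty, fun _ y => y.elim, ξ, h0, by simp, ?_⟩
  exact ⟨h1.le, by rw [h1]; linarith, h2, by simp⟩

theorem p_REL (hGCY : T_GCY) (hGKE : T_GKE) (hGHN : T_GHN) (hONC : T_ONC) (hGFR : T_GFR)
    (hOPP : T_OPP) (hSAM : T_SAM) (hPRU : T_PRU) (hGPI : T_GPI) : T_REL := by
  intro n r h
  induction h with
  | cyc n r h => exact hGCY _ h
  | once n j u v hu hv =>
    obtain ⟨f, hf, -, -⟩ := hONC n j u v hu hv
    exact Good.inj hGKE f hf (hGFR n)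
  | opp n j u v hu hv hu1 hv1 => exact hOPP n j u v hu hv hu1 hv1
  | same n j u v hu hv huv => exact hSAM n j u v hu hv huv
  | conj n r g _ ih =>
    obtain ⟨e, -⟩ := kMOV.2.1 n r g
    exact Good.inj hGKE e.symm.toMonoidHom e.symm.injective ih
  | inv n r _ ih =>
    obtain ⟨e, -⟩ := kMOV.2.2 n r
    exact Good.inj hGKE e.symm.toMonoidHom e.symm.injective ih
  | add n r _ ih =>
    obtain ⟨φ, e, -, -⟩ := kADD n r
    exact Good.inj hGKE e.toMonoidHom e.injective
      (hGHN (OR r) ⊥ ⊥ φ (Or.inl inferInstance) ih)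
  | aut n r f _ ih =>
    obtain ⟨e, -⟩ := kMOV.1 n r f
    exact Good.inj hGKE e.symm.toMonoidHom e.symm.injective ih
  | hnn n r j u hu h1 h2 _ ih =>
    obtain ⟨θ, ⟨e⟩⟩ := hPRU n r j u hu h1 h2
    exact Good.inj hGKE e.toMonoidHom e.injective
      (hGHN (OR r) _ _ θ (Or.inr inferInstance) ih)
  | pinch n r j J w h1 h2 h3 h4 h5 _ ih => exact hGPI n r j J w h1 h2 h3 h4 h5 ih

theorem p_FIN (hREL : T_REL) (hGKE : T_GKE) (hGHA : T_GHA) : T_FIN := by
  intro n r hr G _ f hf
  haveI : Countable (OR r) := by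
    unfold OR
    exact Quotient.countable
  haveI : Countable G := hf.countable
  exact hGHA G (Good.inj hGKE f hf (hREL n r hr))

end HGQ
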