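import Pool.Agent.HGP2.Targets

/-!
# HGP2: T_GFR (free groups), by helper58
-/

open scoped InnerProductSpace ENNReal
open HGP HNNExtension

namespace HGQ

theorem GFR_zero (hGAX : T_GAX) : Good (FreeGroup (Fin 0)) := by
  apply hGAX
  haveI : Subsingleton (FreeGroup (Fin 0)) := inferInstance
  refine ⟨PUnit, inferInstance, PUnit.unit, fun _ _ => 0, fun _ => rfl, fun _ _ => rfl,
    fun _ _ _ => rfl, ?_, fun R => Set.toFinite _, ?_⟩
  · intro n x c _
    simp
  · intro c hc
    exfalso
    apply hc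
    rw [Subsingleton.elim c 1]
    exact IsOfFinOrder.one

theorem GFR_succ (hGHN : T_GHN) (hGKE : T_GKE) (n : ℕ) (h : Good (FreeGroup (Fin n))) :
    Good (FreeGroup (Fin (n + 1))) := by
  have h1 := hGHN (FreeGroup (Fin n)) ⊥ ⊥ (MulEquiv.refl _) (Or.inl inferInstance) h
  let f : FreeGroup (Fin (n + 1)) →*
      HNNExtension (FreeGroup (Fin n)) ⊥ ⊥ (MulEquiv.refl _) :=
    FreeGroup.lift (Fin.lastCases HNNExtension.t fun i => HNNExtension.of (FreeGroup.of i))
  let g : HNNExtension (FreeGroup (Fin n)) ⊥ ⊥ (MulEquiv.refl _) →* FreeGroup (Fin (n + 1)) :=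
    HNNExtension.lift (FreeGroup.map Fin.castSucc) (FreeGroup.of (Fin.last n)) (by
      rintro ⟨a, ha⟩
      obtain rfl := Subgroup.mem_bot.1 ha
      simp)
  have hgf : g.comp f = MonoidHom.id _ := by
    ext i
    refine Fin.lastCases ?_ (fun i => ?_) i
    · simp [f, g]
    · simp [f, g]
  have hinj : Function.Injective f := by
    intro x y hxy
    have h2 := congrArg g hxy
    have h3 := DFunLike.congr_fun hgf x
    have h4 := DFunLike.congr_fun hgf y
    simp only [MonoidHom.comp_apply, MonoidHom.id_apply] at h3 h4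
    rw [← h3, ← h4, h2]
  refine hGKE _ _ f ?_ h1
  rw [(MonoidHom.ker_eq_bot_iff f).2 hinj]
  infer_instance

theorem p_GFR (hGHN : T_GHN) (hGKE : T_GKE) (hGAX : T_GAX) : T_GFR := by
  intro n
  induction n with
  | zero => exact GFR_zero hGAX
  | succ n ih => exact GFR_succ hGHN hGKE n ih

end HGQ
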