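import Pool.Agent.HGP2.Targets

/-!
# HGP2: `T_GHN`, HNN extensions along finite or cyclic subgroups
-/

open scoped InnerProductSpace ENNReal
open HGP HNNExtension HNNExtension.NormalWord

namespace HGQ

noncomputable section

lemma GHN_ev {H : Type} [Group H] {A B : Subgroup H} {φ : A ≃* B} {E : Type}
    [NormedAddCommGroup E] [InnerProductSpace ℝ E] [CompleteSpace E]
    {π : H →* (E ≃ₗᵢ[ℝ] E)} {V : E →L[ℝ] E} {ξ : E} {ε ε' : ℝ} (h : EV φ π V ξ ε)
    (hε : ε ≤ ε') : EV φ π V ξ ε' :=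
  ⟨h.norm, h.tw, h.dec, h.decS, h.inv.trans hε, h.invS.trans hε⟩

lemma GHN_fin {G K : Type} [Group G] [Group K] (f : G →* K) (u : K) (h : G)
    (hc : ¬ IsOfFinOrder (u * f h * u⁻¹)) : ¬ IsOfFinOrder h := by
  intro hh
  exact hc (MonoidHom.isOfFinOrder ((MulAut.conj u).toMonoidHom.comp f) hh)

lemma GHN_split (hCRD : T_CRD) {H : Type} [Group H] {A B : Subgroup H} (φ : A ≃* B)
    (l : List (HNNExtension H A B φ)) (hl : ∀ c ∈ l, ¬ IsOfFinOrder c) :
    ∃ (le : List H) (lh : List (HNNExtension H A B φ)), (∀ h ∈ le, ¬ IsOfFinOrder h) ∧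
      (∀ g ∈ lh, CR φ g) ∧ ∀ c ∈ l, ∃ c₀ ∈ le.map of ++ lh, ∃ u : HNNExtension H A B φ,
        c = u * c₀ * u⁻¹ := by
  induction l with
  | nil => exact ⟨[], [], by simp, by simp, by simp⟩
  | cons c l ih =>
    obtain ⟨le, lh, h1, h2, h3⟩ := ih (fun x hx => hl x (List.mem_cons_of_mem c hx))
    have hc : ¬ IsOfFinOrder c := hl c List.mem_cons_self
    obtain ⟨u, ⟨h, hu⟩ | ⟨g₀, hg, hu⟩⟩ := hCRD H A B φ c
    · refine ⟨h :: le, lh, ?_, h2, ?_⟩
      · intro x hx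
        rcases List.mem_cons.1 hx with rfl | hx
        · exact GHN_fin (of : H →* HNNExtension H A B φ) u x (hu ▸ hc)
        · exact h1 x hx
      · intro x hx
        rcases List.mem_cons.1 hx with rfl | hx
        · exact ⟨of h, by simp, u, hu⟩
        · obtain ⟨c₀, hc₀, v, hv⟩ := h3 x hx
          refine ⟨c₀, ?_, v, hv⟩
          rcases List.mem_append.1 hc₀ with h4 | h4
          · exact List.mem_append.2 (Or.inl (by
              rw [List.map_cons]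
              exact List.mem_cons_of_mem _ h4))
          · exact List.mem_append.2 (Or.inr h4)
    · refine ⟨le, g₀ :: lh, h1, ?_, ?_⟩
      · intro x hx
        rcases List.mem_cons.1 hx with rfl | hx
        · exact hg
        · exact h2 x hx
      · intro x hx
        rcases List.mem_cons.1 hx with rfl | hx
        · exact ⟨g₀, by simp, u, hu⟩
        · obtain ⟨c₀, hc₀, v, hv⟩ := h3 x hx
          refine ⟨c₀, ?_, v, hv⟩
          rcases List.mem_append.1 hc₀ with h4 | h4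
          · exact List.mem_append.2 (Or.inl h4)
          · exact List.mem_append.2 (Or.inr (List.mem_cons_of_mem _ h4))

lemma GHN_num (ε : ℝ) (hε : 0 < ε) : ∃ ε₀ : ℝ, 0 < ε₀ ∧ ε₀ ≤ 1 ∧ ε₀ ≤ ε ∧
    Real.sqrt (6 * ε₀) ≤ ε := by
  refine ⟨min (min 1 ε) (ε ^ 2 / 6), ?_, ?_, ?_, ?_⟩
  · have : 0 < ε ^ 2 / 6 := by positivity
    exact lt_min (lt_min one_pos hε) this
  · exact (min_le_left _ _).trans (min_le_left _ _)
  · exact (min_le_left _ _).trans (min_le_right _ _)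
  · rw [Real.sqrt_le_left hε.le]
    have h := min_le_right (min 1 ε) (ε ^ 2 / 6)
    linarith

lemma GHN_A (hVFI : T_VFI) {H : Type} [Group H] {A B : Subgroup H} (φ : A ≃* B)
    (hA : Finite A) (hG : Good H) (le : List H) (hle : ∀ h ∈ le, ¬ IsOfFinOrder h)
    (S : Finset H) (L : ℕ) (ε : ℝ) (hε : 0 < ε) : ∃ (Q : Mx) (hi : ℝ), Q.Ok (1 - ε) hi ∧
    Slow Q L ε ∧ ∃ (E : Type) (_ : NormedAddCommGroup E) (_ : InnerProductSpace ℝ E)
      (_ : CompleteSpace E) (π : H →* (E ≃ₗᵢ[ℝ] E)) (ξ : E) (V : E →L[ℝ] E), C0 π ∧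
      ‖ξ‖ = 1 ∧ (∀ s ∈ S, ‖π s ξ - ξ‖ ≤ ε) ∧ (∀ c ∈ le, Lc π c ξ Q.md ε) ∧
      EV φ π V ξ ε := by
  classical
  obtain ⟨ε₀, h0, h1, h2, h3⟩ := GHN_num ε hε
  have hB : Finite B := Finite.of_equiv A φ.toEquiv
  have hAf : (A : Set H).Finite := Set.toFinite _
  have hBf : (B : Set H).Finite := Set.toFinite _
  obtain ⟨Q, hi, hQ, hS, E, i1, i2, i3, π, ξ, hC0, hξ, hinv, hlc⟩ :=
    hG le hle (S ∪ (hAf.toFinset ∪ hBf.toFinset)) L ε₀ h0
  have e1 : ∀ a ∈ A, ‖π a ξ - ξ‖ ≤ ε₀ := fun a ha => hinv a (by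
    simp only [Finset.mem_union, Set.Finite.mem_toFinset, SetLike.mem_coe]
    exact Or.inr (Or.inl ha))
  have e2 : ∀ b ∈ B, ‖π b ξ - ξ‖ ≤ ε₀ := fun b hb => hinv b (by
    simp only [Finset.mem_union, Set.Finite.mem_toFinset, SetLike.mem_coe]
    exact Or.inr (Or.inr hb))
  obtain ⟨V, hV⟩ := hVFI H A B φ hA E π ξ ε₀ hC0 hξ h0.le h1 e1 e2
  exact ⟨Q, hi, hQ.mono (by linarith) le_rfl hQ.one, hS.mono le_rfl h2, E, i1, i2, i3, π, ξ, V,
    hC0, hξ, fun s hs => (hinv s (Finset.mem_union_left _ hs)).trans h2,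
    fun c hc => (hlc c hc).mono h2, GHN_ev hV h3⟩

lemma GHN_C (hVCY : T_VCY) (hMOD : T_MOD) {H : Type} [Group H] (a b : H)
    (θ : Subgroup.zpowers a ≃* Subgroup.zpowers b)
    (hθ : (θ ⟨a, Subgroup.mem_zpowers a⟩ : H) = b) (ha : ¬ IsOfFinOrder a)
    (hb : ¬ IsOfFinOrder b) (hG : Good H) (le : List H) (hle : ∀ h ∈ le, ¬ IsOfFinOrder h)
    (S : Finset H) (L : ℕ) (ε : ℝ) (hε : 0 < ε) : ∃ (Q : Mx) (hi : ℝ), Q.Ok (1 - ε) hi ∧
    Slow Q L ε ∧ ∃ (E : Type) (_ : NormedAddCommGroup E) (_ : InnerProductSpace ℝ E)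
      (_ : CompleteSpace E) (π : H →* (E ≃ₗᵢ[ℝ] E)) (ξ : E) (V : E →L[ℝ] E), C0 π ∧
      ‖ξ‖ = 1 ∧ (∀ s ∈ S, ‖π s ξ - ξ‖ ≤ ε) ∧ (∀ c ∈ le, Lc π c ξ Q.md ε) ∧
      EV θ π V ξ ε := by
  obtain ⟨ε₀, h0, h1, h2, h3⟩ := GHN_num ε hε
  have hle' : ∀ h ∈ a :: b :: le, ¬ IsOfFinOrder h := by
    intro x hx
    rcases List.mem_cons.1 hx with rfl | hx
    · exact ha
    · rcases List.mem_cons.1 hx with rfl | hx
      · exact hb
      · exact hle x hx
  obtain ⟨Q, hi, hQ, hS, E, i1, i2, i3, π, ξ, hC0, hξ, hinv, hlc⟩ :=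
    hG (a :: b :: le) hle' S L ε₀ h0
  obtain ⟨V, hV⟩ :=
    hVCY H a b θ hθ E π ξ Q.I Q.md ε₀ hξ (hMOD Q _ hi hQ).2 h0.le h1
      (hlc a (by simp)) (hlc b (by simp))
  exact ⟨Q, hi, hQ.mono (by linarith) le_rfl hQ.one, hS.mono le_rfl h2, E, i1, i2, i3, π, ξ, V,
    hC0, hξ, fun s hs => (hinv s hs).trans h2,
    fun c hc => (hlc c (by simp [hc])).mono h2, GHN_ev hV h3⟩

theorem p_GHN (hCRD : T_CRD) (hVCY : T_VCY) (hVFI : T_VFI) (hTLH : T_TLH) (hMAT : T_MAT)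
    (hCJL : T_CJL) (hMOD : T_MOD) : T_GHN := by
  intro H _ A B φ hAB hG l hl
  obtain ⟨le, lh, h1, h2, h3⟩ := GHN_split hCRD φ l hl
  have key : ∀ (S : Finset H) (L : ℕ) (ε : ℝ), 0 < ε → ∃ (Q : Mx) (hi : ℝ), Q.Ok (1 - ε) hi ∧
    Slow Q L ε ∧ ∃ (E : Type) (_ : NormedAddCommGroup E) (_ : InnerProductSpace ℝ E)
      (_ : CompleteSpace E) (π : H →* (E ≃ₗᵢ[ℝ] E)) (ξ : E) (V : E →L[ℝ] E), C0 π ∧
      ‖ξ‖ = 1 ∧ (∀ s ∈ S, ‖π s ξ - ξ‖ ≤ ε) ∧ (∀ c ∈ le, Lc π c ξ Q.md ε) ∧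
      EV φ π V ξ ε := by
    rcases finite_or_infinite A with hA | hA
    · exact GHN_A hVFI φ hA hG le h1
    · have hcyc : IsCyclic A := by
        rcases hAB with h | h
        · exact absurd h (not_finite_iff_infinite.2 hA)
        · exact h
      obtain ⟨g, hg⟩ := hcyc.exists_generator
      have hAz : A = Subgroup.zpowers (g : H) := by
        apply le_antisymm
        · intro x hx
          obtain ⟨k, hk⟩ := Subgroup.mem_zpowers_iff.1 (hg ⟨x, hx⟩)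
          refine Subgroup.mem_zpowers_iff.2 ⟨k, ?_⟩
          have := congrArg (Subtype.val) hk
          simpa using this
        · rw [Subgroup.zpowers_le]
          exact g.2
      have hBz : B = Subgroup.zpowers (φ g : H) := by
        apply le_antisymm
        · intro x hx
          obtain ⟨k, hk⟩ := Subgroup.mem_zpowers_iff.1 (hg (φ.symm ⟨x, hx⟩))
          refine Subgroup.mem_zpowers_iff.2 ⟨k, ?_⟩
          have h5 := congrArg φ hk
          rw [map_zpow, MulEquiv.apply_symm_apply] at h5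
          have := congrArg (Subtype.val) h5
          simpa using this
        · rw [Subgroup.zpowers_le]
          exact (φ g).2
      have hga : ¬ IsOfFinOrder (g : H) := by
        intro h
        have h6 : (Subgroup.zpowers (g : H) : Set H).Finite := finite_zpowers.2 h
        rw [← hAz] at h6
        exact (not_finite_iff_infinite.2 hA) h6.to_subtype
      have hgb : ¬ IsOfFinOrder (φ g : H) := by
        intro h
        apply hga
        have h7 : IsOfFinOrder (φ g) := by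
          rwa [← Submonoid.isOfFinOrder_coe]
        have h8 : IsOfFinOrder g := by
          have := MonoidHom.isOfFinOrder (φ.symm.toMonoidHom) h7
          simpa using this
        exact MonoidHom.isOfFinOrder A.subtype h8
      have main : ∀ (a b : H) (A' B' : Subgroup H) (φ' : A' ≃* B') (ha : a ∈ A')
          (_ : A' = Subgroup.zpowers a) (_ : B' = Subgroup.zpowers b)
          (_ : (φ' ⟨a, ha⟩ : H) = b), ¬ IsOfFinOrder a → ¬ IsOfFinOrder b →
          ∀ (S : Finset H) (L : ℕ) (ε : ℝ), 0 < ε → ∃ (Q : Mx) (hi : ℝ),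
            Q.Ok (1 - ε) hi ∧ Slow Q L ε ∧ ∃ (E : Type) (_ : NormedAddCommGroup E)
            (_ : InnerProductSpace ℝ E) (_ : CompleteSpace E) (π : H →* (E ≃ₗᵢ[ℝ] E)) (ξ : E)
            (V : E →L[ℝ] E), C0 π ∧ ‖ξ‖ = 1 ∧ (∀ s ∈ S, ‖π s ξ - ξ‖ ≤ ε) ∧
            (∀ c ∈ le, Lc π c ξ Q.md ε) ∧ EV φ' π V ξ ε := by
        intro a b A' B' φ' ha hA' hB' hφ' hfa hfb
        subst hA'
        subst hB'
        exact GHN_C hVCY hMOD a b φ' hφ' hfa hfb hG le h1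
      exact main (g : H) (φ g : H) A B φ g.2 hAz hBz rfl hga hgb
  have hTL := hTLH H A B φ le lh h2 key
  have hMF := hMAT (HNNExtension H A B φ) (le.map of) lh (len φ) (fun g hg => (h2 g hg).1) hTL
  refine hCJL (HNNExtension H A B φ) (le.map of ++ lh) l hMF ?_
  intro c hc
  obtain ⟨c₀, hc₀, u, hu⟩ := h3 c hc
  exact ⟨c₀, hc₀, u, Or.inl hu⟩

end

end HGQ
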