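import Pool.Agent.HGP2.Targets

/-!
# HGP2: target `T_GKE` (homomorphisms with finite kernel)
-/

open scoped InnerProductSpace ENNReal
open HGP

namespace HGQ

noncomputable section

/-- preimages of finite sets are finite -/
lemma GKE_fin {G G' : Type} [Group G] [Group G'] (f : G →* G') (hk : Finite f.ker)
    (T : Set G') (hT : T.Finite) : (f ⁻¹' T).Finite := by
  have h1 : ∀ t : G', (f ⁻¹' {t}).Finite := by
    intro t
    by_cases ht : ∃ g0, f g0 = t
    · obtain ⟨g0, rfl⟩ := ht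
      have hfin : ((fun k : f.ker => g0 * (k : G)) '' Set.univ).Finite := Set.toFinite _
      refine hfin.subset ?_
      intro g hg
      have hg' : f g = f g0 := hg
      refine ⟨⟨g0⁻¹ * g, ?_⟩, Set.mem_univ _, ?_⟩
      · rw [MonoidHom.mem_ker, map_mul, map_inv, hg', inv_mul_cancel]
      · simp
    · have : f ⁻¹' {t} = ∅ := by
        ext g
        simp only [Set.mem_preimage, Set.mem_singleton_iff, Set.mem_empty_iff_false, iff_false]
        exact fun h => ht ⟨g, h⟩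
      rw [this]
      exact Set.finite_empty
  have h2 : f ⁻¹' T = ⋃ t ∈ T, f ⁻¹' {t} := by
    ext g
    simp
  rw [h2]
  exact hT.biUnion fun t _ => h1 t

/-- images of elements of infinite order -/
lemma GKE_ord {G G' : Type} [Group G] [Group G'] (f : G →* G') (hk : Finite f.ker) (c : G)
    (hc : ¬ IsOfFinOrder c) : ¬ IsOfFinOrder (f c) := by
  intro h
  apply hc
  obtain ⟨n, hn, hn1⟩ := isOfFinOrder_iff_pow_eq_one.mp h
  have hmem : c ^ n ∈ f.ker := by
    rw [MonoidHom.mem_ker, map_pow, hn1]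
  have h2 : IsOfFinOrder (⟨c ^ n, hmem⟩ : f.ker) := isOfFinOrder_of_finite _
  obtain ⟨m, hm, hm1⟩ := isOfFinOrder_iff_pow_eq_one.mp h2
  have hm2 : (c ^ n) ^ m = 1 := by
    have := congrArg (Subtype.val) hm1
    simpa using this
  exact isOfFinOrder_iff_pow_eq_one.mpr ⟨n * m, Nat.mul_pos hn hm, by rw [pow_mul, hm2]⟩

theorem p_GKE : T_GKE := by
  intro G G' _ _ f hk hG l hl S L ε hε
  classical
  have hl' : ∀ c ∈ l.map f, ¬ IsOfFinOrder c := by
    intro c hc
    obtain ⟨c0, h0, rfl⟩ := List.mem_map.mp hc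
    exact GKE_ord f hk c0 (hl c0 h0)
  obtain ⟨Q, hi, hQ, hs, E, i1, i2, i3, π, ξ, hc0, hξ, hS, hL⟩ :=
    hG (l.map f) hl' (S.image f) L ε hε
  refine ⟨Q, hi, hQ, hs, E, i1, i2, i3, π.comp f, ξ, ?_, hξ, ?_, ?_⟩
  · intro u v δ hδ
    have h := hc0 u v δ hδ
    exact GKE_fin f hk _ h
  · intro s hs'
    exact hS (f s) (Finset.mem_image_of_mem f hs')
  · intro c hc
    obtain ⟨C, hC, hCM⟩ := hL (f c) (List.mem_map_of_mem hc)
    refine ⟨C, ⟨hC.norm, fun u => hC.comm u, fun u δ hδ => ?_⟩, hCM⟩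
    obtain ⟨T, hT⟩ := hC.dec u δ hδ
    have hfin := GKE_fin f hk (T : Set G') T.finite_toSet
    refine ⟨hfin.toFinset, fun g hg => ?_⟩
    obtain ⟨m, x, hx, hgx⟩ := hT (f g) hg
    refine ⟨m, c ^ (-m) * g, ?_, ?_⟩
    · rw [Set.Finite.mem_toFinset, Set.mem_preimage, map_mul, map_zpow, hgx, zpow_neg,
        inv_mul_cancel_left]
      exact hx
    · rw [zpow_neg, mul_inv_cancel_left]

end

end HGQ
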