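import Pool.Agent.HGP2.Targets

/-!
# HGP2: pinching
-/

open scoped InnerProductSpace ENNReal
open HGP HNNExtension HNNExtension.NormalWord

namespace HGQ

noncomputable section

theorem p_GPI (hPIE : T_PIE) (hGAD : T_GAD) (hGHN : T_GHN) (hGKE : T_GKE) : T_GPI := by
  intro n r j J w hj hw hw1 hr hfo hG
  obtain ⟨θ, f, hf⟩ := hPIE n r j J w hj hw hw1 hr hfo
  have h1 : Good (OR (FreeGroup.map (Fin.castAdd n) r)) := hGAD n n r hG
  have h2 := hGHN _ _ _ θ (Or.inr inferInstance) h1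
  refine hGKE _ _ f ?_ h2
  have : f.ker = ⊥ := (MonoidHom.ker_eq_bot_iff f).2 hf
  rw [this]
  infer_instance

end

end HGQ
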