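import Pool.Agent.HGP2.Targets

/-!
# HGP2, T_GZE: extensions by the integers
-/

set_option autoImplicit false

open scoped InnerProductSpace ENNReal
open HGP HNNExtension HNNExtension.NormalWord

namespace HGQ

noncomputable section

/-- an element of the normal subgroup is in the image of `inl` -/
lemma GZE_inl {N : Type} [Group N] (φ : Multiplicative ℤ →* MulAut N)
    (g : N ⋊[φ] Multiplicative ℤ) (hg : Multiplicative.toAdd g.right = 0) :
    g = SemidirectProduct.inl g.left := by
  apply SemidirectProduct.ext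
  · rfl
  · rw [SemidirectProduct.right_inl]
    exact hg

/-- the exponent of the inverse -/
lemma GZE_inv {N : Type} [Group N] (φ : Multiplicative ℤ →* MulAut N)
    (g : N ⋊[φ] Multiplicative ℤ) :
    Multiplicative.toAdd (g⁻¹).right = -Multiplicative.toAdd g.right := by
  rw [SemidirectProduct.inv_right, toAdd_inv]

theorem p_GZE (hTLZ : T_TLZ) (hMAT : T_MAT) (hCJL : T_CJL) : T_GZE := by
  classical
  intro N _ φ hN l hl
  let le : List N := (l.filter (fun g => Multiplicative.toAdd g.right = 0)).map (fun g => g.left)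
  let lh : List (N ⋊[φ] Multiplicative ℤ) :=
    l.filter (fun g => 1 ≤ Multiplicative.toAdd g.right) ++
      (l.filter (fun g => Multiplicative.toAdd g.right ≤ -1)).map (fun g => g⁻¹)
  have h1 : ∀ c ∈ le, ¬ IsOfFinOrder c := by
    intro c hc
    obtain ⟨g, hg, rfl⟩ := List.mem_map.1 hc
    obtain ⟨hg1, hg2⟩ := List.mem_filter.1 hg
    have hg3 : Multiplicative.toAdd g.right = 0 := by simpa using hg2
    intro hf
    apply hl g hg1
    rw [GZE_inl φ g hg3]
    exact MonoidHom.isOfFinOrder (SemidirectProduct.inl : N →* N ⋊[φ] Multiplicative ℤ) hf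
  have h2 : ∀ g ∈ lh, 1 ≤ Multiplicative.toAdd g.right := by
    intro g hg
    rcases List.mem_append.1 hg with hg | hg
    · have := (List.mem_filter.1 hg).2
      simpa using this
    · obtain ⟨g', hg', rfl⟩ := List.mem_map.1 hg
      have h3 : Multiplicative.toAdd g'.right ≤ -1 := by
        have := (List.mem_filter.1 hg').2
        simpa using this
      rw [GZE_inv]
      omega
  have h3 : ∀ g ∈ lh, 1 ≤ (Multiplicative.toAdd g.right).toNat := by
    intro g hg
    have := h2 g hg
    omega
  have h4 := hMAT _ _ _ _ h3 (hTLZ N φ hN le lh h1 h2)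
  refine hCJL _ _ _ h4 ?_
  intro c hc
  rcases lt_trichotomy (Multiplicative.toAdd c.right) 0 with h | h | h
  · refine ⟨c⁻¹, List.mem_append_right _ (List.mem_append_right _ ?_), 1, Or.inr (by simp)⟩
    refine List.mem_map.2 ⟨c, List.mem_filter.2 ⟨hc, ?_⟩, rfl⟩
    have : Multiplicative.toAdd c.right ≤ -1 := by omega
    simpa using this
  · refine ⟨c, List.mem_append_left _ ?_, 1, Or.inl (by simp)⟩
    refine List.mem_map.2 ⟨c.left, ?_, (GZE_inl φ c h).symm⟩
    refine List.mem_map.2 ⟨c, List.mem_filter.2 ⟨hc, ?_⟩, rfl⟩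
    simpa using h
  · refine ⟨c, List.mem_append_right _ (List.mem_append_left _ ?_), 1, Or.inl (by simp)⟩
    refine List.mem_filter.2 ⟨hc, ?_⟩
    have : 1 ≤ Multiplicative.toAdd c.right := by omega
    simpa using this

end

end HGQ
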