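import Pool.Agent.HGP2.Targets

/-!
# HGP2: target T_HNG (the function `W` and its Hilbert space)
-/

open scoped InnerProductSpace ENNReal
open HGP HNNExtension HNNExtension.NormalWord

namespace HGQ

set_option maxHeartbeats 4000000

noncomputable section

/-- decay of the coefficients -/
lemma HNG_c0 (H : Type) [Group H] (A B : Subgroup H) (φ : A ≃* B) (E : Type)
    [NormedAddCommGroup E] [InnerProductSpace ℝ E] [CompleteSpace E] (π : H →* (E ≃ₗᵢ[ℝ] E))
    (V : E →L[ℝ] E) (W : HNNExtension H A B φ → (E →L[ℝ] E)) (hW : Sys φ π V W)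
    (hC0 : C0 π) (hV : ‖V‖ < 1)
    (hd1 : ∀ (u : E) (δ : ℝ), 0 < δ → ∃ T : Finset H, ∀ h : H, δ ≤ ‖V (π h u)‖ →
      ∃ a ∈ A, ∃ x ∈ T, h = a * x)
    (hd2 : ∀ (u : E) (δ : ℝ), 0 < δ → ∃ T : Finset H, ∀ h : H,
      δ ≤ ‖ContinuousLinearMap.adjoint V (π h u)‖ → ∃ b ∈ B, ∃ x ∈ T, h = b * x)
    (u v : E) (δ : ℝ) (hδ : 0 < δ) :
    {g : HNNExtension H A B φ | δ ≤ |⟪W g u, v⟫_ℝ|}.Finite := by
  have hv : 0 < ‖v‖ + 1 := by positivity
  let p : Seminorm ℝ E :=
    { toFun := fun u => |⟪u, v⟫_ℝ| / (‖v‖ + 1)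
      map_zero' := by simp
      add_le' := by
        intro x y
        rw [inner_add_left, ← add_div]
        exact div_le_div_of_nonneg_right (abs_add_le _ _) hv.le
      neg' := by
        intro x
        rw [inner_neg_left, abs_neg]
      smul' := by
        intro c x
        rw [real_inner_smul_left, abs_mul, mul_div_assoc]
        rfl }
  have hp : ∀ u, p u = |⟪u, v⟫_ℝ| / (‖v‖ + 1) := fun u => rfl
  have hle : ∀ u, p u ≤ ‖u‖ := by
    intro u
    rw [hp, div_le_iff₀ hv]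
    calc |⟪u, v⟫_ℝ| ≤ ‖u‖ * ‖v‖ := abs_real_inner_le_norm u v
      _ ≤ ‖u‖ * (‖v‖ + 1) := by
        apply mul_le_mul_of_nonneg_left _ (norm_nonneg _)
        linarith
  obtain ⟨T, hT⟩ := kLC H A B φ E π V W hW hV hd1 hd2 p ⊥ hle
    (by
      intro c hc u
      rw [Subgroup.mem_bot] at hc
      rw [hc, map_one]
      rfl)
    (by
      intro u δ hδ
      have hfin := hC0 u v (δ * (‖v‖ + 1)) (by positivity)
      refine ⟨hfin.toFinset, fun h hh => ⟨1, Subgroup.mem_bot.2 rfl, h, ?_, by simp⟩⟩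
      rw [Set.Finite.mem_toFinset, Set.mem_ofPred_eq]
      rw [hp, le_div_iff₀ hv] at hh
      exact hh)
    u (δ / (‖v‖ + 1)) (by positivity)
  refine T.finite_toSet.subset ?_
  intro g hg
  rw [Set.mem_ofPred_eq] at hg
  obtain ⟨c, hc, x, hx, hgx⟩ := hT g (by
    rw [hp]
    exact div_le_div_of_nonneg_right hg hv.le)
  rw [Subgroup.mem_bot] at hc
  rw [hc, map_one, one_mul] at hgx
  rw [hgx]
  exact hx

/-- the norm after the operator is invariant under the cyclic group -/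
lemma HNG_inv {H E I : Type} [Group H] [NormedAddCommGroup E] [InnerProductSpace ℝ E]
    (π : H →* (E ≃ₗᵢ[ℝ] E)) (c : H) (C : E →L[ℝ] L2 (ℤ × I) ℝ)
    (hc : ∀ u, C (π c u) = S1 I (C u)) :
    ∀ c' ∈ Subgroup.zpowers c, ∀ u, ‖C (π c' u)‖ = ‖C u‖ := by
  let S : Subgroup H :=
    { carrier := {h | ∀ u, ‖C (π h u)‖ = ‖C u‖}
      mul_mem' := by
        intro a b ha hb u
        have h1 : π (a * b) u = π a (π b u) := by rw [map_mul]; rfl
        rw [h1, ha, hb]
      one_mem' := by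
        intro u
        have h1 : π 1 u = u := by rw [map_one]; rfl
        rw [h1]
      inv_mem' := by
        intro a ha u
        have h1 : π a (π a⁻¹ u) = u := by
          have h2 : π (a * a⁻¹) u = π a (π a⁻¹ u) := by rw [map_mul]; rfl
          rw [← h2, mul_inv_cancel, map_one]
          rfl
        have h3 := ha (π a⁻¹ u)
        rw [h1] at h3
        exact h3.symm }
  have hS : c ∈ S := by
    intro u
    rw [hc, LinearIsometryEquiv.norm_map]
  intro c' hc' u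
  exact (Subgroup.zpowers_le.2 hS hc') u

theorem p_HNG (hKGC : T_KGC) : T_HNG := by
  intro H _ A B φ E _ _ _ π V hC0 hV htw hd1 hd2
  obtain ⟨W, hW⟩ := kSYS H A B φ E π V hV.le htw
  obtain ⟨s1, -, s3, -, -, -, s7, -, -⟩ := kSP H A B φ E π V W hW
  have hW1u : ∀ u : E, W 1 u = u := by
    intro u
    have h := s1 1 u
    simpa using h
  have hW1 : W 1 = 1 := by
    ext u
    simpa using hW1u u
  obtain ⟨K, i1, i2, i3, P, ι, hP, hdense⟩ := kGNS (HNNExtension H A B φ) E W hW1 s7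
    (kPOS H A B φ E π V W hW)
  obtain ⟨ga, -⟩ := kKGB (HNNExtension H A B φ) E W K P ι hP hdense
  refine ⟨W, K, i1, i2, i3, P, ι, hW,
    ga (fun u v δ hδ => HNG_c0 H A B φ E π V W hW hC0 hV hd1 hd2 u v δ hδ), hP, hdense, ?_⟩
  intro c I C hC
  obtain ⟨C', hC', hC'2⟩ := hKGC (HNNExtension H A B φ) E W K P ι hP hdense (of c) I C hC.norm
    (fun g u => by rw [s3, hC.comm])
    (by
      intro u δ hδ
      obtain ⟨T, hT⟩ := kLC H A B φ E π V W hW hV hd1 hd2
        ((normSeminorm ℝ (L2 (ℤ × I) ℝ)).comp C.toLinearMap) (Subgroup.zpowers c)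
        (fun u => hC.le u)
        (fun c' hc' u => HNG_inv π c C hC.comm c' hc' u)
        (by
          intro u δ hδ
          obtain ⟨T, hT⟩ := hC.dec u δ hδ
          refine ⟨T, fun h hh => ?_⟩
          obtain ⟨m, x, hx, hhx⟩ := hT h hh
          exact ⟨c ^ m, Subgroup.zpow_mem_zpowers c m, x, hx, hhx⟩)
        u δ hδ
      refine ⟨T, fun g hg => ?_⟩
      obtain ⟨c', hc', x, hx, hgx⟩ := hT g hg
      obtain ⟨m, rfl⟩ := Subgroup.mem_zpowers_iff.1 hc'
      refine ⟨m, x, hx, ?_⟩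
      rw [hgx, map_zpow])
  refine ⟨C', hC', fun u => ?_⟩
  have h := hC'2 1 u
  have h1 : P 1 (ι u) = ι u := by
    rw [map_one]
    rfl
  rw [h1, hW1u] at h
  exact h

end

end HGQ
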