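import Pool.Agent.HGP2.Targets

/-!
# HGP2: target `HYA`
-/

open scoped InnerProductSpace ENNReal
open HGP HNNExtension HNNExtension.NormalWord

namespace HGQ

noncomputable section

section

variable {K : Type} [NormedAddCommGroup K] [InnerProductSpace ℝ K]

lemma HYA_inv (U : K ≃ₗᵢ[ℝ] K) (m : ℤ) (y z : K) :
    ⟪(U ^ (-m)) y, z⟫_ℝ = ⟪y, (U ^ m) z⟫_ℝ := by
  have h : (U ^ m) ((U ^ (-m)) y) = y := by
    have h1 : (U ^ m) * (U ^ (-m)) = 1 := by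
      rw [← zpow_add, add_neg_cancel, zpow_zero]
    have h2 := congrArg (fun V : K ≃ₗᵢ[ℝ] K => V y) h1
    exact h2
  calc ⟪(U ^ (-m)) y, z⟫_ℝ = ⟪(U ^ m) ((U ^ (-m)) y), (U ^ m) z⟫_ℝ :=
        ((U ^ m).inner_map_map _ _).symm
    _ = ⟪y, (U ^ m) z⟫_ℝ := by rw [h]

lemma HYA_mul (U : K ≃ₗᵢ[ℝ] K) (m n : ℤ) (y : K) :
    (U ^ m) ((U ^ n) y) = (U ^ (m + n)) y := by
  rw [zpow_add]
  rfl

lemma HYA_orth (U : K ≃ₗᵢ[ℝ] K) (D : K) (h : ∀ m : ℤ, m ≠ 0 → ⟪(U ^ m) D, D⟫_ℝ = 0)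
    {m n : ℤ} (hmn : m ≠ n) : ⟪(U ^ m) D, (U ^ n) D⟫_ℝ = 0 := by
  rw [← HYA_inv, HYA_mul]
  exact h _ (by omega)

/-- Bessel -/
lemma HYA_bessel (U : K ≃ₗᵢ[ℝ] K) (D : K) (h : ∀ m : ℤ, m ≠ 0 → ⟪(U ^ m) D, D⟫_ℝ = 0) (y : K) :
    Summable (fun m : ℤ => ⟪(U ^ (-m)) y, ‖D‖⁻¹ • D⟫_ℝ ^ 2) ∧
      ∑' m : ℤ, ⟪(U ^ (-m)) y, ‖D‖⁻¹ • D⟫_ℝ ^ 2 ≤ ‖y‖ ^ 2 := by
  by_cases hD : D = 0
  · subst hD
    simp only [smul_zero, inner_zero_right]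
    refine ⟨?_, ?_⟩
    · simp
    · simp
  · have hn : ‖D‖ ≠ 0 := norm_ne_zero_iff.2 hD
    have ho : Orthonormal ℝ (fun m : ℤ => (U ^ m) (‖D‖⁻¹ • D)) := by
      refine ⟨fun m => ?_, fun m n hmn => ?_⟩
      · rw [LinearIsometryEquiv.norm_map, norm_smul, norm_inv, norm_norm, inv_mul_cancel₀ hn]
      · show ⟪(U ^ m) (‖D‖⁻¹ • D), (U ^ n) (‖D‖⁻¹ • D)⟫_ℝ = 0
        rw [map_smul, map_smul, inner_smul_left, inner_smul_right, HYA_orth U D h hmn]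
        simp
    have hs := ho.inner_products_summable (x := y)
    have ht := ho.tsum_inner_products_le (x := y)
    have he : (fun m : ℤ => ‖⟪(U ^ m) (‖D‖⁻¹ • D), y⟫_ℝ‖ ^ 2) =
        fun m : ℤ => ⟪(U ^ (-m)) y, ‖D‖⁻¹ • D⟫_ℝ ^ 2 := by
      funext m
      rw [HYA_inv, real_inner_comm, Real.norm_eq_abs, sq_abs]
    rw [he] at hs ht
    exact ⟨hs, ht⟩

lemma HYA_unit (f : ℤ × Unit → ℝ) :
    (Summable fun q => f q ^ 2) ↔ Summable fun m : ℤ => f (m, ()) ^ 2 :=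
  ((Equiv.prodPUnit ℤ).symm.summable_iff (f := fun q : ℤ × Unit => f q ^ 2)).symm

lemma HYA_unit' (f : ℤ × Unit → ℝ) :
    ∑' q, f q ^ 2 = ∑' m : ℤ, f (m, ()) ^ 2 :=
  ((Equiv.prodPUnit ℤ).symm.tsum_eq (fun q : ℤ × Unit => f q ^ 2)).symm

/-- the operator -/
def HYA_C (U : K ≃ₗᵢ[ℝ] K) (D : K) (h : ∀ m : ℤ, m ≠ 0 → ⟪(U ^ m) D, D⟫_ℝ = 0) :
    K →L[ℝ] L2 (ℤ × Unit) ℝ :=
  LinearMap.mkContinuous
    { toFun := fun y => ⟨fun q => ⟪(U ^ (-q.1)) y, ‖D‖⁻¹ • D⟫_ℝ, by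
        show Memℓp _ 2
        rw [mem2]
        simp only [Real.norm_eq_abs, sq_abs]
        exact (HYA_unit _).2 (HYA_bessel U D h y).1⟩
      map_add' := fun y z => by
        ext q
        show ⟪(U ^ (-q.1)) (y + z), ‖D‖⁻¹ • D⟫_ℝ = ⟪(U ^ (-q.1)) y, ‖D‖⁻¹ • D⟫_ℝ +
          ⟪(U ^ (-q.1)) z, ‖D‖⁻¹ • D⟫_ℝ
        rw [map_add, inner_add_left]
      map_smul' := fun c y => by
        ext q
        show ⟪(U ^ (-q.1)) (c • y), ‖D‖⁻¹ • D⟫_ℝ = c * ⟪(U ^ (-q.1)) y, ‖D‖⁻¹ • D⟫_ℝ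
        rw [map_smul, inner_smul_left]
        rfl } 1 (fun y => by
      rw [one_mul]
      refine abs_le_of_sq_le_sq' ?_ (norm_nonneg _) |>.2
      rw [norm_sq_L, HYA_unit']
      exact (HYA_bessel U D h y).2)

lemma HYA_C_apply (U : K ≃ₗᵢ[ℝ] K) (D : K) (h : ∀ m : ℤ, m ≠ 0 → ⟪(U ^ m) D, D⟫_ℝ = 0) (y : K)
    (m : ℤ) : HYA_C U D h y (m, ()) = ⟪(U ^ (-m)) y, ‖D‖⁻¹ • D⟫_ℝ := rfl

lemma HYA_C_norm (U : K ≃ₗᵢ[ℝ] K) (D : K) (h : ∀ m : ℤ, m ≠ 0 → ⟪(U ^ m) D, D⟫_ℝ = 0) :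
    ‖HYA_C U D h‖ ≤ 1 :=
  LinearMap.mkContinuous_norm_le _ zero_le_one _

lemma HYA_C_comm (U : K ≃ₗᵢ[ℝ] K) (D : K) (h : ∀ m : ℤ, m ≠ 0 → ⟪(U ^ m) D, D⟫_ℝ = 0) (y : K) :
    HYA_C U D h (U y) = S1 Unit (HYA_C U D h y) := by
  ext q
  obtain ⟨m, u⟩ := q
  cases u
  rw [S1_apply, HYA_C_apply, HYA_C_apply]
  have h1 : (U ^ (-m)) (U y) = (U ^ (-(m - 1))) y := by
    have := HYA_mul U (-m) 1 y
    rw [zpow_one] at this
    rw [this]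
    congr 2
    ring
  rw [h1]

/-- the series -/
lemma HYA_series [CompleteSpace K] (U : K ≃ₗᵢ[ℝ] K) (D : K)
    (h : ∀ m : ℤ, m ≠ 0 → ⟪(U ^ m) D, D⟫_ℝ = 0) (ρ : ℝ)
    (h0 : 0 < ρ) (h1 : ρ < 1) :
    ∃ y : K, y = U D + ρ • U y ∧
      ∀ m : ℤ, ⟪(U ^ (-m)) y, D⟫_ℝ = if 1 ≤ m then ρ ^ (m - 1).toNat * ‖D‖ ^ 2 else 0 := by
  have hs : Summable (fun n : ℕ => ρ ^ n • (U ^ ((n : ℤ) + 1)) D) := by
    refine Summable.of_norm_bounded (g := fun n : ℕ => ρ ^ n * ‖D‖)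
      ((summable_geometric_of_lt_one h0.le h1).mul_right _) fun n => ?_
    rw [norm_smul, LinearIsometryEquiv.norm_map, norm_pow, Real.norm_eq_abs, abs_of_pos h0]
  refine ⟨∑' n : ℕ, ρ ^ n • (U ^ ((n : ℤ) + 1)) D, ?_, fun m => ?_⟩
  · have h2 : U (∑' n : ℕ, ρ ^ n • (U ^ ((n : ℤ) + 1)) D) =
        ∑' n : ℕ, U (ρ ^ n • (U ^ ((n : ℤ) + 1)) D) :=
      (U.toContinuousLinearEquiv : K →L[ℝ] K).map_tsum hs
    rw [h2, ← tsum_const_smul'' ρ, hs.tsum_eq_zero_add]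
    congr 1
    · simp
    · refine tsum_congr fun n => ?_
      rw [map_smul, smul_smul, pow_succ']
      congr 1
      have := HYA_mul U 1 ((n : ℤ) + 1) D
      rw [zpow_one] at this
      rw [this]
      congr 2
      push_cast
      ring
  · have h2 : (U ^ (-m)) (∑' n : ℕ, ρ ^ n • (U ^ ((n : ℤ) + 1)) D) =
        ∑' n : ℕ, (U ^ (-m)) (ρ ^ n • (U ^ ((n : ℤ) + 1)) D) :=
      ((U ^ (-m)).toContinuousLinearEquiv : K →L[ℝ] K).map_tsum hs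
    have hs2 : Summable (fun n : ℕ => (U ^ (-m)) (ρ ^ n • (U ^ ((n : ℤ) + 1)) D)) :=
      ((U ^ (-m)).toContinuousLinearEquiv : K →L[ℝ] K).summable hs
    have h3 : ⟪∑' n : ℕ, (U ^ (-m)) (ρ ^ n • (U ^ ((n : ℤ) + 1)) D), D⟫_ℝ =
        ∑' n : ℕ, ⟪(U ^ (-m)) (ρ ^ n • (U ^ ((n : ℤ) + 1)) D), D⟫_ℝ := by
      rw [real_inner_comm, ← innerSL_apply_apply ℝ, ContinuousLinearMap.map_tsum _ hs2]
      refine tsum_congr fun n => ?_
      rw [innerSL_apply_apply, real_inner_comm]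
    have h4 : ∀ n : ℕ, ⟪(U ^ (-m)) (ρ ^ n • (U ^ ((n : ℤ) + 1)) D), D⟫_ℝ =
        if (n : ℤ) + 1 = m then ρ ^ n * ‖D‖ ^ 2 else 0 := by
      intro n
      rw [map_smul, inner_smul_left, HYA_mul]
      split_ifs with hn
      · have : -m + ((n : ℤ) + 1) = 0 := by omega
        rw [this, zpow_zero]
        show ρ ^ n * ⟪D, D⟫_ℝ = _
        rw [real_inner_self_eq_norm_sq]
      · rw [h _ (by omega), mul_zero]
    rw [h2, h3]
    simp only [h4]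
    split_ifs with hm
    · rw [tsum_eq_single (m - 1).toNat]
      · rw [if_pos (by omega)]
      · intro n hn
        rw [if_neg (by omega)]
    · refine (tsum_congr fun n => ?_).trans tsum_zero
      rw [if_neg (by omega)]

end

/-- the target `HYA` -/
theorem p_HYA (hMOD : T_MOD) : T_HYA := by
  intro K _ _ _ U x D e ρ h0 h1 hx hD horth
  refine ⟨HYA_C U D horth, HYA_C_norm U D horth, HYA_C_apply U D horth, HYA_C_comm U D horth, ?_⟩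
  obtain ⟨y, hy, hc⟩ := HYA_series U D horth ρ h0 h1
  have hr : 0 < 1 - ρ := by linarith
  have hr2 : 0 < 1 - ρ ^ 2 := by nlinarith
  have hs : 0 < Real.sqrt (1 - ρ ^ 2) := Real.sqrt_pos.2 hr2
  -- distance of x and y
  have hxy : ‖x - y‖ ≤ ‖e‖ / (1 - ρ) := by
    have h2 : x - y = ρ • U (x - y) - e := by
      calc x - y = x - (U D + ρ • U y) := by rw [← hy]
        _ = x - ((x - ρ • U x + e) + ρ • U y) := by rw [hD]
        _ = ρ • U (x - y) - e := by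
            rw [map_sub, smul_sub]
            abel
    have h3 : ‖x - y‖ ≤ ρ * ‖x - y‖ + ‖e‖ := by
      calc ‖x - y‖ = ‖ρ • U (x - y) - e‖ := by rw [← h2]
        _ ≤ ‖ρ • U (x - y)‖ + ‖e‖ := norm_sub_le _ _
        _ = ρ * ‖x - y‖ + ‖e‖ := by
            rw [norm_smul, LinearIsometryEquiv.norm_map, Real.norm_eq_abs, abs_of_pos h0]
    rw [le_div_iff₀ hr]
    nlinarith
  -- norm of y
  have hny : ‖y‖ = ‖D‖ / Real.sqrt (1 - ρ ^ 2) := by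
    have h2 : ⟪y, D⟫_ℝ = 0 := by
      have := hc 0
      rw [if_neg (by norm_num)] at this
      simpa using this
    have h3 : ‖y‖ ^ 2 = ‖D‖ ^ 2 + ρ ^ 2 * ‖y‖ ^ 2 := by
      calc ‖y‖ ^ 2 = ‖U D + ρ • U y‖ ^ 2 := by rw [← hy]
        _ = ‖D‖ ^ 2 + ρ ^ 2 * ‖y‖ ^ 2 := by
            rw [norm_add_sq_real, inner_smul_right, U.inner_map_map, real_inner_comm, h2,
              norm_smul, LinearIsometryEquiv.norm_map, LinearIsometryEquiv.norm_map,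
              Real.norm_eq_abs, abs_of_pos h0]
            ring
    rw [eq_div_iff hs.ne']
    have h5 : (‖y‖ * Real.sqrt (1 - ρ ^ 2)) ^ 2 = ‖D‖ ^ 2 := by
      rw [mul_pow, Real.sq_sqrt hr2.le]
      linarith
    exact (pow_left_inj₀ (by positivity) (norm_nonneg _) two_ne_zero).1 h5
  obtain ⟨hf, hfn⟩ := hMOD (Mx.one1 ρ) 0 ρ
    { nn := fun _ => zero_le_one
      sum := by
        have := hasSum_unique (fun _ : Unit => (1 : ℝ))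
        exact this
      pos := fun _ => h0
      lb := fun _ => h0
      ub := fun _ => le_rfl
      one := h1 }
  have hCy : HYA_C U D horth y = (‖D‖ / Real.sqrt (1 - ρ ^ 2)) • f1 ρ := by
    ext q
    obtain ⟨m, u⟩ := q
    cases u
    have hfm : f1 ρ (m, ()) = gm 1 ρ m := hf m ()
    rw [HYA_C_apply, inner_smul_right, hc]
    show _ = (‖D‖ / Real.sqrt (1 - ρ ^ 2)) * f1 ρ (m, ())
    rw [hfm]
    unfold gm
    split_ifs with hm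
    · rw [Real.sqrt_one, one_mul]
      have h2 : ‖D‖⁻¹ * (ρ ^ (m - 1).toNat * ‖D‖ ^ 2) = ρ ^ (m - 1).toNat * ‖D‖ := by
        by_cases hD0 : ‖D‖ = 0
        · rw [hD0]; simp
        · field_simp
      rw [h2]
      field_simp
    · rw [mul_zero, mul_zero]
  have h2 : ‖HYA_C U D horth x - HYA_C U D horth y‖ ≤ ‖x - y‖ := by
    rw [← map_sub]
    calc ‖HYA_C U D horth (x - y)‖ ≤ ‖HYA_C U D horth‖ * ‖x - y‖ :=
          ContinuousLinearMap.le_opNorm _ _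
      _ ≤ 1 * ‖x - y‖ := mul_le_mul_of_nonneg_right (HYA_C_norm U D horth) (norm_nonneg _)
      _ = ‖x - y‖ := one_mul _
  have h3 : ‖HYA_C U D horth y - f1 ρ‖ ≤ ‖x - y‖ := by
    have h4 : HYA_C U D horth y - f1 ρ = (‖y‖ - 1) • f1 ρ := by
      rw [hCy, hny, sub_smul, one_smul]
    have h5 : ‖f1 ρ‖ = 1 := hfn
    rw [h4, norm_smul, h5, mul_one, Real.norm_eq_abs, ← hx, abs_sub_comm]
    exact abs_norm_sub_norm_le x y
  calc ‖HYA_C U D horth x - f1 ρ‖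
      = ‖(HYA_C U D horth x - HYA_C U D horth y) + (HYA_C U D horth y - f1 ρ)‖ := by
        rw [sub_add_sub_cancel]
    _ ≤ ‖x - y‖ + ‖x - y‖ := (norm_add_le _ _).trans (add_le_add h2 h3)
    _ ≤ ‖e‖ / (1 - ρ) + ‖e‖ / (1 - ρ) := add_le_add hxy hxy
    _ = 2 * ‖e‖ / (1 - ρ) := by ring

end

end HGQ
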