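import Pool.Agent.HGP2.Targets

set_option autoImplicit false
set_option maxHeartbeats 4000000

/-!
# HGP2: hyperbolic elements
-/

open scoped InnerProductSpace ENNReal
open HGP HNNExtension HNNExtension.NormalWord

namespace HGQ

noncomputable section

/-- an orthogonal operator preserves inner products, moved to one side -/
lemma HYP_inv {G : Type} [Group G] {K : Type} [NormedAddCommGroup K] [InnerProductSpace ℝ K]
    (P : G →* (K ≃ₗᵢ[ℝ] K)) (g h : G) (u v : K) :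
    ⟪P g u, P h v⟫_ℝ = ⟪P (h⁻¹ * g) u, v⟫_ℝ := by
  have h1 : P (h⁻¹ * g) u = P h⁻¹ (P g u) := by rw [map_mul]; rfl
  have h2 : P h (P h⁻¹ (P g u)) = P g u := by
    have : P h (P h⁻¹ (P g u)) = (P h * P h⁻¹) (P g u) := rfl
    rw [this, ← map_mul, mul_inv_cancel, map_one]
    rfl
  rw [h1, ← LinearIsometryEquiv.inner_map_map (P h) (P h⁻¹ (P g u)) v, h2]

lemma HYP_mul {G : Type} [Group G] {K : Type} [NormedAddCommGroup K] [InnerProductSpace ℝ K]
    (P : G →* (K ≃ₗᵢ[ℝ] K)) (g h : G) (u : K) : P (g * h) u = P g (P h u) := by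
  rw [map_mul]; rfl

lemma HYP_sum (ρ c : ℝ) (h0 : 0 < ρ) (h1 : ρ < 1) :
    Summable (fun m : ℤ => c * ρ ^ m.natAbs) := by
  refine Summable.mul_left c ?_
  refine Summable.of_nat_of_neg ?_ ?_
  · simpa using summable_geometric_of_lt_one h0.le h1
  · simpa using summable_geometric_of_lt_one h0.le h1

/-- **T_HYP** -/
theorem p_HYP (hHYA : T_HYA) (hDHY : T_DHY) (hSUBL : T_SUBL) (hWML : T_WML) : T_HYP := by
  intro H _ A B φ E _ _ _ π V W hS K _ _ _ P ι hC0 hco hdense g ξ r hg hξ hr0 hr1 hV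
  obtain ⟨hg1, hgm⟩ := hg
  obtain ⟨-, -, -, -, -, -, hadj, hnW, -⟩ := kSP H A B φ E π V W hS
  have hlinv : ∀ x : HNNExtension H A B φ, len φ x⁻¹ = len φ x := (kLN H A B φ).2.2.1
  have hsub := hSUBL H A B φ
  -- abbreviations
  set n : ℕ := len φ g with hn
  set ρ : ℝ := r ^ n with hρ
  have hρ0 : 0 < ρ := pow_pos hr0 n
  have hρ1 : ρ < 1 := pow_lt_one₀ hr0.le hr1 (by omega)
  set Ts : E := W g⁻¹ ξ with hTs
  set D : K := P g⁻¹ (ι ξ) - ι Ts with hD
  have hadj' : ∀ u v : E, ⟪W g u, v⟫_ℝ = ⟪u, W g⁻¹ v⟫_ℝ := fun u v => by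
    rw [hadj, ContinuousLinearMap.adjoint_inner_right]
  have hWn : ∀ x, ‖W x‖ ≤ r ^ len φ x := fun x =>
    (hnW x).trans (pow_le_pow_left₀ (norm_nonneg _) hV _)
  have hWm : ∀ m : ℕ, W (g * g ^ (m : ℤ)) = W g * W (g ^ (m : ℤ)) := by
    intro m
    have e1 : g ^ ((m : ℤ) + 1) = g * g ^ (m : ℤ) := by rw [add_comm, zpow_one_add]
    refine hWML H A B φ E π V W hS g (g ^ (m : ℤ)) ?_
    rw [← e1, hgm, hgm]
    have : ((m : ℤ) + 1).natAbs = m + 1 := by omega
    rw [this, Int.natAbs_natCast]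
    ring
  -- coefficients of `D`
  have hco2 : ∀ (x y : HNNExtension H A B φ) (u v : E),
      ⟪P x (ι u), P y (ι v)⟫_ℝ = ⟪W (y⁻¹ * x) u, v⟫_ℝ := fun x y u v => by
    rw [HYP_inv, hco]
  have hDc : ∀ (x : HNNExtension H A B φ) (v : E),
      ⟪P x (ι v), D⟫_ℝ = ⟪W (g * x) v, ξ⟫_ℝ - ⟪W x v, Ts⟫_ℝ := fun x v => by
    rw [hD, inner_sub_right, hco2, inv_inv, hco]
  have hDm : ∀ (m : ℕ) (v : E), ⟪P (g ^ (m : ℤ)) (ι v), D⟫_ℝ = 0 := by
    intro m v
    rw [hDc, hWm]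
    change ⟪W g (W (g ^ (m : ℤ)) v), ξ⟫_ℝ - _ = 0
    rw [hadj', sub_self]
  -- orthogonality
  have horth1 : ∀ m : ℕ, ⟪P (g ^ ((m : ℤ) + 1)) D, D⟫_ℝ = 0 := by
    intro m
    have e1 : P (g ^ ((m : ℤ) + 1)) D =
        P (g ^ (m : ℤ)) (ι ξ) - P (g ^ ((m : ℤ) + 1)) (ι Ts) := by
      rw [hD, map_sub, ← HYP_mul]
      congr 3
      rw [zpow_add_one, mul_assoc, mul_inv_cancel, mul_one]
    have e2 := hDm (m + 1) Ts
    rw [Nat.cast_add, Nat.cast_one] at e2
    rw [e1, inner_sub_left, hDm, e2, sub_zero]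
  have horth : ∀ m : ℤ, m ≠ 0 → ⟪((P g) ^ m) D, D⟫_ℝ = 0 := by
    intro m hm
    rw [← map_zpow]
    rcases lt_or_gt_of_ne hm with h | h
    · obtain ⟨k, hk⟩ : ∃ k : ℕ, -m = (k : ℤ) + 1 := ⟨(-m - 1).toNat, by omega⟩
      have e1 := HYP_inv P 1 (g ^ (-m)) D D
      rw [mul_one, ← zpow_neg, neg_neg, map_one] at e1
      rw [← e1, real_inner_comm, hk]
      exact horth1 k
    · obtain ⟨k, hk⟩ : ∃ k : ℕ, m = (k : ℤ) + 1 := ⟨(m - 1).toNat, by omega⟩
      rw [hk]
      exact horth1 k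
  -- the operator
  have hx1 : ‖ι ξ‖ = 1 := by rw [ι.norm_map, hξ]
  have hUD : P g D = ι ξ - ρ • P g (ι ξ) + P g (ι (ρ • ξ - Ts)) := by
    rw [hD, map_sub, ← HYP_mul, mul_inv_cancel, map_one, map_sub, map_sub, map_smul, map_smul]
    change ι ξ - _ = _
    abel
  obtain ⟨C, hC1, hC2, hC3, hC4⟩ := hHYA K (P g) (ι ξ) D (P g (ι (ρ • ξ - Ts))) ρ hρ0 hρ1 hx1
    hUD horth
  have hCz : ∀ (y : K) (m : ℤ), C y (m, ()) = ⟪P (g ^ (-m)) y, ‖D‖⁻¹ • D⟫_ℝ := fun y m => by
    rw [hC2, ← map_zpow]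
  refine ⟨C, ⟨hC1, hC3, ?_⟩, ?_⟩
  · refine hDHY (HNNExtension H A B φ) K P g (‖D‖⁻¹ • D) (fun x => (len φ x : ℝ))
      {x : K | ∃ (g : HNNExtension H A B φ) (u : E), x = P g (ι u)} hC0 ?_ ?_ hdense ?_ C hC1 hCz
    · intro x y
      exact_mod_cast hsub x y
    · intro x
      simp only [hlinv]
    · rintro _ ⟨y, v, rfl⟩
      set c : ℝ := (‖D‖⁻¹) ^ 2 * (2 * ‖v‖) ^ 2 with hc
      have hc0 : 0 ≤ c := by positivity
      refine ⟨fun s => c * r ^ (2 * (s - len φ g - len φ y)), ?_, ?_, ?_⟩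
      · intro s s' hs
        refine mul_le_mul_of_nonneg_left ?_ hc0
        exact Real.rpow_le_rpow_of_exponent_ge hr0 hr1.le (by linarith)
      · intro x
        have hTs1 : ‖Ts‖ ≤ 1 := by
          have h1 := (W g⁻¹).le_opNorm ξ
          rw [hξ, mul_one] at h1
          have h2 := hWn g⁻¹
          have h3 : r ^ len φ g⁻¹ ≤ 1 := pow_le_one₀ hr0.le hr1.le
          exact h1.trans (h2.trans h3)
        -- decay of one operator
        have hdec : ∀ z : HNNExtension H A B φ, (len φ x : ℝ) - len φ g - len φ y ≤ len φ z →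
            ‖W z v‖ ≤ r ^ ((len φ x : ℝ) - len φ g - len φ y) * ‖v‖ := by
          intro z hz
          refine ((W z).le_opNorm v).trans (mul_le_mul_of_nonneg_right ?_ (norm_nonneg _))
          refine (hWn z).trans ?_
          rw [← Real.rpow_natCast]
          exact Real.rpow_le_rpow_of_exponent_ge hr0 hr1.le hz
        have hl1 : (len φ x : ℝ) ≤ len φ (x * y) + len φ y := by
          have := hsub (x * y) y⁻¹
          rw [mul_inv_cancel_right, hlinv] at this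
          exact_mod_cast this
        have hl2 : (len φ (x * y) : ℝ) ≤ len φ (g * (x * y)) + len φ g := by
          have := hsub g⁻¹ (g * (x * y))
          rw [inv_mul_cancel_left, hlinv] at this
          have h' : (len φ (x * y) : ℝ) ≤ len φ g + len φ (g * (x * y)) := by exact_mod_cast this
          linarith
        have hg0 : (0 : ℝ) ≤ len φ g := Nat.cast_nonneg _
        set b : ℝ := r ^ ((len φ x : ℝ) - len φ g - len φ y) with hb
        have hb0 : 0 < b := Real.rpow_pos_of_pos hr0 _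
        have h1 := hdec (g * (x * y)) (by linarith)
        have h2 := hdec (x * y) (by linarith)
        have h3 : |⟪P x (P y (ι v)), D⟫_ℝ| ≤ 2 * ‖v‖ * b := by
          rw [← HYP_mul, hDc]
          have h4 : |⟪W (g * (x * y)) v, ξ⟫_ℝ| ≤ b * ‖v‖ := by
            refine (abs_real_inner_le_norm _ _).trans ?_
            rw [hξ, mul_one]
            exact h1
          have h5 : |⟪W (x * y) v, Ts⟫_ℝ| ≤ b * ‖v‖ := by
            refine (abs_real_inner_le_norm _ _).trans ?_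
            calc ‖W (x * y) v‖ * ‖Ts‖ ≤ ‖W (x * y) v‖ * 1 :=
                  mul_le_mul_of_nonneg_left hTs1 (norm_nonneg _)
              _ ≤ b * ‖v‖ := by rw [mul_one]; exact h2
          have := abs_sub ⟪W (g * (x * y)) v, ξ⟫_ℝ ⟪W (x * y) v, Ts⟫_ℝ
          linarith
        have h6 : ⟪P x (P y (ι v)), ‖D‖⁻¹ • D⟫_ℝ ^ 2 =
            (‖D‖⁻¹) ^ 2 * |⟪P x (P y (ι v)), D⟫_ℝ| ^ 2 := by
          rw [inner_smul_right, mul_pow, sq_abs]
        have h7 : r ^ (2 * ((len φ x : ℝ) - len φ g - len φ y)) = b ^ 2 := by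
          rw [hb, ← Real.rpow_natCast, ← Real.rpow_mul hr0.le]
          congr 1
          push_cast
          ring
        rw [h6]
        change _ ≤ c * r ^ (2 * ((len φ x : ℝ) - len φ g - len φ y))
        rw [h7, hc, mul_assoc]
        refine mul_le_mul_of_nonneg_left ?_ (by positivity)
        rw [← mul_pow]
        exact pow_le_pow_left₀ (abs_nonneg _) h3 2
      · have hkey : ∀ m : ℤ,
            c * r ^ (2 * (((len φ (g ^ m) : ℝ) - 1) / 2 - len φ g - len φ y)) =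
            (c * r ^ (-1 - 2 * (len φ g : ℝ) - 2 * len φ y)) * ρ ^ m.natAbs := by
          intro m
          have e1 : r ^ (2 * (((len φ (g ^ m) : ℝ) - 1) / 2 - len φ g - len φ y)) =
              r ^ (-1 - 2 * (len φ g : ℝ) - 2 * len φ y) * ρ ^ m.natAbs := by
            rw [hρ, ← pow_mul, ← Real.rpow_natCast r (n * m.natAbs), ← Real.rpow_add hr0, hgm]
            congr 1
            push_cast
            ring
          rw [e1, ← mul_assoc]
        simp only [hkey]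
        exact HYP_sum ρ _ hρ0 hρ1
  · refine hC4.trans (le_of_eq ?_)
    have : ‖P g (ι (ρ • ξ - Ts))‖ = ‖W g⁻¹ ξ - ρ • ξ‖ := by
      rw [LinearIsometryEquiv.norm_map, ι.norm_map, ← norm_neg, neg_sub]
    rw [this]

end

end HGQ
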