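import Pool.Agent.HGP2.Targets

/-!
# HGP2: induction of data
-/

open scoped InnerProductSpace ENNReal
open HGP

namespace HGQ

noncomputable section

/-- the big representation extends the small one -/
theorem IND_ext {G H : Type} [Group G] [Group H] {f : H →* G} {E : Type} [NormedAddCommGroup E]
    [InnerProductSpace ℝ E] {π : H →* (E ≃ₗᵢ[ℝ] E)} {W : G → (E →L[ℝ] E)} {K : Type}
    [NormedAddCommGroup K] [InnerProductSpace ℝ K] {P : G →* (K ≃ₗᵢ[ℝ] K)} {ι : E →ₗᵢ[ℝ] K}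
    (hW : ∀ (h : H) (u : E), W (f h) u = π h u)
    (hP : ∀ (g : G) (u v : E), ⟪P g (ι u), ι v⟫_ℝ = ⟪W g u, v⟫_ℝ) (h : H) (u : E) :
    P (f h) (ι u) = ι (π h u) := by
  rw [← sub_eq_zero, ← norm_eq_zero, ← sq_eq_zero_iff, norm_sub_sq_real, hP, hW,
    real_inner_self_eq_norm_sq, LinearIsometry.norm_map, LinearIsometryEquiv.norm_map,
    LinearIsometryEquiv.norm_map, LinearIsometry.norm_map]
  ring

theorem p_IND (h1 : T_TRP) (h2 : T_KGC) : T_IND := by
  intro G H _ _ f hf l S S' ε I M hS hD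
  obtain ⟨E, i1, i2, i3, π, ξ, hC0, hξ, hinv, hL⟩ := hD
  obtain ⟨W, hW, hW0, hW1, hWs, hWp⟩ := h1 G H f hf E π
  obtain ⟨K, j1, j2, j3, P, ι, hP, hden⟩ := kGNS G E W hW1 hWs hWp
  have hext : ∀ (h : H) (u : E), P (f h) (ι u) = ι (π h u) := IND_ext hW hP
  refine ⟨K, j1, j2, j3, P, ι ξ, ?_, ?_, ?_, ?_⟩
  · refine (kKGB G E W K P ι hP hden).1 ?_
    intro u v δ hδ
    have h3 : {h : H | δ ≤ |⟪π h u, v⟫_ℝ|}.Finite := hC0 u v δ hδ
    refine (h3.image f).subset ?_
    intro g hg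
    have hg' : δ ≤ |⟪W g u, v⟫_ℝ| := hg
    by_cases hr : g ∈ f.range
    · obtain ⟨h, rfl⟩ := hr
      refine ⟨h, ?_, rfl⟩
      rw [hW] at hg'
      exact hg'
    · rw [hW0 g hr] at hg'
      simp only [_root_.zero_apply, inner_zero_left, abs_zero] at hg'
      exact absurd hg' (not_le.2 hδ)
  · rw [LinearIsometry.norm_map, hξ]
  · intro s hs
    obtain ⟨s₀, hs₀, rfl⟩ := hS s hs
    rw [hext, ← map_sub, LinearIsometry.norm_map]
    exact hinv s₀ hs₀
  · intro c hc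
    obtain ⟨c₀, hc₀, rfl⟩ := List.mem_map.1 hc
    obtain ⟨C, hC, hCM⟩ := hL c₀ hc₀
    have hA : ∀ (g : G) (u : E), C (W (f c₀ * g) u) = S1 I (C (W g u)) := by
      intro g u
      by_cases hr : g ∈ f.range
      · obtain ⟨h, rfl⟩ := hr
        rw [← map_mul, hW, hW, map_mul]
        exact hC.comm _
      · have hr' : f c₀ * g ∉ f.range := by
          intro h6
          apply hr
          have h7 := f.range.mul_mem (f.range.inv_mem ⟨c₀, rfl⟩) h6
          rwa [inv_mul_cancel_left] at h7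
        rw [hW0 g hr, hW0 _ hr']
        simp
    have hB : ∀ (u : E) (δ : ℝ), 0 < δ → ∃ T : Finset G, ∀ g : G, δ ≤ ‖C (W g u)‖ →
        ∃ m : ℤ, ∃ x ∈ T, g = (f c₀) ^ m * x := by
      intro u δ hδ
      obtain ⟨T, hT⟩ := hC.dec u δ hδ
      classical
      refine ⟨T.image f, ?_⟩
      intro g hg
      by_cases hr : g ∈ f.range
      · obtain ⟨h, rfl⟩ := hr
        rw [hW] at hg
        obtain ⟨m, x, hx, e⟩ := hT h hg
        exact ⟨m, f x, Finset.mem_image_of_mem f hx, by rw [e, map_mul, map_zpow]⟩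
      · rw [hW0 g hr] at hg
        simp only [_root_.zero_apply, map_zero, norm_zero] at hg
        exact absurd hg (not_le.2 hδ)
    obtain ⟨C', hC', he⟩ := h2 G E W K P ι hP hden (f c₀) I C hC.norm hA hB
    refine ⟨C', hC', ?_⟩
    have h4 := he 1 ξ
    rw [map_one, hW1] at h4
    have h5 : C' (ι ξ) = C ξ := h4
    rw [h5]
    exact hCM

end

end HGQ
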