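import Pool.Agent.HGP2.Targets

/-!
# HGP2, item KGC: a localising operator on the small space gives one on the big Hilbert space
-/

open scoped InnerProductSpace ENNReal
open HGP

namespace HGQ

noncomputable section

section KGC_aux

variable {G : Type} [Group G] {K : Type} [NormedAddCommGroup K] [InnerProductSpace ℝ K]

lemma KGC_mul (P : G →* (K ≃ₗᵢ[ℝ] K)) (g h : G) (x : K) : P (g * h) x = P g (P h x) := by
  rw [map_mul]
  rfl

end KGC_aux

theorem p_KGC : T_KGC := by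
  intro G _ E _ _ _ W K _ _ _ P ι hW hD a I C hC hCa hdec
  set j : K →L[ℝ] E := ContinuousLinearMap.adjoint ι.toContinuousLinearMap with hj
  have hj1 : ∀ (g : G) (u : E), j (P g (ι u)) = W g u := by
    intro g u
    refine ext_inner_right ℝ fun v => ?_
    rw [hj, ContinuousLinearMap.adjoint_inner_left]
    exact hW g u v
  have hj2 : ‖j‖ ≤ 1 := by
    rw [hj, LinearIsometryEquiv.norm_map]
    exact ι.norm_toContinuousLinearMap_le
  set C' : K →L[ℝ] L2 (ℤ × I) ℝ := C.comp j with hC'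
  have hC1 : ∀ (g : G) (u : E), C' (P g (ι u)) = C (W g u) := by
    intro g u
    rw [hC', ContinuousLinearMap.comp_apply, hj1]
  have hn : ‖C'‖ ≤ 1 := by
    refine (ContinuousLinearMap.opNorm_comp_le _ _).trans ?_
    calc ‖C‖ * ‖j‖ ≤ 1 * 1 := mul_le_mul hC hj2 (norm_nonneg _) zero_le_one
      _ = 1 := one_mul 1
  refine ⟨C', ⟨hn, ?_, ?_⟩, hC1⟩
  · have e : (C'.comp (P a).toContinuousLinearEquiv.toContinuousLinearMap) =
        (S1 I).toContinuousLinearEquiv.toContinuousLinearMap.comp C' := by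
      refine ContinuousLinearMap.ext_on hD ?_
      rintro x ⟨g, u, rfl⟩
      show C' (P a (P g (ι u))) = S1 I (C' (P g (ι u)))
      rw [← KGC_mul, hC1, hC1, hCa]
    intro u
    exact congrArg (fun f : K →L[ℝ] L2 (ℤ × I) ℝ => f u) e
  · have hle : ∀ u, ‖C' u‖ ≤ ‖u‖ := fun u => by
      refine (C'.le_opNorm u).trans ?_
      calc ‖C'‖ * ‖u‖ ≤ 1 * ‖u‖ := mul_le_mul_of_nonneg_right hn (norm_nonneg _)
        _ = ‖u‖ := one_mul _
    have key := kDEN G K {x : K | ∃ (g : G) (u : E), x = P g (ι u)} hD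
      (fun h => (normSeminorm ℝ (L2 (ℤ × I) ℝ)).comp
        ((C' : K →ₗ[ℝ] L2 (ℤ × I) ℝ).comp ((P h).toLinearEquiv : K →ₗ[ℝ] K))) 1
      (fun h u => by
        show ‖C' (P h u)‖ ≤ 1 * ‖u‖
        rw [one_mul]
        exact (hle _).trans (LinearIsometryEquiv.norm_map _ _).le)
      (fun s => ∃ T : Finset G, ∀ h ∈ s, ∃ m : ℤ, ∃ x ∈ T, h = a ^ m * x)
      ⟨∅, fun h hh => absurd hh (Set.notMem_empty h)⟩
      (fun s t hst ht => by
        obtain ⟨T, hT⟩ := ht
        exact ⟨T, fun h hh => hT h (hst hh)⟩)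
      (fun s t hs ht => by
        classical
        obtain ⟨T, hT⟩ := hs
        obtain ⟨T', hT'⟩ := ht
        refine ⟨T ∪ T', fun h hh => ?_⟩
        rcases hh with hh | hh
        · obtain ⟨m, x, hx, e⟩ := hT h hh
          exact ⟨m, x, Finset.mem_union_left _ hx, e⟩
        · obtain ⟨m, x, hx, e⟩ := hT' h hh
          exact ⟨m, x, Finset.mem_union_right _ hx, e⟩)
      (fun u hu δ hδ => by
        classical
        obtain ⟨g₁, u₁, rfl⟩ := hu
        obtain ⟨T, hT⟩ := hdec u₁ δ hδ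
        refine ⟨T.image (fun x => x * g₁⁻¹), fun h hh => ?_⟩
        have hh' : δ ≤ ‖C' (P h (P g₁ (ι u₁)))‖ := hh
        rw [← KGC_mul, hC1] at hh'
        obtain ⟨m, x, hx, e⟩ := hT _ hh'
        refine ⟨m, x * g₁⁻¹, Finset.mem_image_of_mem _ hx, ?_⟩
        rw [← mul_assoc, ← e, mul_inv_cancel_right])
    intro u δ hδ
    obtain ⟨T, hT⟩ := key u δ hδ
    exact ⟨T, fun g hg => hT g hg⟩

end

end HGQ
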