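import Pool.Agent.HGP2.Targets

/-!
# HGP2: the Hilbert space of the kernel `r ^ d`
-/

open scoped InnerProductSpace ENNReal
open HGP

namespace HGQ

noncomputable section

/-- Hadamard powers of positive semidefinite matrices -/
lemma KRN_pow {n : ℕ} (A : Matrix (Fin n) (Fin n) ℝ) (hA : A.PosSemidef) (k : ℕ) :
    (Matrix.of fun i j => A i j ^ k : Matrix (Fin n) (Fin n) ℝ).PosSemidef := by
  induction k with
  | zero =>
    have h := Matrix.posSemidef_vecMulVec_self_star (R := ℝ) (fun _ : Fin n => (1 : ℝ))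
    convert h using 1
    ext i j
    simp [Matrix.vecMulVec_apply]
  | succ k ih =>
    have h := Matrix.PosSemidef.hadamard (𝕜 := ℝ) ih hA
    have e : (Matrix.of fun i j => A i j ^ (k + 1) : Matrix (Fin n) (Fin n) ℝ) =
        (Matrix.of fun i j => A i j ^ k : Matrix (Fin n) (Fin n) ℝ).hadamard A := by
      ext i j
      simp [pow_succ]
    rw [e]
    exact h

lemma KRN_quad {n : ℕ} (A : Matrix (Fin n) (Fin n) ℝ) (d : Fin n → ℝ) :
    star d ⬝ᵥ A.mulVec d = ∑ i, ∑ j, d i * d j * A i j := by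
  simp only [dotProduct, Matrix.mulVec, Pi.star_apply, star_trivial, Finset.mul_sum]
  refine Finset.sum_congr rfl fun i _ => Finset.sum_congr rfl fun j _ => ?_
  ring

lemma KRN_pow_sum {n : ℕ} (A : Matrix (Fin n) (Fin n) ℝ) (hA : A.PosSemidef) (k : ℕ)
    (d : Fin n → ℝ) : 0 ≤ ∑ i, ∑ j, d i * d j * A i j ^ k := by
  have h := (KRN_pow A hA k).dotProduct_mulVec_nonneg d
  rw [KRN_quad] at h
  simpa using h

/-- the exponential of a positive semidefinite matrix, entry by entry -/
lemma KRN_exp {n : ℕ} (A : Matrix (Fin n) (Fin n) ℝ) (hA : A.PosSemidef) (s : ℝ) (hs : 0 < s)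
    (d : Fin n → ℝ) : 0 ≤ ∑ i, ∑ j, d i * d j * Real.exp (s * A i j) := by
  have hsum : HasSum (fun k : ℕ => s ^ k / (k.factorial : ℝ) *
      ∑ i, ∑ j, d i * d j * A i j ^ k)
      (∑ i, ∑ j, d i * d j * Real.exp (s * A i j)) := by
    have h1 : ∀ i j, HasSum (fun k : ℕ => s ^ k / (k.factorial : ℝ) *
        (d i * d j * A i j ^ k)) (d i * d j * Real.exp (s * A i j)) := by
      intro i j
      have h2 := NormedSpace.expSeries_div_hasSum_exp (s * A i j)
      rw [← Real.exp_eq_exp_ℝ] at h2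
      have h3 := h2.mul_left (d i * d j)
      have e : (fun k : ℕ => s ^ k / (k.factorial : ℝ) * (d i * d j * A i j ^ k)) =
          fun k : ℕ => d i * d j * ((s * A i j) ^ k / (k.factorial : ℝ)) := by
        funext k
        rw [mul_pow]
        ring
      rw [e]
      exact h3
    have h4 := hasSum_sum (s := Finset.univ) (fun i _ =>
      hasSum_sum (s := Finset.univ) (fun j _ => h1 i j))
    have e : (fun k : ℕ => s ^ k / (k.factorial : ℝ) *
        ∑ i, ∑ j, d i * d j * A i j ^ k) =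
        fun k : ℕ => ∑ i, ∑ j, s ^ k / (k.factorial : ℝ) * (d i * d j * A i j ^ k) := by
      funext k
      simp only [Finset.mul_sum]
    rw [e]
    exact h4
  exact hsum.nonneg fun k => mul_nonneg (by positivity) (KRN_pow_sum A hA k d)

/-- the matrix `d(x_i,o) + d(x_j,o) - d(x_i,x_j)` is positive semidefinite -/
lemma KRN_psd (X : Type) (d : X → X → ℕ) (h0 : ∀ x, d x x = 0) (hs : ∀ x y, d x y = d y x)
    (hc : ∀ (n : ℕ) (x : Fin n → X) (c : Fin n → ℝ), ∑ i, c i = 0 →
      ∑ i, ∑ j, c i * c j * (d (x i) (x j) : ℝ) ≤ 0) (n : ℕ) (x : Fin n → X) (o : X) :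
    (Matrix.of fun i j => (d (x i) o : ℝ) + d (x j) o - d (x i) (x j) :
      Matrix (Fin n) (Fin n) ℝ).PosSemidef := by
  refine Matrix.PosSemidef.of_dotProduct_mulVec_nonneg ?_ fun c => ?_
  · ext i j
    simp only [Matrix.conjTranspose_apply, Matrix.of_apply, star_trivial]
    rw [hs (x j) (x i)]
    ring
  · rw [KRN_quad]
    have h := hc (n + 1) (Fin.cons o x) (Fin.cons (-∑ i, c i) c) (by
      rw [Fin.sum_univ_succ]; simp)
    rw [Fin.sum_univ_succ] at h
    simp only [Fin.sum_univ_succ, Fin.cons_zero, Fin.cons_succ, h0, Nat.cast_zero, mul_zero,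
      zero_add] at h
    rw [Finset.sum_add_distrib] at h
    have e1 : ∑ i, -(∑ i, c i) * c i * (d o (x i) : ℝ) =
        -((∑ i, c i) * ∑ i, c i * (d (x i) o : ℝ)) := by
      rw [← neg_mul, Finset.mul_sum]
      refine Finset.sum_congr rfl fun i _ => ?_
      rw [hs o (x i)]; ring
    have e2 : ∑ i, c i * -(∑ i, c i) * (d (x i) o : ℝ) =
        -((∑ i, c i) * ∑ i, c i * (d (x i) o : ℝ)) := by
      rw [← neg_mul, Finset.mul_sum]
      refine Finset.sum_congr rfl fun i _ => ?_
      ring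
    rw [e1, e2] at h
    have e3 : ∑ i, ∑ j, c i * c j * (Matrix.of fun i j => (d (x i) o : ℝ) + d (x j) o -
        d (x i) (x j) : Matrix (Fin n) (Fin n) ℝ) i j =
        2 * ((∑ i, c i) * ∑ i, c i * (d (x i) o : ℝ)) -
          ∑ i, ∑ j, c i * c j * (d (x i) (x j) : ℝ) := by
      simp only [Matrix.of_apply]
      have a1 : ∑ i, ∑ j, c i * c j * (d (x i) o : ℝ) =
          (∑ i, c i) * ∑ i, c i * (d (x i) o : ℝ) := by
        rw [Finset.sum_mul_sum, Finset.sum_comm]
        refine Finset.sum_congr rfl fun i _ => Finset.sum_congr rfl fun j _ => ?_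
        ring
      have a2 : ∑ i, ∑ j, c i * c j * (d (x j) o : ℝ) =
          (∑ i, c i) * ∑ i, c i * (d (x i) o : ℝ) := by
        rw [Finset.sum_mul_sum]
        refine Finset.sum_congr rfl fun i _ => Finset.sum_congr rfl fun j _ => ?_
        ring
      have a3 : ∑ i, ∑ j, c i * c j * ((d (x i) o : ℝ) + d (x j) o - d (x i) (x j)) =
          ∑ i, ∑ j, c i * c j * (d (x i) o : ℝ) + ∑ i, ∑ j, c i * c j * (d (x j) o : ℝ) -
            ∑ i, ∑ j, c i * c j * (d (x i) (x j) : ℝ) := by
        rw [← Finset.sum_add_distrib, ← Finset.sum_sub_distrib]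
        refine Finset.sum_congr rfl fun i _ => ?_
        rw [← Finset.sum_add_distrib, ← Finset.sum_sub_distrib]
        refine Finset.sum_congr rfl fun j _ => ?_
        ring
      rw [a3, a1, a2]
      ring
    rw [e3]
    linarith

/-- the kernel `r ^ d` is positive semidefinite -/
lemma KRN_pos (X : Type) (d : X → X → ℕ) (h0 : ∀ x, d x x = 0) (hs : ∀ x y, d x y = d y x)
    (hc : ∀ (n : ℕ) (x : Fin n → X) (c : Fin n → ℝ), ∑ i, c i = 0 →
      ∑ i, ∑ j, c i * c j * (d (x i) (x j) : ℝ) ≤ 0) (r : ℝ) (hr : 0 < r) (hr1 : r < 1)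
    (n : ℕ) (x : Fin n → X) (c : Fin n → ℝ) :
    0 ≤ ∑ i, ∑ j, c i * c j * r ^ d (x i) (x j) := by
  rcases n with _ | n
  · simp
  · have hlog : 0 < -Real.log r := by
      have := Real.log_neg hr hr1
      linarith
    have h := KRN_exp _ (KRN_psd X d h0 hs hc (n + 1) x (x 0)) (-Real.log r) hlog
      (fun i => c i * r ^ d (x i) (x 0))
    have key : ∀ m : ℕ, r ^ m = Real.exp (Real.log r * m) := by
      intro m
      rw [mul_comm, Real.exp_nat_mul, Real.exp_log hr]
    refine h.trans_eq (Finset.sum_congr rfl fun i _ => Finset.sum_congr rfl fun j _ => ?_)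
    simp only [Matrix.of_apply]
    have h2 : r ^ d (x i) (x 0) * r ^ d (x j) (x 0) *
        Real.exp (-Real.log r * ((d (x i) (x 0) : ℝ) + d (x j) (x 0) - d (x i) (x j))) =
        r ^ d (x i) (x j) := by
      rw [key, key, key, ← Real.exp_add, ← Real.exp_add]
      congr 1
      ring
    calc c i * r ^ d (x i) (x 0) * (c j * r ^ d (x j) (x 0)) *
        Real.exp (-Real.log r * ((d (x i) (x 0) : ℝ) + d (x j) (x 0) - d (x i) (x j)))
        = c i * c j * (r ^ d (x i) (x 0) * r ^ d (x j) (x 0) *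
        Real.exp (-Real.log r * ((d (x i) (x 0) : ℝ) + d (x j) (x 0) - d (x i) (x j)))) := by
          ring
      _ = c i * c j * r ^ d (x i) (x j) := by rw [h2]

theorem p_KRN : T_KRN := by
  intro G _ X _ d h0 hs hG hc r hr hr1
  let Km : Matrix X X (ℝ →L[ℝ] ℝ) := Matrix.of fun x y => (r ^ d x y) •
    (ContinuousLinearMap.id ℝ ℝ)
  have hKm : ∀ x y (a : ℝ), Km x y a = r ^ d x y * a := fun _ _ _ => rfl
  have hherm : Km.IsHermitian := by
    ext x y : 1
    change star (Km y x) = Km x y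
    rw [ContinuousLinearMap.star_eq_adjoint]
    ext
    have h1 : ⟪ContinuousLinearMap.adjoint (Km y x) 1, (1 : ℝ)⟫_ℝ = ⟪(1 : ℝ), Km y x 1⟫_ℝ :=
      ContinuousLinearMap.adjoint_inner_left _ _ _
    simp only [RCLike.inner_apply, conj_trivial, mul_one, one_mul] at h1
    rw [h1, hKm, hKm, hs]
  have hps : Km.PosSemidef := by
    have hiff : Km.PosSemidef ↔ (Km.IsHermitian ∧ ∀ (vv : X →₀ ℝ),
        0 ≤ RCLike.re (vv.sum fun x w => vv.sum fun x' w' => ⟪Km x' x w, w'⟫_ℝ)) :=
      (RKHS.posSemidef_tfae (𝕜 := ℝ)).out 0 2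
    refine hiff.2 ⟨hherm, fun vv => ?_⟩
    have key := KRN_pos X d h0 hs hc r hr hr1 vv.support.card
      (fun i => ((vv.support.equivFin.symm i : X)))
      (fun i => vv (vv.support.equivFin.symm i : X))
    have h1 : (vv.sum fun x w => vv.sum fun x' w' => ⟪Km x' x w, w'⟫_ℝ) =
        ∑ i, ∑ j, vv (vv.support.equivFin.symm i : X) * vv (vv.support.equivFin.symm j : X) *
          r ^ d (vv.support.equivFin.symm i : X) (vv.support.equivFin.symm j : X) := by
      rw [Finset.sum_comm]
      simp only [Finsupp.sum]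
      rw [← Finset.sum_coe_sort vv.support, ← vv.support.equivFin.symm.sum_comp]
      refine Finset.sum_congr rfl fun j _ => ?_
      rw [← Finset.sum_coe_sort vv.support, ← vv.support.equivFin.symm.sum_comp]
      refine Finset.sum_congr rfl fun i _ => ?_
      rw [hKm]
      simp only [RCLike.inner_apply, conj_trivial]
      ring
    simp only [RCLike.re_to_real]
    rw [h1]
    exact key
  have : Fact Km.PosSemidef := ⟨hps⟩
  let K := RKHS.OfKernel Km
  let e : X → K := fun q => RKHS.kerFun K q 1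
  have hee : ∀ x y : X, ⟪e x, e y⟫_ℝ = r ^ d x y := by
    intro x y
    have h1 := RKHS.kernel_inner K y x (1 : ℝ) (1 : ℝ)
    rw [RKHS.OfKernel.kernel_ofKernel] at h1
    rw [← h1, hKm, hs]
    simp
  have hd : Dense (Submodule.span ℝ (Set.range e) : Set K) := by
    have h1 := RKHS.kerFun_dense K
    have h2 : Submodule.span ℝ {x | ∃ (a : X) (v : ℝ), RKHS.kerFun K a v = x} ≤
        Submodule.span ℝ (Set.range e) := by
      refine Submodule.span_le.2 ?_
      rintro x ⟨a, v, rfl⟩
      have h3 : RKHS.kerFun K a v = v • e a := by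
        change _ = v • RKHS.kerFun K a 1
        rw [← map_smul]
        simp
      rw [h3]
      exact Submodule.smul_mem _ _ (Submodule.subset_span ⟨a, rfl⟩)
    exact (Submodule.dense_iff_topologicalClosure_eq_top.2 h1).mono h2
  obtain ⟨P, hP⟩ := GNSX_act G X K e hd (by
    intro g x y
    rw [hee, hee, hG])
  exact ⟨K, inferInstance, inferInstance, inferInstance, P, e, hee, hP, hd⟩

end

end HGQ
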