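import Pool.Agent.HGP2.Targets

/-!
# HGP2: the matching lemma
-/

set_option autoImplicit false

open scoped InnerProductSpace ENNReal
open HGP

namespace HGQ

noncomputable section

/-- the matching lemma -/
theorem p_MAT (hCHN : T_CHN) (hSUM : T_SUM) (hSHF : T_SHF) (hSMD : T_SMD) (hBLK : T_BLK)
    (hMOD : T_MOD) : T_MAT := by
  intro G _ le lh ℓ hℓ hTL S L ε hε
  obtain ⟨J, hJ⟩ := exists_nat_gt ((2 / ε) ^ 2)
  have hJ0 : 0 < J := by
    have h1 : (0 : ℝ) < J := lt_of_le_of_lt (by positivity) hJ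
    exact_mod_cast h1
  have hJR : (0 : ℝ) < J := by exact_mod_cast hJ0
  have hJe : (Real.sqrt J)⁻¹ ≤ ε / 2 := by
    have h1 : 2 / ε ≤ Real.sqrt J := Real.le_sqrt_of_sq_le hJ.le
    have h2 : (Real.sqrt J)⁻¹ ≤ (2 / ε)⁻¹ := inv_anti₀ (by positivity) h1
    rwa [inv_div] at h2
  obtain ⟨Q, hi, hQ⟩ := hCHN G le lh ℓ hℓ hTL S L (ε / 2) (by positivity)
  have hLK : ∀ j : Fin J, LK G le lh S (ε / 2) (Q j) (Q (j + 1)) := fun j => (hQ j).2.2
  unfold LK at hLK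
  choose E i1 i2 i3 π ξ h0 h1 hS hle hlh using hLK
  have hv0 : ∀ k : Fin J, 0 ≤ (fun _ : Fin J => (J : ℝ)⁻¹) k := fun _ => by positivity
  have hv1 : HasSum (fun _ : Fin J => (J : ℝ)⁻¹) 1 := by
    have h := hasSum_fintype (fun _ : Fin J => (J : ℝ)⁻¹)
    have e : ∑ _b : Fin J, (J : ℝ)⁻¹ = 1 := by
      rw [Finset.sum_const, Finset.card_univ, Fintype.card_fin, nsmul_eq_mul,
        mul_inv_cancel₀ hJR.ne']
    rwa [e] at h
  obtain ⟨F, j1, j2, j3, Pi, x, hC0, hx, hinv, hLc⟩ := hSUM G (Fin J) _ hv0 hv1 E π ξ h0 h1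
  -- the common upper bound
  obtain ⟨H, hH1, hH⟩ : ∃ H : ℝ, H < 1 ∧ ∀ k : Fin J, hi (k + 1) ≤ H := by
    have hne : (Finset.univ : Finset (Fin J)).Nonempty := ⟨⟨0, hJ0⟩, Finset.mem_univ _⟩
    refine ⟨Finset.univ.sup' hne fun k : Fin J => hi (k + 1), ?_, fun k => ?_⟩
    · rw [Finset.sup'_lt_iff]
      exact fun k _ => (hQ (k + 1)).1.one
    · exact Finset.le_sup' (fun k : Fin J => hi (k + 1)) (Finset.mem_univ k)
  have hOk : ∀ k : Fin J, (Q (k + 1)).Ok (1 - ε / 2) H := fun k =>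
    (hQ (k + 1)).1.mono le_rfl (hH k) hH1
  obtain ⟨hOk', hmd⟩ := hSMD (Fin J) _ hv0 hv1 (fun k : Fin J => Q (k + 1)) _ _ hOk
  have hn : ∀ j, ‖(Q j).md‖ ≤ 1 := fun j => ((hMOD _ _ _ (hQ j).1).2).le
  refine ⟨Mx.sm (fun _ : Fin J => (J : ℝ)⁻¹) (fun k : Fin J => Q (k + 1)), H,
    hOk'.mono (by linarith) le_rfl hH1, ?_, ?_⟩
  · intro l hl hl'
    have hOkp : ∀ k : Fin J, ((Q (k + 1)).pw l).Ok 0 H := fun k => (hOk k).pw hl
    obtain ⟨_, hmd'⟩ := hSMD (Fin J) _ hv0 hv1 (fun k : Fin J => (Q (k + 1)).pw l) _ _ hOkp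
    have e1 : (Mx.sm (fun _ : Fin J => (J : ℝ)⁻¹) (fun k : Fin J => Q (k + 1))).pw l =
      Mx.sm (fun _ : Fin J => (J : ℝ)⁻¹) (fun k : Fin J => (Q (k + 1)).pw l) := rfl
    rw [e1, ← hmd', ← hmd]
    refine (hBLK (Fin J) _ hv0 hv1 _ _ _ _ (ε / 2) (by positivity)
      (fun k => ((hMOD _ _ _ (hOkp k)).2).le) (fun k => hn _) fun k => ?_).mono (by linarith)
    exact (hQ (k + 1)).2.1 l hl hl'
  · refine ⟨F, j1, j2, j3, Pi, x, hC0, hx, ?_, ?_⟩
    · intro s hs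
      have := hinv s (ε / 2) (by positivity) (fun k => hS k s hs)
      linarith
    · intro c hc
      rw [← hmd]
      rcases List.mem_append.1 hc with hc | hc
      · exact (hLc c _ (fun k : Fin J => (Q (k + 1)).md) (ε / 2) (by positivity)
          (fun k => hn _) (fun k => hle k c hc)).mono (by linarith)
      · have h2 := hLc c _ (fun k : Fin J => (Q k).md) (ε / 2) (by positivity)
          (fun k => hn _) (fun k => hlh k c hc)
        have h3 := hSHF Q (1 - ε / 2) hi (fun j => (hQ j).1) J hJ0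
        exact (h2.rd h3).mono (by linarith)

end

end HGQ
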