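import Pool.Agent.HGP2.Targets

/-!
# HGP2: coordinates and norm of the vector of a mixture
-/

open scoped InnerProductSpace ENNReal
open HGP HNNExtension HNNExtension.NormalWord

namespace HGQ

noncomputable section

/-- the square sum of one geometric mode -/
lemma MOD_one {w ρ : ℝ} (hw : 0 ≤ w) (h0 : 0 < ρ) (h1 : ρ < 1) :
    HasSum (fun m : ℤ => gm w ρ m ^ 2) w := by
  have hinj : Function.Injective (fun n : ℕ => (n : ℤ) + 1) := by
    intro a b h
    simpa using h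
  have hsq : ρ ^ 2 < 1 := by nlinarith
  have hne : (1 : ℝ) - ρ ^ 2 ≠ 0 := by
    have : (0 : ℝ) < 1 - ρ ^ 2 := by linarith
    exact this.ne'
  refine (hinj.hasSum_iff (fun m hm => ?_)).1 ?_
  · have : ¬ (1 ≤ m) := by
      intro h
      refine hm ⟨(m - 1).toNat, ?_⟩
      have : ((m - 1).toNat : ℤ) = m - 1 := Int.toNat_of_nonneg (by omega)
      show ((m - 1).toNat : ℤ) + 1 = m
      omega
    show gm w ρ m ^ 2 = 0
    unfold gm
    rw [if_neg this]
    norm_num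
  · have h2 : ((fun m : ℤ => gm w ρ m ^ 2) ∘ fun n : ℕ => (n : ℤ) + 1) =
        fun n : ℕ => w * (1 - ρ ^ 2) * (ρ ^ 2) ^ n := by
      funext n
      show gm w ρ ((n : ℤ) + 1) ^ 2 = _
      unfold gm
      rw [if_pos (by omega)]
      have h3 : ((n : ℤ) + 1 - 1).toNat = n := by simp
      rw [h3, mul_pow, mul_pow, Real.sq_sqrt hw, Real.sq_sqrt (by linarith), ← pow_mul,
        ← pow_mul, mul_comm n 2]
    rw [h2]
    have h4 := (hasSum_geometric_of_lt_one (sq_nonneg ρ) hsq).mul_left (w * (1 - ρ ^ 2))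
    have h5 : w * (1 - ρ ^ 2) * (1 - ρ ^ 2)⁻¹ = w := by
      field_simp
    rwa [h5] at h4

lemma MOD_sum {Q : Mx} {lo hi : ℝ} (h : Q.Ok lo hi) :
    HasSum (fun q : ℤ × Q.I => gm (Q.w q.2) (Q.ρ q.2) q.1 ^ 2) 1 := by
  have hone : ∀ i, HasSum (fun m : ℤ => gm (Q.w i) (Q.ρ i) m ^ 2) (Q.w i) := fun i =>
    MOD_one (h.nn i) (h.pos i) ((h.ub i).trans_lt h.one)
  have hs : Summable (fun p : Q.I × ℤ => gm (Q.w p.1) (Q.ρ p.1) p.2 ^ 2) := by
    rw [summable_prod_of_nonneg (fun p => sq_nonneg _)]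
    refine ⟨fun i => (hone i).summable, ?_⟩
    have : (fun i => ∑' m : ℤ, gm (Q.w i) (Q.ρ i) m ^ 2) = Q.w := by
      funext i
      exact (hone i).tsum_eq
    rw [this]
    exact h.sum.summable
  have ht : ∑' p : Q.I × ℤ, gm (Q.w p.1) (Q.ρ p.1) p.2 ^ 2 = 1 := by
    rw [hs.tsum_prod' (fun i => (hone i).summable)]
    have : (fun i => ∑' m : ℤ, gm (Q.w i) (Q.ρ i) m ^ 2) = Q.w := by
      funext i
      exact (hone i).tsum_eq
    rw [this]
    exact h.sum.tsum_eq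
  have hh : HasSum (fun p : Q.I × ℤ => gm (Q.w p.1) (Q.ρ p.1) p.2 ^ 2) 1 := by
    rw [← ht]
    exact hs.hasSum
  exact (Equiv.prodComm ℤ Q.I).hasSum_iff.2 hh

theorem p_MOD : T_MOD := by
  intro Q lo hi h
  have hs := MOD_sum h
  have hc : ∀ m i, Q.md (m, i) = gm (Q.w i) (Q.ρ i) m := fun m i =>
    toL_apply (f := fun q : ℤ × Q.I => gm (Q.w q.2) (Q.ρ q.2) q.1) hs.summable (m, i)
  refine ⟨hc, ?_⟩
  have h1 : ‖Q.md‖ ^ 2 = 1 := by
    rw [norm_sq_L]
    have : (fun q : ℤ × Q.I => Q.md q ^ 2) =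
        fun q : ℤ × Q.I => gm (Q.w q.2) (Q.ρ q.2) q.1 ^ 2 := by
      funext q
      rw [← hc q.1 q.2]
    rw [this]
    exact hs.tsum_eq
  have h2 := norm_nonneg Q.md
  nlinarith

end

end HGQ
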