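import Pool.Agent.HGP2.Targets

/-!
# HGP2: merging equal blocks
-/

open scoped InnerProductSpace ENNReal
open HGP

namespace HGQ

noncomputable section

section mrg

variable {K : Type} (v : K → ℝ) {I : Type}

/-- the index equivalence -/
def MRG_e (K I : Type) : (ℤ × I) × K ≃ ℤ × (Σ _ : K, I) where
  toFun q := (q.1.1, ⟨q.2, q.1.2⟩)
  invFun q := ((q.1, q.2.2), q.2.1)
  left_inv _ := rfl
  right_inv _ := rfl

lemma MRG_sq (x : L2 (ℤ × (Σ _ : K, I)) ℝ) :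
    Summable fun q : (ℤ × I) × K => x (q.1.1, ⟨q.2, q.1.2⟩) ^ 2 :=
  (MRG_e K I).summable_iff.2 (summable_L x)

lemma MRG_tsq (x : L2 (ℤ × (Σ _ : K, I)) ℝ) :
    ∑' p : ℤ × I, ∑' k : K, x (p.1, ⟨k, p.2⟩) ^ 2 = ‖x‖ ^ 2 := by
  have h1 : ∑' q : (ℤ × I) × K, x (q.1.1, ⟨q.2, q.1.2⟩) ^ 2 =
      ∑' p : ℤ × I, ∑' k : K, x (p.1, ⟨k, p.2⟩) ^ 2 := (MRG_sq x).tsum_prod
  have h2 : ∑' q : (ℤ × I) × K, x (q.1.1, ⟨q.2, q.1.2⟩) ^ 2 = ∑' j, x j ^ 2 :=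
    (MRG_e K I).tsum_eq (fun j => x j ^ 2)
  rw [← h1, h2, norm_sq_L]

lemma MRG_row (x : L2 (ℤ × (Σ _ : K, I)) ℝ) (p : ℤ × I) :
    Summable fun k : K => x (p.1, ⟨k, p.2⟩) ^ 2 :=
  (MRG_sq x).prod_factor p

lemma MRG_sum (hv : ∀ k, 0 ≤ v k) (h1 : HasSum v 1) (x : L2 (ℤ × (Σ _ : K, I)) ℝ) (p : ℤ × I) :
    Summable fun k : K => Real.sqrt (v k) * x (p.1, ⟨k, p.2⟩) := by
  have h2 : Summable fun k : K => v k + x (p.1, ⟨k, p.2⟩) ^ 2 := h1.summable.add (MRG_row x p)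
  refine Summable.of_norm_bounded h2 fun k => ?_
  rw [Real.norm_eq_abs, abs_le]
  have h3 := Real.sq_sqrt (hv k)
  constructor <;> nlinarith [sq_nonneg (Real.sqrt (v k) + x (p.1, ⟨k, p.2⟩)),
    sq_nonneg (Real.sqrt (v k) - x (p.1, ⟨k, p.2⟩)), sq_nonneg (x (p.1, ⟨k, p.2⟩)), hv k]

/-- Cauchy-Schwarz with a probability vector -/
lemma MRG_cs (hv : ∀ k, 0 ≤ v k) (h1 : HasSum v 1) (x : L2 (ℤ × (Σ _ : K, I)) ℝ) (p : ℤ × I) :
    (∑' k : K, Real.sqrt (v k) * x (p.1, ⟨k, p.2⟩)) ^ 2 ≤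
      ∑' k : K, x (p.1, ⟨k, p.2⟩) ^ 2 := by
  set A := ∑' k : K, Real.sqrt (v k) * x (p.1, ⟨k, p.2⟩) with hA
  have hs : HasSum (fun k : K => (A * Real.sqrt (v k) - x (p.1, ⟨k, p.2⟩)) ^ 2)
      (A ^ 2 * 1 - 2 * A * A + ∑' k : K, x (p.1, ⟨k, p.2⟩) ^ 2) := by
    have e1 := (h1.mul_left (A ^ 2))
    have e2 := (MRG_sum v hv h1 x p).hasSum.mul_left (2 * A)
    have e3 := (MRG_row x p).hasSum
    have e4 := (e1.sub e2).add e3
    refine e4.congr_fun ?_ |> fun h => h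
    intro k
    have h3 := Real.sq_sqrt (hv k)
    simp only
    nlinarith [h3]
  have h0 := hs.nonneg (fun k => sq_nonneg _)
  nlinarith [h0]

/-- values of the merging operator -/
def MRG_f (hv : ∀ k, 0 ≤ v k) (h1 : HasSum v 1) (x : L2 (ℤ × (Σ _ : K, I)) ℝ) :
    L2 (ℤ × I) ℝ :=
  ⟨fun p => ∑' k : K, Real.sqrt (v k) * x (p.1, ⟨k, p.2⟩), by
    show Memℓp _ 2
    rw [mem2]
    refine Summable.of_nonneg_of_le (fun p => sq_nonneg _) (fun p => ?_) (MRG_sq x).prod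
    rw [Real.norm_eq_abs, sq_abs]
    exact MRG_cs v hv h1 x p⟩

lemma MRG_f_apply (hv : ∀ k, 0 ≤ v k) (h1 : HasSum v 1) (x : L2 (ℤ × (Σ _ : K, I)) ℝ)
    (p : ℤ × I) :
    MRG_f v hv h1 x p = ∑' k : K, Real.sqrt (v k) * x (p.1, ⟨k, p.2⟩) := rfl

lemma MRG_f_norm (hv : ∀ k, 0 ≤ v k) (h1 : HasSum v 1) (x : L2 (ℤ × (Σ _ : K, I)) ℝ) :
    ‖MRG_f v hv h1 x‖ ≤ ‖x‖ := by
  refine (pow_le_pow_iff_left₀ (norm_nonneg _) (norm_nonneg _) two_ne_zero).1 ?_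
  rw [norm_sq_L, ← MRG_tsq x]
  exact (summable_L _).tsum_le_tsum (fun p => MRG_cs v hv h1 x p) (MRG_sq x).prod

/-- the merging operator -/
def MRG_U (hv : ∀ k, 0 ≤ v k) (h1 : HasSum v 1) :
    L2 (ℤ × (Σ _ : K, I)) ℝ →L[ℝ] L2 (ℤ × I) ℝ :=
  LinearMap.mkContinuous
    { toFun := MRG_f v hv h1
      map_add' := fun x y => by
        ext p
        show MRG_f v hv h1 (x + y) p = MRG_f v hv h1 x p + MRG_f v hv h1 y p
        rw [MRG_f_apply, MRG_f_apply, MRG_f_apply,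
          ← (MRG_sum v hv h1 x p).tsum_add (MRG_sum v hv h1 y p)]
        refine tsum_congr fun k => ?_
        rw [← mul_add]
        rfl
      map_smul' := fun c x => by
        ext p
        show MRG_f v hv h1 (c • x) p = c * MRG_f v hv h1 x p
        rw [MRG_f_apply, MRG_f_apply, ← tsum_mul_left]
        refine tsum_congr fun k => ?_
        rw [mul_left_comm]
        rfl } 1 fun x => by
      rw [one_mul]
      exact MRG_f_norm v hv h1 x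

lemma MRG_U_apply (hv : ∀ k, 0 ≤ v k) (h1 : HasSum v 1) (x : L2 (ℤ × (Σ _ : K, I)) ℝ)
    (p : ℤ × I) :
    MRG_U v hv h1 x p = ∑' k : K, Real.sqrt (v k) * x (p.1, ⟨k, p.2⟩) := rfl

end mrg

theorem p_MRG (hBSM : T_BSM) : T_MRG := by
  intro K v hv h1 I M hM
  refine ⟨MRG_U v hv h1, ⟨LinearMap.mkContinuous_norm_le _ zero_le_one _, fun x => ?_⟩, ?_⟩
  · ext p
    obtain ⟨m, i⟩ := p
    rw [MRG_U_apply, S1_apply, MRG_U_apply]
    rfl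
  · have hb := (hBSM K v hv h1 (fun _ => I) (fun _ => M) (fun _ => hM)).1
    have : MRG_U v hv h1 (bs v (fun _ : K => M)) = M := by
      ext p
      obtain ⟨m, i⟩ := p
      rw [MRG_U_apply]
      have h2 : ∀ k : K, Real.sqrt (v k) * bs v (fun _ : K => M) ((m, i).1, ⟨k, (m, i).2⟩) =
          v k * M (m, i) := by
        intro k
        rw [hb m k i, ← mul_assoc, Real.mul_self_sqrt (hv k)]
      rw [tsum_congr h2, tsum_mul_right, h1.tsum_eq, one_mul]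
    rw [this, sub_self, norm_zero]

end

end HGQ
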