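import Pool.Agent.HGP2.Targets

/-!
# HGP2: `W x ξ` is near `r ^ len x • ξ`
-/

open scoped InnerProductSpace ENNReal
open HGP HNNExtension HNNExtension.NormalWord

namespace HGQ

noncomputable section

/-- the operator for one letter -/
lemma NI_vu {E : Type} [NormedAddCommGroup E] [InnerProductSpace ℝ E] [CompleteSpace E]
    (V : E →L[ℝ] E) (r : ℝ) (hV : ‖V‖ ≤ 1) (ξ : E) (η : ℝ)
    (h1 : ‖V ξ - ξ‖ ≤ η) (h2 : ‖ContinuousLinearMap.adjoint V ξ - ξ‖ ≤ η) (v : ℤˣ) :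
    ∃ V' : E →L[ℝ] E, ‖V'‖ ≤ 1 ∧ ‖V' ξ - ξ‖ ≤ η ∧
      vu (r • V) (ContinuousLinearMap.adjoint (r • V)) v = r • V' := by
  unfold vu
  by_cases hv : v = 1
  · rw [if_pos hv]
    exact ⟨V, hV, h1, rfl⟩
  · rw [if_neg hv]
    refine ⟨ContinuousLinearMap.adjoint V, ?_, h2, ?_⟩
    · rw [LinearIsometryEquiv.norm_map]
      exact hV
    · rw [map_smulₛₗ]
      simp

/-- one step of the estimate -/
lemma NI_step {E : Type} [NormedAddCommGroup E] [InnerProductSpace ℝ E]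
    (p : E ≃ₗᵢ[ℝ] E) (V' : E →L[ℝ] E) (r : ℝ) (n : ℕ) (ξ w : E) (η N : ℝ) (h0 : 0 ≤ r)
    (hr : r ≤ 1) (hV : ‖V'‖ ≤ 1) (h1 : ‖V' ξ - ξ‖ ≤ η) (h2 : ‖p ξ - ξ‖ ≤ η)
    (hw : ‖w - r ^ n • ξ‖ ≤ N * η) :
    ‖p ((r • V') w) - r ^ (n + 1) • ξ‖ ≤ (N + 2) * η := by
  have hη : 0 ≤ η := (norm_nonneg _).trans h1
  have e : p ((r • V') w) - r ^ (n + 1) • ξ = r • p (V' (w - r ^ n • ξ)) +
      r ^ (n + 1) • (p (V' ξ - ξ) + (p ξ - ξ)) := by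
    simp only [_root_.smul_apply, map_sub, map_smul, smul_sub, smul_add, smul_smul,
      pow_succ']
    abel
  have hr1 : r ^ (n + 1) ≤ 1 := pow_le_one₀ h0 hr
  have hr0 : 0 ≤ r ^ (n + 1) := pow_nonneg h0 _
  have a1 : ‖r • p (V' (w - r ^ n • ξ))‖ ≤ N * η := by
    rw [norm_smul, LinearIsometryEquiv.norm_map, Real.norm_of_nonneg h0]
    calc r * ‖V' (w - r ^ n • ξ)‖ ≤ 1 * ‖V' (w - r ^ n • ξ)‖ :=
          mul_le_mul_of_nonneg_right hr (norm_nonneg _)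
      _ = ‖V' (w - r ^ n • ξ)‖ := one_mul _
      _ ≤ ‖V'‖ * ‖w - r ^ n • ξ‖ := V'.le_opNorm _
      _ ≤ 1 * ‖w - r ^ n • ξ‖ := mul_le_mul_of_nonneg_right hV (norm_nonneg _)
      _ = ‖w - r ^ n • ξ‖ := one_mul _
      _ ≤ N * η := hw
  have a2 : ‖p (V' ξ - ξ) + (p ξ - ξ)‖ ≤ 2 * η := by
    calc ‖p (V' ξ - ξ) + (p ξ - ξ)‖ ≤ ‖p (V' ξ - ξ)‖ + ‖p ξ - ξ‖ := norm_add_le _ _
      _ ≤ η + η := add_le_add (by rw [LinearIsometryEquiv.norm_map]; exact h1) h2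
      _ = 2 * η := by ring
  have a3 : ‖r ^ (n + 1) • (p (V' ξ - ξ) + (p ξ - ξ))‖ ≤ 2 * η := by
    rw [norm_smul, Real.norm_of_nonneg hr0]
    calc r ^ (n + 1) * ‖p (V' ξ - ξ) + (p ξ - ξ)‖ ≤ 1 * (2 * η) :=
          mul_le_mul hr1 a2 (norm_nonneg _) zero_le_one
      _ = 2 * η := one_mul _
  rw [e]
  calc _ ≤ _ := norm_add_le _ _
    _ ≤ N * η + 2 * η := add_le_add a1 a3
    _ = (N + 2) * η := by ring

theorem p_NI : T_NI := by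
  classical
  intro H _ A B φ x
  obtain ⟨hd, tu, tr, hdec⟩ := kDECL H A B φ
  obtain ⟨l1, -, -, l4, -, -⟩ := kLN H A B φ
  induction hn : len φ x generalizing x with
  | zero =>
    obtain ⟨h, rfl⟩ := l4 x hn
    refine ⟨{h}, 1, zero_le_one, ?_⟩
    intro E _ _ _ π V r W ξ η hW h0 hr hV hξ hS hv hv'
    rw [(kSP H A B φ E π (r • V) W hW).1 h ξ, pow_zero, one_smul, one_mul]
    exact hS h (Finset.mem_singleton_self h)
  | succ n ih =>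
    have hx : len φ x ≠ 0 := by omega
    obtain ⟨d1, d2, -⟩ := hdec x hx
    obtain ⟨S, N, hN, hE⟩ := ih (tr x) (by omega)
    refine ⟨insert (hd x) S, N + 2, by linarith, ?_⟩
    intro E _ _ _ π V r W ξ η hW h0 hr hV hξ hS hv hv'
    have hE' := hE E π V r W ξ η hW h0 hr hV hξ
      (fun s hs => hS s (Finset.mem_insert_of_mem hs)) hv hv'
    obtain ⟨-, -, s3, -, s5, -⟩ := kSP H A B φ E π (r • V) W hW
    have hl : len φ (t ^ (tu x : ℤ) * tr x) = len φ (tr x) + 1 := by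
      rw [← d2, ← l1 (hd x), ← d1]
    obtain ⟨V', v1, v2, v3⟩ := NI_vu V r hV ξ η hv hv' (tu x)
    have hWx : W x ξ = π (hd x) ((r • V') (W (tr x) ξ)) := by
      conv_lhs => rw [d1]
      rw [s3, s5 _ _ hl, v3]
      rfl
    rw [hWx]
    exact NI_step (π (hd x)) V' r n ξ (W (tr x) ξ) η N h0 hr v1 v2
      (hS _ (Finset.mem_insert_self _ _)) hE'

end

end HGQ
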