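import Pool.Agent.HGP2.Targets

/-!
# HGP2, target ONC: one-relator groups with a letter occurring once (helper5)
-/

open HGP

namespace HGQ

noncomputable section

/-- the substitution `x_j ↦ a` -/
def ONC_F {n : ℕ} (j : Fin n) (a : FreeGroup (Fin n)) :
    FreeGroup (Fin n) →* FreeGroup (Fin n) :=
  FreeGroup.lift (Function.update FreeGroup.of j a)

lemma ONC_of {n : ℕ} (j : Fin n) (a : FreeGroup (Fin n)) :
    ONC_F j a (FreeGroup.of j) = a := by
  unfold ONC_F
  rw [FreeGroup.lift_apply_of, Function.update_self]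

lemma ONC_ne {n : ℕ} {i j : Fin n} (h : i ≠ j) (a : FreeGroup (Fin n)) :
    ONC_F j a (FreeGroup.of i) = FreeGroup.of i := by
  unfold ONC_F
  rw [FreeGroup.lift_apply_of, Function.update_of_ne h]

lemma ONC_fix {n : ℕ} (j : Fin n) (a w : FreeGroup (Fin n)) (hw : w ∈ Ls {j}ᶜ) :
    ONC_F j a w = w := by
  unfold Ls at hw
  induction hw using Subgroup.closure_induction with
  | mem x hx =>
    obtain ⟨i, hi, rfl⟩ := hx
    exact ONC_ne hi a
  | one => exact map_one _
  | mul x y _ _ hx hy => rw [map_mul, hx, hy]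
  | inv x _ hx => rw [map_inv, hx]

theorem p_ONC : T_ONC := by
  intro n j u v hu hv
  have hrel : ∀ r ∈ ({u * FreeGroup.of j * v} : Set (FreeGroup (Fin n))),
      FreeGroup.lift (Function.update FreeGroup.of j (u⁻¹ * v⁻¹)) r = 1 := by
    intro r hr
    rw [Set.mem_singleton_iff] at hr
    subst hr
    change ONC_F j (u⁻¹ * v⁻¹) (u * FreeGroup.of j * v) = 1
    rw [map_mul, map_mul, ONC_fix j _ u hu, ONC_fix j _ v hv, ONC_of]
    group
  set f : OR (u * FreeGroup.of j * v) →* FreeGroup (Fin n) := PresentedGroup.toGroup hrel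
    with hf
  have hfm : ∀ w : FreeGroup (Fin n), f (PresentedGroup.mk {u * FreeGroup.of j * v} w) =
      ONC_F j (u⁻¹ * v⁻¹) w := fun w => rfl
  have hmk : PresentedGroup.mk {u * FreeGroup.of j * v} (u * FreeGroup.of j * v) = 1 :=
    PresentedGroup.mk_eq_one_iff.2 (Subgroup.subset_normalClosure (Set.mem_singleton _))
  have hinv : ∀ x : OR (u * FreeGroup.of j * v),
      PresentedGroup.mk {u * FreeGroup.of j * v} (f x) = x := by
    have h : (PresentedGroup.mk {u * FreeGroup.of j * v}).comp f = MonoidHom.id _ := by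
      refine PresentedGroup.ext fun i => ?_
      change PresentedGroup.mk {u * FreeGroup.of j * v}
        (f (PresentedGroup.mk {u * FreeGroup.of j * v} (FreeGroup.of i))) =
          PresentedGroup.mk {u * FreeGroup.of j * v} (FreeGroup.of i)
      rw [hfm]
      by_cases hi : i = j
      · subst hi
        rw [ONC_of]
        rw [map_mul, map_mul] at hmk
        rw [map_mul, map_inv, map_inv]
        have h1 := eq_inv_of_mul_eq_one_left hmk
        rw [← h1]
        group
      · rw [ONC_ne hi]
    intro x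
    exact DFunLike.congr_fun h x
  refine ⟨f, fun x y hxy => ?_, fun w hw => ?_, ?_⟩
  · rw [← hinv x, hxy, hinv y]
  · rw [hfm, ONC_fix j _ w hw]
  · change f (PresentedGroup.mk {u * FreeGroup.of j * v} (FreeGroup.of j)) = _
    rw [hfm, ONC_of]

end

end HGQ
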