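import Pool.Agent.HGP2.Targets

/-!
# HGP2: two occurrences of a letter with opposite exponents (OPP)
-/

open scoped InnerProductSpace ENNReal
open HGP HNNExtension HNNExtension.NormalWord

namespace HGQ

lemma OPP_ker {G G' : Type} [Group G] [Group G'] (g : G →* G') (hg : Function.Injective g) :
    Finite g.ker := by
  rw [(MonoidHom.ker_eq_bot_iff g).2 hg]
  infer_instance

theorem p_OPP (hONC : T_ONC) (hSBA : T_SBA) (hFTF : T_FTF) (hPRU : T_PRU) (hGHN : T_GHN)
    (hGKE : T_GKE) (hGFR : T_GFR) : T_OPP := by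
  intro n j u v hu hv hu1 hv1
  obtain ⟨f, hf, hfw, hfj⟩ := hONC n j 1 v (Subgroup.one_mem _) hv
  have h1 : ¬ IsOfFinOrder (PresentedGroup.mk {1 * FreeGroup.of j * v} u) := by
    intro h
    have h2 := f.isOfFinOrder h
    rw [hfw u hu] at h2
    exact hFTF n u hu1 h2
  have h3 : ¬ IsOfFinOrder (gl (1 * FreeGroup.of j * v) j) := by
    intro h
    have h4 := f.isOfFinOrder h
    rw [hfj] at h4
    refine hFTF n _ ?_ h4
    simpa using hv1
  obtain ⟨θ, ⟨e⟩⟩ := hPRU n (1 * FreeGroup.of j * v) j u hu h1 h3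
  have hs : sb j (FreeGroup.of j * u * (FreeGroup.of j)⁻¹) (1 * FreeGroup.of j * v) =
      FreeGroup.of j * u * (FreeGroup.of j)⁻¹ * v := by
    have h5 := hSBA n j (FreeGroup.of j * u * (FreeGroup.of j)⁻¹) v hv
    unfold sb at h5 ⊢
    rw [map_mul, map_mul, map_one, one_mul, h5]
    congr 1
    simp
  have hG1 : Good (OR (1 * FreeGroup.of j * v)) := hGKE _ _ f (OPP_ker f hf) (hGFR n)
  have hG2 := hGHN _ _ _ θ (Or.inr inferInstance) hG1
  have hG3 := hGKE _ _ e.toMonoidHom (OPP_ker _ e.injective) hG2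
  rw [← hs]
  exact hG3

end HGQ
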