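import Pool.Agent.HGP2.Targets

/-!
# HGP2: T_PIN (operators from injections defined on parts of the index sets)
-/

open scoped InnerProductSpace ENNReal
open HGP

namespace HGQ

noncomputable section

/-- the coordinates of the image -/
def PIN_val {I I' : Type} (f : I' → Option I) (x : ℤ × I → ℝ) (q : ℤ × I') : ℝ :=
  (f q.2).elim 0 (fun i => x (q.1, i))

lemma PIN_some {I I' : Type} {f : I' → Option I} {x : ℤ × I → ℝ} {m : ℤ} {i' : I'} {i : I}
    (h : f i' = some i) : PIN_val f x (m, i') = x (m, i) := by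
  unfold PIN_val
  simp [h]

lemma PIN_none {I I' : Type} {f : I' → Option I} {x : ℤ × I → ℝ} {m : ℤ} {i' : I'}
    (h : f i' = none) : PIN_val f x (m, i') = 0 := by
  unfold PIN_val
  simp [h]

lemma PIN_sq {I I' : Type} (f : I' → Option I)
    (hf : ∀ a b i, f a = some i → f b = some i → a = b) (x : L2 (ℤ × I) ℝ) :
    (Summable fun q => PIN_val f x q ^ 2) ∧
      ∑' q, PIN_val f x q ^ 2 ≤ ∑' p, x p ^ 2 := by
  classical
  set s : Set (ℤ × I') := {q | (f q.2).isSome} with hs
  let φ : s → ℤ × I := fun q => (q.1.1, (f q.1.2).get q.2)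
  have hφ : Function.Injective φ := by
    rintro ⟨⟨m, a⟩, ha⟩ ⟨⟨m', b⟩, hb⟩ h
    simp only [φ, Prod.mk.injEq] at h
    obtain ⟨h1, h2⟩ := h
    have e1 : f a = some ((f a).get ha) := (Option.some_get ha).symm
    have e2 : f b = some ((f a).get ha) := by
      rw [h2]; exact (Option.some_get hb).symm
    have h3 := hf a b _ e1 e2
    subst h3
    subst h1
    rfl
  have hval : ∀ q : s, PIN_val f x q.1 ^ 2 = x (φ q) ^ 2 := by
    rintro ⟨⟨m, a⟩, ha⟩
    have e1 : f a = some ((f a).get ha) := (Option.some_get ha).symm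
    show PIN_val f x (m, a) ^ 2 = x (m, (f a).get ha) ^ 2
    rw [PIN_some e1]
  have hind : s.indicator (fun q => PIN_val f x q ^ 2) = fun q => PIN_val f x q ^ 2 := by
    funext q
    by_cases hq : q ∈ s
    · rw [Set.indicator_of_mem hq]
    · rw [Set.indicator_of_notMem hq]
      have h1 : f q.2 = none := by
        have : ¬ (f q.2).isSome := hq
        simpa using this
      obtain ⟨m, a⟩ := q
      rw [PIN_none h1]
      norm_num
  have hsx : Summable fun p => x p ^ 2 := summable_L x
  have hsub : Summable ((fun q => PIN_val f x q ^ 2) ∘ (Subtype.val : s → ℤ × I')) := by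
    have h1 : Summable ((fun p => x p ^ 2) ∘ φ) := hsx.comp_injective hφ
    refine h1.congr (fun q => ?_)
    exact (hval q).symm
  constructor
  · rw [← hind]
    exact summable_subtype_iff_indicator.1 hsub
  · have h1 : ∑' q, PIN_val f x q ^ 2 = ∑' q : s, PIN_val f x q.1 ^ 2 := by
      conv_lhs => rw [← hind]
      exact (tsum_subtype s (fun q => PIN_val f x q ^ 2)).symm
    rw [h1, tsum_congr hval]
    exact tsum_comp_le_tsum_of_inj hsx (fun p => sq_nonneg _) hφ

/-- the linear map -/
def PIN_lin {I I' : Type} (f : I' → Option I)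
    (hf : ∀ a b i, f a = some i → f b = some i → a = b) :
    L2 (ℤ × I) ℝ →ₗ[ℝ] L2 (ℤ × I') ℝ where
  toFun x := ⟨PIN_val f x, by
    show Memℓp _ 2
    rw [mem2]
    simpa using (PIN_sq f hf x).1⟩
  map_add' x y := by
    ext q
    obtain ⟨m, a⟩ := q
    show PIN_val f (x + y : L2 (ℤ × I) ℝ) (m, a) = PIN_val f x (m, a) + PIN_val f y (m, a)
    rcases h : f a with _ | i
    · rw [PIN_none h, PIN_none h, PIN_none h, add_zero]
    · rw [PIN_some h, PIN_some h, PIN_some h]
      rfl
  map_smul' c x := by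
    ext q
    obtain ⟨m, a⟩ := q
    show PIN_val f (c • x : L2 (ℤ × I) ℝ) (m, a) = c • PIN_val f x (m, a)
    rcases h : f a with _ | i
    · rw [PIN_none h, PIN_none h, smul_zero]
    · rw [PIN_some h, PIN_some h]
      rfl

lemma PIN_lin_apply {I I' : Type} (f : I' → Option I)
    (hf : ∀ a b i, f a = some i → f b = some i → a = b) (x : L2 (ℤ × I) ℝ) (q : ℤ × I') :
    PIN_lin f hf x q = PIN_val f x q := rfl

lemma PIN_norm {I I' : Type} (f : I' → Option I)
    (hf : ∀ a b i, f a = some i → f b = some i → a = b) (x : L2 (ℤ × I) ℝ) :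
    ‖PIN_lin f hf x‖ ≤ 1 * ‖x‖ := by
  rw [one_mul]
  refine (sq_le_sq₀ (norm_nonneg _) (norm_nonneg _)).1 ?_
  rw [norm_sq_L, norm_sq_L]
  exact (PIN_sq f hf x).2

theorem p_PIN : T_PIN := by
  intro I I' f hf
  refine ⟨(PIN_lin f hf).mkContinuous 1 (PIN_norm f hf), ⟨?_, ?_⟩, ?_, ?_⟩
  · exact LinearMap.mkContinuous_norm_le _ zero_le_one _
  · intro x
    ext q
    obtain ⟨m, a⟩ := q
    rw [LinearMap.mkContinuous_apply, LinearMap.mkContinuous_apply, PIN_lin_apply, S1_apply,
      PIN_lin_apply]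
    rcases h : f a with _ | i
    · rw [PIN_none h, PIN_none h]
    · rw [PIN_some h, PIN_some h, S1_apply]
  · intro x m i i' h
    rw [LinearMap.mkContinuous_apply, PIN_lin_apply, PIN_some h]
  · intro x m i' h
    rw [LinearMap.mkContinuous_apply, PIN_lin_apply, PIN_none h]

end

end HGQ
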