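import Pool.Agent.HGP2.Targets
import Pool.Agent.HGP.P_PRE

/-!
# HGP2: target PRU (presentations as HNN extensions, a word in the other letters)
-/

open HGP HNNExtension

namespace HGQ

noncomputable section

/-- words without the letter `j` do not see the image of `j` -/
lemma PRU_lift {n : ℕ} {G : Type} [Group G] (j : Fin n) (F F' : Fin n → G)
    (h : ∀ k, k ≠ j → F k = F' k) (u : FreeGroup (Fin n)) (hu : u ∈ Ls {j}ᶜ) :
    FreeGroup.lift F u = FreeGroup.lift F' u := by
  unfold Ls at hu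
  induction hu using Subgroup.closure_induction with
  | mem x hx =>
    obtain ⟨k, hk, rfl⟩ := hx
    rw [FreeGroup.lift_apply_of, FreeGroup.lift_apply_of]
    exact h k (by simpa using hk)
  | one => rw [map_one, map_one]
  | mul x y _ _ hx hy => rw [map_mul, map_mul, hx, hy]
  | inv x _ hx => rw [map_inv, map_inv, hx]

lemma PRU_hom {n : ℕ} {G : Type} [Group G] (r : FreeGroup (Fin n)) (ψ : OR r →* G)
    (u : FreeGroup (Fin n)) :
    ψ (PresentedGroup.mk {r} u) = FreeGroup.lift (fun k => ψ (gl r k)) u := by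
  have h : FreeGroup.lift (fun k => ψ (gl r k)) = ψ.comp (PresentedGroup.mk {r}) := by
    refine FreeGroup.ext_hom _ _ fun k => ?_
    simp only [FreeGroup.lift_apply_of, MonoidHom.comp_apply]
    rfl
  rw [h, MonoidHom.comp_apply]

/-- the new relator -/
abbrev PRU_nr {n : ℕ} (r : FreeGroup (Fin n)) (j : Fin n) (u : FreeGroup (Fin n)) :
    FreeGroup (Fin n) :=
  sb j (FreeGroup.of j * u * (FreeGroup.of j)⁻¹) r

lemma PRU_to {n : ℕ} {G : Type} [Group G] (r : FreeGroup (Fin n)) (j : Fin n)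
    (u : FreeGroup (Fin n)) (hu : u ∈ Ls {j}ᶜ) (ι : OR r →* G) (s : G)
    (hs : s * ι (PresentedGroup.mk {r} u) * s⁻¹ = ι (gl r j)) :
    ∃ f : OR (PRU_nr r j u) →* G, (∀ k, k ≠ j → f (gl _ k) = ι (gl r k)) ∧ f (gl _ j) = s := by
  obtain ⟨f, hf⟩ := PRE_hom (PRU_nr r j u) (Function.update (fun k => ι (gl r k)) j s) (by
    rw [PRE_lift_sb]
    have h : Function.update (Function.update (fun k => ι (gl r k)) j s) j
        (FreeGroup.lift (Function.update (fun k => ι (gl r k)) j s)
          (FreeGroup.of j * u * (FreeGroup.of j)⁻¹)) =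
        fun k => ι (gl r k) := by
      rw [Function.update_idem]
      have h1 : FreeGroup.lift (Function.update (fun k => ι (gl r k)) j s) u =
          ι (PresentedGroup.mk {r} u) := by
        rw [PRU_hom]
        exact PRU_lift j _ _ (fun k hk => Function.update_of_ne hk _ _) u hu
      funext k
      by_cases hk : k = j
      · subst hk
        simp only [Function.update_self, map_mul, map_inv, FreeGroup.lift_apply_of]
        rw [h1]
        exact hs
      · simp only [Function.update_of_ne hk]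
    rw [h]
    exact PRE_rel r ι)
  refine ⟨f, fun k hk => ?_, ?_⟩
  · rw [hf, Function.update_of_ne hk]
  · rw [hf, Function.update_self]

lemma PRU_from {n : ℕ} (r : FreeGroup (Fin n)) (j : Fin n) (u : FreeGroup (Fin n))
    (hu : u ∈ Ls {j}ᶜ) :
    ∃ f : OR r →* OR (PRU_nr r j u), (∀ k, k ≠ j → f (gl r k) = gl _ k) ∧
      f (gl r j) = gl _ j * PresentedGroup.mk {PRU_nr r j u} u * (gl _ j)⁻¹ ∧
      f (PresentedGroup.mk {r} u) = PresentedGroup.mk {PRU_nr r j u} u := by
  have hm : FreeGroup.lift (fun k => gl (PRU_nr r j u) k) u =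
      PresentedGroup.mk {PRU_nr r j u} u :=
    (PRU_hom (PRU_nr r j u) (MonoidHom.id _) u).symm
  obtain ⟨f, hf⟩ := PRE_hom r (Function.update (fun k => gl (PRU_nr r j u) k) j
    (gl _ j * PresentedGroup.mk {PRU_nr r j u} u * (gl _ j)⁻¹)) (by
    have h := PRE_rel (PRU_nr r j u) (MonoidHom.id _)
    simp only [MonoidHom.id_apply] at h
    rw [PRE_lift_sb] at h
    simp only [map_mul, map_inv, FreeGroup.lift_apply_of] at h
    rw [hm] at h
    exact h)
  have h1 : ∀ k, k ≠ j → f (gl r k) = gl _ k := fun k hk => by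
    rw [hf, Function.update_of_ne hk]
  refine ⟨f, h1, ?_, ?_⟩
  · rw [hf, Function.update_self]
  · rw [PRU_hom, PRU_lift j _ _ h1 u hu, hm]

/-- the isomorphism -/
lemma PRU_equiv {n : ℕ} (r : FreeGroup (Fin n)) (j : Fin n) (u : FreeGroup (Fin n))
    (hu : u ∈ Ls {j}ᶜ) {G : Type} [Group G] (ι : OR r →* G) (s : G)
    (hs : s * ι (PresentedGroup.mk {r} u) * s⁻¹ = ι (gl r j))
    (back : ∀ (Q : Type) [Group Q] (f : OR r →* Q) (q : Q),
      q * f (PresentedGroup.mk {r} u) * q⁻¹ = f (gl r j) → ∃ F : G →* Q, F.comp ι = f ∧ F s = q)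
    (gen : ∀ (F F' : G →* G), F.comp ι = F'.comp ι → F s = F' s → F = F') :
    Nonempty (OR (PRU_nr r j u) ≃* G) := by
  obtain ⟨f, hf1, hf2⟩ := PRU_to r j u hu ι s hs
  obtain ⟨g, hg1, hg2, hg3⟩ := PRU_from r j u hu
  obtain ⟨F, hF1, hF2⟩ := back (OR (PRU_nr r j u)) g (gl _ j) (by
    rw [hg3, hg2])
  have hF : ∀ x, F (ι x) = g x := fun x => by rw [← hF1]; rfl
  have hfu : f (PresentedGroup.mk {PRU_nr r j u} u) = ι (PresentedGroup.mk {r} u) := by
    rw [PRU_hom, PRU_hom]
    exact PRU_lift j _ _ hf1 u hu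
  have h1 : F.comp f = MonoidHom.id _ := by
    refine PRE_ext _ _ _ fun k => ?_
    by_cases hk : k = j
    · subst hk
      simp only [MonoidHom.comp_apply, MonoidHom.id_apply, hf2, hF2]
    · simp only [MonoidHom.comp_apply, MonoidHom.id_apply, hf1 k hk, hF, hg1 k hk]
  have h2 : f.comp F = MonoidHom.id _ := by
    refine gen _ _ ?_ ?_
    · refine PRE_ext _ _ _ fun k => ?_
      by_cases hk : k = j
      · subst hk
        simp only [MonoidHom.comp_apply, MonoidHom.id_apply, hF, hg2, map_mul, map_inv, hf2]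
        rw [hfu]
        exact hs
      · simp only [MonoidHom.comp_apply, MonoidHom.id_apply, hF, hg1 k hk, hf1 k hk]
    · simp only [MonoidHom.comp_apply, MonoidHom.id_apply, hF2, hf2]
  exact ⟨MulEquiv.mk' ⟨f, F, fun x => DFunLike.congr_fun h1 x, fun x => DFunLike.congr_fun h2 x⟩
    (fun a b => map_mul f a b)⟩

theorem p_PRU : T_PRU := by
  intro n r j u hu hi hj
  obtain ⟨θ, hθ⟩ := PRE_theta (PresentedGroup.mk {r} u : OR r) (gl r j) hi hj
  have hθ1 : (θ ⟨PresentedGroup.mk {r} u, Subgroup.mem_zpowers _⟩ : OR r) = gl r j := by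
    have h := hθ 1
    simpa using h
  refine ⟨θ, ?_⟩
  refine PRU_equiv r j u hu (of (φ := θ)) t ?_ ?_ ?_
  · have h := equiv_eq_conj (φ := θ) ⟨PresentedGroup.mk {r} u, Subgroup.mem_zpowers _⟩
    rw [hθ1] at h
    rw [h]
  · intro Q _ f q hq
    refine ⟨lift f q ?_, ?_, ?_⟩
    · rintro ⟨a, ha⟩
      obtain ⟨m, rfl⟩ := Subgroup.mem_zpowers_iff.1 ha
      have h1 : (θ ⟨(PresentedGroup.mk {r} u) ^ m, ha⟩ : OR r) = gl r j ^ m := hθ m
      rw [h1]
      simp only [map_zpow]
      rw [← hq]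
      have : ∀ x : Q, (q * x * q⁻¹) ^ m = q * x ^ m * q⁻¹ := fun x => by
        rw [← MulAut.conj_apply, ← MulAut.conj_apply, map_zpow]
      rw [this]
      simp
    · refine MonoidHom.ext fun x => ?_
      simp
    · simp
  · intro F F' h1 h2
    exact hom_ext h1 h2

end

end HGQ
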