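import Pool.Agent.HGP2.Targets

/-!
# HGP2: reversal (T_REV)
-/

open scoped InnerProductSpace ENNReal
open HGP HNNExtension HNNExtension.NormalWord

namespace HGQ

noncomputable section

section rev

variable {I : Type}

/-- multiplication by a bounded family depending on the second coordinate -/
def REV_D (ρ : I → ℝ) (hi : ℝ) (h0 : ∀ i, 0 < ρ i) (h1 : ∀ i, ρ i ≤ hi) :
    L2 (ℤ × I) ℝ →L[ℝ] L2 (ℤ × I) ℝ :=
  LinearMap.mkContinuous
    { toFun := fun x => ⟨fun q => ρ q.2 * x q, by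
        change Memℓp _ 2
        rw [mem2]
        refine Summable.of_nonneg_of_le (fun q => by positivity) (fun q => ?_)
          ((summable_sq_lp x).mul_left (hi ^ 2))
        rw [norm_mul, mul_pow, Real.norm_of_nonneg (h0 q.2).le]
        have h2 := h0 q.2
        have h3 := h1 q.2
        gcongr⟩
      map_add' := fun x y => by
        ext q
        change ρ q.2 * (x q + y q) = ρ q.2 * x q + ρ q.2 * y q
        ring
      map_smul' := fun c x => by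
        ext q
        change ρ q.2 * (c * x q) = c * (ρ q.2 * x q)
        ring } |hi| (by
      intro x
      refine (sq_le_sq₀ (norm_nonneg _) (by positivity)).1 ?_
      rw [mul_pow, norm_sq_lp, norm_sq_lp, ← tsum_mul_left]
      refine Summable.tsum_le_tsum (fun q => ?_) (summable_sq_lp _)
        ((summable_sq_lp x).mul_left _)
      change ‖ρ q.2 * x q‖ ^ 2 ≤ |hi| ^ 2 * ‖x q‖ ^ 2
      rw [norm_mul, mul_pow, Real.norm_of_nonneg (h0 q.2).le]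
      have h2 := h0 q.2
      have h3 := (h1 q.2).trans (le_abs_self hi)
      gcongr)

lemma REV_D_apply (ρ : I → ℝ) (hi : ℝ) (h0 : ∀ i, 0 < ρ i) (h1 : ∀ i, ρ i ≤ hi)
    (x : L2 (ℤ × I) ℝ) (m : ℤ) (i : I) : REV_D ρ hi h0 h1 x (m, i) = ρ i * x (m, i) := rfl

lemma REV_D_norm (ρ : I → ℝ) (hi : ℝ) (h0 : ∀ i, 0 < ρ i) (h1 : ∀ i, ρ i ≤ hi) :
    ‖REV_D ρ hi h0 h1‖ ≤ |hi| := LinearMap.mkContinuous_norm_le _ (abs_nonneg _) _

lemma REV_D_symm (ρ : I → ℝ) (hi : ℝ) (h0 : ∀ i, 0 < ρ i) (h1 : ∀ i, ρ i ≤ hi)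
    (x y : L2 (ℤ × I) ℝ) :
    ⟪REV_D ρ hi h0 h1 x, y⟫_ℝ = ⟪x, REV_D ρ hi h0 h1 y⟫_ℝ := by
  rw [lp.inner_eq_tsum, lp.inner_eq_tsum]
  refine tsum_congr fun q => ?_
  obtain ⟨m, i⟩ := q
  rw [REV_D_apply, REV_D_apply]
  simp only [RCLike.inner_apply, conj_trivial]
  ring

lemma REV_D_comm (ρ : I → ℝ) (hi : ℝ) (h0 : ∀ i, 0 < ρ i) (h1 : ∀ i, ρ i ≤ hi)
    (x : L2 (ℤ × I) ℝ) :
    REV_D ρ hi h0 h1 (S1 I x) = S1 I (REV_D ρ hi h0 h1 x) := by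
  ext q
  obtain ⟨m, i⟩ := q
  rw [REV_D_apply, S1_apply, S1_apply, REV_D_apply]

/-- reversal of the first coordinate -/
def REV_R (I : Type) : L2 (ℤ × I) ℝ ≃ₗᵢ[ℝ] L2 (ℤ × I) ℝ :=
  rei ((Equiv.neg ℤ).prodCongr (Equiv.refl I)) (LinearIsometryEquiv.refl ℝ ℝ)

lemma REV_R_apply (x : L2 (ℤ × I) ℝ) (m : ℤ) (i : I) : REV_R I x (m, i) = x (-m, i) := rfl

lemma REV_R_comm (x : L2 (ℤ × I) ℝ) : REV_R I (S1 I x) = (S1 I).symm (REV_R I x) := by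
  apply (S1 I).injective
  rw [LinearIsometryEquiv.apply_symm_apply]
  ext q
  obtain ⟨m, i⟩ := q
  rw [S1_apply, REV_R_apply, S1_apply, REV_R_apply]
  have h : -(m - 1) - 1 = -m := by ring
  rw [h]

/-- key equality of norms -/
lemma REV_key (ρ : I → ℝ) (hi : ℝ) (h0 : ∀ i, 0 < ρ i) (h1 : ∀ i, ρ i ≤ hi)
    (y : L2 (ℤ × I) ℝ) :
    ‖S1 I y - REV_D ρ hi h0 h1 y‖ = ‖y - REV_D ρ hi h0 h1 (S1 I y)‖ := by
  refine (sq_eq_sq₀ (norm_nonneg _) (norm_nonneg _)).1 ?_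
  have h := REV_D_symm ρ hi h0 h1 y (S1 I y)
  rw [norm_sub_sq_real, norm_sub_sq_real, ← h, REV_D_comm,
    LinearIsometryEquiv.norm_map, LinearIsometryEquiv.norm_map,
    real_inner_comm (REV_D ρ hi h0 h1 y)]

lemma REV_gm (w ρ : ℝ) (m : ℤ) :
    gm w ρ m - ρ * gm w ρ (m - 1) = gm w ρ (-(m - 1 - 1)) - ρ * gm w ρ (-(m - 1)) := by
  unfold gm
  rcases lt_trichotomy m 1 with h | h | h
  · rw [if_neg (by omega), if_neg (by omega), if_pos (by omega), if_pos (by omega)]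
    have : (-(m - 1 - 1) - 1).toNat = (-(m - 1) - 1).toNat + 1 := by omega
    rw [this, pow_succ]
    ring
  · subst h
    norm_num
  · rw [if_pos (by omega), if_pos (by omega), if_neg (by omega), if_neg (by omega)]
    have : (m - 1).toNat = (m - 1 - 1).toNat + 1 := by omega
    rw [this, pow_succ]
    ring

end rev

/-- reversal -/
theorem p_REV (hMOD : T_MOD) : T_REV := by
  intro Q lo hi hQ
  set D : L2 (ℤ × Q.I) ℝ →L[ℝ] L2 (ℤ × Q.I) ℝ := REV_D Q.ρ hi hQ.pos hQ.ub with hD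
  have hne : Nonempty Q.I := by
    by_contra h
    rw [not_nonempty_iff] at h
    have h1 := hQ.sum.unique (hasSum_empty)
    exact one_ne_zero h1
  obtain ⟨i0⟩ := hne
  have hpos : 0 < hi := (hQ.pos i0).trans_le (hQ.ub i0)
  have hDn : ‖D‖ < 1 := by
    refine (REV_D_norm Q.ρ hi hQ.pos hQ.ub).trans_lt ?_
    rw [abs_of_pos hpos]
    exact hQ.one
  set S : L2 (ℤ × Q.I) ℝ →L[ℝ] L2 (ℤ × Q.I) ℝ :=
    (S1 Q.I).toContinuousLinearEquiv.toContinuousLinearMap with hS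
  have hSa : ∀ x, S x = S1 Q.I x := fun x => rfl
  have hSn : ‖S‖ ≤ 1 := by
    refine ContinuousLinearMap.opNorm_le_bound _ zero_le_one fun x => ?_
    rw [hSa, LinearIsometryEquiv.norm_map, one_mul]
  have hDS : ‖D * S‖ < 1 := by
    calc ‖D * S‖ ≤ ‖D‖ * ‖S‖ := norm_mul_le _ _
      _ ≤ ‖D‖ * 1 := mul_le_mul_of_nonneg_left hSn (norm_nonneg _)
      _ < 1 := by rw [mul_one]; exact hDn
  have hc : Commute D S := by
    refine ContinuousLinearMap.ext fun x => ?_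
    change D (S x) = S (D x)
    rw [hSa, hSa]
    exact REV_D_comm Q.ρ hi hQ.pos hQ.ub x
  set u := Units.oneSub (D * S) hDS with hu
  have hua : ∀ x, (u : L2 (ℤ × Q.I) ℝ →L[ℝ] L2 (ℤ × Q.I) ℝ) x = x - D (S1 Q.I x) := by
    intro x
    rw [hu, Units.val_oneSub]
    rfl
  have huS : Commute (u : L2 (ℤ × Q.I) ℝ →L[ℝ] L2 (ℤ × Q.I) ℝ) S := by
    rw [hu, Units.val_oneSub]
    exact (Commute.one_left S).sub_left (hc.mul_left (Commute.refl S))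
  have huD : Commute (u : L2 (ℤ × Q.I) ℝ →L[ℝ] L2 (ℤ × Q.I) ℝ) D := by
    rw [hu, Units.val_oneSub]
    exact (Commute.one_left D).sub_left ((Commute.refl D).mul_left hc.symm)
  set v : L2 (ℤ × Q.I) ℝ →L[ℝ] L2 (ℤ × Q.I) ℝ := ((u⁻¹ : (L2 (ℤ × Q.I) ℝ →L[ℝ]
    L2 (ℤ × Q.I) ℝ)ˣ) : L2 (ℤ × Q.I) ℝ →L[ℝ] L2 (ℤ × Q.I) ℝ) with hv
  have hvS : Commute v S := huS.units_inv_left
  have hvD : Commute v D := huD.units_inv_left
  have hvu : ∀ x, v ((u : L2 (ℤ × Q.I) ℝ →L[ℝ] L2 (ℤ × Q.I) ℝ) x) = x := by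
    intro x
    have : v * (u : L2 (ℤ × Q.I) ℝ →L[ℝ] L2 (ℤ × Q.I) ℝ) = 1 := u.inv_mul
    calc v ((u : L2 (ℤ × Q.I) ℝ →L[ℝ] L2 (ℤ × Q.I) ℝ) x)
        = (v * (u : L2 (ℤ × Q.I) ℝ →L[ℝ] L2 (ℤ × Q.I) ℝ)) x := rfl
      _ = x := by rw [this]; rfl
  have huv : ∀ x, (u : L2 (ℤ × Q.I) ℝ →L[ℝ] L2 (ℤ × Q.I) ℝ) (v x) = x := by
    intro x
    have : (u : L2 (ℤ × Q.I) ℝ →L[ℝ] L2 (ℤ × Q.I) ℝ) * v = 1 := u.mul_inv
    calc (u : L2 (ℤ × Q.I) ℝ →L[ℝ] L2 (ℤ × Q.I) ℝ) (v x)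
        = ((u : L2 (ℤ × Q.I) ℝ →L[ℝ] L2 (ℤ × Q.I) ℝ) * v) x := rfl
      _ = x := by rw [this]; rfl
  have hvSa : ∀ x, v (S1 Q.I x) = S1 Q.I (v x) := fun x => DFunLike.congr_fun hvS.eq x
  have hvDa : ∀ x, v (D x) = D (v x) := fun x => DFunLike.congr_fun hvD.eq x
  have hDa : ∀ x, D (S1 Q.I x) = S1 Q.I (D x) := fun x => DFunLike.congr_fun hc.eq x
  set R : L2 (ℤ × Q.I) ℝ →L[ℝ] L2 (ℤ × Q.I) ℝ :=
    (REV_R Q.I).toContinuousLinearEquiv.toContinuousLinearMap with hR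
  have hRa : ∀ x, R x = REV_R Q.I x := fun x => rfl
  have hUa : ∀ x, (v * (S * (S - D)) * R) x =
      v (S1 Q.I (S1 Q.I (REV_R Q.I x) - D (REV_R Q.I x))) := fun x => rfl
  refine ⟨v * (S * (S - D)) * R, ?_, ?_, ?_⟩
  · refine ContinuousLinearMap.opNorm_le_bound _ zero_le_one fun x => ?_
    rw [hUa, hvSa, LinearIsometryEquiv.norm_map, map_sub, hvSa, hvDa, REV_key, one_mul]
    have h3 := huv (REV_R Q.I x)
    rw [hua] at h3
    rw [← hD, h3, LinearIsometryEquiv.norm_map]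
  · intro x
    apply (S1 Q.I).injective
    rw [LinearIsometryEquiv.apply_symm_apply, hUa, hUa, ← hvSa, REV_R_comm]
    congr 2
    rw [LinearIsometryEquiv.apply_symm_apply, map_sub, ← hDa,
      LinearIsometryEquiv.apply_symm_apply]
  · rw [hUa]
    have h4 : S1 Q.I (S1 Q.I (REV_R Q.I Q.md) - D (REV_R Q.I Q.md)) =
        (u : L2 (ℤ × Q.I) ℝ →L[ℝ] L2 (ℤ × Q.I) ℝ) Q.md := by
      rw [hua]
      ext q
      obtain ⟨m, i⟩ := q
      rw [S1_apply]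
      have e1 : (S1 Q.I (REV_R Q.I Q.md) - D (REV_R Q.I Q.md)) (m - 1, i) =
          Q.md (-(m - 1 - 1), i) - Q.ρ i * Q.md (-(m - 1), i) := rfl
      have e2 : (Q.md - D (S1 Q.I Q.md)) (m, i) = Q.md (m, i) - Q.ρ i * Q.md (m - 1, i) := rfl
      rw [e1, e2]
      simp only [(hMOD Q lo hi hQ).1]
      exact (REV_gm _ _ m).symm
    rw [h4, hvu]

end

end HGQ
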