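import Pool.Agent.HGP2.Targets

/-!
# HGP2: target SAM (two occurrences of one letter with equal exponents)
-/

open HGP

namespace HGQ

noncomputable section

/-- the substitution `x_j ↦ x_j a` as an automorphism -/
lemma SAM_aut (hSBA : T_SBA) {n : ℕ} (j : Fin n) (a : FreeGroup (Fin n)) (ha : a ∈ Ls {j}ᶜ) :
    ∃ f : FreeGroup (Fin n) ≃* FreeGroup (Fin n), f (FreeGroup.of j) = FreeGroup.of j * a ∧
      ∀ w ∈ Ls {j}ᶜ, f w = w := by
  have key : ∀ b c : FreeGroup (Fin n), b ∈ Ls {j}ᶜ → c * b = 1 →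
      (FreeGroup.lift (Function.update FreeGroup.of j (FreeGroup.of j * c))).comp
        (FreeGroup.lift (Function.update FreeGroup.of j (FreeGroup.of j * b))) =
      MonoidHom.id (FreeGroup (Fin n)) := by
    intro b c hb hbc
    refine FreeGroup.ext_hom _ _ fun k => ?_
    rw [MonoidHom.comp_apply, FreeGroup.lift_apply_of, MonoidHom.id_apply]
    by_cases hk : k = j
    · subst hk
      rw [Function.update_self, map_mul, FreeGroup.lift_apply_of, Function.update_self]
      have h1 := hSBA n k (FreeGroup.of k * c) b hb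
      unfold sb at h1
      rw [h1, mul_assoc, hbc, mul_one]
    · rw [Function.update_of_ne hk, FreeGroup.lift_apply_of, Function.update_of_ne hk]
  refine ⟨MonoidHom.toMulEquiv
    (FreeGroup.lift (Function.update FreeGroup.of j (FreeGroup.of j * a)))
    (FreeGroup.lift (Function.update FreeGroup.of j (FreeGroup.of j * a⁻¹)))
    (key a a⁻¹ ha (inv_mul_cancel a)) (key a⁻¹ a (inv_mem ha) (mul_inv_cancel a)), ?_, ?_⟩
  · change FreeGroup.lift (Function.update FreeGroup.of j (FreeGroup.of j * a))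
      (FreeGroup.of j) = _
    rw [FreeGroup.lift_apply_of, Function.update_self]
  · intro w hw
    exact hSBA n j (FreeGroup.of j * a) w hw

/-- the case `x_j ^ 2 w` -/
lemma SAM_sq (hONC : T_ONC) (hSBA : T_SBA) (hFTF : T_FTF) (hGPI : T_GPI) (hGKE : T_GKE)
    (hGFR : T_GFR) (n : ℕ) (j : Fin n) (w : FreeGroup (Fin n)) (hw : w ∈ Ls {j}ᶜ)
    (hw1 : w ≠ 1) : Good (OR (FreeGroup.of j ^ 2 * w)) := by
  obtain ⟨f, hf, -, hfj⟩ := hONC n j 1 w (one_mem _) hw
  rw [inv_one, one_mul (M := FreeGroup (Fin n)) w⁻¹] at hfj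
  have hG : Good (OR (1 * FreeGroup.of j * w)) := by
    refine hGKE _ _ f ?_ (hGFR n)
    rw [(MonoidHom.ker_eq_bot_iff f).2 hf]
    infer_instance
  have ho : ¬ IsOfFinOrder (gl (1 * FreeGroup.of j * w) j) := by
    intro h
    have h2 := f.isOfFinOrder h
    rw [hfj] at h2
    exact hFTF n w⁻¹ (inv_ne_one.2 hw1) h2
  have hj : FreeGroup.of j ∈ Ls ({j} : Set (Fin n)) :=
    Subgroup.subset_closure (Set.mem_image_of_mem _ (Set.mem_singleton j))
  have htop : ∀ x : FreeGroup (Fin n), x ∈ Ls (({j} : Set (Fin n))ᶜ ∪ {j}) := by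
    intro x
    have h1 : Ls (({j} : Set (Fin n))ᶜ ∪ {j}) = ⊤ := by
      unfold Ls
      rw [Set.compl_union_self, Set.image_univ, FreeGroup.closure_range_of]
    rw [h1]
    exact Subgroup.mem_top x
  have hne : (FreeGroup.of j : FreeGroup (Fin n)) ^ 2 ≠ 1 := by
    intro h
    exact hFTF n (FreeGroup.of j) (FreeGroup.of_ne_one j)
      (isOfFinOrder_iff_pow_eq_one.2 ⟨2, by norm_num, h⟩)
  have h3 := hGPI n (1 * FreeGroup.of j * w) j {j} (FreeGroup.of j ^ 2) (Set.mem_singleton j)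
    (pow_mem hj 2) hne (htop _) ho hG
  have e : sb j (FreeGroup.of j ^ 2) (1 * FreeGroup.of j * w) = FreeGroup.of j ^ 2 * w := by
    have h4 := hSBA n j (FreeGroup.of j ^ 2) w hw
    unfold sb at h4 ⊢
    rw [one_mul, map_mul, h4, FreeGroup.lift_apply_of, Function.update_self]
  rwa [e] at h3

theorem p_SAM (hONC : T_ONC) (hSBA : T_SBA) (hFTF : T_FTF) (hGPI : T_GPI) (hGKE : T_GKE)
    (hGFR : T_GFR) : T_SAM := by
  intro n j u v hu hv huv
  obtain ⟨f, hf1, hf2⟩ := SAM_aut hSBA j u⁻¹ (inv_mem hu)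
  obtain ⟨e, -⟩ := kMOV.1 n (FreeGroup.of j * u * FreeGroup.of j * v) f
  have h1 : f (FreeGroup.of j * u * FreeGroup.of j * v) = FreeGroup.of j ^ 2 * (u⁻¹ * v) := by
    rw [map_mul, map_mul, map_mul, hf1, hf2 u hu, hf2 v hv, pow_two, inv_mul_cancel_right,
      mul_assoc, mul_assoc, mul_assoc]
  have h2 := SAM_sq hONC hSBA hFTF hGPI hGKE hGFR n j (u⁻¹ * v)
    (mul_mem (inv_mem hu) hv) (fun h => huv (inv_mul_eq_one.1 h))
  rw [← h1] at h2
  refine hGKE _ _ e.toMonoidHom ?_ h2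
  rw [(MonoidHom.ker_eq_bot_iff e.toMonoidHom).2 e.injective]
  infer_instance

end

end HGQ
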