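import Pool.Agent.HGP2.Targets

/-!
# HGP2, targets SBA and FTF: substitutions fix words without the letter, free groups are
torsion free (helper94)
-/

open HGP

namespace HGQ

/-- SBA -/
theorem p_SBA : T_SBA := by
  intro n j v w hw
  unfold Ls at hw
  have hmap : ∀ x : FreeGroup (Fin n), sb j v x =
      (FreeGroup.lift (Function.update FreeGroup.of j v) :
        FreeGroup (Fin n) →* FreeGroup (Fin n)) x := fun _ => rfl
  induction hw using Subgroup.closure_induction with
  | mem x hx =>
    obtain ⟨i, hi, rfl⟩ := hx
    have hne : i ≠ j := hi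
    rw [hmap, FreeGroup.lift_apply_of, Function.update_of_ne hne]
  | one => rw [hmap, map_one]
  | mul x y _ _ hx hy =>
    rw [hmap] at hx hy ⊢
    rw [map_mul, hx, hy]
  | inv x _ hx =>
    rw [hmap] at hx ⊢
    rw [map_inv, hx]

/-- FTF -/
theorem p_FTF : T_FTF := fun _ _ hw => not_isOfFinOrder_of_isMulTorsionFree hw

end HGQ
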