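import Pool.Agent.HGP2.Targets

/-!
# HGP2, T_SHF: the shift of the blocks (helper86)
-/

open scoped InnerProductSpace ENNReal
open HGP HNNExtension HNNExtension.NormalWord

namespace HGQ

noncomputable section

lemma SHF_cast (Q : ℕ → Mx) (n n' : ℕ) (h : n = n') (m : ℤ) (i : (Q n).I) :
    (Q n').md (m, h ▸ i) = (Q n).md (m, i) := by
  subst h
  rfl

/-- the shift of the blocks, last block omitted -/
def SHF_f (Q : ℕ → Mx) (J : ℕ) (q : Σ j : Fin J, (Q (j + 1)).I) : Option (Σ j : Fin J, (Q j).I) :=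
  if h : (q.1 : ℕ) + 1 < J then some ⟨⟨(q.1 : ℕ) + 1, h⟩, q.2⟩ else none

/-- the last block -/
def SHF_g (Q : ℕ → Mx) (J : ℕ) (q : Σ j : Fin J, (Q (j + 1)).I) : Option (Q J).I :=
  if h : (q.1 : ℕ) + 1 = J then some (h ▸ q.2) else none

lemma SHF_f_inj (Q : ℕ → Mx) (J : ℕ) (a b : Σ j : Fin J, (Q (j + 1)).I)
    (i : Σ j : Fin J, (Q j).I) (ha : SHF_f Q J a = some i) (hb : SHF_f Q J b = some i) :
    a = b := by
  obtain ⟨ja, ia⟩ := a
  obtain ⟨jb, ib⟩ := b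
  unfold SHF_f at ha hb
  by_cases h1 : (ja : ℕ) + 1 < J
  · by_cases h2 : (jb : ℕ) + 1 < J
    · simp only [h1, h2, dif_pos, Option.some.injEq] at ha hb
      have e := ha.trans hb.symm
      obtain ⟨e1, e2⟩ := Sigma.mk.inj e
      have e3 : (ja : ℕ) + 1 = (jb : ℕ) + 1 := congrArg Fin.val e1
      have e4 : ja = jb := Fin.ext (Nat.succ.inj e3)
      subst e4
      rw [eq_of_heq e2]
    · simp [h2] at hb
  · simp [h1] at ha

lemma SHF_g_inj (Q : ℕ → Mx) (J : ℕ) (a b : Σ j : Fin J, (Q (j + 1)).I)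
    (i : (Q J).I) (ha : SHF_g Q J a = some i) (hb : SHF_g Q J b = some i) :
    a = b := by
  obtain ⟨ja, ia⟩ := a
  obtain ⟨jb, ib⟩ := b
  unfold SHF_g at ha hb
  by_cases h1 : (ja : ℕ) + 1 = J
  · by_cases h2 : (jb : ℕ) + 1 = J
    · simp only [h1, h2, dif_pos, Option.some.injEq] at ha hb
      have e := ha.trans hb.symm
      have e4 : ja = jb := Fin.ext (by omega)
      subst e4
      have e5 : ia = ib := by
        have : ∀ (n n' : ℕ) (h : n = n') (x y : (Q n).I), (h ▸ x : (Q n').I) = h ▸ y → x = y := by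
          intro n n' h x y hxy
          subst h
          exact hxy
        exact this _ _ h1 ia ib e
      rw [e5]
    · simp [h2] at hb
  · simp [h1] at ha

/-- T_SHF -/
theorem p_SHF (hPIN : T_PIN) (hMOD : T_MOD) (hBSM : T_BSM) : T_SHF := by
  intro Q lo hi hQ J hJ
  have hJ0 : (0 : ℝ) < J := by exact_mod_cast hJ
  have hv0 : ∀ k : Fin J, (0 : ℝ) ≤ (fun _ : Fin J => (J : ℝ)⁻¹) k := fun _ =>
    inv_nonneg.2 hJ0.le
  have hvs : HasSum (fun _ : Fin J => (J : ℝ)⁻¹) 1 := by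
    have h := hasSum_fintype (fun _ : Fin J => (J : ℝ)⁻¹)
    have e : ∑ _b : Fin J, (J : ℝ)⁻¹ = 1 := by
      rw [Finset.sum_const, Finset.card_univ, Fintype.card_fin, nsmul_eq_mul,
        mul_inv_cancel₀ hJ0.ne']
    rwa [e] at h
  have b1 := hBSM (Fin J) (fun _ => (J : ℝ)⁻¹) hv0 hvs (fun j => (Q j).I)
    (fun j => (Q j).md) (fun j => (hMOD (Q j) lo (hi j) (hQ j)).2.le)
  have b2 := hBSM (Fin J) (fun _ => (J : ℝ)⁻¹) hv0 hvs (fun j => (Q (j + 1)).I)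
    (fun j => (Q (j + 1)).md) (fun j => (hMOD (Q (j + 1)) lo (hi (j + 1)) (hQ (j + 1))).2.le)
  obtain ⟨U, hU, hU1, hU2⟩ := hPIN _ _ (SHF_f Q J) (SHF_f_inj Q J)
  obtain ⟨W, hW, hW1, hW2⟩ := hPIN _ _ (SHF_g Q J) (SHF_g_inj Q J)
  refine ⟨U, hU, ?_⟩
  have key : U (bs (fun _ : Fin J => (J : ℝ)⁻¹) (fun j => (Q j).md)) -
      bs (fun _ : Fin J => (J : ℝ)⁻¹) (fun j => (Q (j + 1)).md) =
      -((Real.sqrt J)⁻¹ • W (Q J).md) := by
    apply lp.ext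
    funext q
    obtain ⟨m, j, i⟩ := q
    rw [lp.coeFn_sub, lp.coeFn_neg, lp.coeFn_smul]
    simp only [Pi.sub_apply, Pi.neg_apply, Pi.smul_apply, smul_eq_mul]
    rw [b2.1 m j i]
    by_cases h : (j : ℕ) + 1 < J
    · have e1 : SHF_f Q J ⟨j, i⟩ = some ⟨⟨(j : ℕ) + 1, h⟩, i⟩ := dif_pos h
      have e2 : SHF_g Q J ⟨j, i⟩ = none := dif_neg h.ne
      rw [hU1 _ m _ _ e1, hW2 _ m _ e2, b1.1 m ⟨(j : ℕ) + 1, h⟩ i]
      simp
    · have h' : (j : ℕ) + 1 = J := le_antisymm j.2 (not_lt.1 h)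
      have e1 : SHF_f Q J ⟨j, i⟩ = none := dif_neg h
      have e2 : SHF_g Q J ⟨j, i⟩ = some (h' ▸ i) := dif_pos h'
      rw [hU2 _ m _ e1, hW1 _ m _ _ e2, SHF_cast Q _ _ h' m i, Real.sqrt_inv]
      ring
  rw [key, norm_neg, norm_smul, Real.norm_eq_abs, abs_of_nonneg (inv_nonneg.2 (Real.sqrt_nonneg _))]
  calc (Real.sqrt J)⁻¹ * ‖W (Q J).md‖ ≤ (Real.sqrt J)⁻¹ * 1 :=
        mul_le_mul_of_nonneg_left ((hW.le _).trans (hMOD (Q J) lo (hi J) (hQ J)).2.le)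
          (inv_nonneg.2 (Real.sqrt_nonneg _))
    _ = (Real.sqrt J)⁻¹ := mul_one _

end

end HGQ
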