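import Pool.Agent.HGP2.Targets

/-!
# HGP2, T_SLX: slowly varying mixtures exist
-/

open scoped InnerProductSpace ENNReal
open HGP HNNExtension HNNExtension.NormalWord

namespace HGQ

noncomputable section

/-- the exponent of the mode `e` -/
def SLX_P {L N : ℕ} (e : Fin L → Fin N) : ℝ :=
  ∏ l : Fin L, (((l : ℕ) : ℝ) + 1) ^ (e l : ℕ)

lemma SLX_one_le {L N : ℕ} (e : Fin L → Fin N) : 1 ≤ SLX_P e := by
  unfold SLX_P
  calc (1 : ℝ) = ∏ _l : Fin L, (1 : ℝ) := by simp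
    _ ≤ ∏ l : Fin L, (((l : ℕ) : ℝ) + 1) ^ (e l : ℕ) := by
        refine Finset.prod_le_prod (fun _ _ => zero_le_one) (fun l _ => ?_)
        refine one_le_pow₀ ?_
        have : (0 : ℝ) ≤ ((l : ℕ) : ℝ) := Nat.cast_nonneg _
        linarith

lemma SLX_split {L N : ℕ} (e : Fin L → Fin N) (l : Fin L) :
    SLX_P e = (((l : ℕ) : ℝ) + 1) ^ (e l : ℕ) *
      ∏ j ∈ Finset.univ.erase l, (((j : ℕ) : ℝ) + 1) ^ (e j : ℕ) := by
  unfold SLX_P
  rw [Finset.mul_prod_erase Finset.univ (fun j : Fin L => (((j : ℕ) : ℝ) + 1) ^ (e j : ℕ))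
    (Finset.mem_univ l)]

lemma SLX_dec {L N : ℕ} (e e' : Fin L → Fin N) (l : Fin L)
    (h1 : (e' l : ℕ) = (e l : ℕ) + 1) (h2 : ∀ j, j ≠ l → e' j = e j) :
    SLX_P e' = SLX_P e * (((l : ℕ) : ℝ) + 1) := by
  rw [SLX_split e l, SLX_split e' l, h1, pow_succ]
  have : ∏ j ∈ Finset.univ.erase l, (((j : ℕ) : ℝ) + 1) ^ (e' j : ℕ) =
      ∏ j ∈ Finset.univ.erase l, (((j : ℕ) : ℝ) + 1) ^ (e j : ℕ) := by
    refine Finset.prod_congr rfl (fun j hj => ?_)
    rw [h2 j (Finset.ne_of_mem_erase hj)]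
  rw [this]
  ring

/-- the mixture -/
def SLX_Q (L N : ℕ) (lam : ℝ) : Mx :=
  ⟨Fin L → Fin N, fun _ => ((N : ℝ) ^ L)⁻¹, fun e => Real.exp (-(lam * SLX_P e))⟩

lemma SLX_hasSum (L N : ℕ) (hN : 1 ≤ N) :
    HasSum (fun _ : Fin L → Fin N => ((N : ℝ) ^ L)⁻¹) 1 := by
  have h := hasSum_fintype (fun _ : Fin L → Fin N => ((N : ℝ) ^ L)⁻¹)
  have hN0 : ((N : ℝ) ^ L) ≠ 0 := pow_ne_zero _ (by exact_mod_cast (by omega : N ≠ 0))
  have e : ∑ _b : Fin L → Fin N, ((N : ℝ) ^ L)⁻¹ = 1 := by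
    rw [Finset.sum_const, Finset.card_univ, Fintype.card_fun, Fintype.card_fin,
      Fintype.card_fin, nsmul_eq_mul, Nat.cast_pow, mul_inv_cancel₀ hN0]
  rwa [e] at h

/-- one step down in the coordinate `l` -/
def SLX_f {L N : ℕ} (l : Fin L) (e' : Fin L → Fin N) : Option (Fin L → Fin N) :=
  if 0 < (e' l : ℕ) then
    some (Function.update e' l ⟨(e' l : ℕ) - 1, (Nat.sub_le _ _).trans_lt (e' l).2⟩) else none

lemma SLX_f_spec {L N : ℕ} (l : Fin L) (e' e : Fin L → Fin N) (h : SLX_f l e' = some e) :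
    (e' l : ℕ) = (e l : ℕ) + 1 ∧ ∀ j, j ≠ l → e' j = e j := by
  unfold SLX_f at h
  by_cases h0 : 0 < (e' l : ℕ)
  · rw [if_pos h0] at h
    have h' := Option.some.inj h
    subst h'
    refine ⟨?_, fun j hj => ?_⟩
    · rw [Function.update_self]
      show (e' l : ℕ) = (e' l : ℕ) - 1 + 1
      omega
    · rw [Function.update_of_ne hj]
  · rw [if_neg h0] at h
    exact absurd h (by simp)

lemma SLX_f_inj {L N : ℕ} (l : Fin L) (a b e : Fin L → Fin N) (ha : SLX_f l a = some e)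
    (hb : SLX_f l b = some e) : a = b := by
  obtain ⟨a1, a2⟩ := SLX_f_spec l a e ha
  obtain ⟨b1, b2⟩ := SLX_f_spec l b e hb
  funext j
  by_cases hj : j = l
  · subst hj
    exact Fin.ext (a1.trans b1.symm)
  · rw [a2 j hj, b2 j hj]

/-- the bottom face -/
def SLX_g {L N : ℕ} (l : Fin (L + 1)) (e' : Fin (L + 1) → Fin N) : Option (Fin L → Fin N) :=
  if (e' l : ℕ) = 0 then some (fun j => e' (l.succAbove j)) else none

lemma SLX_g_inj {L N : ℕ} (l : Fin (L + 1)) (a b : Fin (L + 1) → Fin N) (e : Fin L → Fin N)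
    (ha : SLX_g l a = some e) (hb : SLX_g l b = some e) : a = b := by
  unfold SLX_g at ha hb
  by_cases ha0 : (a l : ℕ) = 0
  · by_cases hb0 : (b l : ℕ) = 0
    · rw [if_pos ha0] at ha
      rw [if_pos hb0] at hb
      have h := (Option.some.inj ha).trans (Option.some.inj hb).symm
      funext j
      by_cases hj : j = l
      · subst hj
        exact Fin.ext (ha0.trans hb0.symm)
      · obtain ⟨k, rfl⟩ := Fin.exists_succAbove_eq hj
        exact congrFun h k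
    · rw [if_neg hb0] at hb
      exact absurd hb (by simp)
  · rw [if_neg ha0] at ha
    exact absurd ha (by simp)

lemma SLX_Ok (L N : ℕ) (hN : 1 ≤ N) (lam lo : ℝ) (hlam : 0 < lam)
    (hlo : ∀ e : Fin L → Fin N, lo < Real.exp (-(lam * SLX_P e))) :
    (SLX_Q L N lam).Ok lo (Real.exp (-lam)) where
  nn _ := inv_nonneg.2 (pow_nonneg (Nat.cast_nonneg _) _)
  sum := SLX_hasSum L N hN
  pos _ := Real.exp_pos _
  lb e := hlo e
  ub e := by
    refine Real.exp_le_exp.2 ?_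
    have := SLX_one_le (L := L) (N := N) e
    nlinarith
  one := by
    rw [Real.exp_lt_one_iff]
    linarith

/-- the bottom face as a mixture -/
def SLX_B (L N : ℕ) (lam : ℝ) (z : Fin N) (l : Fin (L + 1)) : Mx :=
  ⟨Fin L → Fin N, fun _ => ((N : ℝ) ^ L)⁻¹,
    fun e => Real.exp (-(lam * SLX_P (l.insertNth (α := fun _ => Fin N) z e)))⟩

lemma SLX_B_Ok (L N : ℕ) (hN : 1 ≤ N) (lam : ℝ) (hlam : 0 < lam) (z : Fin N)
    (l : Fin (L + 1)) : (SLX_B L N lam z l).Ok 0 (Real.exp (-lam)) where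
  nn _ := inv_nonneg.2 (pow_nonneg (Nat.cast_nonneg _) _)
  sum := SLX_hasSum L N hN
  pos _ := Real.exp_pos _
  lb _ := Real.exp_pos _
  ub e := by
    refine Real.exp_le_exp.2 ?_
    have := SLX_one_le (L := L + 1) (N := N) (l.insertNth (α := fun _ => Fin N) z e)
    nlinarith
  one := by
    rw [Real.exp_lt_one_iff]
    linarith

lemma SLX_gm (c w ρ : ℝ) (hc : 0 ≤ c) (m : ℤ) : gm (c * w) ρ m = Real.sqrt c * gm w ρ m := by
  unfold gm
  by_cases h : 1 ≤ m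
  · rw [if_pos h, if_pos h, Real.sqrt_mul hc]
    ring
  · rw [if_neg h, if_neg h, mul_zero]

lemma SLX_slow (hPIN : T_PIN) (hMOD : T_MOD) (L N : ℕ) (hN : 1 ≤ N) (lam : ℝ) (hlam : 0 < lam)
    (l : Fin (L + 1)) :
    Rd ((SLX_Q (L + 1) N lam).pw ((l : ℕ) + 1)).md (SLX_Q (L + 1) N lam).md
      (Real.sqrt N)⁻¹ := by
  have hQ : (SLX_Q (L + 1) N lam).Ok 0 (Real.exp (-lam)) :=
    SLX_Ok (L + 1) N hN lam 0 hlam (fun _ => Real.exp_pos _)
  have hQm := hMOD _ _ _ hQ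
  have hQp := hMOD _ _ _ (hQ.pw (ℓ := (l : ℕ) + 1) (by omega))
  have hBm := hMOD _ _ _ (SLX_B_Ok L N hN lam hlam ⟨0, hN⟩ l)
  obtain ⟨U, hU, hU1, hU2⟩ := hPIN ((SLX_Q (L + 1) N lam).pw ((l : ℕ) + 1)).I
    (SLX_Q (L + 1) N lam).I (SLX_f l) (SLX_f_inj l)
  obtain ⟨W, hW, hW1, hW2⟩ := hPIN (SLX_B L N lam ⟨0, hN⟩ l).I (SLX_Q (L + 1) N lam).I (SLX_g l)
    (SLX_g_inj l)
  have hN0 : (0 : ℝ) < N := by exact_mod_cast hN
  refine ⟨U, hU, ?_⟩
  have key : U ((SLX_Q (L + 1) N lam).pw ((l : ℕ) + 1)).md - (SLX_Q (L + 1) N lam).md =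
      -((Real.sqrt N)⁻¹ • W (SLX_B L N lam ⟨0, hN⟩ l).md) := by
    apply lp.ext
    funext q
    obtain ⟨m, e'⟩ := q
    rw [lp.coeFn_sub, lp.coeFn_neg, lp.coeFn_smul]
    simp only [Pi.sub_apply, Pi.neg_apply, Pi.smul_apply, smul_eq_mul]
    have q1 : (SLX_Q (L + 1) N lam).md (m, e') =
        gm ((N : ℝ) ^ (L + 1))⁻¹ (Real.exp (-(lam * SLX_P e'))) m := hQm.1 m e'
    rw [q1]
    by_cases h : 0 < (e' l : ℕ)
    · have e1 : SLX_f l e' = some (Function.update e' l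
          ⟨(e' l : ℕ) - 1, (Nat.sub_le _ _).trans_lt (e' l).2⟩) := if_pos h
      have e2 : SLX_g l e' = none := if_neg (by omega)
      obtain ⟨s1, s2⟩ := SLX_f_spec l _ _ e1
      rw [hU1 _ m _ _ e1, hW2 _ m _ e2]
      have q2 := hQp.1 m (Function.update e' l
          ⟨(e' l : ℕ) - 1, (Nat.sub_le _ _).trans_lt (e' l).2⟩)
      have q3 : ((SLX_Q (L + 1) N lam).pw ((l : ℕ) + 1)).md (m, Function.update e' l
          ⟨(e' l : ℕ) - 1, (Nat.sub_le _ _).trans_lt (e' l).2⟩) =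
          gm ((N : ℝ) ^ (L + 1))⁻¹ (Real.exp (-(lam * SLX_P (Function.update e' l
          ⟨(e' l : ℕ) - 1, (Nat.sub_le _ _).trans_lt (e' l).2⟩))) ^ ((l : ℕ) + 1)) m := q2
      rw [q3, ← Real.exp_nat_mul]
      have q4 : (((l : ℕ) + 1 : ℕ) : ℝ) * -(lam * SLX_P (Function.update e' l
          ⟨(e' l : ℕ) - 1, (Nat.sub_le _ _).trans_lt (e' l).2⟩)) = -(lam * SLX_P e') := by
        rw [SLX_dec _ e' l s1 s2]
        push_cast
        ring
      rw [q4]
      simp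
    · have h' : (e' l : ℕ) = 0 := by omega
      have e1 : SLX_f l e' = none := if_neg h
      have e2 : SLX_g l e' = some (fun j => e' (l.succAbove j)) := if_pos h'
      rw [hU2 _ m _ e1, hW1 _ m _ _ e2]
      have q2 : (SLX_B L N lam ⟨0, hN⟩ l).md (m, fun j => e' (l.succAbove j)) =
          gm ((N : ℝ) ^ L)⁻¹ (Real.exp (-(lam * SLX_P (l.insertNth (α := fun _ => Fin N)
            ⟨0, hN⟩ (fun j => e' (l.succAbove j)))))) m := hBm.1 m _
      rw [q2]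
      have q3 : (l.insertNth (α := fun _ => Fin N) ⟨0, hN⟩ (fun j => e' (l.succAbove j)) :
          Fin (L + 1) → Fin N) = e' := by
        funext j
        by_cases hj : j = l
        · subst hj
          rw [Fin.insertNth_apply_same]
          exact Fin.ext h'.symm
        · obtain ⟨k, rfl⟩ := Fin.exists_succAbove_eq hj
          rw [Fin.insertNth_apply_succAbove]
      rw [q3]
      have q4 : ((N : ℝ) ^ L)⁻¹ = (N : ℝ) * ((N : ℝ) ^ (L + 1))⁻¹ := by
        rw [pow_succ]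
        field_simp
      rw [q4, SLX_gm _ _ _ hN0.le]
      have q5 : Real.sqrt N ≠ 0 := (Real.sqrt_pos.2 hN0).ne'
      field_simp
      ring
  rw [key, norm_neg, norm_smul, Real.norm_eq_abs, abs_of_nonneg (inv_nonneg.2 (Real.sqrt_nonneg _))]
  calc (Real.sqrt N)⁻¹ * ‖W (SLX_B L N lam ⟨0, hN⟩ l).md‖ ≤ (Real.sqrt N)⁻¹ * 1 :=
        mul_le_mul_of_nonneg_left ((hW.le _).trans hBm.2.le)
          (inv_nonneg.2 (Real.sqrt_nonneg _))
    _ = (Real.sqrt N)⁻¹ := mul_one _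

/-- T_SLX -/
theorem p_SLX (hPIN : T_PIN) (hMOD : T_MOD) : T_SLX := by
  intro lo ε L hlo hε
  obtain ⟨N, hN⟩ := exists_nat_gt (max 1 (1 / ε ^ 2))
  have hN1 : (1 : ℝ) < N := (le_max_left _ _).trans_lt hN
  have hN2 : 1 / ε ^ 2 < N := (le_max_right _ _).trans_lt hN
  have hN1' : 1 ≤ N := by
    have : (1 : ℕ) < N := by exact_mod_cast hN1
    omega
  have hsq : (Real.sqrt N)⁻¹ ≤ ε := by
    have h1 : 1 / ε ≤ Real.sqrt N := by
      refine Real.le_sqrt_of_sq_le ?_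
      rw [div_pow, one_pow]
      exact hN2.le
    have h2 : (Real.sqrt N)⁻¹ ≤ (1 / ε)⁻¹ := inv_anti₀ (by positivity) h1
    rwa [one_div, inv_inv] at h2
  set M : ℝ := ∑ e : Fin L → Fin N, SLX_P e with hM
  have hM0 : 0 ≤ M := Finset.sum_nonneg (fun e _ => zero_le_one.trans (SLX_one_le e))
  have hle : ∀ e : Fin L → Fin N, SLX_P e ≤ M := fun e =>
    Finset.single_le_sum (f := fun e : Fin L → Fin N => SLX_P e)
      (fun e _ => zero_le_one.trans (SLX_one_le e)) (Finset.mem_univ e)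
  set lo' : ℝ := max lo (1 / 2) with hlo'
  have hl0 : 0 < lo' := lt_of_lt_of_le (by norm_num) (le_max_right _ _)
  have hl1 : lo' < 1 := max_lt hlo (by norm_num)
  have hlog : 0 < -Real.log lo' := by
    have := Real.log_neg hl0 hl1
    linarith
  set lam : ℝ := -Real.log lo' / (M + 1) with hlam
  have hlam0 : 0 < lam := div_pos hlog (by linarith)
  have hbd : ∀ e : Fin L → Fin N, lo < Real.exp (-(lam * SLX_P e)) := by
    intro e
    have h1 : lam * SLX_P e < -Real.log lo' := by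
      calc lam * SLX_P e ≤ lam * M := mul_le_mul_of_nonneg_left (hle e) hlam0.le
        _ < lam * (M + 1) := mul_lt_mul_of_pos_left (by linarith) hlam0
        _ = -Real.log lo' := by
            rw [hlam]
            field_simp
    calc lo ≤ lo' := le_max_left _ _
      _ = Real.exp (Real.log lo') := (Real.exp_log hl0).symm
      _ < Real.exp (-(lam * SLX_P e)) := Real.exp_lt_exp.2 (by linarith)
  refine ⟨SLX_Q L N lam, Real.exp (-lam), SLX_Ok L N hN1' lam lo hlam0 hbd, ?_⟩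
  intro ℓ h1 h2
  obtain ⟨L', rfl⟩ : ∃ L', L = L' + 1 := ⟨L - 1, by omega⟩
  obtain ⟨k, rfl⟩ : ∃ k, ℓ = k + 1 := ⟨ℓ - 1, by omega⟩
  exact (SLX_slow hPIN hMOD L' N hN1' lam hlam0 ⟨k, by omega⟩).mono hsq

end

end HGQ
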