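import Pool.Agent.HGP2.Targets

/-!
# HGP2: mixtures of mixtures (`T_SMD`)
-/

open scoped InnerProductSpace ENNReal
open HGP HNNExtension HNNExtension.NormalWord

namespace HGQ

noncomputable section

lemma SMD_gm {a : ℝ} (ha : 0 ≤ a) (w ρ : ℝ) (m : ℤ) :
    gm (a * w) ρ m = Real.sqrt a * gm w ρ m := by
  unfold gm
  split_ifs
  · rw [Real.sqrt_mul ha]
    ring
  · rw [mul_zero]

lemma SMD_sum {K : Type} {v : K → ℝ} (hv : ∀ k, 0 ≤ v k) (hs : HasSum v 1) {I : K → Type}
    (w : ∀ k, I k → ℝ) (hw : ∀ k i, 0 ≤ w k i) (h1 : ∀ k, HasSum (w k) 1) :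
    HasSum (fun q : Σ k, I k => v q.1 * w q.1 q.2) 1 := by
  have hf : ∀ q : (Σ k, I k), 0 ≤ v q.1 * w q.1 q.2 := fun q => mul_nonneg (hv _) (hw _ _)
  have h2 : ∀ k, HasSum (fun i : I k => v k * w k i) (v k) := by
    intro k
    have := (h1 k).mul_left (v k)
    rwa [mul_one] at this
  have h3 : Summable (fun q : Σ k, I k => v q.1 * w q.1 q.2) := by
    rw [summable_sigma_of_nonneg hf]
    refine ⟨fun k => (h2 k).summable, ?_⟩
    have h5 : (fun k => ∑' i : I k, v k * w k i) = v := funext fun k => (h2 k).tsum_eq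
    show Summable (fun k => ∑' i : I k, v k * w k i)
    rw [h5]
    exact hs.summable
  have h4 : (∑' q : Σ k, I k, v q.1 * w q.1 q.2) = 1 := by
    rw [h3.tsum_sigma]
    have : (fun k => ∑' i : I k, v k * w k i) = v := funext fun k => (h2 k).tsum_eq
    exact (congrArg (fun f : K → ℝ => ∑' k, f k) this).trans hs.tsum_eq
  exact h4 ▸ h3.hasSum

theorem p_SMD (hMOD : T_MOD) (hBSM : T_BSM) : T_SMD := by
  intro K v hv hs Q lo hi hQ
  have hK : Nonempty K := by
    by_contra h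
    rw [not_nonempty_iff] at h
    have h0 : HasSum v 0 := hasSum_empty
    exact zero_ne_one (h0.unique hs)
  obtain ⟨k0⟩ := hK
  have hok : (Mx.sm v Q).Ok lo hi :=
    { nn := fun q => mul_nonneg (hv _) ((hQ _).nn _)
      sum := SMD_sum hv hs (fun k => (Q k).w) (fun k => (hQ k).nn) (fun k => (hQ k).sum)
      pos := fun q => (hQ q.1).pos _
      lb := fun q => (hQ q.1).lb _
      ub := fun q => (hQ q.1).ub _
      one := (hQ k0).one }
  refine ⟨hok, ?_⟩
  have hM := fun k => hMOD (Q k) lo hi (hQ k)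
  have hB := (hBSM K v hv hs (fun k => (Q k).I) (fun k => (Q k).md)
    (fun k => (hM k).2.le)).1
  have hS := (hMOD (Mx.sm v Q) lo hi hok).1
  ext q
  obtain ⟨m, k, i⟩ := q
  rw [hB m k i, (hM k).1 m i]
  refine Eq.trans ?_ (hS m ⟨k, i⟩).symm
  exact (SMD_gm (hv k) _ _ _).symm

end

end HGQ
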