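import Pool.Agent.HGP2.Targets

/-!
# HGP2, target T_STG: one stage of the matching lemma (helper12)
-/

set_option autoImplicit false

open scoped InnerProductSpace ENNReal
open HGP

namespace HGQ

/-- one mode -/
theorem STG_f1 (hMOD : T_MOD) {ρ hi : ℝ} (h0 : 0 < ρ) (h1 : ρ ≤ hi) (h2 : hi < 1) :
    (∀ m, f1 ρ (m, ()) = gm 1 ρ m) ∧ ‖f1 ρ‖ = 1 := by
  have hok : (Mx.one1 ρ).Ok 0 hi :=
    { nn := fun _ => zero_le_one
      sum := by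
        have h := hasSum_fintype (fun _ : Unit => (1 : ℝ))
        simp only [Finset.univ_unique, Finset.sum_const, Finset.card_singleton, one_smul] at h
        exact h
      pos := fun _ => h0
      lb := fun _ => h0
      ub := fun _ => h1
      one := h2 }
  obtain ⟨h3, h4⟩ := hMOD _ _ _ hok
  exact ⟨fun m => h3 m (), h4⟩

theorem STG_gm (w ρ : ℝ) (m : ℤ) : Real.sqrt w * gm 1 ρ m = gm w ρ m := by
  unfold gm
  split_ifs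
  · rw [Real.sqrt_one]
    ring
  · ring

/-- a mixture of single modes is a mixture -/
theorem STG_mix (hMOD : T_MOD) (hBSM : T_BSM) (hPIN : T_PIN) {Q : Mx} {lo hi : ℝ}
    (hQ : Q.Ok lo hi) {l : ℕ} (hl : 1 ≤ l) :
    Rd (bs Q.w (fun i => f1 (Q.ρ i ^ l))) (Q.pw l).md 0 := by
  have hpw : (Q.pw l).Ok 0 hi := hQ.pw hl
  have hf : ∀ i, (∀ m, f1 (Q.ρ i ^ l) (m, ()) = gm 1 (Q.ρ i ^ l) m) ∧
      ‖f1 (Q.ρ i ^ l)‖ = 1 := fun i => STG_f1 hMOD (hpw.pos i) (hpw.ub i) hpw.one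
  obtain ⟨hc, -, -⟩ := hBSM Q.I Q.w hQ.nn hQ.sum (fun _ => Unit)
    (fun i => f1 (Q.ρ i ^ l)) (fun i => (hf i).2.le)
  obtain ⟨U, hU, h1, -⟩ := hPIN (Σ _ : Q.I, Unit) Q.I (fun i => some ⟨i, ()⟩) (by
    intro a b i ha hb
    rw [← ha] at hb
    have := Option.some.inj hb
    exact (Sigma.mk.inj this).1.symm)
  refine ⟨U, hU, le_of_eq ?_⟩
  rw [norm_eq_zero, sub_eq_zero]
  apply lp.ext
  funext q
  obtain ⟨m, i⟩ := q
  have e1 := h1 (bs Q.w (fun i => f1 (Q.ρ i ^ l))) m ⟨i, ()⟩ i rfl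
  have e2 := (hMOD _ _ _ hpw).1 m i
  calc _ = bs Q.w (fun i => f1 (Q.ρ i ^ l)) (m, ⟨i, ()⟩) := e1
    _ = Real.sqrt (Q.w i) * f1 (Q.ρ i ^ l) (m, ()) := hc m i ()
    _ = Real.sqrt (Q.w i) * gm 1 (Q.ρ i ^ l) m := by rw [(hf i).1 m]
    _ = gm (Q.w i) (Q.ρ i ^ l) m := STG_gm _ _ _
    _ = _ := e2.symm

theorem p_STG (hSUM : T_SUM) (hMRG : T_MRG) (hPIN : T_PIN) (hMOD : T_MOD) (hBSM : T_BSM) :
    T_STG := by
  intro G _ le lh l hl hTL S ε hε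
  obtain ⟨δ, hδ, -, hT⟩ := hTL S (ε / 2) (half_pos hε)
  refine ⟨δ, ε / 2, (lh.map l).sum, hδ, half_pos hε, ?_⟩
  intro Q hi hQ hslow L η hη
  obtain ⟨Q', hi', hQ', hslow', hr⟩ := hT hi hQ.one L η hη
  refine ⟨Q', hi', hQ', hslow', ?_⟩
  have hr' : ∀ i : Q.I, ∃ (E : Type) (_ : NormedAddCommGroup E) (_ : InnerProductSpace ℝ E)
      (_ : CompleteSpace E) (π : G →* (E ≃ₗᵢ[ℝ] E)) (ξ : E), C0 π ∧ ‖ξ‖ = 1 ∧
      (∀ s ∈ S, ‖π s ξ - ξ‖ ≤ ε / 2) ∧ (∀ c ∈ le, Lc π c ξ Q'.md (ε / 2)) ∧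
      ∀ g ∈ lh, Lc π g ξ (f1 (Q.ρ i ^ l g)) (ε / 2) :=
    fun i => hr (Q.ρ i) (hQ.lb i) (hQ.ub i)
  choose E iN iI iC π ξ hC0 hξ hS hle hlh using hr'
  obtain ⟨F, jN, jI, jC, Pi, x, hP0, hx, hinv, hLc⟩ :=
    hSUM G Q.I Q.w hQ.nn hQ.sum E π ξ hC0 hξ
  refine ⟨F, jN, jI, jC, Pi, x, hP0, hx, ?_, ?_, ?_⟩
  · intro s hs
    refine (hinv s (ε / 2) (half_pos hε).le fun k => hS k s hs).trans ?_
    linarith
  · intro c hc
    have hn : ‖Q'.md‖ ≤ 1 := (hMOD _ _ _ hQ').2.le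
    have h1 := hLc c (fun _ => Q'.I) (fun _ => Q'.md) (ε / 2) (half_pos hε).le (fun _ => hn)
      (fun k => hle k c hc)
    exact (h1.rd (hMRG Q.I Q.w hQ.nn hQ.sum Q'.I Q'.md hn)).mono (by linarith)
  · intro g hg
    have hlg := hl g hg
    have hsum : l g ≤ (lh.map l).sum :=
      List.single_le_sum (fun _ _ => Nat.zero_le _) _ (List.mem_map_of_mem hg)
    have hpw : (Q.pw (l g)).Ok 0 hi := hQ.pw hlg
    have h1 := hLc g (fun _ => Unit) (fun i => f1 (Q.ρ i ^ l g)) (ε / 2) (half_pos hε).le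
      (fun i => (STG_f1 hMOD (hpw.pos i) (hpw.ub i) hpw.one).2.le) (fun k => hlh k g hg)
    have h2 := h1.rd (STG_mix hMOD hBSM hPIN hQ hlg)
    exact (h2.rd (hslow (l g) hlg hsum)).mono (by linarith)

end HGQ
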