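import Pool.Agent.HGP2.Targets

/-!
# HGP2: the length in an HNN extension is subadditive (SUBL)
-/

open scoped InnerProductSpace ENNReal
open HGP HNNExtension HNNExtension.NormalWord

namespace HGQ

theorem SUBL_aux {H : Type} [Group H] {A B : Subgroup H} (φ : A ≃* B) (n : ℕ) :
    ∀ x y : HNNExtension H A B φ, len φ x = n → len φ (x * y) ≤ n + len φ y := by
  obtain ⟨hL, -, -, h0, -, ht⟩ := kLN H A B φ
  obtain ⟨hd, tu, tr, hdec⟩ := kDECL H A B φ
  induction n with
  | zero =>
    intro x y hx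
    obtain ⟨h, rfl⟩ := h0 x hx
    rw [hL]
    omega
  | succ n ih =>
    intro x y hx
    obtain ⟨h1, h2, -⟩ := hdec x (by omega)
    have h3 := ih (tr x) y (by omega)
    have h4 : x * y = of (hd x) * (t ^ (tu x : ℤ) * (tr x * y)) := by
      calc x * y = (of (hd x) * (t ^ (tu x : ℤ) * tr x)) * y := by rw [← h1]
        _ = of (hd x) * (t ^ (tu x : ℤ) * (tr x * y)) := by simp only [mul_assoc]
    rw [h4, hL]
    have h5 := ht (tu x) (tr x * y)
    omega

theorem p_SUBL : T_SUBL := by
  intro H _ A B φ x y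
  exact SUBL_aux φ _ x y rfl

end HGQ
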