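import Pool.Agent.HGP2.Targets

/-!
# HGP2: target SUM, direct sums of representations
-/

open scoped InnerProductSpace ENNReal
open HGP HNNExtension HNNExtension.NormalWord

namespace HGQ

noncomputable section

section asm

variable {K : Type} {I : K → Type}

lemma SUM_big (f : lp (fun k => L2 (ℤ × I k) ℝ) 2) :
    Summable (fun q : Σ k, ℤ × I k => (f q.1 q.2) ^ 2) := by
  rw [summable_sigma_of_nonneg (fun _ => sq_nonneg _)]
  refine ⟨fun k => summable_L (f k), ?_⟩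
  refine (summable_sq_lp f).congr fun k => ?_
  rw [norm_sq_L]

lemma SUM_mem (f : lp (fun k => L2 (ℤ × I k) ℝ) 2) :
    Summable (fun q : ℤ × (Σ k, I k) => (f q.2.1 (q.1, q.2.2)) ^ 2) :=
  (UNV_idx I).summable_iff.2 (SUM_big f)

/-- reassembling a family of families -/
def SUM_fun (f : lp (fun k => L2 (ℤ × I k) ℝ) 2) : L2 (ℤ × (Σ k, I k)) ℝ :=
  ⟨fun q => f q.2.1 (q.1, q.2.2), by
    show Memℓp _ 2
    rw [mem2]
    simpa using SUM_mem f⟩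

lemma SUM_fun_apply (f : lp (fun k => L2 (ℤ × I k) ℝ) 2) (q : ℤ × (Σ k, I k)) :
    SUM_fun f q = f q.2.1 (q.1, q.2.2) := rfl

lemma SUM_fun_norm (f : lp (fun k => L2 (ℤ × I k) ℝ) 2) : ‖SUM_fun f‖ = ‖f‖ := by
  have h : ‖SUM_fun f‖ ^ 2 = ‖f‖ ^ 2 := by
    rw [norm_sq_L, norm_sq_lp]
    have h1 : ∑' q : ℤ × (Σ k, I k), (SUM_fun f q) ^ 2 =
        ∑' q : Σ k, ℤ × I k, (f q.1 q.2) ^ 2 :=
      (UNV_idx I).tsum_eq (fun q : Σ k, ℤ × I k => (f q.1 q.2) ^ 2)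
    rw [h1, (SUM_big f).tsum_sigma]
    refine tsum_congr fun k => ?_
    rw [norm_sq_L]
  exact (pow_left_inj₀ (norm_nonneg _) (norm_nonneg _) two_ne_zero).1 h

/-- reassembling as a linear isometry -/
def SUM_asm : lp (fun k => L2 (ℤ × I k) ℝ) 2 →ₗᵢ[ℝ] L2 (ℤ × (Σ k, I k)) ℝ where
  toFun := SUM_fun
  map_add' f g := by ext q; rfl
  map_smul' c f := by ext q; rfl
  norm_map' f := SUM_fun_norm f

lemma SUM_asm_apply (f : lp (fun k => L2 (ℤ × I k) ℝ) 2) (q : ℤ × (Σ k, I k)) :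
    SUM_asm f q = f q.2.1 (q.1, q.2.2) := rfl

end asm

section diag

variable {K : Type} {E E' : K → Type} [∀ k, NormedAddCommGroup (E k)]
  [∀ k, InnerProductSpace ℝ (E k)] [∀ k, NormedAddCommGroup (E' k)]
  [∀ k, InnerProductSpace ℝ (E' k)]

omit [∀ k, InnerProductSpace ℝ (E k)] [∀ k, InnerProductSpace ℝ (E' k)] in
lemma SUM_le {f : lp E 2} {g : ∀ k, E' k} (h : ∀ k, ‖g k‖ ≤ ‖f k‖) : Memℓp g 2 := by
  rw [mem2]
  exact Summable.of_nonneg_of_le (fun _ => sq_nonneg _)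
    (fun k => pow_le_pow_left₀ (norm_nonneg _) (h k) 2) (summable_sq_lp f)

omit [∀ k, InnerProductSpace ℝ (E k)] [∀ k, InnerProductSpace ℝ (E' k)] in
lemma SUM_nle {f : lp E 2} {g : lp E' 2} (h : ∀ k, ‖g k‖ ≤ ‖f k‖) : ‖g‖ ≤ ‖f‖ := by
  refine (sq_le_sq₀ (norm_nonneg _) (norm_nonneg _)).1 ?_
  rw [norm_sq_lp, norm_sq_lp]
  exact (summable_sq_lp g).tsum_le_tsum
    (fun k => pow_le_pow_left₀ (norm_nonneg _) (h k) 2) (summable_sq_lp f)

variable (C : ∀ k, E k →L[ℝ] E' k) (hC : ∀ k, ‖C k‖ ≤ 1)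

include hC in
lemma SUM_Cle (k : K) (u : E k) : ‖C k u‖ ≤ ‖u‖ := by
  calc ‖C k u‖ ≤ ‖C k‖ * ‖u‖ := (C k).le_opNorm u
    _ ≤ 1 * ‖u‖ := mul_le_mul_of_nonneg_right (hC k) (norm_nonneg _)
    _ = ‖u‖ := one_mul _

/-- diagonal contraction -/
def SUM_diag : lp E 2 →L[ℝ] lp E' 2 :=
  LinearMap.mkContinuous
    { toFun := fun f => ⟨fun k => C k (f k), SUM_le (fun k => SUM_Cle C hC k (f k))⟩
      map_add' := fun f g => by ext k; exact map_add (C k) _ _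
      map_smul' := fun c f => by ext k; exact map_smul (C k) _ _ } 1
    (fun f => by
      rw [one_mul]
      exact SUM_nle (fun k => SUM_Cle C hC k (f k)))

lemma SUM_diag_apply (f : lp E 2) (k : K) : SUM_diag C hC f k = C k (f k) := rfl

lemma SUM_diag_norm : ‖SUM_diag C hC‖ ≤ 1 :=
  LinearMap.mkContinuous_norm_le _ zero_le_one _

end diag

section vec

variable {K : Type} {E : K → Type} [∀ k, NormedAddCommGroup (E k)]
  [∀ k, InnerProductSpace ℝ (E k)] {v : K → ℝ}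

lemma SUM_vmem (hv : ∀ k, 0 ≤ v k) (hs : Summable v) {ξ : ∀ k, E k} (hξ : ∀ k, ‖ξ k‖ ≤ 1) :
    Memℓp (fun k => Real.sqrt (v k) • ξ k) 2 := by
  rw [mem2]
  refine Summable.of_nonneg_of_le (fun _ => sq_nonneg _) (fun k => ?_) hs
  rw [norm_smul, Real.norm_of_nonneg (Real.sqrt_nonneg _), mul_pow, Real.sq_sqrt (hv k)]
  have h1 : ‖ξ k‖ ^ 2 ≤ 1 := by
    have := pow_le_pow_left₀ (norm_nonneg _) (hξ k) 2
    simpa using this
  nlinarith [hv k]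

/-- the vector of a direct sum -/
def SUM_vec (hv : ∀ k, 0 ≤ v k) (hs : Summable v) (ξ : ∀ k, E k) (hξ : ∀ k, ‖ξ k‖ ≤ 1) :
    lp E 2 :=
  ⟨fun k => Real.sqrt (v k) • ξ k, SUM_vmem hv hs hξ⟩

lemma SUM_vec_apply (hv : ∀ k, 0 ≤ v k) (hs : Summable v) (ξ : ∀ k, E k) (hξ : ∀ k, ‖ξ k‖ ≤ 1)
    (k : K) : SUM_vec hv hs ξ hξ k = Real.sqrt (v k) • ξ k := rfl

lemma SUM_small (hv : ∀ k, 0 ≤ v k) (hs : HasSum v 1) {z : lp E 2} {y : ∀ k, E k} {ε : ℝ}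
    (hε : 0 ≤ ε) (hz : ∀ k, z k = Real.sqrt (v k) • y k) (hy : ∀ k, ‖y k‖ ≤ ε) : ‖z‖ ≤ ε := by
  refine (sq_le_sq₀ (norm_nonneg _) hε).1 ?_
  rw [norm_sq_lp]
  have h1 : ∀ k, ‖z k‖ ^ 2 ≤ v k * ε ^ 2 := by
    intro k
    rw [hz k, norm_smul, Real.norm_of_nonneg (Real.sqrt_nonneg _), mul_pow,
      Real.sq_sqrt (hv k)]
    exact mul_le_mul_of_nonneg_left (pow_le_pow_left₀ (norm_nonneg _) (hy k) 2) (hv k)
  calc ∑' k, ‖z k‖ ^ 2 ≤ ∑' k, v k * ε ^ 2 :=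
        (summable_sq_lp z).tsum_le_tsum h1 (hs.summable.mul_right _)
    _ = ε ^ 2 := by rw [tsum_mul_right, hs.tsum_eq, one_mul]

lemma SUM_vec_norm (hv : ∀ k, 0 ≤ v k) (hs : HasSum v 1) (ξ : ∀ k, E k)
    (hξ : ∀ k, ‖ξ k‖ = 1) : ‖SUM_vec hv hs.summable ξ (fun k => (hξ k).le)‖ = 1 := by
  have h : ‖SUM_vec hv hs.summable ξ (fun k => (hξ k).le)‖ ^ 2 = 1 ^ 2 := by
    rw [norm_sq_lp, one_pow]
    refine (tsum_congr fun k => ?_).trans hs.tsum_eq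
    rw [SUM_vec_apply, norm_smul, Real.norm_of_nonneg (Real.sqrt_nonneg _), hξ, mul_one,
      Real.sq_sqrt (hv k)]
  exact (pow_left_inj₀ (norm_nonneg _) zero_le_one two_ne_zero).1 h

end vec

/-- decay of the assembled operator -/
lemma SUM_dec {G : Type} [Group G] {K : Type} {E : K → Type} [∀ k, NormedAddCommGroup (E k)]
    [∀ k, InnerProductSpace ℝ (E k)] {E' : K → Type} [∀ k, NormedAddCommGroup (E' k)]
    [∀ k, InnerProductSpace ℝ (E' k)] {π : ∀ k, G →* (E k ≃ₗᵢ[ℝ] E k)} {c : G}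
    (C : ∀ k, E k →L[ℝ] E' k) (hC : ∀ k, ‖C k‖ ≤ 1)
    (hd : ∀ k, ∀ (u : E k) (δ : ℝ), 0 < δ → ∃ T : Finset G, ∀ g : G, δ ≤ ‖C k (π k g u)‖ →
      ∃ m : ℤ, ∃ x ∈ T, g = c ^ m * x)
    (u : lp E 2) (δ : ℝ) (hδ : 0 < δ) : ∃ T : Finset G, ∀ g : G,
      δ ≤ ‖SUM_diag C hC (UNV_rep π g u)‖ → ∃ m : ℤ, ∃ x ∈ T, g = c ^ m * x := by
  classical
  have hN := summable_sq_lp u
  have hδ2 : 0 < δ ^ 2 := by positivity
  obtain ⟨s, hs⟩ : ∃ s : Finset K, ∑' i, ‖u i‖ ^ 2 - δ ^ 2 / 2 < ∑ i ∈ s, ‖u i‖ ^ 2 := by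
    have h1 : ∑' i, ‖u i‖ ^ 2 - δ ^ 2 / 2 < ∑' i, ‖u i‖ ^ 2 := by linarith
    have h2 := hN.hasSum.eventually_const_lt h1
    exact h2.exists
  have hc : (0 : ℝ) < δ ^ 2 / (2 * (s.card + 1)) := by positivity
  choose T hT using fun k => hd k (u k) (Real.sqrt (δ ^ 2 / (2 * (s.card + 1))))
    (Real.sqrt_pos.2 hc)
  refine ⟨s.biUnion T, ?_⟩
  intro g hg
  have hg2 : δ ^ 2 ≤ ∑' k, ‖C k (π k g (u k))‖ ^ 2 := by
    have h1 : δ ^ 2 ≤ ‖SUM_diag C hC (UNV_rep π g u)‖ ^ 2 :=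
      pow_le_pow_left₀ hδ.le hg 2
    rw [norm_sq_lp] at h1
    exact h1
  have hle : ∀ k, ‖C k (π k g (u k))‖ ^ 2 ≤ ‖u k‖ ^ 2 := by
    intro k
    have := SUM_Cle C hC k (π k g (u k))
    rw [LinearIsometryEquiv.norm_map] at this
    exact pow_le_pow_left₀ (norm_nonneg _) this 2
  have hP : Summable (fun k => ‖C k (π k g (u k))‖ ^ 2) :=
    Summable.of_nonneg_of_le (fun _ => sq_nonneg _) hle hN
  have h5 := (hN.sub hP).sum_le_tsum s (fun k _ => sub_nonneg.2 (hle k))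
  rw [hN.tsum_sub hP, Finset.sum_sub_distrib] at h5
  have h6 : δ ^ 2 / 2 ≤ ∑ k ∈ s, ‖C k (π k g (u k))‖ ^ 2 := by linarith
  obtain ⟨k, hk, hk'⟩ : ∃ k ∈ s, δ ^ 2 / (2 * (s.card + 1)) ≤ ‖C k (π k g (u k))‖ ^ 2 := by
    by_contra hcon
    push Not at hcon
    have h7 : ∑ k ∈ s, ‖C k (π k g (u k))‖ ^ 2 ≤
        s.card • (δ ^ 2 / (2 * (s.card + 1))) :=
      Finset.sum_le_card_nsmul _ _ _ (fun k hk => (hcon k hk).le)
    rw [nsmul_eq_mul] at h7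
    have h8 : (s.card : ℝ) * (δ ^ 2 / (2 * (s.card + 1))) < δ ^ 2 / 2 := by
      have e1 : δ ^ 2 / 2 = ((s.card : ℝ) + 1) * (δ ^ 2 / (2 * (s.card + 1))) := by
        field_simp
      rw [e1]
      exact mul_lt_mul_of_pos_right (by linarith) hc
    linarith
  obtain ⟨m, x, hx, e⟩ := hT k g (Real.sqrt_le_iff.2 ⟨norm_nonneg _, hk'⟩)
  exact ⟨m, x, Finset.mem_biUnion.2 ⟨k, hk, hx⟩, e⟩

lemma SUM_bs {K : Type} {I : K → Type} {v : K → ℝ} (hv : ∀ k, 0 ≤ v k) (hs : Summable v)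
    (M : ∀ k, L2 (ℤ × I k) ℝ) (hM : ∀ k, ‖M k‖ ≤ 1) : bs v M = SUM_asm (SUM_vec hv hs M hM) := by
  ext q
  unfold bs
  rw [SUM_asm_apply, SUM_vec_apply, toL_apply]
  · rfl
  · exact SUM_mem (SUM_vec hv hs M hM)

theorem p_SUM : T_SUM := by
  intro G _ K v hv hs E _ _ _ π ξ hC0 hξ
  refine ⟨lp E 2, inferInstance, inferInstance, inferInstance, UNV_rep π,
    SUM_vec hv hs.summable ξ (fun k => (hξ k).le), UNV_c0 hC0, SUM_vec_norm hv hs ξ hξ, ?_, ?_⟩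
  · intro g ε hε hg
    refine SUM_small hv hs (y := fun k => π k g (ξ k) - ξ k) hε (fun k => ?_) hg
    rw [smul_sub, ← map_smul]
    rfl
  · intro c I M ε hε hM hL
    choose C hC hCe using hL
    refine ⟨SUM_asm.toContinuousLinearMap.comp (SUM_diag C (fun k => (hC k).norm)), ?_, ?_⟩
    · refine ⟨?_, fun u => ?_, fun u δ hδ => ?_⟩
      · refine ContinuousLinearMap.opNorm_le_bound _ zero_le_one (fun u => ?_)
        rw [ContinuousLinearMap.comp_apply, LinearIsometry.coe_toContinuousLinearMap,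
          LinearIsometry.norm_map]
        exact (SUM_diag C (fun k => (hC k).norm)).le_of_opNorm_le (SUM_diag_norm C _) u
      · ext q
        obtain ⟨m, k, i⟩ := q
        rw [S1_apply]
        show SUM_asm (SUM_diag C (fun k => (hC k).norm) (UNV_rep π c u)) (m, ⟨k, i⟩) =
          SUM_asm (SUM_diag C (fun k => (hC k).norm) u) (m - 1, ⟨k, i⟩)
        rw [SUM_asm_apply, SUM_asm_apply, SUM_diag_apply, SUM_diag_apply, UNV_rep_apply,
          (hC k).comm, S1_apply]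
      · obtain ⟨T, hT⟩ := SUM_dec C (fun k => (hC k).norm) (fun k => (hC k).dec) u δ hδ
        refine ⟨T, fun g hg => hT g ?_⟩
        rwa [ContinuousLinearMap.comp_apply, LinearIsometry.coe_toContinuousLinearMap,
          LinearIsometry.norm_map] at hg
    · rw [ContinuousLinearMap.comp_apply, LinearIsometry.coe_toContinuousLinearMap,
        SUM_bs hv hs.summable M hM, ← map_sub, LinearIsometry.norm_map]
      refine SUM_small hv hs (y := fun k => C k (ξ k) - M k) hε (fun k => ?_) hCe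
      rw [smul_sub, ← map_smul]
      rfl

end

end HGQ
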