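import Pool.Agent.HGP2.Targets

/-!
# HGP2: the hypothesis of the matching lemma for HNN extensions
-/

set_option autoImplicit false

open scoped InnerProductSpace ENNReal
open HGP HNNExtension HNNExtension.NormalWord

namespace HGQ

noncomputable section

theorem p_TLH (hNI : T_NI) (hHNG : T_HNG) (hHYP : T_HYP) : T_TLH := by
  classical
  intro H _ A B φ l lh hCR hyp S' ε hε
  obtain ⟨S, ε₁, hε₁, hAW⟩ := kAW H A B φ S' ε hε
  have hsq : 0 < ε₁ ^ 2 / 4 := by positivity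
  refine ⟨min 1 (ε₁ ^ 2 / 4), lt_min one_pos hsq, min_le_left _ _, ?_⟩
  intro ρ1 hρ1 L η hη
  choose SS NN hNN hNI' using fun x => hNI H A B φ x
  set Ns : ℝ := ∑ g ∈ lh.toFinset, NN g⁻¹ with hNs
  have hNs0 : 0 ≤ Ns := Finset.sum_nonneg fun g _ => hNN g⁻¹
  have hNle : ∀ g ∈ lh, NN g⁻¹ ≤ Ns := fun g hg =>
    Finset.single_le_sum (f := fun g => NN g⁻¹) (fun g _ => hNN g⁻¹) (List.mem_toFinset.2 hg)
  have h1ρ : 0 < 1 - ρ1 := by linarith
  have hq : 0 < ε * (1 - ρ1) / (2 * Ns + 2) := by positivity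
  set e2 : ℝ := min (min η ε) (min (min ε₁ (ε₁ ^ 2 / 4)) (ε * (1 - ρ1) / (2 * Ns + 2))) with he2
  have he20 : 0 < e2 := lt_min (lt_min hη hε) (lt_min (lt_min hε₁ hsq) hq)
  have he2η : e2 ≤ η := (min_le_left _ _).trans (min_le_left _ _)
  have he2ε : e2 ≤ ε := (min_le_left _ _).trans (min_le_right _ _)
  have he21 : e2 ≤ ε₁ := (min_le_right _ _).trans ((min_le_left _ _).trans (min_le_left _ _))
  have he22 : e2 ≤ ε₁ ^ 2 / 4 :=
    (min_le_right _ _).trans ((min_le_left _ _).trans (min_le_right _ _))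
  have he23 : e2 ≤ ε * (1 - ρ1) / (2 * Ns + 2) := (min_le_right _ _).trans (min_le_right _ _)
  obtain ⟨Q, hi, hQ, hSl, E, _, _, _, π, ξ, V, hC0, hξ, hS, hl, hV⟩ :=
    hyp (S ∪ lh.toFinset.biUnion fun g => SS g⁻¹) L e2 he20
  refine ⟨Q, hi, hQ.mono (by linarith) le_rfl hQ.one, hSl.mono le_rfl he2η, ?_⟩
  intro r hr hrρ
  have hδ1 : min 1 (ε₁ ^ 2 / 4) ≤ 1 := min_le_left _ _
  have hδ2 : min 1 (ε₁ ^ 2 / 4) ≤ ε₁ ^ 2 / 4 := min_le_right _ _
  have hr0 : 0 < r := by linarith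
  have hr1 : r < 1 := by linarith
  have hVr : ‖r • V‖ ≤ r := by
    rw [norm_smul, Real.norm_of_nonneg hr0.le]
    calc r * ‖V‖ ≤ r * 1 := mul_le_mul_of_nonneg_left hV.norm hr0.le
      _ = r := mul_one r
  have hadj : ContinuousLinearMap.adjoint (r • V) = r • ContinuousLinearMap.adjoint V := by
    rw [map_smulₛₗ]
    simp
  obtain ⟨W, K, _, _, _, P, ι, hSys, hC0P, hW, hD, hOp⟩ := hHNG H A B φ E π (r • V) hC0
    (hVr.trans_lt hr1)
    (fun a u => by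
      rw [ContinuousLinearMap.smul_apply, ContinuousLinearMap.smul_apply, hV.tw, map_smul])
    (fun u δ hδ => by
      obtain ⟨T, hT⟩ := hV.dec u δ hδ
      refine ⟨T, fun h hh => hT h (hh.trans ?_)⟩
      rw [ContinuousLinearMap.smul_apply, norm_smul, Real.norm_of_nonneg hr0.le]
      exact mul_le_of_le_one_left (norm_nonneg _) hr1.le)
    (fun u δ hδ => by
      obtain ⟨T, hT⟩ := hV.decS u δ hδ
      refine ⟨T, fun h hh => hT h (hh.trans ?_)⟩
      rw [hadj, ContinuousLinearMap.smul_apply, norm_smul, Real.norm_of_nonneg hr0.le]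
      exact mul_le_of_le_one_left (norm_nonneg _) hr1.le)
  refine ⟨K, inferInstance, inferInstance, inferInstance, P, ι ξ, hC0P, ?_, ?_, ?_, ?_⟩
  · rw [ι.norm_map, hξ]
  · intro s hs
    refine hAW K P (ι ξ) ?_ ?_ s hs
    · intro s hs
      rw [(kKGA H A B φ E π (r • V) W hSys K P ι hW).1 s ξ, ← map_sub, ι.norm_map]
      exact (hS s (Finset.mem_union_left _ hs)).trans he21
    · have h1 : ‖P t (ι ξ) - ι ξ‖ ^ 2 = 2 - 2 * (r * ⟪V ξ, ξ⟫_ℝ) := by
        rw [norm_sub_sq_real, (P t).norm_map, ι.norm_map, hξ, hW,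
          (kSP H A B φ E π (r • V) W hSys).2.1 ξ, ContinuousLinearMap.smul_apply,
          real_inner_smul_left]
        ring
      have h2 : 1 - e2 ≤ ⟪V ξ, ξ⟫_ℝ := by
        have h3 : ⟪V ξ, ξ⟫_ℝ = 1 + ⟪V ξ - ξ, ξ⟫_ℝ := by
          rw [inner_sub_left, real_inner_self_eq_norm_sq, hξ]
          ring
        have h4 : |⟪V ξ - ξ, ξ⟫_ℝ| ≤ e2 := by
          refine (abs_real_inner_le_norm _ _).trans ?_
          rw [hξ, mul_one]
          exact hV.inv
        have h5 := (abs_le.mp h4).1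
        linarith
      have h3 : ‖P t (ι ξ) - ι ξ‖ ^ 2 ≤ ε₁ ^ 2 := by
        rw [h1]
        have h4 : r * (1 - e2) ≤ r * ⟪V ξ, ξ⟫_ℝ := mul_le_mul_of_nonneg_left h2 hr0.le
        have h5 : r * e2 ≤ e2 := mul_le_of_le_one_left he20.le hr1.le
        nlinarith
      exact (pow_le_pow_iff_left₀ (norm_nonneg _) hε₁.le two_ne_zero).1 h3
  · intro c hc
    obtain ⟨c₀, hc₀, rfl⟩ := List.mem_map.1 hc
    obtain ⟨C, hC, hCξ⟩ := hl c₀ hc₀
    obtain ⟨C', hC', hC2⟩ := hOp c₀ _ C hC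
    refine ⟨C', hC', ?_⟩
    rw [hC2]
    exact hCξ.trans he2ε
  · intro g hg
    have h1 := hHYP H A B φ E π (r • V) W hSys K P ι hC0P hW hD g ξ r (hCR g hg) hξ hr0 hr1 hVr
    refine h1.mono ?_
    have h2 := hNI' g⁻¹ E π V r W ξ e2 hSys hr0.le hr1.le hV.norm hξ
      (fun s hs => hS s (Finset.mem_union_right _ (Finset.mem_biUnion.2
        ⟨g, List.mem_toFinset.2 hg, hs⟩))) hV.inv hV.invS
    rw [(kLN H A B φ).2.2.1 g] at h2
    have h3 : r ^ len φ g ≤ ρ1 := by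
      refine le_trans ?_ hrρ
      calc r ^ len φ g ≤ r ^ 1 := pow_le_pow_of_le_one hr0.le hr1.le (hCR g hg).1
        _ = r := pow_one r
    have h4 : 0 < 1 - r ^ len φ g := by linarith
    have h5 : ‖W g⁻¹ ξ - r ^ len φ g • ξ‖ ≤ Ns * e2 :=
      h2.trans (mul_le_mul_of_nonneg_right (hNle g hg) he20.le)
    rw [div_le_iff₀ h4]
    have h6 : (2 * Ns + 2) * e2 ≤ ε * (1 - ρ1) := by
      have := mul_le_mul_of_nonneg_left he23 (show (0 : ℝ) ≤ 2 * Ns + 2 by positivity)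
      rwa [mul_div_cancel₀ _ (by positivity : (2 * Ns + 2 : ℝ) ≠ 0)] at this
    have h7 : ε * (1 - ρ1) ≤ ε * (1 - r ^ len φ g) :=
      mul_le_mul_of_nonneg_left (by linarith) hε.le
    nlinarith

end

end HGQ
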