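import Pool.Agent.HGP2.Targets

/-!
# HGP2: the hypothesis of the matching lemma for extensions by the integers
-/

open scoped InnerProductSpace ENNReal
open HGP HNNExtension HNNExtension.NormalWord

namespace HGQ

noncomputable section

lemma TLZ_min {α : Type} (l : List α) (e : α → ℝ) (he : ∀ c, 0 < e c) :
    ∃ δ : ℝ, 0 < δ ∧ ∀ c ∈ l, δ ≤ e c := by
  induction l with
  | nil => exact ⟨1, one_pos, fun c hc => absurd hc (by simp)⟩
  | cons a l ih =>
    obtain ⟨δ, hδ, h⟩ := ih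
    refine ⟨min δ (e a), lt_min hδ (he a), fun c hc => ?_⟩
    rcases List.mem_cons.1 hc with rfl | hc
    · exact min_le_right _ _
    · exact (min_le_left _ _).trans (h c hc)

lemma TLZ_fin {N : Type} [Group N] (φ : Multiplicative ℤ →* MulAut N) (z : Multiplicative ℤ)
    (c : N) (hc : ¬ IsOfFinOrder c) : ¬ IsOfFinOrder (φ z c) := by
  intro h
  apply hc
  have h1 := MonoidHom.isOfFinOrder ((φ z).symm : N ≃* N).toMonoidHom h
  have h2 : ((φ z).symm : N ≃* N).toMonoidHom (φ z c) = c := by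
    show (φ z).symm (φ z c) = c
    exact MulEquiv.symm_apply_apply _ _
  rwa [h2] at h1

/-- Bernoulli -/
lemma TLZ_ber (r δ : ℝ) (K k : ℕ) (hδ1 : δ ≤ 1) (hr : 1 - δ < r) (hr1 : r < 1) (hk : k ≤ K) :
    2 - 2 * r ^ k ≤ 2 * K * δ := by
  have h0 : 0 < r := by linarith
  have h1 : 1 + (k : ℝ) * (r - 1) ≤ (1 + (r - 1)) ^ k :=
    one_add_mul_le_pow (by linarith) k
  have h2 : (1 + (r - 1)) = r := by ring
  rw [h2] at h1
  have h3 : (k : ℝ) * (1 - r) ≤ K * δ := by
    have hk' : (k : ℝ) ≤ K := by exact_mod_cast hk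
    exact mul_le_mul hk' (by linarith) (by linarith) (by positivity)
  nlinarith

theorem p_TLZ (hMOD : T_MOD) (hZRP : T_ZRP) (hZC0 : T_ZC0) (hZI1 : T_ZI1) (hZI2 : T_ZI2)
    (hZEL : T_ZEL) (hZHY : T_ZHY) : T_TLZ := by
  classical
  intro N _ φ hN le lh hle hlh S ε hε
  -- the bound for the integers
  set K : ℕ := S.sup (fun s => (Multiplicative.toAdd s.right).natAbs) with hK
  set δ : ℝ := min 1 (ε ^ 2 / (8 * (K + 1))) with hδ
  have hδ0 : 0 < δ := lt_min one_pos (by positivity)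
  have hδ1 : δ ≤ 1 := min_le_left _ _
  have hKδ : 2 * (K : ℝ) * δ ≤ (ε / 2) ^ 2 := by
    have h1 : δ ≤ ε ^ 2 / (8 * (K + 1)) := min_le_right _ _
    have h2 : (0 : ℝ) < 8 * (K + 1) := by positivity
    rw [le_div_iff₀ h2] at h1
    nlinarith [hδ0.le]
  refine ⟨δ, hδ0, hδ1, fun ρ1 hρ1 L η hη => ?_⟩
  -- the finite set of elements of the normal subgroup
  set F : Finset N := S.image (fun s => s.left) ∪ (lh.map (fun g => g.left)).toFinset with hF
  have hε2 : 0 < min (ε / 2) (ε * (1 - ρ1) / 2) := by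
    refine lt_min (by linarith) ?_
    have : 0 < 1 - ρ1 := by linarith
    positivity
  obtain ⟨S2, ε20, hε20, hI2⟩ := hZI2 N φ F ρ1 _ hρ1 hε2
  choose N0 e0 he0 hE using fun c : N => hZEL N φ c ρ1 ε hρ1 hε
  obtain ⟨e1, he1, hle1⟩ := TLZ_min le e0 he0
  set l : List N := le.flatMap (fun c => (List.range (N0 c)).map
    (fun j : ℕ => φ (Multiplicative.ofAdd (-(j : ℤ))) c)) with hl
  have hlmem : ∀ c ∈ le, ∀ j : ℕ, j < N0 c → φ (Multiplicative.ofAdd (-(j : ℤ))) c ∈ l := by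
    intro c hc j hj
    rw [hl, List.mem_flatMap]
    exact ⟨c, hc, List.mem_map.2 ⟨j, List.mem_range.2 hj, rfl⟩⟩
  have hlfin : ∀ c ∈ l, ¬ IsOfFinOrder c := by
    intro c' hc'
    rw [hl, List.mem_flatMap] at hc'
    obtain ⟨c, hc, hc'⟩ := hc'
    obtain ⟨j, _, rfl⟩ := List.mem_map.1 hc'
    exact TLZ_fin φ _ c (hle c hc)
  set e : ℝ := min (min e1 ε20) η with he
  have he_pos : 0 < e := lt_min (lt_min he1 hε20) hη
  have hee1 : e ≤ e1 := (min_le_left _ _).trans (min_le_left _ _)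
  have hee2 : e ≤ ε20 := (min_le_left _ _).trans (min_le_right _ _)
  have heη : e ≤ η := min_le_right _ _
  obtain ⟨Q, hi, hQ, hSl, E, i1, i2, i3, π, ξ, hC0, hξ, hinv, hLc⟩ := hN l hlfin S2 L e he_pos
  refine ⟨Q, hi, hQ.mono (by linarith) le_rfl hQ.one, hSl.mono le_rfl heη, fun r hr hr1 => ?_⟩
  have hr0 : 0 < r := by linarith
  have hrlt : r < 1 := by linarith
  obtain ⟨R, hR⟩ := hZRP N φ E π
  obtain ⟨hx1, hx2⟩ := hZI1 N φ E π R hR ξ r hξ hr0 hrlt
  have hI := hI2 E π R hR ξ r hξ hr0 hr1 (fun s hs => (hinv s hs).trans hee2)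
  have hC0R : C0 R := hZC0 N φ E π R hR hC0
  refine ⟨L2 ℤ E, inferInstance, inferInstance, inferInstance, R, tens (zv r) ξ, hC0R, hx1,
    ?_, ?_, ?_⟩
  · intro s hs
    have hsF : s.left ∈ F := by
      rw [hF, Finset.mem_union]
      exact Or.inl (Finset.mem_image.2 ⟨s, hs, rfl⟩)
    have h1 := hI s.left hsF
    have h2 := hx2 (Multiplicative.toAdd s.right)
    have hk : (Multiplicative.toAdd s.right).natAbs ≤ K :=
      Finset.le_sup (f := fun s : N ⋊[φ] Multiplicative ℤ =>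
        (Multiplicative.toAdd s.right).natAbs) hs
    have h3 := TLZ_ber r δ K _ hδ1 hr hrlt hk
    have h4 : ‖R ⟨1, Multiplicative.ofAdd (Multiplicative.toAdd s.right)⟩ (tens (zv r) ξ) -
        tens (zv r) ξ‖ ≤ ε / 2 := by
      refine le_of_sq_le_sq ?_ (by linarith)
      rw [h2]
      linarith
    have h5 : s = (⟨s.left, 1⟩ : N ⋊[φ] Multiplicative ℤ) *
        ⟨1, Multiplicative.ofAdd (Multiplicative.toAdd s.right)⟩ := by
      ext
      · simp
      · simp
    have h6 : R s (tens (zv r) ξ) - tens (zv r) ξ = R ⟨s.left, 1⟩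
        (R ⟨1, Multiplicative.ofAdd (Multiplicative.toAdd s.right)⟩ (tens (zv r) ξ) -
          tens (zv r) ξ) + (R ⟨s.left, 1⟩ (tens (zv r) ξ) - tens (zv r) ξ) := by
      conv_lhs => rw [h5, map_mul]
      rw [map_sub]
      simp only [LinearIsometryEquiv.coe_mul, Function.comp_apply]
      abel
    rw [h6]
    refine (norm_add_le _ _).trans ?_
    rw [LinearIsometryEquiv.norm_map]
    have h7 := h1.trans (min_le_left _ _)
    linarith
  · intro c hc
    obtain ⟨c0, hc0, rfl⟩ := List.mem_map.1 hc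
    have h1 := hE c0 E π R hR ξ r hξ hr0 hr1 Q.I Q.md (hMOD Q _ _ hQ).2.le
      (fun j hj => (hLc _ (hlmem c0 hc0 j hj)).mono (hee1.trans (hle1 c0 hc0)))
    exact h1
  · intro g hg
    have hk := hlh g hg
    have hgF : g.left ∈ F := by
      rw [hF, Finset.mem_union]
      right
      rw [List.mem_toFinset]
      exact List.mem_map.2 ⟨g, hg, rfl⟩
    have h1 := hI g.left hgF
    have h2 := h1.trans (min_le_right _ _)
    have hkn : 1 ≤ (Multiplicative.toAdd g.right).toNat := by omega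
    have h3 := hZHY N φ E π R hR hC0R ξ r g.left (Multiplicative.toAdd g.right).toNat hξ hr0
      hrlt hkn
    have h4 : (⟨g.left, Multiplicative.ofAdd
        (((Multiplicative.toAdd g.right).toNat : ℕ) : ℤ)⟩ : N ⋊[φ] Multiplicative ℤ) = g := by
      ext
      · rfl
      · show Multiplicative.ofAdd (((Multiplicative.toAdd g.right).toNat : ℕ) : ℤ) = g.right
        rw [Int.toNat_of_nonneg (by omega)]
        rfl
    rw [h4] at h3
    refine h3.mono ?_
    have h5 : r ^ (Multiplicative.toAdd g.right).toNat ≤ ρ1 := by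
      calc r ^ (Multiplicative.toAdd g.right).toNat ≤ r ^ 1 :=
            pow_le_pow_of_le_one hr0.le hrlt.le hkn
        _ = r := pow_one r
        _ ≤ ρ1 := hr1
    rw [div_le_iff₀ (by linarith)]
    have h6 : ε * (1 - ρ1) ≤ ε * (1 - r ^ (Multiplicative.toAdd g.right).toNat) :=
      mul_le_mul_of_nonneg_left (by linarith) hε.le
    linarith

end

end HGQ
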