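import Pool.Agent.HGP2.Targets

/-!
# HGP2: T_TRP, a representation extended by zero
-/

open scoped InnerProductSpace ENNReal
open HGP HNNExtension HNNExtension.NormalWord

namespace HGQ

noncomputable section

lemma TRP_inner {H : Type} [Group H] {E : Type} [NormedAddCommGroup E] [InnerProductSpace ℝ E]
    (π : H →* (E ≃ₗᵢ[ℝ] E)) (h : H) (u v : E) : ⟪π h u, v⟫_ℝ = ⟪u, π h⁻¹ v⟫_ℝ := by
  have h1 : v = π h (π h⁻¹ v) := by
    have h2 : (π h * π h⁻¹) v = v := by
      rw [← map_mul, mul_inv_cancel, map_one]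
      rfl
    exact h2.symm
  conv_lhs => rw [h1]
  exact (π h).inner_map_map _ _

lemma TRP_inner' {H : Type} [Group H] {E : Type} [NormedAddCommGroup E] [InnerProductSpace ℝ E]
    (π : H →* (E ≃ₗᵢ[ℝ] E)) (h : H) (u v : E) : ⟪π h⁻¹ u, v⟫_ℝ = ⟪u, π h v⟫_ℝ := by
  have := TRP_inner π h⁻¹ u v
  rwa [inv_inv] at this

open Classical in
theorem p_TRP : T_TRP := by
  intro G H _ _ f hf E _ _ _ π
  refine ⟨fun g => if hg : ∃ h, f h = g then
    ((π hg.choose : E ≃ₗᵢ[ℝ] E).toContinuousLinearEquiv : E →L[ℝ] E) else 0, ?_⟩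
  generalize hW : (fun g : G => if hg : ∃ h, f h = g then
    ((π hg.choose : E ≃ₗᵢ[ℝ] E).toContinuousLinearEquiv : E →L[ℝ] E) else 0) = W
  have w1 : ∀ (h : H) (u : E), W (f h) u = π h u := by
    intro h u
    rw [← hW]
    have hg : ∃ h', f h' = f h := ⟨h, rfl⟩
    have h1 : hg.choose = h := hf hg.choose_spec
    simp only [hg, dite_true]
    change π hg.choose u = π h u
    rw [h1]
  have w0 : ∀ g, g ∉ f.range → W g = 0 := by
    intro g hg
    rw [← hW]
    have h1 : ¬ ∃ h, f h = g := fun h => hg (MonoidHom.mem_range.2 h)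
    simp only [h1, dite_false]
  refine ⟨w1, w0, ?_, ?_, ?_⟩
  · ext u
    have h1 := w1 1 u
    rw [map_one, map_one] at h1
    rw [h1]
    rfl
  · intro g
    rw [ContinuousLinearMap.eq_adjoint_iff]
    intro u v
    by_cases hg : g ∈ f.range
    · obtain ⟨h, rfl⟩ := MonoidHom.mem_range.1 hg
      rw [← map_inv, w1, w1, TRP_inner']
    · have hg' : g⁻¹ ∉ f.range := fun h => hg (by simpa using f.range.inv_mem h)
      rw [w0 _ hg, w0 _ hg']
      simp
  · intro k g x
    -- right cosets
    let Q : Fin k → Quotient (QuotientGroup.rightRel f.range) := fun i =>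
      Quotient.mk _ (g i)
    have hQ : ∀ i j, Q i = Q j ↔ g i * (g j)⁻¹ ∈ f.range := by
      intro i j
      have h1 : Q i = Q j ↔ (QuotientGroup.rightRel f.range) (g i) (g j) := Quotient.eq
      rw [h1, QuotientGroup.rightRel_apply]
      constructor
      · intro h
        simpa using f.range.inv_mem h
      · intro h
        simpa using f.range.inv_mem h
    have hr : ∀ i, ∃ h : H, f h = g i * ((Q i).out)⁻¹ := by
      intro i
      have h1 : (Quotient.mk (QuotientGroup.rightRel f.range) (Q i).out) =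
          Quotient.mk (QuotientGroup.rightRel f.range) (g i) := Quotient.out_eq (Q i)
      have h2 : (QuotientGroup.rightRel f.range) (Q i).out (g i) := Quotient.eq.1 h1
      rw [QuotientGroup.rightRel_apply] at h2
      exact MonoidHom.mem_range.1 h2
    choose h hh using hr
    let a : Fin k → E := fun i => π (h i)⁻¹ (x i)
    have hT : ∀ i j, ⟪W (g i * (g j)⁻¹) (x j), x i⟫_ℝ = if Q j = Q i then ⟪a j, a i⟫_ℝ else 0 := by
      intro i j
      by_cases hij : Q j = Q i
      · rw [if_pos hij]
        have h1 : g i * (g j)⁻¹ = f (h i * (h j)⁻¹) := by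
          rw [map_mul, map_inv, hh, hh, hij]
          group
        have h2 : π (h i * (h j)⁻¹) (x j) = π (h i) (a j) := by
          rw [map_mul]
          rfl
        rw [h1, w1, h2, TRP_inner]
      · rw [if_neg hij]
        have h1 : g i * (g j)⁻¹ ∉ f.range := fun hc => hij ((hQ i j).2 hc).symm
        rw [w0 _ h1]
        simp
    have key : ∑ i, ∑ j, ⟪W (g i * (g j)⁻¹) (x j), x i⟫_ℝ =
        ∑ q ∈ Finset.univ.image Q, ‖∑ i ∈ Finset.univ.filter (fun i => Q i = q), a i‖ ^ 2 := by
      rw [← Finset.sum_fiberwise_of_maps_to (s := Finset.univ) (t := Finset.univ.image Q) (g := Q)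
        (fun i _ => Finset.mem_image_of_mem Q (Finset.mem_univ i))]
      refine Finset.sum_congr rfl fun q _ => ?_
      have h3 : ∀ i ∈ Finset.univ.filter (fun i => Q i = q),
          ∑ j, ⟪W (g i * (g j)⁻¹) (x j), x i⟫_ℝ =
          ⟪∑ j ∈ Finset.univ.filter (fun j => Q j = q), a j, a i⟫_ℝ := by
        intro i hi
        have hi' : Q i = q := (Finset.mem_filter.1 hi).2
        rw [sum_inner, Finset.sum_filter]
        refine Finset.sum_congr rfl fun j _ => ?_
        rw [hT, hi']
      rw [Finset.sum_congr rfl h3, ← inner_sum, real_inner_self_eq_norm_sq]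
    rw [key]
    exact Finset.sum_nonneg fun q _ => by positivity

end

end HGQ
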