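import Pool.Agent.HGP2.Targets

/-!
# HGP2, target VFI: edge operators for finite edge groups
-/

open scoped InnerProductSpace ENNReal
open HGP

namespace HGQ

noncomputable section

lemma VFI_av {H : Type} [Group H] (K : Subgroup H) [Finite K] {E : Type} [NormedAddCommGroup E]
    [InnerProductSpace ℝ E] (π : H →* (E ≃ₗᵢ[ℝ] E)) (ξ : E) (ε : ℝ) (hξ : ‖ξ‖ = 1)
    (h : ∀ k ∈ K, ‖π k ξ - ξ‖ ≤ ε) :
    ∃ η : E, ‖η‖ ≤ 1 ∧ (∀ k ∈ K, π k η = η) ∧ 1 - ε ≤ ⟪η, ξ⟫_ℝ := by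
  classical
  let _ : Fintype K := Fintype.ofFinite K
  have hc : (0 : ℝ) < Fintype.card K := by
    have : 0 < Fintype.card K := Fintype.card_pos
    exact_mod_cast this
  refine ⟨(Fintype.card K : ℝ)⁻¹ • ∑ k : K, π (k : H) ξ, ?_, ?_, ?_⟩
  · rw [norm_smul, norm_inv, Real.norm_of_nonneg hc.le]
    have h1 : ‖∑ k : K, π (k : H) ξ‖ ≤ Fintype.card K := by
      refine (norm_sum_le _ _).trans ?_
      simp [hξ]
    calc (Fintype.card K : ℝ)⁻¹ * ‖∑ k : K, π (k : H) ξ‖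
        ≤ (Fintype.card K : ℝ)⁻¹ * Fintype.card K :=
          mul_le_mul_of_nonneg_left h1 (inv_nonneg.2 hc.le)
      _ = 1 := inv_mul_cancel₀ hc.ne'
  · intro k hk
    rw [map_smul, map_sum]
    congr 1
    have h1 : ∀ x : K, π k (π (x : H) ξ) = π ((⟨k, hk⟩ * x : K) : H) ξ := by
      intro x
      rw [Subgroup.coe_mul, map_mul]
      rfl
    rw [Finset.sum_congr rfl fun x _ => h1 x]
    exact Fintype.sum_equiv (Equiv.mulLeft (⟨k, hk⟩ : K)) _ _ (fun x => rfl)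
  · rw [real_inner_smul_left, sum_inner]
    have h1 : ∀ x : K, 1 - ε ≤ ⟪π (x : H) ξ, ξ⟫_ℝ := by
      intro x
      have h2 : ⟪π (x : H) ξ, ξ⟫_ℝ = ⟪ξ, ξ⟫_ℝ + ⟪π (x : H) ξ - ξ, ξ⟫_ℝ := by
        rw [inner_sub_left]
        ring
      have h3 : |⟪π (x : H) ξ - ξ, ξ⟫_ℝ| ≤ ε := by
        refine (abs_real_inner_le_norm _ _).trans ?_
        rw [hξ, mul_one]
        exact h x x.2
      rw [h2, real_inner_self_eq_norm_sq, hξ]
      linarith [(abs_le.1 h3).1]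
    have h4 : (Fintype.card K : ℝ) * (1 - ε) ≤ ∑ x : K, ⟪π (x : H) ξ, ξ⟫_ℝ := by
      have h5 := Finset.sum_le_sum (s := Finset.univ) fun (x : K) _ => h1 x
      rwa [Finset.sum_const, Finset.card_univ, nsmul_eq_mul] at h5
    calc 1 - ε = (Fintype.card K : ℝ)⁻¹ * ((Fintype.card K : ℝ) * (1 - ε)) := by
          rw [← mul_assoc, inv_mul_cancel₀ hc.ne', one_mul]
      _ ≤ _ := mul_le_mul_of_nonneg_left h4 (inv_nonneg.2 hc.le)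

lemma VFI_inv {E : Type} [NormedAddCommGroup E] [InnerProductSpace ℝ E] (x y ξ : E) (ε : ℝ)
    (hξ : ‖ξ‖ = 1) (hε : 0 ≤ ε) (hε1 : ε ≤ 1) (hx : ‖x‖ ≤ 1) (hy : ‖y‖ ≤ 1)
    (h1 : 1 - ε ≤ ⟪x, ξ⟫_ℝ) (h2 : 1 - ε ≤ ⟪y, ξ⟫_ℝ) :
    ‖InnerProductSpace.rankOne ℝ x y ξ - ξ‖ ≤ Real.sqrt (6 * ε) := by
  apply Real.le_sqrt_of_sq_le
  have hn : ‖InnerProductSpace.rankOne ℝ x y ξ‖ ≤ 1 := by
    refine (ContinuousLinearMap.le_opNorm _ _).trans ?_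
    rw [InnerProductSpace.norm_rankOne, hξ, mul_one]
    exact mul_le_one₀ hx (norm_nonneg _) hy
  have hn2 : ‖InnerProductSpace.rankOne ℝ x y ξ‖ ^ 2 ≤ 1 := pow_le_one₀ (norm_nonneg _) hn
  rw [norm_sub_sq_real, hξ]
  have h3 : ⟪InnerProductSpace.rankOne ℝ x y ξ, ξ⟫_ℝ = ⟪y, ξ⟫_ℝ * ⟪x, ξ⟫_ℝ := by
    rw [InnerProductSpace.rankOne_apply, real_inner_smul_left]
  rw [h3]
  have h4 : (1 - ε) * (1 - ε) ≤ ⟪y, ξ⟫_ℝ * ⟪x, ξ⟫_ℝ :=
    mul_le_mul h2 h1 (by linarith) (by linarith)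
  nlinarith [sq_nonneg ε]

lemma VFI_tw {H : Type} [Group H] {E : Type} [NormedAddCommGroup E]
    [InnerProductSpace ℝ E] (π : H →* (E ≃ₗᵢ[ℝ] E)) (y u : E) (a : H)
    (h : π a y = y) : ⟪y, π a u⟫_ℝ = ⟪y, u⟫_ℝ := by
  conv_lhs => rw [← h]
  exact (π a).inner_map_map y u

lemma VFI_dec {H : Type} [Group H] {E : Type} [NormedAddCommGroup E]
    [InnerProductSpace ℝ E] (π : H →* (E ≃ₗᵢ[ℝ] E)) (x y : E) (hC : C0 π) (hx : ‖x‖ ≤ 1)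
    (K : Subgroup H) (u : E) (δ : ℝ) (hδ : 0 < δ) : ∃ T : Finset H, ∀ h : H,
      δ ≤ ‖InnerProductSpace.rankOne ℝ x y (π h u)‖ → ∃ a ∈ K, ∃ x ∈ T, h = a * x := by
  refine ⟨(hC u y δ hδ).toFinset, fun h hh => ⟨1, K.one_mem, h, ?_, (one_mul h).symm⟩⟩
  rw [Set.Finite.mem_toFinset, Set.mem_ofPred_eq]
  refine hh.trans ?_
  rw [InnerProductSpace.rankOne_apply, norm_smul, Real.norm_eq_abs, real_inner_comm]
  exact mul_le_of_le_one_right (abs_nonneg _) hx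

theorem p_VFI : T_VFI := by
  intro H _ A B φ hA E _ _ _ π ξ ε hC hξ hε hε1 h1 h2
  have hB : Finite B := Finite.of_equiv A φ.toEquiv
  obtain ⟨x, hx1, hx2, hx3⟩ := VFI_av A π ξ ε hξ h1
  obtain ⟨y, hy1, hy2, hy3⟩ := VFI_av B π ξ ε hξ h2
  refine ⟨InnerProductSpace.rankOne ℝ y x, ?_, ?_, ?_, ?_, ?_, ?_⟩
  · rw [InnerProductSpace.norm_rankOne]
    exact mul_le_one₀ hy1 (norm_nonneg _) hx1
  · intro a u
    rw [InnerProductSpace.rankOne_apply, InnerProductSpace.rankOne_apply, map_smul,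
      hy2 _ (φ a).2, VFI_tw π x u a (hx2 _ a.2)]
  · exact VFI_dec π y x hC hy1 A
  · rw [InnerProductSpace.adjoint_rankOne]
    exact VFI_dec π x y hC hx1 B
  · exact VFI_inv y x ξ ε hξ hε hε1 hy1 hx1 hy3 hx3
  · rw [InnerProductSpace.adjoint_rankOne]
    exact VFI_inv x y ξ ε hξ hε hε1 hx1 hy1 hx3 hy3

end

end HGQ
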