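import Pool.Agent.HGP2.Targets

/-!
# HGQ-WML: the operator valued function is multiplicative when the lengths add
-/

open scoped InnerProductSpace ENNReal
open HGP HNNExtension HNNExtension.NormalWord

namespace HGQ

noncomputable section

theorem p_WML (hSUBL : T_SUBL) : T_WML := by
  intro H _ A B φ E _ _ _ π V W hS
  obtain ⟨lofL, lofR, linv, lzero, lof, lstep⟩ := kLN H A B φ
  obtain ⟨hd, tu, tr, hdec⟩ := kDECL H A B φ
  obtain ⟨w1, w2, w3, w4, w5, w6, w7, w8, w9⟩ := kSP H A B φ E π V W hS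
  suffices h : ∀ (n : ℕ) (x y : HNNExtension H A B φ), len φ x = n →
      len φ (x * y) = len φ x + len φ y → W (x * y) = W x * W y from
    fun x y hxy => h _ x y rfl hxy
  intro n
  induction n with
  | zero =>
    intro x y hx hxy
    obtain ⟨h, rfl⟩ := lzero x hx
    ext u
    rw [w3]
    show _ = W (of h) (W y u)
    rw [w1]
  | succ n ih =>
    intro x y hx hxy
    obtain ⟨hg, hl, -⟩ := hdec x (by omega)
    obtain ⟨h, v, z, hg', hz⟩ : ∃ (h : H) (v : ℤˣ) (z : HNNExtension H A B φ),
        x = of h * (t ^ (v : ℤ) * z) ∧ len φ z = n := ⟨hd x, tu x, tr x, hg, by omega⟩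
    subst hg'
    have e1 : of h * (t ^ (v : ℤ) * z) * y = of h * (t ^ (v : ℤ) * (z * y)) := by
      simp only [mul_assoc]
    have l1 : len φ (of h * (t ^ (v : ℤ) * z) * y) = len φ (t ^ (v : ℤ) * (z * y)) := by
      rw [e1, lofL]
    have l2 := lstep v (z * y)
    have l3 := hSUBL H A B φ z y
    have l4 : len φ (t ^ (v : ℤ) * z) = len φ z + 1 := by
      have h1 := lofL h (t ^ (v : ℤ) * z)
      omega
    have l5 : len φ (t ^ (v : ℤ) * (z * y)) = len φ (z * y) + 1 := by omega
    have l6 : len φ (z * y) = len φ z + len φ y := by omega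
    have ihz := ih z y hz l6
    ext u
    rw [e1, w3, w5 v _ l5, ihz]
    show _ = W (of h * (t ^ (v : ℤ) * z)) (W y u)
    rw [w3, w5 v _ l4]
    rfl

end

end HGQ
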