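import Pool.Agent.HGP2.Targets

/-!
# HGP2: decay of the coefficients of the representation induced to an extension by the integers
-/

open scoped InnerProductSpace ENNReal
open HGP HNNExtension HNNExtension.NormalWord

namespace HGQ

noncomputable section

lemma ZC0_dense {E : Type} [NormedAddCommGroup E] [InnerProductSpace ℝ E] :
    Dense (Submodule.span ℝ
      {f : L2 ℤ E | ∃ (i : ℤ) (u : E), f = lp.single 2 i u} : Set (L2 ℤ E)) := by
  intro f
  have h : HasSum (fun i => (lp.single 2 i (f i) : L2 ℤ E)) f :=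
    lp.hasSum_single (by norm_num) f
  refine mem_closure_of_tendsto h (Filter.Eventually.of_forall fun s => ?_)
  exact Submodule.sum_mem _ fun i _ => Submodule.subset_span ⟨i, f i, rfl⟩

lemma ZC0_single {N : Type} [Group N] (φ : Multiplicative ℤ →* MulAut N) {E : Type}
    [NormedAddCommGroup E] [InnerProductSpace ℝ E] (π : N →* (E ≃ₗᵢ[ℝ] E))
    (R : (N ⋊[φ] Multiplicative ℤ) →* (L2 ℤ E ≃ₗᵢ[ℝ] L2 ℤ E)) (hR : ZR φ π R) (hπ : C0 π)
    (i i' : ℤ) (u u' : E) (δ : ℝ) (hδ : 0 < δ) :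
    {x : N ⋊[φ] Multiplicative ℤ |
      δ ≤ |⟪R x (lp.single 2 i u : L2 ℤ E), (lp.single 2 i' u' : L2 ℤ E)⟫_ℝ|}.Finite := by
  have hf := hπ u u' δ hδ
  refine (hf.image (fun m => (⟨φ (Multiplicative.ofAdd i') m,
    Multiplicative.ofAdd (i' - i)⟩ : N ⋊[φ] Multiplicative ℤ))).subset ?_
  rintro ⟨n, k⟩ hx
  have hx' : δ ≤ |⟪R ⟨n, k⟩ (lp.single 2 i u : L2 ℤ E),
    (lp.single 2 i' u' : L2 ℤ E)⟫_ℝ| := hx
  rw [lp.inner_single_right] at hx'
  have h2 := hR n (Multiplicative.toAdd k) (lp.single 2 i u : L2 ℤ E) i'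
  rw [ofAdd_toAdd] at h2
  rw [h2] at hx'
  by_cases hk : i' - Multiplicative.toAdd k = i
  · rw [hk] at hx'
    have h3 : (lp.single 2 i u : L2 ℤ E) i = u := by
      rw [lp.single_apply]
      simp
    rw [h3] at hx'
    refine ⟨φ (Multiplicative.ofAdd (-i')) n, hx', ?_⟩
    have h4 : φ (Multiplicative.ofAdd i') (φ (Multiplicative.ofAdd (-i')) n) = n := by
      rw [← MulAut.mul_apply, ← map_mul, ← ofAdd_add, add_neg_cancel, ofAdd_zero, map_one]
      rfl
    have h5 : Multiplicative.ofAdd (i' - i) = k := by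
      have : i' - i = Multiplicative.toAdd k := by linarith
      rw [this, ofAdd_toAdd]
    simp only [h4, h5]
  · have h0 : (lp.single 2 i u : L2 ℤ E) (i' - Multiplicative.toAdd k) = 0 := by
      rw [lp.single_apply]
      exact Pi.single_eq_of_ne hk _
    rw [h0, map_zero, inner_zero_left, abs_zero] at hx'
    exact absurd hx' (not_le.2 hδ)

/-- the target `T_ZC0` -/
theorem p_ZC0 : T_ZC0 := by
  intro N _ φ E _ _ _ π R hR hπ
  have h1 : ∀ (k : ℤ) (v : E) (u : L2 ℤ E) (δ : ℝ), 0 < δ →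
      {h : N ⋊[φ] Multiplicative ℤ | δ ≤ |⟪R h u, (lp.single 2 k v : L2 ℤ E)⟫_ℝ|}.Finite := by
    intro k v u δ hδ
    have := kDEN (N ⋊[φ] Multiplicative ℤ) (L2 ℤ E)
      {f : L2 ℤ E | ∃ (i : ℤ) (u : E), f = lp.single 2 i u} ZC0_dense
      (fun h => C0T_sn (R h).toLinearEquiv.toLinearMap (lp.single 2 k v : L2 ℤ E))
      ‖(lp.single 2 k v : L2 ℤ E)‖
      (fun h u => by
        rw [C0T_sn_apply]
        refine (abs_real_inner_le_norm _ _).trans ?_
        have : ‖(R h).toLinearEquiv.toLinearMap u‖ = ‖u‖ :=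
          (R h).norm_map u
        rw [this, mul_comm])
      Set.Finite Set.finite_empty (fun s t hst ht => ht.subset hst)
      (fun s t hs ht => hs.union ht)
      (by
        rintro f ⟨i, w, rfl⟩ δ' hδ'
        refine (ZC0_single φ π R hR hπ i k w v δ' hδ').subset fun h hh => ?_
        simp only [Set.mem_ofPred_eq, C0T_sn_apply] at hh ⊢
        exact hh)
      u δ hδ
    refine this.subset fun h hh => ?_
    simp only [Set.mem_ofPred_eq, C0T_sn_apply] at hh ⊢
    exact hh
  intro u v δ hδ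
  have := kDEN (N ⋊[φ] Multiplicative ℤ) (L2 ℤ E)
    {f : L2 ℤ E | ∃ (i : ℤ) (u : E), f = lp.single 2 i u} ZC0_dense
    (fun h => C0T_sn LinearMap.id (R h u)) ‖u‖
    (fun h w => by
      rw [C0T_sn_apply]
      refine (abs_real_inner_le_norm _ _).trans ?_
      rw [(R h).norm_map u, mul_comm]
      rfl)
    Set.Finite Set.finite_empty (fun s t hst ht => ht.subset hst)
    (fun s t hs ht => hs.union ht)
    (by
      rintro f ⟨k, w, rfl⟩ δ' hδ'
      refine (h1 k w u δ' hδ').subset fun h hh => ?_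
      simp only [Set.mem_ofPred_eq, C0T_sn_apply] at hh ⊢
      rw [real_inner_comm]
      exact hh)
    v δ hδ
  refine this.subset fun h hh => ?_
  simp only [Set.mem_ofPred_eq, C0T_sn_apply] at hh ⊢
  rw [real_inner_comm]
  exact hh

end

end HGQ
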