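import Pool.Agent.HGP2.Targets

/-!
# HGQ-ZEL: elements of the normal subgroup
-/

open scoped InnerProductSpace ENNReal
open HGP HNNExtension HNNExtension.NormalWord

namespace HGQ

noncomputable section

section zel

variable {E : Type} [NormedAddCommGroup E] [InnerProductSpace ℝ E]

/-- evaluation at an integer -/
def ZEL_ev (E : Type) [NormedAddCommGroup E] [InnerProductSpace ℝ E] (j : ℤ) :
    L2 ℤ E →L[ℝ] E :=
  LinearMap.mkContinuous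
    { toFun := fun f => f j
      map_add' := fun f g => rfl
      map_smul' := fun c f => rfl } 1 (fun f => by
        rw [one_mul]
        exact apply_le_norm f j)

lemma ZEL_ev_apply (j : ℤ) (f : L2 ℤ E) : ZEL_ev E j f = f j := rfl

/-- the combined operator -/
def ZEL_C {I : Type} (a : ℕ → ℝ) (n : ℕ) (C : ℕ → E →L[ℝ] L2 (ℤ × I) ℝ) :
    L2 ℤ E →L[ℝ] L2 (ℤ × I) ℝ :=
  ∑ j ∈ Finset.range n, a j • (C j).comp (ZEL_ev E (j : ℤ))

lemma ZEL_C_apply {I : Type} (a : ℕ → ℝ) (n : ℕ) (C : ℕ → E →L[ℝ] L2 (ℤ × I) ℝ)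
    (f : L2 ℤ E) : ZEL_C a n C f = ∑ j ∈ Finset.range n, a j • C j (f (j : ℤ)) := by
  unfold ZEL_C
  rw [sum_apply]
  rfl

omit [InnerProductSpace ℝ E] in
lemma ZEL_sum_le (n : ℕ) (f : L2 ℤ E) :
    ∑ j ∈ Finset.range n, ‖f (j : ℤ)‖ ^ 2 ≤ ‖f‖ ^ 2 := by
  rw [norm_sq_lp]
  have h : ∑ j ∈ Finset.range n, ‖f (j : ℤ)‖ ^ 2 =
      ∑ i ∈ (Finset.range n).map (Nat.castEmbedding : ℕ ↪ ℤ), ‖f i‖ ^ 2 := by
    rw [Finset.sum_map]
    rfl
  rw [h]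
  exact (summable_sq_lp f).sum_le_tsum _ (fun i _ => sq_nonneg _)

lemma ZEL_norm {I : Type} (a : ℕ → ℝ) (n : ℕ) (C : ℕ → E →L[ℝ] L2 (ℤ × I) ℝ)
    (ha : ∑ j ∈ Finset.range n, a j ^ 2 ≤ 1) (hC : ∀ j < n, ‖C j‖ ≤ 1) (f : L2 ℤ E) :
    ‖ZEL_C a n C f‖ ≤ ‖f‖ := by
  rw [ZEL_C_apply]
  have h1 : ‖∑ j ∈ Finset.range n, a j • C j (f (j : ℤ))‖ ≤
      ∑ j ∈ Finset.range n, |a j| * ‖f (j : ℤ)‖ := by
    refine (norm_sum_le _ _).trans (Finset.sum_le_sum fun j hj => ?_)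
    rw [norm_smul, Real.norm_eq_abs]
    refine mul_le_mul_of_nonneg_left ?_ (abs_nonneg _)
    calc ‖C j (f (j : ℤ))‖ ≤ ‖C j‖ * ‖f (j : ℤ)‖ := (C j).le_opNorm _
      _ ≤ 1 * ‖f (j : ℤ)‖ :=
        mul_le_mul_of_nonneg_right (hC j (Finset.mem_range.1 hj)) (norm_nonneg _)
      _ = ‖f (j : ℤ)‖ := one_mul _
  have h2 : ∑ j ∈ Finset.range n, |a j| * ‖f (j : ℤ)‖ ≤
      Real.sqrt (∑ j ∈ Finset.range n, |a j| ^ 2) *
        Real.sqrt (∑ j ∈ Finset.range n, ‖f (j : ℤ)‖ ^ 2) :=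
    Real.sum_mul_le_sqrt_mul_sqrt _ _ _
  have h3 : Real.sqrt (∑ j ∈ Finset.range n, |a j| ^ 2) ≤ 1 := by
    refine Real.sqrt_le_iff.2 ⟨zero_le_one, ?_⟩
    simpa only [sq_abs, one_pow] using ha
  have h4 : Real.sqrt (∑ j ∈ Finset.range n, ‖f (j : ℤ)‖ ^ 2) ≤ ‖f‖ :=
    Real.sqrt_le_iff.2 ⟨norm_nonneg _, ZEL_sum_le n f⟩
  calc _ ≤ _ := h1.trans h2
    _ ≤ 1 * ‖f‖ := mul_le_mul h3 h4 (Real.sqrt_nonneg _) zero_le_one
    _ = ‖f‖ := one_mul _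

/-- the norm after a linear map -/
def ZEL_sn {K L : Type} [NormedAddCommGroup K] [InnerProductSpace ℝ K] [NormedAddCommGroup L]
    [InnerProductSpace ℝ L] (T : K →ₗ[ℝ] L) : Seminorm ℝ K :=
  (normSeminorm ℝ L).comp T

lemma ZEL_sn_apply {K L : Type} [NormedAddCommGroup K] [InnerProductSpace ℝ K]
    [NormedAddCommGroup L] [InnerProductSpace ℝ L] (T : K →ₗ[ℝ] L) (u : K) :
    ZEL_sn T u = ‖T u‖ := rfl

variable {N : Type} [Group N] {φ : Multiplicative ℤ →* MulAut N}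

lemma ZEL_phi (j : ℤ) (x : N) :
    φ (Multiplicative.ofAdd j) (φ (Multiplicative.ofAdd (-j)) x) = x := by
  rw [← MulAut.mul_apply, ← map_mul, ← ofAdd_add, add_neg_cancel, ofAdd_zero, map_one]
  rfl

lemma ZEL_dense : Dense (Submodule.span ℝ
    {f : L2 ℤ E | ∃ (i : ℤ) (u : E), f = lp.single 2 i u} : Set (L2 ℤ E)) := by
  intro f
  have h : HasSum (fun i => (lp.single 2 i (f i) : L2 ℤ E)) f :=
    lp.hasSum_single (by norm_num) f
  refine mem_closure_of_tendsto h (Filter.Eventually.of_forall fun s => ?_)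
  exact Submodule.sum_mem _ fun i _ => Submodule.subset_span ⟨i, f i, rfl⟩

lemma ZEL_dec1 (π : N →* (E ≃ₗᵢ[ℝ] E))
    (R : (N ⋊[φ] Multiplicative ℤ) →* (L2 ℤ E ≃ₗᵢ[ℝ] L2 ℤ E)) (hR : ZR φ π R) (c : N)
    {I : Type} (a : ℕ → ℝ) (n : ℕ) (C : ℕ → E →L[ℝ] L2 (ℤ × I) ℝ) (ha : ∀ j, |a j| ≤ 1)
    (hC : ∀ j < n, Op π (φ (Multiplicative.ofAdd (-(j : ℤ))) c) (C j)) (i : ℤ) (u : E)
    (δ : ℝ) (hδ : 0 < δ) :
    ∃ T : Finset (N ⋊[φ] Multiplicative ℤ), ∀ g : N ⋊[φ] Multiplicative ℤ,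
      δ ≤ ‖ZEL_C a n C (R g (lp.single 2 i u : L2 ℤ E))‖ →
      ∃ m : ℤ, ∃ x ∈ T, g = (⟨c, 1⟩ : N ⋊[φ] Multiplicative ℤ) ^ m * x := by
  classical
  have h0 : ∀ j : ℕ, ∃ T : Finset N, j < n → ∀ g : N, δ ≤ ‖C j (π g u)‖ →
      ∃ m : ℤ, ∃ x ∈ T, g = (φ (Multiplicative.ofAdd (-(j : ℤ))) c) ^ m * x := by
    intro j
    by_cases hj : j < n
    · obtain ⟨T, hT⟩ := (hC j hj).dec u δ hδ
      exact ⟨T, fun _ => hT⟩
    · exact ⟨∅, fun h => absurd h hj⟩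
  choose T hT using h0
  refine ⟨(Finset.range n).biUnion (fun j => (T j).image (fun x =>
    (⟨φ (Multiplicative.ofAdd (j : ℤ)) x, Multiplicative.ofAdd ((j : ℤ) - i)⟩ :
      N ⋊[φ] Multiplicative ℤ))), ?_⟩
  have main : ∀ (x : N) (k : ℤ),
      δ ≤ ‖ZEL_C a n C (R ⟨x, Multiplicative.ofAdd k⟩ (lp.single 2 i u : L2 ℤ E))‖ →
      ∃ m : ℤ, ∃ y ∈ (Finset.range n).biUnion (fun j => (T j).image (fun x =>
        (⟨φ (Multiplicative.ofAdd (j : ℤ)) x, Multiplicative.ofAdd ((j : ℤ) - i)⟩ :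
          N ⋊[φ] Multiplicative ℤ))),
        (⟨x, Multiplicative.ofAdd k⟩ : N ⋊[φ] Multiplicative ℤ) =
          (⟨c, 1⟩ : N ⋊[φ] Multiplicative ℤ) ^ m * y := by
    intro x k hg
    have hterm : ∀ j : ℕ, (j : ℤ) - k ≠ i →
        (R ⟨x, Multiplicative.ofAdd k⟩ (lp.single 2 i u : L2 ℤ E)) (j : ℤ) = 0 := by
      intro j hj
      rw [hR, lp.single_apply_ne _ _ _ hj, map_zero]
    rw [ZEL_C_apply] at hg
    by_cases hex : ∃ j ∈ Finset.range n, (j : ℤ) - k = i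
    · obtain ⟨j, hj, hjk⟩ := hex
      have hs : ∑ j' ∈ Finset.range n, a j' •
          C j' ((R ⟨x, Multiplicative.ofAdd k⟩ (lp.single 2 i u : L2 ℤ E)) (j' : ℤ)) =
          a j • C j (π (φ (Multiplicative.ofAdd (-(j : ℤ))) x) u) := by
        rw [Finset.sum_eq_single_of_mem j hj]
        · rw [hR, hjk, lp.single_apply_self]
        · intro j' _ hne
          rw [hterm j', map_zero, smul_zero]
          intro h
          apply hne
          have : (j' : ℤ) = (j : ℤ) := by linarith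
          exact_mod_cast this
      rw [hs, norm_smul, Real.norm_eq_abs] at hg
      have h1 : δ ≤ ‖C j (π (φ (Multiplicative.ofAdd (-(j : ℤ))) x) u)‖ := by
        refine hg.trans ?_
        calc |a j| * ‖C j (π (φ (Multiplicative.ofAdd (-(j : ℤ))) x) u)‖ ≤
            1 * ‖C j (π (φ (Multiplicative.ofAdd (-(j : ℤ))) x) u)‖ :=
              mul_le_mul_of_nonneg_right (ha j) (norm_nonneg _)
          _ = _ := one_mul _
      obtain ⟨m, y, hy, hxy⟩ := hT j (Finset.mem_range.1 hj) _ h1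
      refine ⟨m, ⟨φ (Multiplicative.ofAdd (j : ℤ)) y, Multiplicative.ofAdd ((j : ℤ) - i)⟩,
        ?_, ?_⟩
      · rw [Finset.mem_biUnion]
        exact ⟨j, hj, Finset.mem_image_of_mem _ hy⟩
      · have h2 : x = c ^ m * φ (Multiplicative.ofAdd (j : ℤ)) y := by
          have h3 := congrArg (φ (Multiplicative.ofAdd (j : ℤ))) hxy
          rw [ZEL_phi, map_mul, map_zpow, ZEL_phi] at h3
          exact h3
        have h4 : (⟨c, 1⟩ : N ⋊[φ] Multiplicative ℤ) ^ m = ⟨c ^ m, 1⟩ := by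
          have h5 := map_zpow (SemidirectProduct.inl : N →* N ⋊[φ] Multiplicative ℤ) c m
          exact h5.symm
        rw [h4]
        have h6 : k = (j : ℤ) - i := by linarith
        apply SemidirectProduct.ext
        · rw [SemidirectProduct.mul_left]
          show x = c ^ m * φ 1 (φ (Multiplicative.ofAdd (j : ℤ)) y)
          rw [map_one]
          exact h2
        · rw [SemidirectProduct.mul_right]
          show Multiplicative.ofAdd k = 1 * Multiplicative.ofAdd ((j : ℤ) - i)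
          rw [one_mul, h6]
    · exfalso
      have hs : ∑ j' ∈ Finset.range n, a j' •
          C j' ((R ⟨x, Multiplicative.ofAdd k⟩ (lp.single 2 i u : L2 ℤ E)) (j' : ℤ)) = 0 := by
        refine Finset.sum_eq_zero fun j' hj' => ?_
        rw [hterm j' (fun h => hex ⟨j', hj', h⟩), map_zero, smul_zero]
      rw [hs, norm_zero] at hg
      linarith
  intro g hg
  exact main g.left (Multiplicative.toAdd g.right) hg

lemma ZEL_dec (π : N →* (E ≃ₗᵢ[ℝ] E))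
    (R : (N ⋊[φ] Multiplicative ℤ) →* (L2 ℤ E ≃ₗᵢ[ℝ] L2 ℤ E)) (hR : ZR φ π R) (c : N)
    {I : Type} (a : ℕ → ℝ) (n : ℕ) (C : ℕ → E →L[ℝ] L2 (ℤ × I) ℝ) (ha : ∀ j, |a j| ≤ 1)
    (ha2 : ∑ j ∈ Finset.range n, a j ^ 2 ≤ 1)
    (hC : ∀ j < n, Op π (φ (Multiplicative.ofAdd (-(j : ℤ))) c) (C j)) (f : L2 ℤ E)
    (δ : ℝ) (hδ : 0 < δ) :
    ∃ T : Finset (N ⋊[φ] Multiplicative ℤ), ∀ g : N ⋊[φ] Multiplicative ℤ,
      δ ≤ ‖ZEL_C a n C (R g f)‖ →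
      ∃ m : ℤ, ∃ x ∈ T, g = (⟨c, 1⟩ : N ⋊[φ] Multiplicative ℤ) ^ m * x := by
  classical
  obtain ⟨F, hF⟩ : ∃ F : (N ⋊[φ] Multiplicative ℤ) → Seminorm ℝ (L2 ℤ E),
      ∀ g u, F g u = ‖ZEL_C a n C (R g u)‖ :=
    ⟨fun g => ZEL_sn ((ZEL_C a n C).toLinearMap.comp (R g).toLinearEquiv.toLinearMap),
      fun g u => rfl⟩
  have hb : ∀ (g : N ⋊[φ] Multiplicative ℤ) (u : L2 ℤ E), F g u ≤ 1 * ‖u‖ := by
    intro g u
    rw [hF, one_mul]
    have h1 := ZEL_norm a n C ha2 (fun j hj => (hC j hj).norm) (R g u)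
    rw [(R g).norm_map] at h1
    exact h1
  obtain ⟨small, hsm⟩ : ∃ small : Set (N ⋊[φ] Multiplicative ℤ) → Prop, ∀ s, small s ↔
      ∃ T : Finset (N ⋊[φ] Multiplicative ℤ), ∀ g ∈ s,
      ∃ m : ℤ, ∃ x ∈ T, g = (⟨c, 1⟩ : N ⋊[φ] Multiplicative ℤ) ^ m * x := ⟨_, fun s => Iff.rfl⟩
  have h1 : small ∅ := by
    rw [hsm]
    exact ⟨∅, fun g hg => absurd hg (Set.notMem_empty g)⟩
  have h2 : ∀ s t, s ⊆ t → small t → small s := by
    intro s t hst ht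
    rw [hsm] at ht ⊢
    obtain ⟨T, hT⟩ := ht
    exact ⟨T, fun g hg => hT g (hst hg)⟩
  have h3 : ∀ s t, small s → small t → small (s ∪ t) := by
    intro s t hs ht
    rw [hsm] at hs ht ⊢
    obtain ⟨T, hT⟩ := hs
    obtain ⟨T', hT'⟩ := ht
    refine ⟨T ∪ T', fun g hg => ?_⟩
    rcases hg with hg | hg
    · obtain ⟨m, x, hx, h⟩ := hT g hg
      exact ⟨m, x, Finset.mem_union_left _ hx, h⟩
    · obtain ⟨m, x, hx, h⟩ := hT' g hg
      exact ⟨m, x, Finset.mem_union_right _ hx, h⟩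
  have h4 : ∀ u ∈ {f : L2 ℤ E | ∃ (i : ℤ) (u : E), f = lp.single 2 i u}, ∀ δ : ℝ, 0 < δ →
      small {h | δ ≤ F h u} := by
    rintro f ⟨i, u, rfl⟩ δ' hδ'
    obtain ⟨T, hT⟩ := ZEL_dec1 π R hR c a n C ha hC i u δ' hδ'
    rw [hsm]
    refine ⟨T, fun g hg => hT g ?_⟩
    have h5 : δ' ≤ F g (lp.single 2 i u : L2 ℤ E) := hg
    rw [hF] at h5
    exact h5
  have key := kDEN (N ⋊[φ] Multiplicative ℤ) (L2 ℤ E) _ ZEL_dense F 1 hb small h1 h2 h3 h4 f δ hδ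
  rw [hsm] at key
  obtain ⟨T, hT⟩ := key
  refine ⟨T, fun g hg => hT g ?_⟩
  show δ ≤ F g f
  rw [hF]
  exact hg

end zel

lemma ZEL_geo (r : ℝ) (hr : 0 < r) (hr' : r < 1) (n : ℕ) :
    ∑ j ∈ Finset.range n, (Real.sqrt (1 - r ^ 2) * r ^ j) ^ 2 = 1 - r ^ (2 * n) := by
  have h0 : 0 ≤ 1 - r ^ 2 := by nlinarith
  induction n with
  | zero => simp
  | succ n ih =>
    rw [Finset.sum_range_succ, ih, mul_pow, Real.sq_sqrt h0]
    ring

theorem p_ZEL (hZV : T_ZV) : T_ZEL := by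
  intro N _ φ c ρ1 ε hρ hε
  have hρ1 : max ρ1 0 < 1 := max_lt hρ one_pos
  obtain ⟨n, hn⟩ := exists_pow_lt_of_lt_one (half_pos hε) hρ1
  refine ⟨n, ε / 2, half_pos hε, ?_⟩
  intro E _ _ _ π R hR ξ r hξ hr hr1 I M hM hL
  have hr' : r < 1 := hr1.trans_lt hρ
  obtain ⟨hz1, -, -⟩ := hZV r hr hr'
  have hz : ∀ j : ℕ, zv r (j : ℤ) = Real.sqrt (1 - r ^ 2) * r ^ j := by
    intro j
    rw [hz1, if_pos (Int.natCast_nonneg j), Int.toNat_natCast]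
  have h0 : ∀ j : ℕ, ∃ C : E →L[ℝ] L2 (ℤ × I) ℝ, j < n →
      Op π (φ (Multiplicative.ofAdd (-(j : ℤ))) c) C ∧ ‖C ξ - M‖ ≤ ε / 2 := by
    intro j
    by_cases hj : j < n
    · obtain ⟨C, hC⟩ := hL j hj
      exact ⟨C, fun _ => hC⟩
    · exact ⟨0, fun h => absurd h hj⟩
  choose C hC using h0
  have hsum : ∑ j ∈ Finset.range n, zv r (j : ℤ) ^ 2 = 1 - r ^ (2 * n) := by
    rw [← ZEL_geo r hr hr' n]
    exact Finset.sum_congr rfl fun j _ => by rw [hz j]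
  have hr2 : 0 < r ^ (2 * n) := pow_pos hr _
  have hle : ∑ j ∈ Finset.range n, zv r (j : ℤ) ^ 2 ≤ 1 := by
    rw [hsum]
    linarith
  have ha1 : ∀ j : ℕ, |zv r (j : ℤ)| ≤ 1 := by
    intro j
    rw [hz j, abs_of_nonneg (mul_nonneg (Real.sqrt_nonneg _) (pow_nonneg hr.le _))]
    have h1 : Real.sqrt (1 - r ^ 2) ≤ 1 := by
      refine Real.sqrt_le_iff.2 ⟨zero_le_one, ?_⟩
      nlinarith [sq_nonneg r]
    calc Real.sqrt (1 - r ^ 2) * r ^ j ≤ 1 * 1 :=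
          mul_le_mul h1 (pow_le_one₀ hr.le hr'.le) (pow_nonneg hr.le _) zero_le_one
      _ = 1 := one_mul 1
  refine ⟨ZEL_C (fun j : ℕ => zv r (j : ℤ)) n C, ⟨?_, ?_, ?_⟩, ?_⟩
  · refine ContinuousLinearMap.opNorm_le_bound _ zero_le_one fun f => ?_
    rw [one_mul]
    exact ZEL_norm _ n C hle (fun j hj => (hC j hj).1.norm) f
  · intro f
    rw [ZEL_C_apply, ZEL_C_apply, map_sum]
    refine Finset.sum_congr rfl fun j hj => ?_
    have h1 : (R ⟨c, 1⟩ f) (j : ℤ) = π (φ (Multiplicative.ofAdd (-(j : ℤ))) c) (f (j : ℤ)) := by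
      have h2 := hR c 0 f (j : ℤ)
      rw [sub_zero] at h2
      exact h2
    rw [h1, (hC j (Finset.mem_range.1 hj)).1.comm, map_smul]
  · intro f δ hδ
    exact ZEL_dec π R hR c _ n C ha1 hle (fun j hj => (hC j hj).1) f δ hδ
  · rw [ZEL_C_apply]
    have h1 : ∑ j ∈ Finset.range n, zv r (j : ℤ) • C j (tens (zv r) ξ (j : ℤ)) - M =
        ∑ j ∈ Finset.range n, (zv r (j : ℤ) ^ 2) • (C j ξ - M) - r ^ (2 * n) • M := by
      have h2 : ∑ j ∈ Finset.range n, (zv r (j : ℤ) ^ 2) • (C j ξ - M) =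
          ∑ j ∈ Finset.range n, zv r (j : ℤ) • C j (tens (zv r) ξ (j : ℤ)) -
            (1 - r ^ (2 * n)) • M := by
        rw [← hsum, Finset.sum_smul, ← Finset.sum_sub_distrib]
        refine Finset.sum_congr rfl fun j _ => ?_
        rw [tens_apply, map_smul, smul_smul, ← sq, smul_sub]
      rw [h2, sub_smul, one_smul]
      abel
    rw [h1]
    have h3 : ‖∑ j ∈ Finset.range n, (zv r (j : ℤ) ^ 2) • (C j ξ - M)‖ ≤ ε / 2 := by
      calc ‖∑ j ∈ Finset.range n, (zv r (j : ℤ) ^ 2) • (C j ξ - M)‖ ≤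
          ∑ j ∈ Finset.range n, zv r (j : ℤ) ^ 2 * (ε / 2) := by
            refine (norm_sum_le _ _).trans (Finset.sum_le_sum fun j hj => ?_)
            rw [norm_smul, Real.norm_eq_abs, abs_of_nonneg (sq_nonneg _)]
            exact mul_le_mul_of_nonneg_left (hC j (Finset.mem_range.1 hj)).2 (sq_nonneg _)
        _ = (∑ j ∈ Finset.range n, zv r (j : ℤ) ^ 2) * (ε / 2) := by rw [Finset.sum_mul]
        _ ≤ 1 * (ε / 2) := mul_le_mul_of_nonneg_right hle (half_pos hε).le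
        _ = ε / 2 := one_mul _
    have h4 : ‖r ^ (2 * n) • M‖ ≤ ε / 2 := by
      rw [norm_smul, Real.norm_eq_abs, abs_of_pos hr2]
      have h5 : r ^ (2 * n) ≤ (max ρ1 0) ^ n := by
        calc r ^ (2 * n) ≤ r ^ n :=
              pow_le_pow_of_le_one hr.le hr'.le (by omega)
          _ ≤ (max ρ1 0) ^ n := pow_le_pow_left₀ hr.le (hr1.trans (le_max_left _ _)) n
      calc r ^ (2 * n) * ‖M‖ ≤ (max ρ1 0) ^ n * 1 :=
            mul_le_mul h5 hM (norm_nonneg _) (hr2.le.trans h5)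
        _ ≤ ε / 2 := by rw [mul_one]; exact hn.le
    calc _ ≤ _ := norm_sub_le _ _
      _ ≤ ε / 2 + ε / 2 := add_le_add h3 h4
      _ = ε := by ring

end

end HGQ
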