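import Pool.Agent.HGP2.Targets

/-!
# T_ZHY: elements outside the normal subgroup
-/

open scoped InnerProductSpace ENNReal
open HGP HNNExtension HNNExtension.NormalWord

namespace HGQ

noncomputable section

section ZHY

open Classical in
/-- the vectors supported at one point span a dense subspace -/
theorem ZHY_dense (E : Type) [NormedAddCommGroup E] [InnerProductSpace ℝ E] :
    Dense (Submodule.span ℝ {y : L2 ℤ E | ∃ (i : ℤ) (u : E), y = lp.single 2 i u} :
      Set (L2 ℤ E)) := by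
  intro f
  have h := lp.hasSum_single (E := fun _ : ℤ => E) (p := 2) (by norm_num) f
  refine mem_closure_of_tendsto h (Filter.Eventually.of_forall fun s => ?_)
  exact Submodule.sum_mem _ fun i _ => Submodule.subset_span ⟨i, f i, rfl⟩

/-- a vector with support in a set, applied to a vector with disjoint support -/
theorem ZHY_inner {E : Type} [NormedAddCommGroup E] [InnerProductSpace ℝ E] (f g : L2 ℤ E)
    (h : ∀ j, f j = 0 ∨ g j = 0) : ⟪f, g⟫_ℝ = 0 := by
  rw [lp.inner_eq_tsum]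
  refine (tsum_congr fun j => ?_).trans tsum_zero
  rcases h j with h | h <;> simp [h]

theorem ZHY_sum (a b c : ℝ) (hb : 0 < b) :
    Summable fun m : ℤ => if (|(m : ℝ)| * b - 1) / 2 ≤ a then c else 0 := by
  apply summable_of_finite_support
  refine (Set.finite_Icc (-(⌈(2 * a + 1) / b⌉)) (⌈(2 * a + 1) / b⌉)).subset fun m hm => ?_
  rw [Function.mem_support] at hm
  have h1 : (|(m : ℝ)| * b - 1) / 2 ≤ a := by
    by_contra h
    exact hm (if_neg h)
  have h2 : |(m : ℝ)| ≤ (2 * a + 1) / b := by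
    rw [le_div_iff₀ hb]
    linarith
  have h3 : |(m : ℝ)| ≤ ((⌈(2 * a + 1) / b⌉ : ℤ) : ℝ) := h2.trans (Int.le_ceil _)
  have h4 : |m| ≤ ⌈(2 * a + 1) / b⌉ := by exact_mod_cast h3
  exact abs_le.1 h4

end ZHY

theorem p_ZHY (hHYA : T_HYA) (hDHY : T_DHY) (hZV : T_ZV) (hZI1 : T_ZI1) : T_ZHY := by
  intro N _ φ E _ _ _ π R hR hC0 ξ r n k hξ hr0 hr1 hk
  classical
  obtain ⟨hzv, -, -⟩ := hZV r hr0 hr1
  obtain ⟨hx1, -⟩ := hZI1 N φ E π R hR ξ r hξ hr0 hr1
  obtain ⟨x, hx⟩ : ∃ x, x = tens (zv r) ξ := ⟨_, rfl⟩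
  rw [← hx] at hx1 ⊢
  have hxj : ∀ j, x j = zv r j • ξ := fun j => by rw [hx, tens_apply]
  obtain ⟨g, hg⟩ : ∃ g : N ⋊[φ] Multiplicative ℤ, g = ⟨n, Multiplicative.ofAdd (k : ℤ)⟩ :=
    ⟨_, rfl⟩
  rw [← hg]
  obtain ⟨D, hD⟩ : ∃ D, D = R ⟨1, Multiplicative.ofAdd (-(k : ℤ))⟩ x - r ^ k • x := ⟨_, rfl⟩
  have hDj : ∀ j, D j = zv r (j + k) • ξ - r ^ k • zv r j • ξ := by
    intro j
    have h1 : D j = R ⟨1, Multiplicative.ofAdd (-(k : ℤ))⟩ x j - r ^ k • x j := by
      rw [hD]; rfl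
    rw [h1, hR, hxj, hxj, map_one, map_one]
    simp
  have hD0 : ∀ j : ℤ, 0 ≤ j → D j = 0 := by
    intro j hj
    rw [hDj, hzv, hzv, if_pos hj, if_pos (by positivity)]
    have h1 : (j + (k : ℤ)).toNat = j.toNat + k := by omega
    rw [h1, pow_add, smul_smul, ← sub_smul]
    have h2 : Real.sqrt (1 - r ^ 2) * (r ^ j.toNat * r ^ k) -
        r ^ k * (Real.sqrt (1 - r ^ 2) * r ^ j.toNat) = 0 := by ring
    rw [h2, zero_smul]
  have hD1 : ∀ j : ℤ, j < -k → D j = 0 := by
    intro j hj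
    rw [hDj, hzv, hzv, if_neg (by omega), if_neg (by omega)]
    simp
  have hDs : ∀ j : ℤ, D j ≠ 0 → -(k : ℤ) ≤ j ∧ j < 0 := by
    intro j hj
    constructor
    · by_contra h
      exact hj (hD1 j (by omega))
    · by_contra h
      exact hj (hD0 j (by omega))
  have hRj : ∀ (z : N ⋊[φ] Multiplicative ℤ) (f : L2 ℤ E) (j : ℤ),
      R z f j = π (φ (Multiplicative.ofAdd (-j)) z.left)
        (f (j - Multiplicative.toAdd z.right)) := by
    intro z f j
    exact hR z.left (Multiplicative.toAdd z.right) f j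
  have hgr : ∀ m : ℤ, Multiplicative.toAdd (g ^ m).right = m * k := by
    intro m
    have h1 : (g ^ m).right = g.right ^ m := map_zpow (SemidirectProduct.rightHom) g m
    rw [h1, toAdd_zpow, hg]
    simp
  have hUm : ∀ m : ℤ, m ≠ 0 → ⟪((R g) ^ m) D, D⟫_ℝ = 0 := by
    intro m hm
    rw [← map_zpow]
    apply ZHY_inner
    intro j
    by_contra hcon
    push_neg at hcon
    obtain ⟨h1, h2⟩ := hcon
    obtain ⟨h3, h4⟩ := hDs j h2
    have h5 : D (j - m * k) ≠ 0 := by
      intro h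
      apply h1
      rw [hRj, hgr, h, map_zero]
    obtain ⟨h6, h7⟩ := hDs _ h5
    rcases lt_or_gt_of_ne hm with h8 | h8
    · have : m * (k : ℤ) ≤ -1 * k := mul_le_mul_of_nonneg_right (by omega) (by positivity)
      omega
    · have : 1 * (k : ℤ) ≤ m * k := mul_le_mul_of_nonneg_right (by omega) (by positivity)
      omega
  have hUD : R g D = x - r ^ k • R g x + (R ⟨n, 1⟩ x - x) := by
    have h1 : R g (R ⟨1, Multiplicative.ofAdd (-(k : ℤ))⟩ x) = R ⟨n, 1⟩ x := by
      have h2 : R g (R ⟨1, Multiplicative.ofAdd (-(k : ℤ))⟩ x) =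
          R (g * ⟨1, Multiplicative.ofAdd (-(k : ℤ))⟩) x := by
        rw [map_mul]; rfl
      rw [h2, hg]
      congr 2
      ext
      · simp
      · simp
    rw [hD, map_sub, h1, map_smul]
    abel
  have hρ0 : 0 < r ^ k := pow_pos hr0 k
  have hρ1 : r ^ k < 1 := pow_lt_one₀ hr0.le hr1 (by omega)
  obtain ⟨C, hC1, hC2, hC3, hC4⟩ := hHYA (L2 ℤ E) (R g) x D (R ⟨n, 1⟩ x - x) (r ^ k) hρ0 hρ1 hx1
    hUD hUm
  refine ⟨C, ⟨hC1, hC3, ?_⟩, hC4⟩
  refine hDHY _ (L2 ℤ E) R g (‖D‖⁻¹ • D) (fun z => |((Multiplicative.toAdd z.right : ℤ) : ℝ)|)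
    {y : L2 ℤ E | ∃ (i : ℤ) (u : E), y = lp.single 2 i u} hC0 ?_ ?_ (ZHY_dense E) ?_ C hC1 ?_
  · intro y z
    have : Multiplicative.toAdd (y * z).right =
        Multiplicative.toAdd y.right + Multiplicative.toAdd z.right := by simp
    simp only [this, Int.cast_add]
    exact abs_add_le _ _
  · intro y
    have : Multiplicative.toAdd (y⁻¹).right = -Multiplicative.toAdd y.right := by simp
    simp only [this, Int.cast_neg, abs_neg]
  · rintro u ⟨i, u0, rfl⟩
    obtain ⟨u, hu⟩ : ∃ u : L2 ℤ E, u = lp.single 2 i u0 := ⟨_, rfl⟩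
    rw [← hu]
    refine ⟨fun s => if s ≤ |(i : ℝ)| + k then (‖u‖ * ‖‖D‖⁻¹ • D‖) ^ 2 else 0, ?_, ?_, ?_⟩
    · intro s s' hs
      dsimp only
      split_ifs with h1 h2
      · exact le_rfl
      · exact absurd (hs.trans h1) h2
      · positivity
      · exact le_rfl
    · intro z
      dsimp only
      by_cases hz : |((Multiplicative.toAdd z.right : ℤ) : ℝ)| ≤ |(i : ℝ)| + k
      · rw [if_pos hz]
        have h1 := abs_real_inner_le_norm (R z u) (‖D‖⁻¹ • D)
        rw [LinearIsometryEquiv.norm_map] at h1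
        calc ⟪R z u, ‖D‖⁻¹ • D⟫_ℝ ^ 2 = |⟪R z u, ‖D‖⁻¹ • D⟫_ℝ| ^ 2 := (sq_abs _).symm
          _ ≤ _ := pow_le_pow_left₀ (abs_nonneg _) h1 2
      · rw [if_neg hz]
        have h0 : ⟪R z u, ‖D‖⁻¹ • D⟫_ℝ = 0 := by
          apply ZHY_inner
          intro j
          by_contra hcon
          push_neg at hcon
          obtain ⟨h1, h2⟩ := hcon
          have h3 : D j ≠ 0 := by
            intro h
            apply h2
            rw [lp.coeFn_smul, Pi.smul_apply, h, smul_zero]
          obtain ⟨h4, h5⟩ := hDs j h3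
          have h6 : j - Multiplicative.toAdd z.right = i := by
            by_contra h7
            apply h1
            rw [hRj, hu, lp.single_apply_ne _ _ _ h7, map_zero]
          apply hz
          have h8 : |Multiplicative.toAdd z.right| ≤ |i| + k := by
            have h9 : Multiplicative.toAdd z.right = j - i := by omega
            rw [h9]
            have h10 := abs_sub j i
            have h11 : |j| ≤ k := abs_le.2 ⟨by omega, by omega⟩
            linarith
          exact_mod_cast h8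
        rw [h0]
        norm_num
    · have h1 := ZHY_sum (|(i : ℝ)| + k) k ((‖u‖ * ‖‖D‖⁻¹ • D‖) ^ 2) (by positivity)
      refine h1.congr fun m => ?_
      simp only [hgr]
      push_cast
      rw [abs_mul, Nat.abs_cast]
  · intro y m
    rw [hC2, ← map_zpow]

end

end HGQ
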