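import Pool.Agent.HGP2.Targets

open scoped InnerProductSpace ENNReal
open HGP HNNExtension HNNExtension.NormalWord

namespace HGQ

noncomputable section

lemma ZI1_sum (hZV : T_ZV) (r : ℝ) (h0 : 0 < r) (h1 : r < 1) (k : ℤ) :
    ∑' j : ℤ, zv r (j - k) * zv r j = r ^ k.natAbs := by
  obtain ⟨m, hm | hm⟩ := k.eq_nat_or_neg
  · subst hm
    simpa using (hZV r h0 h1).2.2 m
  · subst hm
    rw [Int.natAbs_neg, Int.natAbs_natCast, ← (hZV r h0 h1).2.2 m,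
      ← (Equiv.subRight (m : ℤ)).tsum_eq (fun j : ℤ => zv r (j - -(m : ℤ)) * zv r j)]
    refine tsum_congr fun j => ?_
    simp only [Equiv.subRight_apply]
    rw [show j - (m : ℤ) - -(m : ℤ) = j by ring, mul_comm]

lemma ZI1_inner {E : Type} [NormedAddCommGroup E] [InnerProductSpace ℝ E] (f g : L2 ℤ E) :
    ⟪f, g⟫_ℝ = ∑' j, ⟪f j, g j⟫_ℝ := lp.inner_eq_tsum f g

theorem p_ZI1 (hZV : T_ZV) : T_ZI1 := by
  intro N _ φ E _ _ π R hR ξ r hξ h0 h1
  have hx : ‖tens (zv r) ξ‖ = 1 := by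
    rw [norm_tens, (hZV r h0 h1).2.1, hξ, one_mul]
  refine ⟨hx, fun k => ?_⟩
  rw [norm_sub_sq_real, LinearIsometryEquiv.norm_map, hx, ZI1_inner]
  have h2 : ∀ j : ℤ, ⟪R ⟨1, Multiplicative.ofAdd k⟩ (tens (zv r) ξ) j, tens (zv r) ξ j⟫_ℝ =
      zv r (j - k) * zv r j := by
    intro j
    rw [hR]
    simp only [map_one, tens_apply]
    rw [show (1 : E ≃ₗᵢ[ℝ] E) (zv r (j - k) • ξ) = zv r (j - k) • ξ from rfl]
    rw [real_inner_smul_left, real_inner_smul_right, real_inner_self_eq_norm_sq, hξ]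
    ring
  rw [tsum_congr h2, ZI1_sum hZV r h0 h1 k]
  ring

end

end HGQ
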