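import Pool.Agent.HGP2.Targets

/-!
# HGP2: invariance under the normal subgroup
-/

open scoped InnerProductSpace ENNReal
open HGP HNNExtension HNNExtension.NormalWord

namespace HGQ

noncomputable section

lemma ZI2_le2 {E : Type} [NormedAddCommGroup E] [InnerProductSpace ℝ E] (T : E ≃ₗᵢ[ℝ] E) (ξ : E)
    (h : ‖ξ‖ = 1) : ‖T ξ - ξ‖ ^ 2 ≤ 4 := by
  have h1 : ‖T ξ - ξ‖ ≤ 2 := by
    refine (norm_sub_le _ _).trans ?_
    rw [LinearIsometryEquiv.norm_map, h]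
    norm_num
  nlinarith [norm_nonneg (T ξ - ξ)]

lemma ZI2_pt (hZV : T_ZV) (r : ℝ) (h0 : 0 < r) (h1 : r < 1) (N₀ : ℕ) (j : ℤ) (x δ : ℝ)
    (hx0 : 0 ≤ x) (hx : x ≤ 4) (hx2 : 0 ≤ j → j < N₀ → x ≤ δ) (hδ : 0 ≤ δ) :
    (zv r j) ^ 2 * x ≤ δ * (zv r j) ^ 2 + 4 * r ^ N₀ * (zv r (j - N₀) * zv r j) := by
  have hz := (hZV r h0 h1).1
  rcases lt_or_ge j 0 with hj | hj
  · have e : zv r j = 0 := by rw [hz, if_neg (by omega)]
    rw [e]
    simp
  · rcases lt_or_ge j N₀ with hj2 | hj2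
    · have e : zv r (j - N₀) = 0 := by rw [hz, if_neg (by omega)]
      rw [e]
      have := hx2 hj hj2
      nlinarith [sq_nonneg (zv r j)]
    · have e1 : zv r j = Real.sqrt (1 - r ^ 2) * r ^ j.toNat := by rw [hz, if_pos hj]
      have e2 : zv r (j - N₀) = Real.sqrt (1 - r ^ 2) * r ^ (j - N₀).toNat := by
        rw [hz, if_pos (by omega)]
      have e3 : r ^ j.toNat = r ^ N₀ * r ^ (j - N₀).toNat := by
        rw [← pow_add]
        congr 1
        omega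
      have e4 : zv r j = r ^ N₀ * zv r (j - N₀) := by rw [e1, e2, e3]; ring
      have e5 : 4 * r ^ N₀ * (zv r (j - N₀) * zv r j) = 4 * (zv r j) ^ 2 := by
        calc 4 * r ^ N₀ * (zv r (j - N₀) * zv r j)
            = 4 * (r ^ N₀ * zv r (j - N₀)) * zv r j := by ring
          _ = 4 * (zv r j) ^ 2 := by rw [← e4]; ring
      rw [e5]
      nlinarith [sq_nonneg (zv r j), mul_nonneg hδ (sq_nonneg (zv r j))]

theorem p_ZI2 (hZV : T_ZV) : T_ZI2 := by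
  classical
  intro N _ φ F ρ1 ε hρ1 hε
  obtain ⟨N₀, hN₀⟩ := exists_pow_lt_of_lt_one (show (0 : ℝ) < ε / 4 by positivity)
    (show max ρ1 0 < 1 from max_lt hρ1 one_pos)
  refine ⟨(Finset.range N₀ ×ˢ F).image (fun p => φ (Multiplicative.ofAdd (-(p.1 : ℤ))) p.2),
    ε / 2, by positivity, ?_⟩
  intro E _ _ π R hR ξ r hξ h0 hr hS n hn
  have h1 : r < 1 := lt_of_le_of_lt hr hρ1
  obtain ⟨-, hz2, hz3⟩ := hZV r h0 h1
  have hco : ∀ j : ℤ, (R ⟨n, 1⟩ (tens (zv r) ξ) - tens (zv r) ξ) j =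
      zv r j • (π (φ (Multiplicative.ofAdd (-j)) n) ξ - ξ) := by
    intro j
    have h2 := hR n 0 (tens (zv r) ξ) j
    have h3 : R ⟨n, 1⟩ (tens (zv r) ξ) j =
        π (φ (Multiplicative.ofAdd (-j)) n) (tens (zv r) ξ (j - 0)) := h2
    rw [lp.coeFn_sub, Pi.sub_apply, h3, sub_zero, tens_apply, map_smul, smul_sub]
  have hsum1 : HasSum (fun j : ℤ => (zv r j) ^ 2) 1 := by
    have e := norm_sq_lp (zv r)
    have s := summable_sq_lp (zv r)
    simp only [Real.norm_eq_abs, sq_abs] at e s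
    rw [hz2, one_pow] at e
    rw [e]
    exact s.hasSum
  have hsum2 : HasSum (fun j : ℤ => zv r (j - N₀) * zv r j) (r ^ N₀) := by
    have e := hz3 N₀
    have s : Summable (fun j : ℤ => zv r (j - N₀) * zv r j) := by
      by_contra hs
      rw [tsum_eq_zero_of_not_summable hs] at e
      exact (pow_pos h0 N₀).ne e
    rw [← e]
    exact s.hasSum
  have hsum3 := (hsum1.mul_left ((ε / 2) ^ 2)).add (hsum2.mul_left (4 * r ^ N₀))
  have hbd : ‖R ⟨n, 1⟩ (tens (zv r) ξ) - tens (zv r) ξ‖ ^ 2 ≤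
      (ε / 2) ^ 2 * 1 + 4 * r ^ N₀ * r ^ N₀ := by
    rw [norm_sq_lp, ← hsum3.tsum_eq]
    refine (summable_sq_lp _).tsum_le_tsum (fun j => ?_) hsum3.summable
    rw [hco j, norm_smul, mul_pow, Real.norm_eq_abs, sq_abs]
    refine ZI2_pt hZV r h0 h1 N₀ j _ _ (sq_nonneg _) (ZI2_le2 _ ξ hξ) (fun hj hj2 => ?_)
      (sq_nonneg _)
    obtain ⟨k, rfl⟩ := Int.eq_ofNat_of_zero_le hj
    have h5 : φ (Multiplicative.ofAdd (-(k : ℤ))) n ∈ (Finset.range N₀ ×ˢ F).image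
        (fun p => φ (Multiplicative.ofAdd (-(p.1 : ℤ))) p.2) :=
      Finset.mem_image.2 ⟨(k, n), Finset.mem_product.2
        ⟨Finset.mem_range.2 (by exact_mod_cast hj2), hn⟩, rfl⟩
    exact pow_le_pow_left₀ (norm_nonneg _) (hS _ h5) 2
  have h6 : r ^ N₀ < ε / 4 :=
    lt_of_le_of_lt (pow_le_pow_left₀ h0.le (hr.trans (le_max_left _ _)) N₀) hN₀
  have h7 : 0 < r ^ N₀ := pow_pos h0 N₀
  refine (pow_le_pow_iff_left₀ (norm_nonneg _) hε.le two_ne_zero).1 ?_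
  nlinarith

end

end HGQ
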