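import Pool.Agent.HGP2.Targets

/-!
# HGP2: the induced representation of a semidirect product with the integers
-/

open scoped InnerProductSpace ENNReal
open HGP HNNExtension HNNExtension.NormalWord

namespace HGQ

noncomputable section

variable {N : Type} [Group N] (φ : Multiplicative ℤ →* MulAut N)
  {E : Type} [NormedAddCommGroup E] [InnerProductSpace ℝ E] (π : N →* (E ≃ₗᵢ[ℝ] E))

/-- the map of an element -/
def ZRP_map (x : N ⋊[φ] Multiplicative ℤ) (f : L2 ℤ E) : L2 ℤ E :=
  ⟨fun j => π (φ (Multiplicative.ofAdd (-j)) x.left) (f (j - Multiplicative.toAdd x.right)), by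
    show Memℓp _ 2
    rw [mem2]
    simp only [LinearIsometryEquiv.norm_map]
    exact (Equiv.subRight (Multiplicative.toAdd x.right)).summable_iff.2 (summable_sq_lp f)⟩

lemma ZRP_apply (x : N ⋊[φ] Multiplicative ℤ) (f : L2 ℤ E) (j : ℤ) :
    ZRP_map φ π x f j =
      π (φ (Multiplicative.ofAdd (-j)) x.left) (f (j - Multiplicative.toAdd x.right)) := rfl

lemma ZRP_norm (x : N ⋊[φ] Multiplicative ℤ) (f : L2 ℤ E) : ‖ZRP_map φ π x f‖ = ‖f‖ := by
  have h : ‖ZRP_map φ π x f‖ ^ 2 = ‖f‖ ^ 2 := by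
    rw [norm_sq_lp, norm_sq_lp]
    simp only [ZRP_apply, LinearIsometryEquiv.norm_map]
    exact (Equiv.subRight (Multiplicative.toAdd x.right)).tsum_eq (fun i => ‖f i‖ ^ 2)
  exact (pow_left_inj₀ (norm_nonneg _) (norm_nonneg _) two_ne_zero).1 h

lemma ZRP_mul (x y : N ⋊[φ] Multiplicative ℤ) (f : L2 ℤ E) :
    ZRP_map φ π (x * y) f = ZRP_map φ π x (ZRP_map φ π y f) := by
  ext j
  rw [ZRP_apply, ZRP_apply, ZRP_apply, SemidirectProduct.mul_left, SemidirectProduct.mul_right,
    map_mul, map_mul]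
  have h1 : φ (Multiplicative.ofAdd (-j)) (φ x.right y.left) =
      φ (Multiplicative.ofAdd (-(j - Multiplicative.toAdd x.right))) y.left := by
    have : Multiplicative.ofAdd (-(j - Multiplicative.toAdd x.right)) =
        Multiplicative.ofAdd (-j) * x.right := by
      rw [neg_sub, sub_eq_neg_add, ofAdd_add]
      rfl
    rw [this, map_mul]
    rfl
  have h2 : j - Multiplicative.toAdd (x.right * y.right) =
      j - Multiplicative.toAdd x.right - Multiplicative.toAdd y.right := by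
    rw [toAdd_mul]
    ring
  rw [h1, h2]
  rfl

lemma ZRP_one (f : L2 ℤ E) : ZRP_map φ π 1 f = f := by
  ext j
  rw [ZRP_apply, SemidirectProduct.one_left, SemidirectProduct.one_right, map_one, map_one,
    toAdd_one, sub_zero]
  rfl

/-- the isometry of an element -/
def ZRP_iso (x : N ⋊[φ] Multiplicative ℤ) : L2 ℤ E ≃ₗᵢ[ℝ] L2 ℤ E where
  toFun := ZRP_map φ π x
  invFun := ZRP_map φ π x⁻¹
  left_inv f := by rw [← ZRP_mul, inv_mul_cancel, ZRP_one]
  right_inv f := by rw [← ZRP_mul, mul_inv_cancel, ZRP_one]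
  map_add' f g := by
    ext j
    show π _ ((f + g) _) = π _ (f _) + π _ (g _)
    rw [← map_add]
    rfl
  map_smul' c f := by
    ext j
    show π _ ((c • f) _) = c • π _ (f _)
    rw [← map_smul]
    rfl
  norm_map' f := ZRP_norm φ π x f

/-- the representation -/
def ZRP_rep : (N ⋊[φ] Multiplicative ℤ) →* (L2 ℤ E ≃ₗᵢ[ℝ] L2 ℤ E) where
  toFun x := ZRP_iso φ π x
  map_one' := by
    ext1 f
    exact ZRP_one φ π f
  map_mul' x y := by
    ext1 f
    exact ZRP_mul φ π x y f

theorem p_ZRP : T_ZRP := by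
  intro N _ φ E _ _ π
  exact ⟨ZRP_rep φ π, fun n k f j => rfl⟩

end

end HGQ
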