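import Pool.Agent.HGP2.Targets

/-!
# HGP2: target ZV (the geometric family)
-/

open scoped InnerProductSpace ENNReal
open HGP

namespace HGQ

noncomputable section

/-- the values of the geometric family -/
def ZV_f (r : ℝ) (j : ℤ) : ℝ := if 0 ≤ j then Real.sqrt (1 - r ^ 2) * r ^ j.toNat else 0

lemma ZV_nat (r : ℝ) (i : ℕ) : ZV_f r (i : ℤ) = Real.sqrt (1 - r ^ 2) * r ^ i := by
  unfold ZV_f
  rw [if_pos (Int.natCast_nonneg i), Int.toNat_natCast]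

lemma ZV_neg (r : ℝ) {j : ℤ} (hj : j < 0) : ZV_f r j = 0 := by
  unfold ZV_f
  rw [if_neg (not_le.2 hj)]

lemma ZV_hasSum {r : ℝ} (h0 : 0 < r) (h1 : r < 1) (k : ℕ) :
    HasSum (fun j : ℤ => ZV_f r (j - k) * ZV_f r j) (r ^ k) := by
  have hr2 : r ^ 2 < 1 := by nlinarith
  have hinj : Function.Injective (fun i : ℕ => (k : ℤ) + i) := by
    intro a b h
    simpa using h
  have hz : ∀ x ∉ Set.range (fun i : ℕ => (k : ℤ) + i), ZV_f r (x - k) * ZV_f r x = 0 := by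
    intro x hx
    have hlt : x - k < 0 := by
      by_contra hcon
      apply hx
      refine ⟨(x - k).toNat, ?_⟩
      show (k : ℤ) + ((x - k).toNat : ℤ) = x
      rw [Int.toNat_of_nonneg (not_lt.1 hcon)]
      ring
    rw [ZV_neg r hlt, zero_mul]
  rw [← hinj.hasSum_iff hz]
  have hg := hasSum_geometric_of_lt_one (sq_nonneg r) hr2
  have h2 := hg.mul_left ((1 - r ^ 2) * r ^ k)
  have hne : (1 - r ^ 2) ≠ 0 := by linarith
  have h3 : (1 - r ^ 2) * r ^ k * (1 - r ^ 2)⁻¹ = r ^ k := by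
    field_simp
  rw [h3] at h2
  have h4 : (fun j : ℤ => ZV_f r (j - k) * ZV_f r j) ∘ (fun i : ℕ => (k : ℤ) + i) =
      fun i : ℕ => (1 - r ^ 2) * r ^ k * (r ^ 2) ^ i := by
    funext i
    show ZV_f r ((k : ℤ) + i - k) * ZV_f r ((k : ℤ) + i) = _
    have e1 : (k : ℤ) + i - k = (i : ℤ) := by ring
    have e2 : (k : ℤ) + i = ((k + i : ℕ) : ℤ) := by push_cast; ring
    rw [e1, e2, ZV_nat, ZV_nat]
    have hs : Real.sqrt (1 - r ^ 2) * Real.sqrt (1 - r ^ 2) = 1 - r ^ 2 :=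
      Real.mul_self_sqrt (by linarith)
    calc Real.sqrt (1 - r ^ 2) * r ^ i * (Real.sqrt (1 - r ^ 2) * r ^ (k + i)) =
        (Real.sqrt (1 - r ^ 2) * Real.sqrt (1 - r ^ 2)) * (r ^ i * r ^ (k + i)) := by ring
      _ = (1 - r ^ 2) * (r ^ i * r ^ (k + i)) := by rw [hs]
      _ = (1 - r ^ 2) * r ^ k * (r ^ 2) ^ i := by rw [← pow_mul, pow_add]; ring
  rw [h4]
  exact h2

lemma ZV_sum_sq {r : ℝ} (h0 : 0 < r) (h1 : r < 1) : HasSum (fun j : ℤ => ZV_f r j ^ 2) 1 := by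
  have h := ZV_hasSum h0 h1 0
  have e : (fun j : ℤ => ZV_f r (j - (0 : ℕ)) * ZV_f r j) = fun j : ℤ => ZV_f r j ^ 2 := by
    funext j
    rw [Nat.cast_zero, sub_zero, sq]
  rw [e, pow_zero] at h
  exact h

lemma ZV_apply {r : ℝ} (h0 : 0 < r) (h1 : r < 1) (j : ℤ) : zv r j = ZV_f r j :=
  toL_apply (f := ZV_f r) (ZV_sum_sq h0 h1).summable j

/-- item ZV -/
theorem p_ZV : T_ZV := by
  intro r h0 h1
  refine ⟨fun j => ZV_apply h0 h1 j, ?_, fun k => ?_⟩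
  · have h2 : ‖zv r‖ ^ 2 = 1 := by
      rw [norm_sq_L]
      have e : (fun j : ℤ => zv r j ^ 2) = fun j : ℤ => ZV_f r j ^ 2 := by
        funext j
        rw [ZV_apply h0 h1]
      rw [e]
      exact (ZV_sum_sq h0 h1).tsum_eq
    have h3 : (0 : ℝ) ≤ ‖zv r‖ := norm_nonneg _
    nlinarith
  · have e : (fun j : ℤ => zv r (j - k) * zv r j) = fun j : ℤ => ZV_f r (j - k) * ZV_f r j := by
      funext j
      rw [ZV_apply h0 h1, ZV_apply h0 h1]
    rw [e]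
    exact (ZV_hasSum h0 h1 k).tsum_eq

end

end HGQ
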