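import Pool.Agent.HGP2.P_AXO
import Pool.Agent.HGP2.P_BLK
import Pool.Agent.HGP2.P_BSM
import Pool.Agent.HGP2.P_CHN
import Pool.Agent.HGP2.P_CJL
import Pool.Agent.HGP2.P_CNM
import Pool.Agent.HGP2.P_CRD
import Pool.Agent.HGP2.P_DHY
import Pool.Agent.HGP2.P_GAD
import Pool.Agent.HGP2.P_GAX
import Pool.Agent.HGP2.P_GCY
import Pool.Agent.HGP2.P_GFR
import Pool.Agent.HGP2.P_GHN
import Pool.Agent.HGP2.P_GKE
import Pool.Agent.HGP2.P_GLO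
import Pool.Agent.HGP2.P_GPI
import Pool.Agent.HGP2.P_GZE
import Pool.Agent.HGP2.P_HNG
import Pool.Agent.HGP2.P_HYA
import Pool.Agent.HGP2.P_HYP
import Pool.Agent.HGP2.P_IND
import Pool.Agent.HGP2.P_KGC
import Pool.Agent.HGP2.P_KRN
import Pool.Agent.HGP2.P_MAT
import Pool.Agent.HGP2.P_MOD
import Pool.Agent.HGP2.P_MRG
import Pool.Agent.HGP2.P_NI
import Pool.Agent.HGP2.P_ONC
import Pool.Agent.HGP2.P_OPP
import Pool.Agent.HGP2.P_PIE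
import Pool.Agent.HGP2.P_PIN
import Pool.Agent.HGP2.P_PRU
import Pool.Agent.HGP2.P_REV
import Pool.Agent.HGP2.P_SAM
import Pool.Agent.HGP2.P_SBA
import Pool.Agent.HGP2.P_SHF
import Pool.Agent.HGP2.P_SLX
import Pool.Agent.HGP2.P_SMD
import Pool.Agent.HGP2.P_STG
import Pool.Agent.HGP2.P_SUBL
import Pool.Agent.HGP2.P_SUM
import Pool.Agent.HGP2.P_TLH
import Pool.Agent.HGP2.P_TLZ
import Pool.Agent.HGP2.P_TRP
import Pool.Agent.HGP2.P_VCY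
import Pool.Agent.HGP2.P_VFI
import Pool.Agent.HGP2.P_WML
import Pool.Agent.HGP2.P_ZC0
import Pool.Agent.HGP2.P_ZEL
import Pool.Agent.HGP2.P_ZHY
import Pool.Agent.HGP2.P_ZI1
import Pool.Agent.HGP2.P_ZI2
import Pool.Agent.HGP2.P_ZRP
import Pool.Agent.HGP2.P_ZV

/-!
# HGP2: all targets without hypotheses
-/

namespace HGQ

theorem mMOD : T_MOD := p_MOD
theorem mBSM : T_BSM := p_BSM
theorem mPIN : T_PIN := p_PIN
theorem mSUM : T_SUM := p_SUM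
theorem mMRG : T_MRG := p_MRG mBSM
theorem mBLK : T_BLK := p_BLK mBSM
theorem mSMD : T_SMD := p_SMD mMOD mBSM
theorem mSLX : T_SLX := p_SLX mPIN mMOD
theorem mREV : T_REV := p_REV mMOD
theorem mLIN : T_LIN := p_LIN mREV
theorem mLCJ : T_LCJ := p_LCJ
theorem mCJL : T_CJL := p_CJL mLIN mLCJ
theorem mSTG : T_STG := p_STG mSUM mMRG mPIN mMOD mBSM
theorem mCHN : T_CHN := p_CHN mSTG mSLX
theorem mSHF : T_SHF := p_SHF mPIN mMOD mBSM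
theorem mMAT : T_MAT := p_MAT mCHN mSUM mSHF mSMD mBLK mMOD
theorem mHYA : T_HYA := p_HYA mMOD
theorem mDHY : T_DHY := p_DHY
theorem mKGC : T_KGC := p_KGC
theorem mSUBL : T_SUBL := p_SUBL
theorem mWML : T_WML := p_WML mSUBL
theorem mCRD : T_CRD := p_CRD
theorem mNI : T_NI := p_NI
theorem mHNG : T_HNG := p_HNG mKGC
theorem mHYP : T_HYP := p_HYP mHYA mDHY mSUBL mWML
theorem mVCY : T_VCY := p_VCY
theorem mVFI : T_VFI := p_VFI
theorem mTLH : T_TLH := p_TLH mNI mHNG mHYP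
theorem mGHN : T_GHN := p_GHN mCRD mVCY mVFI mTLH mMAT mCJL mMOD
theorem mZV : T_ZV := p_ZV
theorem mZI1 : T_ZI1 := p_ZI1 mZV
theorem mZI2 : T_ZI2 := p_ZI2 mZV
theorem mZEL : T_ZEL := p_ZEL mZV
theorem mZHY : T_ZHY := p_ZHY mHYA mDHY mZV mZI1
theorem mTLZ : T_TLZ := p_TLZ mMOD p_ZRP p_ZC0 mZI1 mZI2 mZEL mZHY
theorem mGZE : T_GZE := p_GZE mTLZ mMAT mCJL
theorem mIND : T_IND := p_IND p_TRP mKGC
theorem mGLO : T_GLO := p_GLO mIND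
theorem mGKE : T_GKE := p_GKE
theorem mAXO : T_AXO := p_AXO mHYA mDHY
theorem mGAX : T_GAX := p_GAX p_KRN p_CNM mAXO mSLX mMAT
theorem mGFR : T_GFR := p_GFR mGHN mGKE mGAX
theorem mGAD : T_GAD := p_GAD mGHN mGKE
theorem mGPI : T_GPI := p_GPI (p_PIE p_FTF) mGAD mGHN mGKE
theorem mOPP : T_OPP := p_OPP p_ONC p_SBA p_FTF p_PRU mGHN mGKE mGFR
theorem mSAM : T_SAM := p_SAM p_ONC p_SBA p_FTF mGPI mGKE mGFR
theorem mGCY : T_GCY := p_GCY mGAX mGKE mGLO mGZE mGHN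
theorem mREL : T_REL := p_REL mGCY mGKE mGHN p_ONC mGFR mOPP mSAM p_PRU mGPI
theorem mFIN : T_FIN := p_FIN mREL mGKE p_GHA

end HGQ
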