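import Pool.Agent.HGP2.Targets

/-!
# HGP2, target AXO: the axis of an element in the representation of the kernel
-/

open scoped InnerProductSpace ENNReal
open HGP

namespace HGQ

noncomputable section

lemma AXO_C0 {G X : Type} [Group G] [MulAction G X] (d : X → X → ℕ)
    (hfin : ∀ x y, ∀ R : ℕ, {g : G | d (g • x) y ≤ R}.Finite) (r : ℝ) (hr0 : 0 < r) (hr1 : r < 1)
    {K : Type} [NormedAddCommGroup K] [InnerProductSpace ℝ K] (P : G →* (K ≃ₗᵢ[ℝ] K)) (v : X → K)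
    (hv : ∀ x y, ⟪v x, v y⟫_ℝ = r ^ d x y) (hP : ∀ g x, P g (v x) = v (g • x))
    (hd : Dense (Submodule.span ℝ (Set.range v) : Set K)) : C0 P := by
  have h1 : ∀ (x y : X) (δ : ℝ), 0 < δ → {g : G | δ ≤ |⟪P g (v x), v y⟫_ℝ|}.Finite := by
    intro x y δ hδ
    obtain ⟨R, hR⟩ := exists_pow_lt_of_lt_one hδ hr1
    refine (hfin x y R).subset fun g hg => ?_
    rw [Set.mem_ofPred_eq] at hg ⊢
    rw [hP, hv, abs_of_nonneg (pow_nonneg hr0.le _)] at hg
    by_contra hcon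
    push Not at hcon
    exact absurd (hg.trans (pow_le_pow_of_le_one hr0.le hr1.le hcon.le)) (not_le.2 hR)
  have h2 : ∀ (x : X) (w : K) (δ : ℝ), 0 < δ → {g : G | δ ≤ |⟪P g (v x), w⟫_ℝ|}.Finite := by
    intro x w δ hδ
    have := kDEN G K (Set.range v) hd (fun g => C0T_sn LinearMap.id (P g (v x))) ‖v x‖
      (fun g u => by
        rw [C0T_sn_apply, LinearMap.id_apply, mul_comm]
        refine (abs_real_inner_le_norm _ _).trans ?_
        rw [LinearIsometryEquiv.norm_map]) Set.Finite Set.finite_empty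
      (fun s t h1 h2 => h2.subset h1) (fun s t h1 h2 => h1.union h2) (by
        rintro _ ⟨y, rfl⟩ δ hδ
        simp only [C0T_sn_apply, LinearMap.id_apply]
        refine (h1 x y δ hδ).subset fun g hg => ?_
        rw [Set.mem_ofPred_eq] at hg ⊢
        rwa [real_inner_comm]) w δ hδ
    simp only [C0T_sn_apply, LinearMap.id_apply] at this
    refine this.subset fun g hg => ?_
    rw [Set.mem_ofPred_eq] at hg ⊢
    rwa [real_inner_comm]
  intro u w δ hδ
  have := kDEN G K (Set.range v) hd (fun g => C0T_sn (P g).toLinearEquiv.toLinearMap w) ‖w‖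
    (fun g u => by
      rw [C0T_sn_apply, mul_comm]
      refine (abs_real_inner_le_norm _ _).trans ?_
      exact le_of_eq (by rw [show ((P g).toLinearEquiv.toLinearMap u) = P g u from rfl,
        LinearIsometryEquiv.norm_map])) Set.Finite Set.finite_empty
    (fun s t h1 h2 => h2.subset h1) (fun s t h1 h2 => h1.union h2) (by
      rintro _ ⟨y, rfl⟩ δ hδ
      simp only [C0T_sn_apply]
      exact h2 y w δ hδ) u δ hδ
  simp only [C0T_sn_apply] at this
  exact this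

/-- the decay function -/
def AXO_F (r A q : ℝ) (s : ℝ) : ℝ := A * (r ^ (max 0 (s - q) ^ 2)) ^ 2

lemma AXO_anti (r A q : ℝ) (hr0 : 0 < r) (hr1 : r < 1) (hA : 0 ≤ A) :
    Antitone (AXO_F r A q) := by
  intro s t hst
  have h1 : max 0 (s - q) ^ 2 ≤ max 0 (t - q) ^ 2 :=
    pow_le_pow_left₀ (le_max_left _ _) (max_le_max le_rfl (by linarith)) 2
  have h2 : r ^ (max 0 (t - q) ^ 2) ≤ r ^ (max 0 (s - q) ^ 2) :=
    Real.rpow_le_rpow_of_exponent_ge hr0 hr1.le h1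
  exact mul_le_mul_of_nonneg_left (pow_le_pow_left₀ (Real.rpow_nonneg hr0.le _) h2 2) hA

lemma AXO_key (a t : ℝ) (ht : 0 ≤ t) : t ^ 2 / 8 - a ^ 2 ≤ max 0 (t / 2 - a) ^ 2 := by
  rcases le_total 0 (t / 2 - a) with h | h
  · rw [max_eq_right h]
    nlinarith [sq_nonneg (t / 2 - 2 * a)]
  · rw [max_eq_left h]
    nlinarith [sq_nonneg (t / 2 - a)]

lemma AXO_bd (r A q : ℝ) (hr0 : 0 < r) (hr1 : r < 1) (hA : 0 ≤ A) (ℓ n : ℕ) :
    AXO_F r A q ((Real.sqrt ((ℓ * n : ℕ) : ℝ) - 1) / 2) ≤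
      A * (r ^ (-(1 / 2 + q) ^ 2)) ^ 2 * ((r ^ ((ℓ : ℝ) / 8)) ^ 2) ^ n := by
  set t := Real.sqrt ((ℓ * n : ℕ) : ℝ) with ht
  have ht0 : 0 ≤ t := Real.sqrt_nonneg _
  have ht2 : t ^ 2 = ℓ * n := by
    rw [ht, Real.sq_sqrt (Nat.cast_nonneg _)]
    push_cast
    rfl
  have h1 := AXO_key (1 / 2 + q) t ht0
  have h2 : (t - 1) / 2 - q = t / 2 - (1 / 2 + q) := by ring
  have h3 : r ^ (max 0 ((t - 1) / 2 - q) ^ 2) ≤
      r ^ (-(1 / 2 + q) ^ 2) * (r ^ ((ℓ : ℝ) / 8)) ^ n := by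
    rw [← Real.rpow_natCast (r ^ ((ℓ : ℝ) / 8)) n, ← Real.rpow_mul hr0.le,
      ← Real.rpow_add hr0]
    refine Real.rpow_le_rpow_of_exponent_ge hr0 hr1.le ?_
    rw [h2]
    refine le_trans (le_of_eq ?_) h1
    rw [ht2]
    ring
  unfold AXO_F
  rw [mul_assoc]
  refine mul_le_mul_of_nonneg_left ?_ hA
  refine (pow_le_pow_left₀ (Real.rpow_nonneg hr0.le _) h3 2).trans (le_of_eq ?_)
  rw [mul_pow, ← pow_mul, ← pow_mul, mul_comm n 2]

lemma AXO_sum (r A q : ℝ) (hr0 : 0 < r) (hr1 : r < 1) (hA : 0 ≤ A) (ℓ : ℕ) (hℓ : 1 ≤ ℓ) :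
    Summable (fun m : ℤ => AXO_F r A q ((Real.sqrt ((ℓ * m.natAbs : ℕ) : ℝ) - 1) / 2)) := by
  have hk : (r ^ ((ℓ : ℝ) / 8)) ^ 2 < 1 := by
    have h1 : r ^ ((ℓ : ℝ) / 8) < 1 := by
      refine Real.rpow_lt_one hr0.le hr1 ?_
      have : (1 : ℝ) ≤ ℓ := by exact_mod_cast hℓ
      positivity
    exact pow_lt_one₀ (Real.rpow_nonneg hr0.le _) h1 two_ne_zero
  have hn : ∀ s, 0 ≤ AXO_F r A q s := fun s => mul_nonneg hA (sq_nonneg _)
  have h1 : Summable (fun n : ℕ => AXO_F r A q ((Real.sqrt ((ℓ * n : ℕ) : ℝ) - 1) / 2)) := by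
    refine Summable.of_nonneg_of_le (fun n => hn _) (fun n => AXO_bd r A q hr0 hr1 hA ℓ n) ?_
    exact (summable_geometric_of_lt_one (sq_nonneg _) hk).mul_left _
  refine Summable.of_nat_of_neg ?_ ?_
  · simpa using h1
  · simpa using h1

theorem p_AXO (hHYA : T_HYA) (hDHY : T_DHY) : T_AXO := by
  intro G _ X _ d hd0 hds hdi hdt hfin r hr0 hr1 K _ _ _ P v hv hP hdense
  have hC : C0 P := AXO_C0 d hfin r hr0 hr1 P v hv hP hdense
  refine ⟨hC, ?_⟩
  intro c x ℓ hℓ hax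
  have hρ0 : 0 < r ^ ℓ := pow_pos hr0 ℓ
  have hρ1 : r ^ ℓ < 1 := pow_lt_one₀ hr0.le hr1 (by omega)
  set D : K := v (c⁻¹ • x) - r ^ ℓ • v x with hD
  have hnx : ‖v x‖ = 1 := by
    have h1 : ‖v x‖ ^ 2 = 1 := by
      rw [← real_inner_self_eq_norm_sq, hv, hd0, pow_zero]
    nlinarith [norm_nonneg (v x)]
  have hUD : (P c) D = v x - r ^ ℓ • (P c) (v x) + 0 := by
    rw [hD, map_sub, map_smul, hP, smul_inv_smul, add_zero]
  have hpow : ∀ (m : ℤ) (y : K), ((P c) ^ m) y = P (c ^ m) y := by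
    intro m y
    rw [map_zpow]
  have hin : ∀ m n : ℤ, ⟪v (c ^ m • x), v (c ^ n • x)⟫_ℝ = (r ^ ℓ) ^ (m - n).natAbs := by
    intro m n
    rw [hv, ← pow_mul, ← hax (m - n)]
    have h1 := hdi (c ^ n) (c ^ (m - n) • x) x
    rw [smul_smul, ← zpow_add, add_sub_cancel] at h1
    rw [h1]
  have hor : ∀ m : ℤ, m ≠ 0 → ⟪((P c) ^ m) D, D⟫_ℝ = 0 := by
    intro m hm
    have h1 : ((P c) ^ m) D = v (c ^ (m - 1) • x) - r ^ ℓ • v (c ^ m • x) := by
      rw [hpow, hD, map_sub, map_smul, hP, hP, smul_smul, ← zpow_sub_one]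
    have h2 : D = v (c ^ (-1 : ℤ) • x) - r ^ ℓ • v (c ^ (0 : ℤ) • x) := by
      rw [hD, zpow_neg_one, zpow_zero, one_smul]
    rw [h1]
    nth_rewrite 1 [h2]
    rw [inner_sub_left, inner_sub_right, inner_sub_right, real_inner_smul_left,
      real_inner_smul_left, real_inner_smul_right, real_inner_smul_right, hin, hin, hin, hin]
    generalize r ^ ℓ = ρ
    rcases lt_or_gt_of_ne hm with h | h
    · obtain ⟨k, rfl⟩ : ∃ k : ℕ, m = -(k + 1 : ℤ) := ⟨(-m - 1).toNat, by omega⟩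
      have e1 : (-(k + 1 : ℤ) - 1 - (-1)).natAbs = k + 1 := by omega
      have e2 : (-(k + 1 : ℤ) - 1 - 0).natAbs = k + 2 := by omega
      have e3 : (-(k + 1 : ℤ) - (-1)).natAbs = k := by omega
      have e4 : (-(k + 1 : ℤ) - 0).natAbs = k + 1 := by omega
      rw [e1, e2, e3, e4]
      ring
    · obtain ⟨k, rfl⟩ : ∃ k : ℕ, m = (k + 1 : ℤ) := ⟨(m - 1).toNat, by omega⟩
      have e1 : ((k + 1 : ℤ) - 1 - (-1)).natAbs = k + 1 := by omega
      have e2 : ((k + 1 : ℤ) - 1 - 0).natAbs = k := by omega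
      have e3 : ((k + 1 : ℤ) - (-1)).natAbs = k + 2 := by omega
      have e4 : ((k + 1 : ℤ) - 0).natAbs = k + 1 := by omega
      rw [e1, e2, e3, e4]
      ring
  obtain ⟨C, hC1, hC2, hC3, hC4⟩ := hHYA K (P c) (v x) D 0 (r ^ ℓ) hρ0 hρ1 hnx hUD hor
  refine ⟨C, ⟨hC1, hC3, ?_⟩, ?_⟩
  · refine hDHY G K P c (‖D‖⁻¹ • D) (fun g => Real.sqrt (d (g • x) x)) (Set.range v) hC ?_ ?_
      hdense ?_ C hC1 ?_
    · intro g h
      refine (hdt _ (g • x) _).trans (le_of_eq ?_)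
      rw [mul_smul, hdi, add_comm]
    · intro g
      have h1 := hdi g (g⁻¹ • x) x
      rw [smul_inv_smul] at h1
      show Real.sqrt (d (g⁻¹ • x) x) = Real.sqrt (d (g • x) x)
      rw [← h1, hds]
    · rintro _ ⟨y, rfl⟩
      set q : ℝ := Real.sqrt (d x y) + Real.sqrt (d x (c⁻¹ • x)) with hq
      refine ⟨AXO_F r ((‖D‖⁻¹ * 2) ^ 2) q, AXO_anti _ _ _ hr0 hr1 (sq_nonneg _), ?_, ?_⟩
      · intro g
        have hz : ∀ z, Real.sqrt (d x z) ≤ Real.sqrt (d x (c⁻¹ • x)) →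
            |⟪v (g • y), v z⟫_ℝ| ≤ r ^ (max 0 (Real.sqrt (d (g • x) x) - q) ^ 2) := by
          intro z hz
          rw [hv, abs_of_nonneg (pow_nonneg hr0.le _), ← Real.rpow_natCast]
          refine Real.rpow_le_rpow_of_exponent_ge hr0 hr1.le ?_
          have h1 : max 0 (Real.sqrt (d (g • x) x) - q) ≤ Real.sqrt (d (g • y) z) := by
            refine max_le (Real.sqrt_nonneg _) ?_
            have h2 := hdt (g • x) (g • y) x
            have h3 := hdt (g • y) z x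
            have h4 : d (g • x) (g • y) = d x y := hdi g x y
            have h5 : d z x = d x z := hds z x
            rw [h4] at h2
            rw [h5] at h3
            rw [hq]
            linarith
          calc max 0 (Real.sqrt (d (g • x) x) - q) ^ 2 ≤ Real.sqrt (d (g • y) z) ^ 2 :=
                pow_le_pow_left₀ (le_max_left _ _) h1 2
            _ = (d (g • y) z : ℝ) := Real.sq_sqrt (Nat.cast_nonneg _)
        have ha := hz (c⁻¹ • x) le_rfl
        have hb := hz x (by rw [hd0, Nat.cast_zero, Real.sqrt_zero]; exact Real.sqrt_nonneg _)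
        rw [hP]
        have h1 : |⟪v (g • y), ‖D‖⁻¹ • D⟫_ℝ| ≤
            ‖D‖⁻¹ * 2 * r ^ (max 0 (Real.sqrt (d (g • x) x) - q) ^ 2) := by
          rw [real_inner_smul_right, abs_mul, abs_of_nonneg (inv_nonneg.2 (norm_nonneg D)),
            mul_assoc]
          refine mul_le_mul_of_nonneg_left ?_ (inv_nonneg.2 (norm_nonneg D))
          rw [hD, inner_sub_right, real_inner_smul_right]
          refine (abs_sub _ _).trans ?_
          rw [abs_mul, abs_of_pos hρ0, two_mul]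
          refine add_le_add ha ?_
          refine (mul_le_of_le_one_left (abs_nonneg _) hρ1.le).trans hb
        unfold AXO_F
        rw [← mul_pow, ← sq_abs]
        exact pow_le_pow_left₀ (abs_nonneg _) h1 2
      · have h1 := AXO_sum r ((‖D‖⁻¹ * 2) ^ 2) q hr0 hr1 (sq_nonneg _) ℓ hℓ
        refine h1.congr fun m => ?_
        rw [hax m]
    · intro y m
      rw [hC2, hpow]
  · simpa using hC4

end

end HGQ
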