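import Pool.Agent.HGP2.Targets

/-!
# HGP2: directed unions
-/

open scoped InnerProductSpace ENNReal
open HGP HNNExtension HNNExtension.NormalWord

namespace HGQ

lemma GLO_list {G H : Type} (f : H → G) (l : List G) (h : ∀ c ∈ l, ∃ c', f c' = c) :
    ∃ l' : List H, l'.map f = l := by
  induction l with
  | nil => exact ⟨[], rfl⟩
  | cons a l ih =>
    obtain ⟨a', ha'⟩ := h a (by simp)
    obtain ⟨l', hl'⟩ := ih (fun c hc => h c (by simp [hc]))
    exact ⟨a' :: l', by simp [ha', hl']⟩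

theorem p_GLO (hIND : T_IND) : T_GLO := by
  classical
  intro G _ h l hl S L ε hε
  obtain ⟨H, _, f, hf, hr, hg⟩ := h (S ∪ l.toFinset)
  obtain ⟨l', hl'⟩ := GLO_list f l (fun c hc => hr c (by simp [hc]))
  obtain ⟨S', hS'⟩ := GLO_list f S.toList (fun c hc => hr c (by
    rw [Finset.mem_toList] at hc
    simp [hc]))
  have h1 : ∀ c ∈ l', ¬ IsOfFinOrder c := by
    intro c hc hfin
    refine hl (f c) ?_ (MonoidHom.isOfFinOrder f hfin)
    rw [← hl']
    exact List.mem_map_of_mem hc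
  obtain ⟨Q, hi, hQ, hs, hd⟩ := hg l' h1 S'.toFinset L ε hε
  refine ⟨Q, hi, hQ, hs, ?_⟩
  have h2 := hIND G H f hf l' S'.toFinset S ε _ Q.md ?_ hd
  · rwa [hl'] at h2
  · intro s hs'
    have h3 : s ∈ S'.map f := by
      rw [hS', Finset.mem_toList]
      exact hs'
    obtain ⟨s₀, h4, h5⟩ := List.mem_map.1 h3
    exact ⟨s₀, by simpa using h4, h5⟩

end HGQ
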