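import Pool.Agent.HGP2.Targets

/-!
# HGP2: pinching, a retract of an HNN extension of a free product
-/

open HNNExtension HNNExtension.NormalWord
open HGP

namespace HGQ

noncomputable section

/-- in the relator group the relator is trivial -/
lemma PIE_mk {n : ℕ} (r : FreeGroup (Fin n)) : PresentedGroup.mk {r} r = 1 :=
  PresentedGroup.one_of_mem (Set.mem_singleton r)

theorem p_PIE (hFTF : T_FTF) : T_PIE := by
  classical
  intro n r j J w hj hw hw1 hr hgl
  let r' : FreeGroup (Fin (n + n)) := FreeGroup.map (Fin.castAdd n) r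
  let xs : Fin n → OR r' := fun l => gl r' (Fin.castAdd n l)
  let ss : Fin n → OR r' := fun l => gl r' (Fin.natAdd n l)
  let ws : OR r' := PresentedGroup.mk {r'} (FreeGroup.map (Fin.natAdd n) w)
  -- the element `x_j` has infinite order
  have hx : ¬ IsOfFinOrder (xs j) := by
    let F : Fin (n + n) → OR r := Fin.addCases (fun l => gl r l) (fun _ => 1)
    have hF : (FreeGroup.lift F).comp (FreeGroup.map (Fin.castAdd n)) =
        PresentedGroup.mk {r} := by
      ext l
      rw [MonoidHom.comp_apply, FreeGroup.map.of, FreeGroup.lift_apply_of]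
      simp [F]
      rfl
    have hrel : ∀ s ∈ ({r'} : Set (FreeGroup (Fin (n + n)))), FreeGroup.lift F s = 1 := by
      intro s hs
      rw [Set.mem_singleton_iff] at hs
      subst hs
      have h1 : FreeGroup.lift F r' = PresentedGroup.mk {r} r := by
        rw [← hF]; rfl
      rw [h1, PIE_mk]
    intro h
    have h1 : PresentedGroup.toGroup hrel (xs j) = gl r j := by
      change PresentedGroup.toGroup hrel (PresentedGroup.of (Fin.castAdd n j)) = _
      rw [PresentedGroup.toGroup.of]
      simp [F]
    exact hgl (h1 ▸ MonoidHom.isOfFinOrder (PresentedGroup.toGroup hrel) h)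
  -- the element `w(s)` has infinite order
  have hws : ¬ IsOfFinOrder ws := by
    let F : Fin (n + n) → FreeGroup (Fin n) := Fin.addCases (fun _ => 1) FreeGroup.of
    have hF : (FreeGroup.lift F).comp (FreeGroup.map (Fin.castAdd n)) = 1 := by
      ext l
      rw [MonoidHom.comp_apply, FreeGroup.map.of, FreeGroup.lift_apply_of]
      simp [F]
    have hF' : (FreeGroup.lift F).comp (FreeGroup.map (Fin.natAdd n)) = MonoidHom.id _ := by
      ext l
      rw [MonoidHom.comp_apply, FreeGroup.map.of, FreeGroup.lift_apply_of]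
      exact Fin.addCases_right l
    have hrel : ∀ s ∈ ({r'} : Set (FreeGroup (Fin (n + n)))), FreeGroup.lift F s = 1 := by
      intro s hs
      rw [Set.mem_singleton_iff] at hs
      subst hs
      exact DFunLike.congr_fun hF r
    intro h
    have h1 : PresentedGroup.toGroup hrel ws = w := by
      change PresentedGroup.toGroup hrel (PresentedGroup.mk {r'} _) = _
      have h2 : (PresentedGroup.toGroup hrel) (PresentedGroup.mk {r'}
          (FreeGroup.map (Fin.natAdd n) w)) =
          FreeGroup.lift F (FreeGroup.map (Fin.natAdd n) w) := rfl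
      rw [h2]
      exact DFunLike.congr_fun hF' w
    exact hFTF n w hw1 (h1 ▸ MonoidHom.isOfFinOrder (PresentedGroup.toGroup hrel) h)
  obtain ⟨θ, hθ⟩ := RTP_theta (xs j) ws hx hws
  refine ⟨θ, ?_⟩
  let G' := HNNExtension (OR r') (Subgroup.zpowers (xs j)) (Subgroup.zpowers ws) θ
  let q : FreeGroup (Fin n) := sb j w r
  let F : Fin n → G' := fun l => if l ∈ J then of (ss l) else t * of (xs l) * t⁻¹
  have hFJ : ∀ l ∈ J, F l = of (ss l) := fun l hl => if_pos hl
  have hFn : ∀ l, l ∉ J → F l = t * of (xs l) * t⁻¹ := fun l hl => if_neg hl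
  have hkey : (of ws : G') = t * of (xs j) * t⁻¹ := by
    have h := HNNExtension.equiv_eq_conj (φ := θ) ⟨xs j, Subgroup.mem_zpowers _⟩
    rw [hθ] at h
    exact h
  have hwF : FreeGroup.lift F w = of ws := by
    let c1 : FreeGroup (Fin n) →* G' := (of : OR r' →* G').comp
      ((PresentedGroup.mk {r'}).comp (FreeGroup.map (Fin.natAdd n)))
    have h1 : Set.EqOn (FreeGroup.lift F) c1 (Ls J) := by
      refine MonoidHom.eqOn_closure ?_
      rintro _ ⟨l, hl, rfl⟩
      rw [FreeGroup.lift_apply_of, hFJ l hl]
      change _ = (of (PresentedGroup.mk {r'} (FreeGroup.map (Fin.natAdd n) (FreeGroup.of l))) : G')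
      rw [FreeGroup.map.of]
      rfl
    exact h1 hw
  let c : FreeGroup (Fin n) →* G' := (MulAut.conj (t : G')).toMonoidHom.comp
    ((of : OR r' →* G').comp ((PresentedGroup.mk {r'}).comp (FreeGroup.map (Fin.castAdd n))))
  have hc : Set.EqOn ((FreeGroup.lift F).comp
      (FreeGroup.lift (Function.update FreeGroup.of j w))) c (Ls (Jᶜ ∪ {j})) := by
    refine MonoidHom.eqOn_closure ?_
    rintro _ ⟨l, hl, rfl⟩
    have hcl : c (FreeGroup.of l) = t * of (xs l) * t⁻¹ := by
      change (MulAut.conj (t : G')) (of (PresentedGroup.mk {r'}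
        (FreeGroup.map (Fin.castAdd n) (FreeGroup.of l)))) = _
      rw [FreeGroup.map.of]
      rfl
    rw [hcl, MonoidHom.comp_apply, FreeGroup.lift_apply_of]
    by_cases hlj : l = j
    · subst hlj
      rw [Function.update_self, hwF, hkey]
    · rw [Function.update_of_ne hlj, FreeGroup.lift_apply_of]
      rcases hl with hl | hl
      · exact hFn l hl
      · exact absurd hl hlj
  have hrel : ∀ s ∈ ({q} : Set (FreeGroup (Fin n))), FreeGroup.lift F s = 1 := by
    intro s hs
    rw [Set.mem_singleton_iff] at hs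
    subst hs
    have h1 : FreeGroup.lift F q = c r := hc hr
    rw [h1]
    change (MulAut.conj (t : G')) (of (PresentedGroup.mk {r'} r')) = 1
    rw [PIE_mk, map_one, map_one]
  -- the retraction
  let K : Fin (n + n) → OR q :=
    Fin.addCases (Function.update (gl q) j (PresentedGroup.mk {q} w)) (gl q)
  have hK1 : (FreeGroup.lift K).comp (FreeGroup.map (Fin.castAdd n)) =
      (PresentedGroup.mk {q}).comp (FreeGroup.lift (Function.update FreeGroup.of j w)) := by
    ext l
    rw [MonoidHom.comp_apply, FreeGroup.map.of, FreeGroup.lift_apply_of,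
      MonoidHom.comp_apply, FreeGroup.lift_apply_of]
    have h1 : K (Fin.castAdd n l) = Function.update (gl q) j (PresentedGroup.mk {q} w) l := by
      simp [K]
    rw [h1]
    by_cases hlj : l = j
    · subst hlj
      rw [Function.update_self, Function.update_self]
    · rw [Function.update_of_ne hlj, Function.update_of_ne hlj]
      rfl
  have hK2 : (FreeGroup.lift K).comp (FreeGroup.map (Fin.natAdd n)) = PresentedGroup.mk {q} := by
    ext l
    rw [MonoidHom.comp_apply, FreeGroup.map.of, FreeGroup.lift_apply_of]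
    have h1 : K (Fin.natAdd n l) = gl q l := Fin.addCases_right l
    rw [h1]
    rfl
  have hrel0 : ∀ s ∈ ({r'} : Set (FreeGroup (Fin (n + n)))), FreeGroup.lift K s = 1 := by
    intro s hs
    rw [Set.mem_singleton_iff] at hs
    subst hs
    have h1 : FreeGroup.lift K r' = PresentedGroup.mk {q} q := DFunLike.congr_fun hK1 r
    rw [h1, PIE_mk]
  let R0 : OR r' →* OR q := PresentedGroup.toGroup hrel0
  have hR0x : ∀ l, l ≠ j → R0 (xs l) = gl q l := by
    intro l hl
    change PresentedGroup.toGroup hrel0 (PresentedGroup.of (Fin.castAdd n l)) = _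
    rw [PresentedGroup.toGroup.of]
    have h1 : K (Fin.castAdd n l) = Function.update (gl q) j (PresentedGroup.mk {q} w) l := by
      simp [K]
    rw [h1, Function.update_of_ne hl]
  have hR0j : R0 (xs j) = PresentedGroup.mk {q} w := by
    change PresentedGroup.toGroup hrel0 (PresentedGroup.of (Fin.castAdd n j)) = _
    rw [PresentedGroup.toGroup.of]
    have h1 : K (Fin.castAdd n j) = Function.update (gl q) j (PresentedGroup.mk {q} w) j := by
      simp [K]
    rw [h1, Function.update_self]
  have hR0s : ∀ l, R0 (ss l) = gl q l := by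
    intro l
    change PresentedGroup.toGroup hrel0 (PresentedGroup.of (Fin.natAdd n l)) = _
    rw [PresentedGroup.toGroup.of]
    exact Fin.addCases_right l
  have hR0w : R0 ws = PresentedGroup.mk {q} w := DFunLike.congr_fun hK2 w
  let R : G' →* OR q := HNNExtension.lift R0 1 (by
    rintro ⟨a, m, rfl⟩
    have h1 : (⟨(fun x => (xs j) ^ x) m, ⟨m, rfl⟩⟩ : Subgroup.zpowers (xs j)) =
        ⟨xs j, Subgroup.mem_zpowers _⟩ ^ m := by
      ext
      simp
    have h2 : (θ ⟨(fun x => (xs j) ^ x) m, ⟨m, rfl⟩⟩ : OR r') = ws ^ m := by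
      rw [h1, map_zpow, Subgroup.coe_zpow, hθ]
    rw [h2]
    simp only [one_mul, mul_one, map_zpow, hR0w, hR0j])
  have hRt : R t = 1 := HNNExtension.lift_t _ _ _
  have hRo : ∀ g, R (of g) = R0 g := fun g => HNNExtension.lift_of _ _ _ g
  let f : OR q →* G' := PresentedGroup.toGroup hrel
  have hfo : ∀ l, f (gl q l) = F l := by
    intro l
    change PresentedGroup.toGroup hrel (PresentedGroup.of l) = _
    rw [PresentedGroup.toGroup.of]
  have hRf : R.comp f = MonoidHom.id _ := by
    apply PresentedGroup.ext
    intro l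
    change R (f (gl q l)) = gl q l
    rw [hfo]
    by_cases hl : l ∈ J
    · rw [hFJ l hl, hRo, hR0s]
    · have hlj : l ≠ j := fun h => hl (h ▸ hj)
      rw [hFn l hl, map_mul, map_mul, map_inv, hRt, hRo, hR0x l hlj]
      simp
  refine ⟨f, ?_⟩
  intro a b hab
  have h1 := congrArg R hab
  have h2 : ∀ x, R (f x) = x := fun x => DFunLike.congr_fun hRf x
  rwa [h2, h2] at h1

end

end HGQ
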