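import Pool.Agent.HGP2.Main

/-!
# HGP2: finite groups, the relators `(x_j u) ^ 2`
-/

open HGP

namespace HGQ

noncomputable section

lemma good_finite (G : Type) [Group G] [Finite G] : Good G := by
  refine mGAX G ?_
  refine ⟨PUnit, inferInstance, PUnit.unit, fun _ _ => 0, fun _ => rfl,
    fun _ _ => rfl, fun _ _ _ => rfl, fun n x c _ => ?_, fun R => Set.toFinite _, ?_⟩
  · simp
  · intro c hc
    exact absurd (isOfFinOrder_of_finite c) hc

lemma finite_pow (k : ℕ) (hk : k ≠ 0) :
    Finite (OR (FreeGroup.of (0 : Fin 1) ^ k : FreeGroup (Fin 1))) := by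
  set r : FreeGroup (Fin 1) := FreeGroup.of 0 ^ k with hr
  have h1 : IsOfFinOrder (gl r 0) := by
    rw [isOfFinOrder_iff_pow_eq_one]
    refine ⟨k, Nat.pos_of_ne_zero hk, ?_⟩
    have h2 : gl r 0 ^ k = PresentedGroup.mk {r} (FreeGroup.of 0 ^ k) := by
      rw [map_pow]
      rfl
    rw [h2]
    exact PresentedGroup.one_of_mem (rels := {r}) rfl
  have h3 : ∀ x : OR r, x ∈ Subgroup.zpowers (gl r 0) := by
    intro x
    obtain ⟨w, rfl⟩ := PresentedGroup.mk_surjective {r} x
    have h4 : w ∈ (⊤ : Subgroup (FreeGroup (Fin 1))) := Subgroup.mem_top w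
    rw [← FreeGroup.closure_range_of] at h4
    refine Subgroup.closure_induction ?_ ?_ ?_ ?_ h4
    · rintro _ ⟨i, rfl⟩
      rw [Subsingleton.elim i 0]
      exact Subgroup.mem_zpowers _
    · rw [map_one]
      exact one_mem _
    · intro a b _ _ ha hb
      rw [map_mul]
      exact mul_mem ha hb
    · intro a _ ha
      rw [map_inv]
      exact inv_mem ha
  haveI : Finite (Subgroup.zpowers (gl r 0)) := h1.finite_zpowers
  exact Finite.of_injective (fun x : OR r => (⟨x, h3 x⟩ : Subgroup.zpowers (gl r 0)))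
    (fun a b h => congrArg Subtype.val h)

lemma good_pow (n k : ℕ) (hk : k ≠ 0) (j : Fin n) :
    Good (OR (FreeGroup.of j ^ k : FreeGroup (Fin n))) := by
  haveI := finite_pow k hk
  have hG : Good (OR (FreeGroup.map (Fin.castAdd n)
      (FreeGroup.of (0 : Fin 1) ^ k : FreeGroup (Fin 1)))) :=
    mGAD 1 n _ (good_finite _)
  set r : FreeGroup (Fin n) := FreeGroup.of j ^ k with hr
  set r' : FreeGroup (Fin (1 + n)) := FreeGroup.map (Fin.castAdd n)
      (FreeGroup.of (0 : Fin 1) ^ k : FreeGroup (Fin 1)) with hr'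
  classical
  -- the embedding
  let a : Fin n → OR r' := fun i => if i = j then gl r' (Fin.castAdd n 0) else gl r' (Fin.natAdd 1 i)
  have ha : ∀ s ∈ ({r} : Set (FreeGroup (Fin n))), FreeGroup.lift a s = 1 := by
    intro s hs
    rw [Set.mem_singleton_iff] at hs
    rw [hs, hr, map_pow, FreeGroup.lift_apply_of]
    have h1 : a j = gl r' (Fin.castAdd n 0) := if_pos rfl
    rw [h1]
    have h2 : gl r' (Fin.castAdd n 0) ^ k =
        PresentedGroup.mk {r'} (FreeGroup.of (Fin.castAdd n 0) ^ k) := by
      rw [map_pow]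
      rfl
    have h3 : (FreeGroup.of (Fin.castAdd n 0) ^ k : FreeGroup (Fin (1 + n))) = r' := by
      rw [hr', map_pow, FreeGroup.map.of]
    rw [h2]
    exact PresentedGroup.one_of_mem (rels := {r'}) h3
  let b : Fin (1 + n) → OR r := fun i =>
    Fin.addCases (motive := fun _ => OR r) (fun _ => gl r j) (fun i => if i = j then 1 else gl r i) i
  have hb : ∀ s ∈ ({r'} : Set (FreeGroup (Fin (1 + n)))), FreeGroup.lift b s = 1 := by
    intro s hs
    rw [Set.mem_singleton_iff] at hs
    rw [hs, hr', map_pow, FreeGroup.map.of, map_pow, FreeGroup.lift_apply_of]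
    have h1 : b (Fin.castAdd n 0) = gl r j := Fin.addCases_left _
    rw [h1]
    have h2 : gl r j ^ k = PresentedGroup.mk {r} (FreeGroup.of j ^ k) := by
      rw [map_pow]
      rfl
    rw [h2]
    exact PresentedGroup.one_of_mem (rels := {r}) rfl
  let F : OR r →* OR r' := PresentedGroup.toGroup ha
  let B : OR r' →* OR r := PresentedGroup.toGroup hb
  have hBF : B.comp F = MonoidHom.id _ := by
    refine PresentedGroup.ext fun i => ?_
    show B (F (PresentedGroup.of i)) = PresentedGroup.of i
    have h1 : F (PresentedGroup.of i) = a i := PresentedGroup.toGroup.of ha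
    rw [h1]
    by_cases hij : i = j
    · have h2 : a i = gl r' (Fin.castAdd n 0) := if_pos hij
      rw [h2]
      have h3 : B (gl r' (Fin.castAdd n 0)) = b (Fin.castAdd n 0) := PresentedGroup.toGroup.of hb
      rw [h3]
      have h4 : b (Fin.castAdd n 0) = gl r j := Fin.addCases_left _
      rw [h4, hij]
      rfl
    · have h2 : a i = gl r' (Fin.natAdd 1 i) := if_neg hij
      rw [h2]
      have h3 : B (gl r' (Fin.natAdd 1 i)) = b (Fin.natAdd 1 i) := PresentedGroup.toGroup.of hb
      rw [h3]
      have h4 : b (Fin.natAdd 1 i) = if i = j then 1 else gl r i := Fin.addCases_right _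
      rw [h4, if_neg hij]
      rfl
  have hF : Function.Injective F := by
    intro x y hxy
    have h1 := congrArg B hxy
    have h2 : ∀ z, B (F z) = z := fun z => DFunLike.congr_fun hBF z
    rwa [h2, h2] at h1
  exact Good.inj mGKE F hF hG

/-- two occurrences with equal exponents, all cases -/
lemma good_same (n : ℕ) (j : Fin n) (u v : FreeGroup (Fin n)) (hu : u ∈ Ls {j}ᶜ)
    (hv : v ∈ Ls {j}ᶜ) : Good (OR (FreeGroup.of j * u * FreeGroup.of j * v)) := by
  by_cases huv : u = v
  · subst huv
    obtain ⟨f, hf1, hf2⟩ := SAM_aut p_SBA j u⁻¹ (inv_mem hu)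
    obtain ⟨e, -⟩ := kMOV.1 n (FreeGroup.of j * u * FreeGroup.of j * u) f
    have h1 : f (FreeGroup.of j * u * FreeGroup.of j * u) = FreeGroup.of j ^ 2 := by
      rw [map_mul, map_mul, map_mul, hf1, hf2 u hu, pow_two, inv_mul_cancel_right, mul_assoc,
        inv_mul_cancel_right]
    have h2 := good_pow n 2 two_ne_zero j
    rw [← h1] at h2
    exact Good.inj mGKE e.toMonoidHom e.injective h2
  · exact mSAM n j u v hu hv huv

end

end HGQ
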