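import Pool.Agent.HGP2.Targets

/-!
# HGP2: edge operators for infinite cyclic edge groups (helper45, job HGQ-VCY)
-/

open scoped InnerProductSpace ENNReal
open HGP HNNExtension HNNExtension.NormalWord

namespace HGQ

noncomputable section

section vcy

variable {H : Type} [Group H] {E : Type} [NormedAddCommGroup E] [InnerProductSpace ℝ E]
  [CompleteSpace E] {I : Type} {π : H →* (E ≃ₗᵢ[ℝ] E)}

/-- the adjoint moves the shift to `b` -/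
theorem VCY_adj {b : H} {C : E →L[ℝ] L2 (ℤ × I) ℝ} (h : Op π b C) (x : L2 (ℤ × I) ℝ) :
    ContinuousLinearMap.adjoint C (S1 I x) = π b (ContinuousLinearMap.adjoint C x) := by
  refine ext_inner_left ℝ fun u => ?_
  rw [ContinuousLinearMap.adjoint_inner_right]
  have h1 : π b (π b⁻¹ u) = u := by
    have : π b * π b⁻¹ = 1 := by rw [← map_mul, mul_inv_cancel, map_one]
    calc π b (π b⁻¹ u) = (π b * π b⁻¹) u := rfl
      _ = u := by rw [this]; rfl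
  conv_lhs => rw [← h1]
  conv_rhs => rw [← h1]
  rw [h.comm, LinearIsometryEquiv.inner_map_map, LinearIsometryEquiv.inner_map_map,
    ContinuousLinearMap.adjoint_inner_right]

theorem VCY_comp {a b : H} {C D : E →L[ℝ] L2 (ℤ × I) ℝ} (hC : Op π a C) (hD : Op π b D) (u : E) :
    ((ContinuousLinearMap.adjoint D).comp C) (π a u) =
      π b (((ContinuousLinearMap.adjoint D).comp C) u) := by
  rw [ContinuousLinearMap.comp_apply, ContinuousLinearMap.comp_apply, hC.comm, VCY_adj hD]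

theorem VCY_pow {a b : H} (V : E →L[ℝ] E) (h : ∀ u, V (π a u) = π b (V u)) (m : ℤ) :
    ∀ u, V (π (a ^ m) u) = π (b ^ m) (V u) := by
  have hm : ∀ (g k : H) (u : E), π (g * k) u = π g (π k u) := fun g k u => by
    rw [map_mul]; rfl
  have hinv : ∀ u, V (π a⁻¹ u) = π b⁻¹ (V u) := by
    intro u
    have h1 := h (π a⁻¹ u)
    rw [← hm, mul_inv_cancel, map_one] at h1
    have h2 : V u = π b (V (π a⁻¹ u)) := h1
    rw [h2, ← hm, inv_mul_cancel, map_one]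
    rfl
  induction m using Int.induction_on with
  | zero => intro u; simp
  | succ n ih =>
    intro u
    rw [zpow_add_one, zpow_add_one, hm, hm, ih, h]
  | pred n ih =>
    intro u
    rw [zpow_sub_one, zpow_sub_one, hm, hm, ih, hinv]

theorem VCY_norm {C D : E →L[ℝ] L2 (ℤ × I) ℝ} (hC : ‖C‖ ≤ 1) (hD : ‖D‖ ≤ 1) :
    ‖(ContinuousLinearMap.adjoint D).comp C‖ ≤ 1 := by
  calc ‖(ContinuousLinearMap.adjoint D).comp C‖ ≤ ‖ContinuousLinearMap.adjoint D‖ * ‖C‖ :=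
        ContinuousLinearMap.opNorm_comp_le _ _
    _ = ‖D‖ * ‖C‖ := by rw [LinearIsometryEquiv.norm_map]
    _ ≤ 1 * 1 := mul_le_mul hD hC (norm_nonneg _) zero_le_one
    _ = 1 := one_mul 1

theorem VCY_le {C D : E →L[ℝ] L2 (ℤ × I) ℝ} (hD : ‖D‖ ≤ 1) (u : E) :
    ‖((ContinuousLinearMap.adjoint D).comp C) u‖ ≤ ‖C u‖ := by
  calc ‖((ContinuousLinearMap.adjoint D).comp C) u‖ ≤ ‖ContinuousLinearMap.adjoint D‖ * ‖C u‖ :=
        (ContinuousLinearMap.adjoint D).le_opNorm (C u)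
    _ = ‖D‖ * ‖C u‖ := by rw [LinearIsometryEquiv.norm_map]
    _ ≤ 1 * ‖C u‖ := mul_le_mul_of_nonneg_right hD (norm_nonneg _)
    _ = ‖C u‖ := one_mul _

theorem VCY_inv {C D : E →L[ℝ] L2 (ℤ × I) ℝ} (hC : ‖C‖ ≤ 1) (hD : ‖D‖ ≤ 1) {ξ : E}
    {M : L2 (ℤ × I) ℝ} {ε : ℝ} (hξ : ‖ξ‖ = 1) (hM : ‖M‖ = 1) (h0 : 0 ≤ ε) (h1 : ε ≤ 1)
    (h2 : ‖C ξ - M‖ ≤ ε) (h3 : ‖D ξ - M‖ ≤ ε) :
    ‖((ContinuousLinearMap.adjoint D).comp C) ξ - ξ‖ ≤ Real.sqrt (6 * ε) := by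
  set V := (ContinuousLinearMap.adjoint D).comp C with hV
  have e1 : ⟪V ξ, ξ⟫_ℝ = ⟪C ξ, D ξ⟫_ℝ := by
    rw [hV, ContinuousLinearMap.comp_apply, ContinuousLinearMap.adjoint_inner_left]
  have e2 : ⟪C ξ, D ξ⟫_ℝ = 1 + ⟪M, D ξ - M⟫_ℝ + ⟪C ξ - M, M⟫_ℝ + ⟪C ξ - M, D ξ - M⟫_ℝ := by
    have : ⟪M, M⟫_ℝ = 1 := by rw [real_inner_self_eq_norm_sq, hM, one_pow]
    rw [inner_sub_left, inner_sub_right, inner_sub_left, inner_sub_right, inner_sub_right, this]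
    ring
  have e3 : |⟪M, D ξ - M⟫_ℝ| ≤ ε := by
    refine (abs_real_inner_le_norm _ _).trans ?_
    rw [hM, one_mul]
    exact h3
  have e4 : |⟪C ξ - M, M⟫_ℝ| ≤ ε := by
    refine (abs_real_inner_le_norm _ _).trans ?_
    rw [hM, mul_one]
    exact h2
  have e5 : |⟪C ξ - M, D ξ - M⟫_ℝ| ≤ ε * ε :=
    (abs_real_inner_le_norm _ _).trans (mul_le_mul h2 h3 (norm_nonneg _) h0)
  have e6 : ‖V ξ‖ ≤ 1 := by
    calc ‖V ξ‖ ≤ ‖V‖ * ‖ξ‖ := V.le_opNorm ξ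
      _ ≤ 1 * 1 := mul_le_mul (VCY_norm hC hD) hξ.le (norm_nonneg _) zero_le_one
      _ = 1 := one_mul 1
  have e7 : ‖V ξ - ξ‖ ^ 2 = ‖V ξ‖ ^ 2 - 2 * ⟪V ξ, ξ⟫_ℝ + ‖ξ‖ ^ 2 := norm_sub_sq_real _ _
  have e8 := abs_le.1 e3
  have e9 := abs_le.1 e4
  have e10 := abs_le.1 e5
  have e11 : ‖V ξ‖ ^ 2 ≤ 1 := by
    have := norm_nonneg (V ξ)
    nlinarith
  refine Real.le_sqrt_of_sq_le ?_
  rw [e7, e1, e2, hξ]
  nlinarith

end vcy

theorem p_VCY : T_VCY := by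
  intro H _ a b θ hθ E _ _ _ π ξ I M ε hξ hM h0 h1 hA hB
  obtain ⟨C, hC, hCM⟩ := hA
  obtain ⟨D, hD, hDM⟩ := hB
  refine ⟨(ContinuousLinearMap.adjoint D).comp C, ?_⟩
  have hadj : ContinuousLinearMap.adjoint ((ContinuousLinearMap.adjoint D).comp C) =
      (ContinuousLinearMap.adjoint C).comp D := by
    rw [ContinuousLinearMap.adjoint_comp, ContinuousLinearMap.adjoint_adjoint]
  refine ⟨VCY_norm hC.norm hD.norm, ?_, ?_, ?_, VCY_inv hC.norm hD.norm hξ hM h0 h1 hCM hDM, ?_⟩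
  · rintro ⟨a', m, rfl⟩ u
    have h2 : (θ ⟨a ^ m, m, rfl⟩ : H) = b ^ m := by
      have h3 : (⟨a ^ m, m, rfl⟩ : Subgroup.zpowers a) = ⟨a, Subgroup.mem_zpowers a⟩ ^ m := by
        ext; simp
      rw [h3, map_zpow, Subgroup.coe_zpow, hθ]
    show _ = π (θ ⟨a ^ m, m, rfl⟩ : H) _
    rw [h2]
    exact VCY_pow _ (VCY_comp hC hD) m u
  · intro u δ hδ
    obtain ⟨T, hT⟩ := hC.dec u δ hδ
    refine ⟨T, fun h hh => ?_⟩
    obtain ⟨m, x, hx, e⟩ := hT h (hh.trans (VCY_le hD.norm _))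
    exact ⟨a ^ m, ⟨m, rfl⟩, x, hx, e⟩
  · intro u δ hδ
    obtain ⟨T, hT⟩ := hD.dec u δ hδ
    refine ⟨T, fun h hh => ?_⟩
    rw [hadj] at hh
    obtain ⟨m, x, hx, e⟩ := hT h (hh.trans (VCY_le hC.norm _))
    exact ⟨b ^ m, ⟨m, rfl⟩, x, hx, e⟩
  · rw [hadj]
    exact VCY_inv hD.norm hC.norm hξ hM h0 h1 hDM hCM

end

end HGQ
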