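import Pool.Agent.HGP2.Defs

/-!
# HGP2: targets (statements only; proofs in `Blueprint.md`)
-/

open scoped InnerProductSpace ENNReal
open HGP HNNExtension HNNExtension.NormalWord

namespace HGQ

noncomputable section

/-! ## M. Models -/

/-- coordinates and norm of the vector of a mixture -/
def T_MOD : Prop := ∀ (Q : Mx) (lo hi : ℝ), Q.Ok lo hi →
  (∀ m i, Q.md (m, i) = gm (Q.w i) (Q.ρ i) m) ∧ ‖Q.md‖ = 1

/-- orthogonal direct sums of models -/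
def T_BSM : Prop := ∀ (K : Type) (v : K → ℝ), (∀ k, 0 ≤ v k) → HasSum v 1 →
  ∀ (I : K → Type) (M : ∀ k, L2 (ℤ × I k) ℝ), (∀ k, ‖M k‖ ≤ 1) →
  (∀ m k i, bs v M (m, ⟨k, i⟩) = Real.sqrt (v k) * M k (m, i)) ∧ ‖bs v M‖ ≤ 1 ∧
  ∀ (M' : ∀ k, L2 (ℤ × I k) ℝ) (ε : ℝ), 0 ≤ ε → (∀ k, ‖M' k‖ ≤ 1) →
    (∀ k, ‖M k - M' k‖ ≤ ε) → ‖bs v M - bs v M'‖ ≤ ε

/-- mixtures of mixtures -/
def T_SMD : Prop := ∀ (K : Type) (v : K → ℝ), (∀ k, 0 ≤ v k) → HasSum v 1 →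
  ∀ (Q : K → Mx) (lo hi : ℝ), (∀ k, (Q k).Ok lo hi) →
  (Mx.sm v Q).Ok lo hi ∧ bs v (fun k => (Q k).md) = (Mx.sm v Q).md

/-- injections defined on parts of the index sets give operators -/
def T_PIN : Prop := ∀ (I I' : Type) (f : I' → Option I),
  (∀ a b i, f a = some i → f b = some i → a = b) →
  ∃ U : L2 (ℤ × I) ℝ →L[ℝ] L2 (ℤ × I') ℝ, Cm U ∧
    (∀ x m i i', f i' = some i → U x (m, i') = x (m, i)) ∧
    (∀ x m i', f i' = none → U x (m, i') = 0)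

/-- merging equal blocks -/
def T_MRG : Prop := ∀ (K : Type) (v : K → ℝ), (∀ k, 0 ≤ v k) → HasSum v 1 →
  ∀ (I : Type) (M : L2 (ℤ × I) ℝ), ‖M‖ ≤ 1 → Rd (bs v (fun _ : K => M)) M 0

/-- block diagonal operators -/
def T_BLK : Prop := ∀ (K : Type) (v : K → ℝ), (∀ k, 0 ≤ v k) → HasSum v 1 →
  ∀ (I I' : K → Type) (M : ∀ k, L2 (ℤ × I k) ℝ) (M' : ∀ k, L2 (ℤ × I' k) ℝ) (ε : ℝ), 0 ≤ ε →
  (∀ k, ‖M k‖ ≤ 1) → (∀ k, ‖M' k‖ ≤ 1) → (∀ k, Rd (M k) (M' k) ε) → Rd (bs v M) (bs v M') ε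

/-- existence of slow mixtures -/
def T_SLX : Prop := ∀ (lo ε : ℝ) (L : ℕ), lo < 1 → 0 < ε →
  ∃ (Q : Mx) (hi : ℝ), Q.Ok lo hi ∧ Slow Q L ε

/-- reversal -/
def T_REV : Prop := ∀ (Q : Mx) (lo hi : ℝ), Q.Ok lo hi →
  ∃ U : L2 (ℤ × Q.I) ℝ →L[ℝ] L2 (ℤ × Q.I) ℝ, ‖U‖ ≤ 1 ∧
    (∀ x, U (S1 Q.I x) = (S1 Q.I).symm (U x)) ∧ U Q.md = Q.md

/-- inverse elements -/
def T_LIN : Prop := ∀ (G : Type) [Group G] (E : Type) [NormedAddCommGroup E]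
  [InnerProductSpace ℝ E] (π : G →* (E ≃ₗᵢ[ℝ] E)) (c : G) (ξ : E) (Q : Mx) (lo hi ε : ℝ),
  Q.Ok lo hi → Lc π c ξ Q.md ε → Lc π c⁻¹ ξ Q.md ε

/-- conjugate elements -/
def T_LCJ : Prop := ∀ (G : Type) [Group G] (E : Type) [NormedAddCommGroup E]
  [InnerProductSpace ℝ E] (π : G →* (E ≃ₗᵢ[ℝ] E)) (c u : G) (ξ : E) (I : Type)
  (M : L2 (ℤ × I) ℝ) (ε : ℝ), Lc π c ξ M ε → Lc π (u * c * u⁻¹) ξ M (ε + ‖π u⁻¹ ξ - ξ‖)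

/-- closure of (M) under conjugates and inverses -/
def T_CJL : Prop := ∀ (G : Type) [Group G] (l l' : List G), MF G l →
  (∀ c ∈ l', ∃ c₀ ∈ l, ∃ u : G, c = u * c₀ * u⁻¹ ∨ c = u * c₀⁻¹ * u⁻¹) → MF G l'

/-- direct sums of representations -/
def T_SUM : Prop := ∀ (G : Type) [Group G] (K : Type) (v : K → ℝ), (∀ k, 0 ≤ v k) →
  HasSum v 1 → ∀ (E : K → Type) [∀ k, NormedAddCommGroup (E k)]
  [∀ k, InnerProductSpace ℝ (E k)] [∀ k, CompleteSpace (E k)]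
  (π : ∀ k, G →* (E k ≃ₗᵢ[ℝ] E k)) (ξ : ∀ k, E k), (∀ k, C0 (π k)) → (∀ k, ‖ξ k‖ = 1) →
  ∃ (F : Type) (_ : NormedAddCommGroup F) (_ : InnerProductSpace ℝ F) (_ : CompleteSpace F)
    (Pi : G →* (F ≃ₗᵢ[ℝ] F)) (x : F), C0 Pi ∧ ‖x‖ = 1 ∧
    (∀ (g : G) (ε : ℝ), 0 ≤ ε → (∀ k, ‖π k g (ξ k) - ξ k‖ ≤ ε) → ‖Pi g x - x‖ ≤ ε) ∧
    ∀ (c : G) (I : K → Type) (M : ∀ k, L2 (ℤ × I k) ℝ) (ε : ℝ), 0 ≤ ε → (∀ k, ‖M k‖ ≤ 1) →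
      (∀ k, Lc (π k) c (ξ k) (M k) ε) → Lc Pi c x (bs v M) ε

/-! ## N. The matching lemma -/

/-- one stage -/
def T_STG : Prop := ∀ (G : Type) [Group G] (le lh : List G) (ℓ : G → ℕ),
  (∀ g ∈ lh, 1 ≤ ℓ g) → TL G le lh ℓ → ∀ (S : Finset G) (ε : ℝ), 0 < ε →
  ∃ (δ ε' : ℝ) (L' : ℕ), 0 < δ ∧ 0 < ε' ∧ ∀ (Q : Mx) (hi : ℝ), Q.Ok (1 - δ) hi →
    Slow Q L' ε' → ∀ (L : ℕ) (η : ℝ), 0 < η → ∃ (Q' : Mx) (hi' : ℝ), Q'.Ok (1 - η) hi' ∧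
      Slow Q' L η ∧ LK G le lh S ε Q Q'

/-- the chain of stages -/
def T_CHN : Prop := ∀ (G : Type) [Group G] (le lh : List G) (ℓ : G → ℕ),
  (∀ g ∈ lh, 1 ≤ ℓ g) → TL G le lh ℓ → ∀ (S : Finset G) (L : ℕ) (ε : ℝ), 0 < ε →
  ∃ (Q : ℕ → Mx) (hi : ℕ → ℝ), ∀ j, (Q j).Ok (1 - ε) (hi j) ∧ Slow (Q j) L ε ∧
    LK G le lh S ε (Q j) (Q (j + 1))

/-- the shift of the blocks -/
def T_SHF : Prop := ∀ (Q : ℕ → Mx) (lo : ℝ) (hi : ℕ → ℝ), (∀ j, (Q j).Ok lo (hi j)) →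
  ∀ J : ℕ, 0 < J →
  Rd (bs (fun _ : Fin J => (J : ℝ)⁻¹) (fun j => (Q j).md))
    (bs (fun _ : Fin J => (J : ℝ)⁻¹) (fun j => (Q (j + 1)).md)) (Real.sqrt J)⁻¹

/-- the matching lemma -/
def T_MAT : Prop := ∀ (G : Type) [Group G] (le lh : List G) (ℓ : G → ℕ),
  (∀ g ∈ lh, 1 ≤ ℓ g) → TL G le lh ℓ → MF G (le ++ lh)

/-! ## O. Abstract lemmas on representations -/

/-- the vectors `U^m D`, pairwise orthogonal, give an operator, and it sends `x` near one mode -/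
def T_HYA : Prop := ∀ (K : Type) [NormedAddCommGroup K] [InnerProductSpace ℝ K]
  [CompleteSpace K] (U : K ≃ₗᵢ[ℝ] K) (x D e : K) (ρ : ℝ), 0 < ρ → ρ < 1 → ‖x‖ = 1 →
  U D = x - ρ • U x + e → (∀ m : ℤ, m ≠ 0 → ⟪(U ^ m) D, D⟫_ℝ = 0) →
  ∃ C : K →L[ℝ] L2 (ℤ × Unit) ℝ, ‖C‖ ≤ 1 ∧
    (∀ (y : K) (m : ℤ), C y (m, ()) = ⟪(U ^ (-m)) y, ‖D‖⁻¹ • D⟫_ℝ) ∧
    (∀ y, C (U y) = S1 Unit (C y)) ∧ ‖C x - f1 ρ‖ ≤ 2 * ‖e‖ / (1 - ρ)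

/-- decay along the cosets of `⟨g⟩` -/
def T_DHY : Prop := ∀ (G : Type) [Group G] (K : Type) [NormedAddCommGroup K]
  [InnerProductSpace ℝ K] [CompleteSpace K] (P : G →* (K ≃ₗᵢ[ℝ] K)) (g : G) (lam : K)
  (len : G → ℝ) (D : Set K), C0 P → (∀ x y, len (x * y) ≤ len x + len y) →
  (∀ x, len x⁻¹ = len x) → Dense (Submodule.span ℝ D : Set K) →
  (∀ u ∈ D, ∃ F : ℝ → ℝ, Antitone F ∧ (∀ x : G, ⟪P x u, lam⟫_ℝ ^ 2 ≤ F (len x)) ∧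
    Summable (fun m : ℤ => F ((len (g ^ m) - 1) / 2))) →
  ∀ C : K →L[ℝ] L2 (ℤ × Unit) ℝ, ‖C‖ ≤ 1 →
    (∀ (y : K) (m : ℤ), C y (m, ()) = ⟪P (g ^ (-m)) y, lam⟫_ℝ) →
  ∀ (u : K) (δ : ℝ), 0 < δ → ∃ T : Finset G, ∀ x : G, δ ≤ ‖C (P x u)‖ →
    ∃ m : ℤ, ∃ y ∈ T, x = g ^ m * y

/-- transport of operators to the Hilbert space of an operator valued function -/
def T_KGC : Prop := ∀ (G : Type) [Group G] (E : Type) [NormedAddCommGroup E]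
  [InnerProductSpace ℝ E] [CompleteSpace E] (W : G → (E →L[ℝ] E)) (K : Type)
  [NormedAddCommGroup K] [InnerProductSpace ℝ K] [CompleteSpace K] (P : G →* (K ≃ₗᵢ[ℝ] K))
  (ι : E →ₗᵢ[ℝ] K), (∀ (g : G) (u v : E), ⟪P g (ι u), ι v⟫_ℝ = ⟪W g u, v⟫_ℝ) →
  Dense (Submodule.span ℝ {x : K | ∃ (g : G) (u : E), x = P g (ι u)} : Set K) →
  ∀ (a : G) (I : Type) (C : E →L[ℝ] L2 (ℤ × I) ℝ), ‖C‖ ≤ 1 →
  (∀ (g : G) (u : E), C (W (a * g) u) = S1 I (C (W g u))) →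
  (∀ (u : E) (δ : ℝ), 0 < δ → ∃ T : Finset G, ∀ g : G, δ ≤ ‖C (W g u)‖ →
    ∃ m : ℤ, ∃ x ∈ T, g = a ^ m * x) →
  ∃ C' : K →L[ℝ] L2 (ℤ × I) ℝ, Op P a C' ∧ ∀ (g : G) (u : E), C' (P g (ι u)) = C (W g u)

/-! ## H. HNN extensions -/

/-- the length is subadditive -/
def T_SUBL : Prop := ∀ (H : Type) [Group H] (A B : Subgroup H) (φ : A ≃* B)
  (x y : HNNExtension H A B φ), len φ (x * y) ≤ len φ x + len φ y

/-- `W` is multiplicative when the lengths add -/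
def T_WML : Prop := ∀ (H : Type) [Group H] (A B : Subgroup H) (φ : A ≃* B) (E : Type)
  [NormedAddCommGroup E] [InnerProductSpace ℝ E] [CompleteSpace E] (π : H →* (E ≃ₗᵢ[ℝ] E))
  (V : E →L[ℝ] E) (W : HNNExtension H A B φ → (E →L[ℝ] E)), Sys φ π V W →
  ∀ x y, len φ (x * y) = len φ x + len φ y → W (x * y) = W x * W y

/-- every element is conjugate to an element of the base group or is hyperbolic -/
def T_CRD : Prop := ∀ (H : Type) [Group H] (A B : Subgroup H) (φ : A ≃* B)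
  (g : HNNExtension H A B φ), ∃ u : HNNExtension H A B φ,
    (∃ h : H, g = u * of h * u⁻¹) ∨ ∃ g₀, CR φ g₀ ∧ g = u * g₀ * u⁻¹

/-- `W x ξ` is near `r ^ len x • ξ` -/
def T_NI : Prop := ∀ (H : Type) [Group H] (A B : Subgroup H) (φ : A ≃* B)
  (x : HNNExtension H A B φ), ∃ (S : Finset H) (N : ℝ), 0 ≤ N ∧
  ∀ (E : Type) [NormedAddCommGroup E] [InnerProductSpace ℝ E] [CompleteSpace E]
    (π : H →* (E ≃ₗᵢ[ℝ] E)) (V : E →L[ℝ] E) (r : ℝ)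
    (W : HNNExtension H A B φ → (E →L[ℝ] E)) (ξ : E) (η : ℝ), Sys φ π (r • V) W →
    0 ≤ r → r ≤ 1 → ‖V‖ ≤ 1 → ‖ξ‖ = 1 → (∀ s ∈ S, ‖π s ξ - ξ‖ ≤ η) → ‖V ξ - ξ‖ ≤ η →
    ‖ContinuousLinearMap.adjoint V ξ - ξ‖ ≤ η → ‖W x ξ - r ^ len φ x • ξ‖ ≤ N * η

/-- the function `W` and its Hilbert space -/
def T_HNG : Prop := ∀ (H : Type) [Group H] (A B : Subgroup H) (φ : A ≃* B) (E : Type)
  [NormedAddCommGroup E] [InnerProductSpace ℝ E] [CompleteSpace E] (π : H →* (E ≃ₗᵢ[ℝ] E))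
  (V : E →L[ℝ] E), C0 π → ‖V‖ < 1 →
  (∀ (a : A) (u : E), V (π (a : H) u) = π (φ a : H) (V u)) →
  (∀ (u : E) (δ : ℝ), 0 < δ → ∃ T : Finset H, ∀ h : H, δ ≤ ‖V (π h u)‖ →
    ∃ a ∈ A, ∃ x ∈ T, h = a * x) →
  (∀ (u : E) (δ : ℝ), 0 < δ → ∃ T : Finset H, ∀ h : H,
    δ ≤ ‖ContinuousLinearMap.adjoint V (π h u)‖ → ∃ b ∈ B, ∃ x ∈ T, h = b * x) →
  ∃ (W : HNNExtension H A B φ → (E →L[ℝ] E)) (K : Type) (_ : NormedAddCommGroup K)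
    (_ : InnerProductSpace ℝ K) (_ : CompleteSpace K)
    (P : HNNExtension H A B φ →* (K ≃ₗᵢ[ℝ] K)) (ι : E →ₗᵢ[ℝ] K), Sys φ π V W ∧ C0 P ∧
    (∀ (g : HNNExtension H A B φ) (u v : E), ⟪P g (ι u), ι v⟫_ℝ = ⟪W g u, v⟫_ℝ) ∧
    Dense (Submodule.span ℝ {x : K | ∃ (g : HNNExtension H A B φ) (u : E), x = P g (ι u)} :
      Set K) ∧
    ∀ (c : H) (I : Type) (C : E →L[ℝ] L2 (ℤ × I) ℝ), Op π c C →
      ∃ C' : K →L[ℝ] L2 (ℤ × I) ℝ, Op P (of c) C' ∧ ∀ u : E, C' (ι u) = C u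

/-- hyperbolic elements -/
def T_HYP : Prop := ∀ (H : Type) [Group H] (A B : Subgroup H) (φ : A ≃* B) (E : Type)
  [NormedAddCommGroup E] [InnerProductSpace ℝ E] [CompleteSpace E] (π : H →* (E ≃ₗᵢ[ℝ] E))
  (V : E →L[ℝ] E) (W : HNNExtension H A B φ → (E →L[ℝ] E)), Sys φ π V W →
  ∀ (K : Type) [NormedAddCommGroup K] [InnerProductSpace ℝ K] [CompleteSpace K]
    (P : HNNExtension H A B φ →* (K ≃ₗᵢ[ℝ] K)) (ι : E →ₗᵢ[ℝ] K), C0 P →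
    (∀ (g : HNNExtension H A B φ) (u v : E), ⟪P g (ι u), ι v⟫_ℝ = ⟪W g u, v⟫_ℝ) →
    Dense (Submodule.span ℝ {x : K | ∃ (g : HNNExtension H A B φ) (u : E), x = P g (ι u)} :
      Set K) →
  ∀ (g : HNNExtension H A B φ) (ξ : E) (r : ℝ), CR φ g → ‖ξ‖ = 1 → 0 < r → r < 1 →
    ‖V‖ ≤ r → Lc P g (ι ξ) (f1 (r ^ len φ g))
      (2 * ‖W g⁻¹ ξ - r ^ len φ g • ξ‖ / (1 - r ^ len φ g))

/-- edge operators for infinite cyclic edge groups -/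
def T_VCY : Prop := ∀ (H : Type) [Group H] (a b : H)
  (θ : Subgroup.zpowers a ≃* Subgroup.zpowers b),
  (θ ⟨a, Subgroup.mem_zpowers a⟩ : H) = b → ∀ (E : Type) [NormedAddCommGroup E]
  [InnerProductSpace ℝ E] [CompleteSpace E] (π : H →* (E ≃ₗᵢ[ℝ] E)) (ξ : E) (I : Type)
  (M : L2 (ℤ × I) ℝ) (ε : ℝ), ‖ξ‖ = 1 → ‖M‖ = 1 → 0 ≤ ε → ε ≤ 1 → Lc π a ξ M ε →
  Lc π b ξ M ε → ∃ V : E →L[ℝ] E, EV θ π V ξ (Real.sqrt (6 * ε))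

/-- edge operators for finite edge groups -/
def T_VFI : Prop := ∀ (H : Type) [Group H] (A B : Subgroup H) (φ : A ≃* B), Finite A →
  ∀ (E : Type) [NormedAddCommGroup E] [InnerProductSpace ℝ E] [CompleteSpace E]
  (π : H →* (E ≃ₗᵢ[ℝ] E)) (ξ : E) (ε : ℝ), C0 π → ‖ξ‖ = 1 → 0 ≤ ε → ε ≤ 1 →
  (∀ a ∈ A, ‖π a ξ - ξ‖ ≤ ε) → (∀ b ∈ B, ‖π b ξ - ξ‖ ≤ ε) →
  ∃ V : E →L[ℝ] E, EV φ π V ξ (Real.sqrt (6 * ε))

/-- the hypothesis of the matching lemma for HNN extensions -/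
def T_TLH : Prop := ∀ (H : Type) [Group H] (A B : Subgroup H) (φ : A ≃* B) (l : List H)
  (lh : List (HNNExtension H A B φ)), (∀ g ∈ lh, CR φ g) →
  (∀ (S : Finset H) (L : ℕ) (ε : ℝ), 0 < ε → ∃ (Q : Mx) (hi : ℝ), Q.Ok (1 - ε) hi ∧
    Slow Q L ε ∧ ∃ (E : Type) (_ : NormedAddCommGroup E) (_ : InnerProductSpace ℝ E)
      (_ : CompleteSpace E) (π : H →* (E ≃ₗᵢ[ℝ] E)) (ξ : E) (V : E →L[ℝ] E), C0 π ∧
      ‖ξ‖ = 1 ∧ (∀ s ∈ S, ‖π s ξ - ξ‖ ≤ ε) ∧ (∀ c ∈ l, Lc π c ξ Q.md ε) ∧ EV φ π V ξ ε) →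
  TL (HNNExtension H A B φ) (l.map of) lh (len φ)

/-- HNN extensions -/
def T_GHN : Prop := ∀ (H : Type) [Group H] (A B : Subgroup H) (φ : A ≃* B),
  (Finite A ∨ IsCyclic A) → Good H → Good (HNNExtension H A B φ)

/-! ## Z. Extensions by the integers -/

/-- existence of the induced representation -/
def T_ZRP : Prop := ∀ (N : Type) [Group N] (φ : Multiplicative ℤ →* MulAut N) (E : Type)
  [NormedAddCommGroup E] [InnerProductSpace ℝ E] (π : N →* (E ≃ₗᵢ[ℝ] E)),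
  ∃ R : (N ⋊[φ] Multiplicative ℤ) →* (L2 ℤ E ≃ₗᵢ[ℝ] L2 ℤ E), ZR φ π R

def T_ZC0 : Prop := ∀ (N : Type) [Group N] (φ : Multiplicative ℤ →* MulAut N) (E : Type)
  [NormedAddCommGroup E] [InnerProductSpace ℝ E] [CompleteSpace E] (π : N →* (E ≃ₗᵢ[ℝ] E))
  (R : (N ⋊[φ] Multiplicative ℤ) →* (L2 ℤ E ≃ₗᵢ[ℝ] L2 ℤ E)), ZR φ π R → C0 π → C0 R

/-- the geometric family -/
def T_ZV : Prop := ∀ r : ℝ, 0 < r → r < 1 →
  (∀ j : ℤ, zv r j = if 0 ≤ j then Real.sqrt (1 - r ^ 2) * r ^ j.toNat else 0) ∧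
  ‖zv r‖ = 1 ∧ ∀ k : ℕ, ∑' j : ℤ, zv r (j - k) * zv r j = r ^ k

/-- invariance under the integers -/
def T_ZI1 : Prop := ∀ (N : Type) [Group N] (φ : Multiplicative ℤ →* MulAut N) (E : Type)
  [NormedAddCommGroup E] [InnerProductSpace ℝ E] (π : N →* (E ≃ₗᵢ[ℝ] E))
  (R : (N ⋊[φ] Multiplicative ℤ) →* (L2 ℤ E ≃ₗᵢ[ℝ] L2 ℤ E)), ZR φ π R → ∀ (ξ : E) (r : ℝ),
  ‖ξ‖ = 1 → 0 < r → r < 1 → ‖tens (zv r) ξ‖ = 1 ∧ ∀ k : ℤ,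
    ‖R ⟨1, Multiplicative.ofAdd k⟩ (tens (zv r) ξ) - tens (zv r) ξ‖ ^ 2 =
      2 - 2 * r ^ k.natAbs

/-- invariance under the normal subgroup -/
def T_ZI2 : Prop := ∀ (N : Type) [Group N] (φ : Multiplicative ℤ →* MulAut N)
  (F : Finset N) (ρ1 ε : ℝ), ρ1 < 1 → 0 < ε → ∃ (S : Finset N) (ε₀ : ℝ), 0 < ε₀ ∧
  ∀ (E : Type) [NormedAddCommGroup E] [InnerProductSpace ℝ E] (π : N →* (E ≃ₗᵢ[ℝ] E))
    (R : (N ⋊[φ] Multiplicative ℤ) →* (L2 ℤ E ≃ₗᵢ[ℝ] L2 ℤ E)), ZR φ π R → ∀ (ξ : E) (r : ℝ),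
    ‖ξ‖ = 1 → 0 < r → r ≤ ρ1 → (∀ s ∈ S, ‖π s ξ - ξ‖ ≤ ε₀) → ∀ n ∈ F,
    ‖R ⟨n, 1⟩ (tens (zv r) ξ) - tens (zv r) ξ‖ ≤ ε

/-- elements of the normal subgroup -/
def T_ZEL : Prop := ∀ (N : Type) [Group N] (φ : Multiplicative ℤ →* MulAut N) (c : N)
  (ρ1 ε : ℝ), ρ1 < 1 → 0 < ε → ∃ (N₀ : ℕ) (ε₀ : ℝ), 0 < ε₀ ∧ ∀ (E : Type)
    [NormedAddCommGroup E] [InnerProductSpace ℝ E] [CompleteSpace E] (π : N →* (E ≃ₗᵢ[ℝ] E))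
    (R : (N ⋊[φ] Multiplicative ℤ) →* (L2 ℤ E ≃ₗᵢ[ℝ] L2 ℤ E)), ZR φ π R → ∀ (ξ : E) (r : ℝ),
    ‖ξ‖ = 1 → 0 < r → r ≤ ρ1 → ∀ (I : Type) (M : L2 (ℤ × I) ℝ), ‖M‖ ≤ 1 →
    (∀ j : ℕ, j < N₀ → Lc π (φ (Multiplicative.ofAdd (-(j : ℤ))) c) ξ M ε₀) →
    Lc R ⟨c, 1⟩ (tens (zv r) ξ) M ε

/-- elements outside the normal subgroup -/
def T_ZHY : Prop := ∀ (N : Type) [Group N] (φ : Multiplicative ℤ →* MulAut N) (E : Type)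
  [NormedAddCommGroup E] [InnerProductSpace ℝ E] [CompleteSpace E] (π : N →* (E ≃ₗᵢ[ℝ] E))
  (R : (N ⋊[φ] Multiplicative ℤ) →* (L2 ℤ E ≃ₗᵢ[ℝ] L2 ℤ E)), ZR φ π R → C0 R →
  ∀ (ξ : E) (r : ℝ) (n : N) (k : ℕ), ‖ξ‖ = 1 → 0 < r → r < 1 → 1 ≤ k →
    Lc R ⟨n, Multiplicative.ofAdd (k : ℤ)⟩ (tens (zv r) ξ) (f1 (r ^ k))
      (2 * ‖R ⟨n, 1⟩ (tens (zv r) ξ) - tens (zv r) ξ‖ / (1 - r ^ k))

/-- the hypothesis of the matching lemma -/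
def T_TLZ : Prop := ∀ (N : Type) [Group N] (φ : Multiplicative ℤ →* MulAut N), Good N →
  ∀ (le : List N) (lh : List (N ⋊[φ] Multiplicative ℤ)), (∀ c ∈ le, ¬ IsOfFinOrder c) →
  (∀ g ∈ lh, 1 ≤ Multiplicative.toAdd g.right) →
  TL (N ⋊[φ] Multiplicative ℤ) (le.map SemidirectProduct.inl) lh
    (fun g => (Multiplicative.toAdd g.right).toNat)

def T_GZE : Prop := ∀ (N : Type) [Group N] (φ : Multiplicative ℤ →* MulAut N), Good N →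
  Good (N ⋊[φ] Multiplicative ℤ)

/-! ## U. Finite groups, subgroups, unions, axial groups -/

/-- a representation extended by zero -/
def T_TRP : Prop := ∀ (G H : Type) [Group G] [Group H] (f : H →* G), Function.Injective f →
  ∀ (E : Type) [NormedAddCommGroup E] [InnerProductSpace ℝ E] [CompleteSpace E]
  (π : H →* (E ≃ₗᵢ[ℝ] E)), ∃ W : G → (E →L[ℝ] E), (∀ (h : H) (u : E), W (f h) u = π h u) ∧
    (∀ g, g ∉ f.range → W g = 0) ∧ W 1 = 1 ∧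
    (∀ g, W g⁻¹ = ContinuousLinearMap.adjoint (W g)) ∧
    ∀ (k : ℕ) (g : Fin k → G) (x : Fin k → E),
      0 ≤ ∑ i, ∑ j, ⟪W (g i * (g j)⁻¹) (x j), x i⟫_ℝ

/-- induction of data -/
def T_IND : Prop := ∀ (G H : Type) [Group G] [Group H] (f : H →* G), Function.Injective f →
  ∀ (l : List H) (S : Finset H) (S' : Finset G) (ε : ℝ) (I : Type) (M : L2 (ℤ × I) ℝ),
  (∀ s ∈ S', ∃ s₀ ∈ S, f s₀ = s) → Data H l S ε M → Data G (l.map f) S' ε M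

def T_GLO : Prop := ∀ (G : Type) [Group G], (∀ S : Finset G, ∃ (H : Type) (_ : Group H)
  (f : H →* G), Function.Injective f ∧ (∀ s ∈ S, s ∈ f.range) ∧ Good H) → Good G

def T_GKE : Prop := ∀ (G G' : Type) [Group G] [Group G'] (f : G →* G'), Finite f.ker →
  Good G' → Good G

/-- the representation of a conditionally negative definite kernel -/
def T_KRN : Prop := ∀ (G : Type) [Group G] (X : Type) [MulAction G X] (d : X → X → ℕ),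
  (∀ x, d x x = 0) → (∀ x y, d x y = d y x) →
  (∀ (g : G) (x y : X), d (g • x) (g • y) = d x y) →
  (∀ (n : ℕ) (x : Fin n → X) (c : Fin n → ℝ), ∑ i, c i = 0 →
    ∑ i, ∑ j, c i * c j * (d (x i) (x j) : ℝ) ≤ 0) →
  ∀ r : ℝ, 0 < r → r < 1 →
  ∃ (K : Type) (_ : NormedAddCommGroup K) (_ : InnerProductSpace ℝ K) (_ : CompleteSpace K)
    (P : G →* (K ≃ₗᵢ[ℝ] K)) (v : X → K), (∀ x y, ⟪v x, v y⟫_ℝ = r ^ d x y) ∧
    (∀ g x, P g (v x) = v (g • x)) ∧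
    Dense (Submodule.span ℝ (Set.range v) : Set K)

/-- square roots of conditionally negative definite kernels are pseudometrics -/
def T_CNM : Prop := ∀ (X : Type) (d : X → X → ℕ), (∀ x, d x x = 0) →
  (∀ x y, d x y = d y x) → (∀ (n : ℕ) (x : Fin n → X) (c : Fin n → ℝ), ∑ i, c i = 0 →
    ∑ i, ∑ j, c i * c j * (d (x i) (x j) : ℝ) ≤ 0) →
  ∀ x y z, Real.sqrt (d x z) ≤ Real.sqrt (d x y) + Real.sqrt (d y z)

/-- the axis of an element in the representation of the kernel -/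
def T_AXO : Prop := ∀ (G : Type) [Group G] (X : Type) [MulAction G X] (d : X → X → ℕ),
  (∀ x, d x x = 0) → (∀ x y, d x y = d y x) →
  (∀ (g : G) (x y : X), d (g • x) (g • y) = d x y) →
  (∀ x y z, Real.sqrt (d x z) ≤ Real.sqrt (d x y) + Real.sqrt (d y z)) →
  (∀ x y, ∀ R : ℕ, {g : G | d (g • x) y ≤ R}.Finite) →
  ∀ r : ℝ, 0 < r → r < 1 → ∀ (K : Type) [NormedAddCommGroup K] [InnerProductSpace ℝ K]
    [CompleteSpace K] (P : G →* (K ≃ₗᵢ[ℝ] K)) (v : X → K), (∀ x y, ⟪v x, v y⟫_ℝ = r ^ d x y) →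
    (∀ g x, P g (v x) = v (g • x)) → Dense (Submodule.span ℝ (Set.range v) : Set K) →
  C0 P ∧ ∀ (c : G) (x : X) (ℓ : ℕ), 1 ≤ ℓ → (∀ n : ℤ, d (c ^ n • x) x = ℓ * n.natAbs) →
    Lc P c (v x) (f1 (r ^ ℓ)) 0

def T_GAX : Prop := ∀ (G : Type) [Group G], Ax G → Good G

/-! ## R. One-relator groups -/

/-- `x_j ↦ x_j u x_j⁻¹` is an HNN extension -/
def T_PRU : Prop := ∀ (n : ℕ) (r : FreeGroup (Fin n)) (j : Fin n) (u : FreeGroup (Fin n)),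
  u ∈ Ls {j}ᶜ → ¬ IsOfFinOrder (PresentedGroup.mk {r} u) → ¬ IsOfFinOrder (gl r j) →
  ∃ θ : Subgroup.zpowers (PresentedGroup.mk {r} u : OR r) ≃* Subgroup.zpowers (gl r j),
    Nonempty (OR (sb j (FreeGroup.of j * u * (FreeGroup.of j)⁻¹) r) ≃*
      HNNExtension (OR r) (Subgroup.zpowers (PresentedGroup.mk {r} u : OR r))
        (Subgroup.zpowers (gl r j)) θ)

/-- one letter occurs once: the group embeds in the free group, the other letters go to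
themselves -/
def T_ONC : Prop := ∀ (n : ℕ) (j : Fin n) (u v : FreeGroup (Fin n)), u ∈ Ls {j}ᶜ →
  v ∈ Ls {j}ᶜ → ∃ f : OR (u * FreeGroup.of j * v) →* FreeGroup (Fin n),
    Function.Injective f ∧
    (∀ w ∈ Ls {j}ᶜ, f (PresentedGroup.mk {u * FreeGroup.of j * v} w) = w) ∧
    f (gl _ j) = u⁻¹ * v⁻¹

/-- substitutions fix the words without the letter -/
def T_SBA : Prop := ∀ (n : ℕ) (j : Fin n) (v w : FreeGroup (Fin n)), w ∈ Ls {j}ᶜ →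
  sb j v w = w

/-- free groups are torsion free -/
def T_FTF : Prop := ∀ (n : ℕ) (w : FreeGroup (Fin n)), w ≠ 1 → ¬ IsOfFinOrder w

/-- free groups -/
def T_GFR : Prop := ∀ n : ℕ, Good (FreeGroup (Fin n))

def T_GCY : Prop := ∀ (G : Type) [Group G], Cyc G → Good G

/-- new letters -/
def T_GAD : Prop := ∀ (n m : ℕ) (r : FreeGroup (Fin n)), Good (OR r) →
  Good (OR (FreeGroup.map (Fin.castAdd m) r))

/-- embedding of the group of `sb j w r` in an HNN extension of a free product -/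
def T_PIE : Prop := ∀ (n : ℕ) (r : FreeGroup (Fin n)) (j : Fin n) (J : Set (Fin n))
  (w : FreeGroup (Fin n)), j ∈ J → w ∈ Ls J → w ≠ 1 → r ∈ Ls (Jᶜ ∪ {j}) →
  ¬ IsOfFinOrder (gl r j) →
  ∃ θ : Subgroup.zpowers (gl (FreeGroup.map (Fin.castAdd n) r) (Fin.castAdd n j)) ≃*
      Subgroup.zpowers (PresentedGroup.mk {FreeGroup.map (Fin.castAdd n) r}
        (FreeGroup.map (Fin.natAdd n) w) : OR (FreeGroup.map (Fin.castAdd n) r)),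
    ∃ f : OR (sb j w r) →* HNNExtension (OR (FreeGroup.map (Fin.castAdd n) r)) _ _ θ,
      Function.Injective f

/-- pinching -/
def T_GPI : Prop := ∀ (n : ℕ) (r : FreeGroup (Fin n)) (j : Fin n) (J : Set (Fin n))
  (w : FreeGroup (Fin n)), j ∈ J → w ∈ Ls J → w ≠ 1 → r ∈ Ls (Jᶜ ∪ {j}) →
  ¬ IsOfFinOrder (gl r j) → Good (OR r) → Good (OR (sb j w r))

/-- two occurrences with opposite exponents -/
def T_OPP : Prop := ∀ (n : ℕ) (j : Fin n) (u v : FreeGroup (Fin n)), u ∈ Ls {j}ᶜ →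
  v ∈ Ls {j}ᶜ → u ≠ 1 → v ≠ 1 → Good (OR (FreeGroup.of j * u * (FreeGroup.of j)⁻¹ * v))

/-- two occurrences with equal exponents -/
def T_SAM : Prop := ∀ (n : ℕ) (j : Fin n) (u v : FreeGroup (Fin n)), u ∈ Ls {j}ᶜ →
  v ∈ Ls {j}ᶜ → u ≠ v → Good (OR (FreeGroup.of j * u * FreeGroup.of j * v))

def T_REL : Prop := ∀ (n : ℕ) (r : FreeGroup (Fin n)), Rel n r → Good (OR r)

def T_GHA : Prop := ∀ (G : Type) [Group G] [Countable G], Good G → HasHaagerup G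

/-- all relators of the class, and all subgroups -/
def T_FIN : Prop := ∀ (n : ℕ) (r : FreeGroup (Fin n)), Rel n r →
  ∀ (G : Type) [Group G] (f : G →* OR r), Function.Injective f → HasHaagerup G

end

end HGQ
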